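import Pool.Agent.Run7.h32.Tu.LH
import Pool.Agent.Run7.h969.Dz.Reg

/-!
The dyadic model on a tree without force: higher regularity and smoothing.
-/

set_option autoImplicit false

open Set Filter Topology

namespace Pool.Agent.Run7.h32.Tu

open Run7.h969.Dy (pow_mul_nat)
open Run7.h969.Dz (decay2 small_ev exp_beats)
open Pool.Agent.Run7.h32.Tr

variable {D : ℕ} {β ν : ℝ} {x : Nd D → ℝ} {X : Nd D → ℝ → ℝ}

/-- One step of the recursion. -/
theorem step2 {P M : ℝ} (hν : 0 < ν) (hX : Sol0 β ν x X) (i : Fin D) (p : Nd D)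
    (hsmall : ∀ t, 0 ≤ t → ((2 : ℝ) ^ β) ^ (p.length + 1) * |ch (fun k => X k t) (i :: p)|
      ≤ ν / 2 * 4 ^ (p.length + 1))
    (hP : ∀ t, 0 ≤ t → ((2 : ℝ) ^ β) ^ p.length * X p t ^ 2 ≤ ν / 2 * 4 ^ (p.length + 1) * P)
    (hP0 : 0 ≤ P) (hM : 0 ≤ M) (h0 : |X (i :: p) 0| ≤ P + M) :
    ∀ t, 0 ≤ t → |X (i :: p) t| ≤ P + M * Real.exp (-(ν / 2 * 4 ^ (p.length + 1) * t)) := by
  intro t ht
  have hB0 : (0 : ℝ) < 2 ^ β := Real.rpow_pos_of_pos two_pos _
  refine decay2 (f := X (i :: p)) (g := fun s => ((2 : ℝ) ^ β) ^ p.length * X p s ^ 2)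
    (a := fun s => ((2 : ℝ) ^ β) ^ (p.length + 1) * ch (fun k => X k s) (i :: p)
      + ν * 4 ^ (p.length + 1)) (T := t)
    (fun s hs => ?_) ?_ (fun s hs => by positivity) (fun s hs => hP s hs.1) (fun s hs => ?_)
    (by positivity) hP0 hM h0 t ⟨ht, le_rfl⟩
  · refine ((hX.ode (i :: p) s hs.1).mono fun r hr => hr.1).congr_deriv ?_
    show (2 : ℝ) ^ (β * (p.length : ℝ)) * X p s ^ 2
        - (2 : ℝ) ^ (β * ((i :: p).length : ℝ)) * (X (i :: p) s * ch (fun k => X k s) (i :: p))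
        - ν * 4 ^ (i :: p).length * X (i :: p) s + 0 = _
    rw [List.length_cons, pow_mul_nat, pow_mul_nat]
    ring
  · exact (continuousOn_const.mul (ch_cont (fun j => hX.cont j) _)).add continuousOn_const
  · have h1 := hsmall s hs.1
    have h2 : ((2 : ℝ) ^ β) ^ (p.length + 1) * -|ch (fun k => X k s) (i :: p)|
        ≤ ((2 : ℝ) ^ β) ^ (p.length + 1) * ch (fun k => X k s) (i :: p) :=
      mul_le_mul_of_nonneg_left (neg_abs_le _) (by positivity)
    linarith

/-- the sum over the children -/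
lemma ch_abs_le {C q : ℝ} {y : Nd D → ℝ} (h : ∀ j : Nd D, |y j| ≤ C / q ^ j.length) (j : Nd D) :
    |ch y j| ≤ D * (C / q ^ (j.length + 1)) := by
  refine (Finset.abs_sum_le_sum_abs _ _).trans ?_
  have h3 : ∑ i : Fin D, |y (i :: j)| ≤ ∑ _i : Fin D, C / q ^ (j.length + 1) :=
    Finset.sum_le_sum fun i _ => by
      have := h (i :: j)
      rwa [List.length_cons] at this
  rwa [Finset.sum_const, Finset.card_univ, Fintype.card_fin, nsmul_eq_mul] at h3

/-- Higher regularity is preserved. -/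
theorem stmD {s C r K : ℝ} (hν : 0 < ν) (hs : β - 2 < s) (hX : Sol0 β ν x X)
    (hXs : ∀ (j : Nd D) t, 0 ≤ t → (2 : ℝ) ^ (s * j.length) * |X j t| ≤ C)
    (hK : ∀ j : Nd D, (2 : ℝ) ^ (r * j.length) * |x j| ≤ K) :
    ∃ C' : ℝ, ∀ (j : Nd D) t, 0 ≤ t → (2 : ℝ) ^ (r * j.length) * |X j t| ≤ C' := by
  obtain ⟨B, hB⟩ : ∃ B : ℝ, B = 2 ^ β := ⟨_, rfl⟩
  obtain ⟨q, hq⟩ : ∃ q : ℝ, q = 2 ^ s := ⟨_, rfl⟩
  obtain ⟨R, hR⟩ : ∃ R : ℝ, R = 2 ^ r := ⟨_, rfl⟩
  have hB0 : 0 < B := by rw [hB]; exact Real.rpow_pos_of_pos two_pos _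
  have hq0 : 0 < q := by rw [hq]; exact Real.rpow_pos_of_pos two_pos _
  have hR0 : 0 < R := by rw [hR]; exact Real.rpow_pos_of_pos two_pos _
  have hC0 : 0 ≤ C := by
    have h1 := hXs [] 0 le_rfl
    simp only [List.length_nil, Nat.cast_zero, mul_zero, Real.rpow_zero, one_mul] at h1
    exact (abs_nonneg _).trans h1
  have hXs' : ∀ (n : Nd D) t, 0 ≤ t → |X n t| ≤ C / q ^ n.length := by
    intro n t ht
    have := hXs n t ht
    rw [pow_mul_nat, ← hq] at this
    rw [le_div_iff₀ (by positivity), mul_comm]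
    exact this
  have hK' : ∀ n : Nd D, R ^ n.length * |x n| ≤ K := by
    intro n
    have := hK n
    rwa [pow_mul_nat, ← hR] at this
  obtain ⟨n₁, hn₁⟩ := small_ev (β := β) hν hs hC0 (D / q)
  obtain ⟨n₂, hn₂⟩ := small_ev (β := β) hν hs hC0 (R / 4)
  rw [← hB, ← hq] at hn₁ hn₂
  obtain ⟨n₀, hn₀⟩ : ∃ n₀, n₀ = max n₁ n₂ := ⟨_, rfl⟩
  -- the constant
  obtain ⟨C', hC'⟩ : ∃ C', C' = max K (∑ n ∈ Finset.range (n₀ + 1), R ^ n * (C / q ^ n)) := ⟨_, rfl⟩
  have hsmall : ∀ n : Nd D, n.length ≤ n₀ → ∀ t, 0 ≤ t → R ^ n.length * |X n t| ≤ C' := by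
    intro n hn t ht
    have h1 : R ^ n.length * (C / q ^ n.length)
        ≤ ∑ n ∈ Finset.range (n₀ + 1), R ^ n * (C / q ^ n) :=
      Finset.single_le_sum (f := fun n => R ^ n * (C / q ^ n)) (fun n _ => by positivity)
        (Finset.mem_range.2 (by omega))
    rw [hC']
    exact (mul_le_mul_of_nonneg_left (hXs' n t ht) (by positivity)).trans
      (h1.trans (le_max_right _ _))
  have hall : ∀ n : Nd D, ∀ t, 0 ≤ t → R ^ n.length * |X n t| ≤ C' := by
    intro n
    induction n with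
    | nil => exact hsmall [] (Nat.zero_le _)
    | cons i p ih =>
      by_cases hn : (i :: p).length ≤ n₀
      · exact hsmall _ hn
      · intro t ht
        obtain ⟨m, hm⟩ : ∃ m, m = p.length := ⟨_, rfl⟩
        rw [List.length_cons, ← hm] at hn
        rw [← hm] at ih
        have hnn₁ : n₁ ≤ m := by
          have := le_max_left n₁ n₂
          omega
        have hnn₂ : n₂ ≤ m := by
          have := le_max_right n₁ n₂
          omega
        have hC'0 : 0 ≤ C' := (mul_nonneg (by positivity) (abs_nonneg _)).trans (ih 0 le_rfl)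
        have hstep := step2 hν hX i p (P := C' / R ^ (m + 1)) (M := 0) (fun τ hτ => ?_)
          (fun τ hτ => ?_) (by positivity) le_rfl ?_ t ht
        · rw [zero_mul, add_zero, le_div_iff₀ (by positivity), mul_comm] at hstep
          rw [List.length_cons, ← hm]
          exact hstep
        · have h1 := hn₁ (m + 1) (by omega)
          rw [← hB, ← hm]
          have h5 := ch_abs_le (y := fun k => X k τ) (fun j => hXs' j τ hτ) (i :: p)
          rw [List.length_cons, ← hm] at h5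
          calc B ^ (m + 1) * |ch (fun k => X k τ) (i :: p)|
              ≤ B ^ (m + 1) * (D * (C / q ^ (m + 1 + 1))) :=
                mul_le_mul_of_nonneg_left h5 (by positivity)
            _ = B ^ (m + 1) * (C / q ^ (m + 1)) * (D / q) := by
                field_simp
                ring
            _ ≤ _ := h1.le
        · -- the source
          have h2 : |X p τ| ≤ C' / R ^ m := by
            rw [le_div_iff₀ (by positivity), mul_comm]
            exact ih τ hτ
          have h6 := hXs' p τ hτ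
          rw [← hm] at h6
          have h3 : X p τ ^ 2 ≤ (C / q ^ m) * (C' / R ^ m) := by
            rw [← sq_abs, sq]
            exact mul_le_mul h6 h2 (abs_nonneg _) (by positivity)
          have h4 := hn₂ m hnn₂
          rw [← hB, ← hm]
          calc B ^ m * X p τ ^ 2 ≤ B ^ m * ((C / q ^ m) * (C' / R ^ m)) :=
                mul_le_mul_of_nonneg_left h3 (by positivity)
            _ = (B ^ m * (C / q ^ m) * (R / 4)) * (4 * (C' / R ^ (m + 1))) := by
                field_simp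
                ring
            _ ≤ (ν / 2 * 4 ^ m) * (4 * (C' / R ^ (m + 1))) :=
                mul_le_mul_of_nonneg_right h4.le (by positivity)
            _ = _ := by ring
        · rw [hX.init, add_zero, le_div_iff₀ (by positivity), mul_comm]
          have h7 := hK' (i :: p)
          rw [List.length_cons, ← hm] at h7
          exact h7.trans (by rw [hC']; exact le_max_left _ _)
  refine ⟨C', fun n t ht => ?_⟩
  rw [pow_mul_nat, ← hR]
  exact hall n t ht

/-- One step of the smoothing. -/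
theorem smooth_step {s e C δ : ℝ} (hν : 0 < ν)
    (hX : Sol0 β ν x X) (hs : β - 2 < s) (hδ : 0 < δ) (he0 : 0 ≤ e)
    (he : β - 2 + e ≤ s)
    (h : ∀ (n : Nd D) t, 0 ≤ t → (2 : ℝ) ^ (s * n.length) * |X n t| ≤ C) :
    ∃ C' : ℝ, ∀ (n : Nd D) t, δ ≤ t → (2 : ℝ) ^ ((s + e) * n.length) * |X n t| ≤ C' := by
  obtain ⟨B, hB⟩ : ∃ B : ℝ, B = 2 ^ β := ⟨_, rfl⟩
  obtain ⟨q, hq⟩ : ∃ q : ℝ, q = 2 ^ s := ⟨_, rfl⟩
  obtain ⟨p, hp⟩ : ∃ p : ℝ, p = 2 ^ e := ⟨_, rfl⟩
  have hB0 : 0 < B := by rw [hB]; exact Real.rpow_pos_of_pos two_pos _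
  have hq0 : 0 < q := by rw [hq]; exact Real.rpow_pos_of_pos two_pos _
  have hp0 : 0 < p := by rw [hp]; exact Real.rpow_pos_of_pos two_pos _
  have hp1 : 1 ≤ p := by rw [hp]; exact Real.one_le_rpow (by norm_num) he0
  have hBpq : B * p ≤ 4 * q := by
    rw [hB, hp, hq]
    have h1 : (4 : ℝ) * 2 ^ s = 2 ^ (2 + s) := by
      rw [Real.rpow_add two_pos]
      norm_num
    rw [h1, ← Real.rpow_add two_pos]
    exact Real.rpow_le_rpow_of_exponent_le (by norm_num) (by linarith)
  have hC0 : 0 ≤ C := by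
    have h1 := h [] 0 le_rfl
    simp only [List.length_nil, Nat.cast_zero, mul_zero, Real.rpow_zero, one_mul] at h1
    exact (abs_nonneg _).trans h1
  have h' : ∀ (n : Nd D) t, 0 ≤ t → |X n t| ≤ C / q ^ n.length := by
    intro n t ht
    have := h n t ht
    rw [pow_mul_nat, ← hq] at this
    rw [le_div_iff₀ (by positivity), mul_comm]
    exact this
  obtain ⟨n₀, hn₀⟩ := small_ev (β := β) hν hs hC0 (D / q)
  rw [← hB, ← hq] at hn₀
  obtain ⟨A, hA0, hA'⟩ := exp_beats (ν := ν / 2) (by positivity) hδ hp0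
  obtain ⟨M, hM⟩ : ∃ M, M = p * q * C ^ 2 / (2 * ν) := ⟨_, rfl⟩
  have hM0 : 0 ≤ M := by rw [hM]; positivity
  refine ⟨M + C * A + C * p ^ n₀, fun n t ht => ?_⟩
  rw [pow_mul_nat, Real.rpow_add two_pos, ← hq, ← hp]
  have hCp : 0 ≤ C * p ^ n₀ := by positivity
  have hCA : 0 ≤ C * A := by positivity
  by_cases hn : n.length ≤ n₀
  · have h1 : (q * p) ^ n.length * |X n t| ≤ (q * p) ^ n.length * (C / q ^ n.length) :=
      mul_le_mul_of_nonneg_left (h' n t (by linarith)) (by positivity)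
    have h2 : (q * p) ^ n.length * (C / q ^ n.length) = C * p ^ n.length := by
      rw [mul_pow]
      field_simp
    have h3 : C * p ^ n.length ≤ C * p ^ n₀ :=
      mul_le_mul_of_nonneg_left (pow_le_pow_right₀ hp1 hn) hC0
    linarith
  · cases n with
    | nil =>
      rw [List.length_nil] at hn
      omega
    | cons i k =>
    obtain ⟨m, hm⟩ : ∃ m, m = k.length := ⟨_, rfl⟩
    rw [List.length_cons, ← hm] at hn ⊢
    have hstep := step2 hν hX i k (P := M / (q * p) ^ (m + 1)) (M := C / q ^ (m + 1))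
      (fun τ hτ => ?_) (fun τ hτ => ?_) (by positivity) (by positivity) ?_ t (by linarith)
    · rw [← hm] at hstep
      have h1 : C / q ^ (m + 1) * Real.exp (-(ν / 2 * 4 ^ (m + 1) * t))
          ≤ C / q ^ (m + 1) * Real.exp (-(ν / 2 * 4 ^ (m + 1) * δ)) := by
        apply mul_le_mul_of_nonneg_left _ (by positivity)
        apply Real.exp_le_exp.2
        have h2 : ν / 2 * 4 ^ (m + 1) * δ ≤ ν / 2 * 4 ^ (m + 1) * t :=
          mul_le_mul_of_nonneg_left ht (by positivity)
        linarith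
      have h2 : |X (i :: k) t| ≤ M / (q * p) ^ (m + 1)
          + C / q ^ (m + 1) * Real.exp (-(ν / 2 * 4 ^ (m + 1) * δ)) := by linarith
      calc (q * p) ^ (m + 1) * |X (i :: k) t| ≤ (q * p) ^ (m + 1) * (M / (q * p) ^ (m + 1)
          + C / q ^ (m + 1) * Real.exp (-(ν / 2 * 4 ^ (m + 1) * δ))) :=
            mul_le_mul_of_nonneg_left h2 (by positivity)
        _ = M + C * (p ^ (m + 1) * Real.exp (-(ν / 2 * 4 ^ (m + 1) * δ))) := by
            rw [mul_pow]
            field_simp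
        _ ≤ M + C * A + C * p ^ n₀ := by
            have := mul_le_mul_of_nonneg_left (hA' (m + 1)) hC0
            linarith
    · have h1 := hn₀ (m + 1) (by omega)
      rw [← hB, ← hm]
      have h5 := ch_abs_le (y := fun k => X k τ) (fun j => h' j τ hτ) (i :: k)
      rw [List.length_cons, ← hm] at h5
      calc B ^ (m + 1) * |ch (fun k => X k τ) (i :: k)|
          ≤ B ^ (m + 1) * (D * (C / q ^ (m + 1 + 1))) :=
            mul_le_mul_of_nonneg_left h5 (by positivity)
        _ = B ^ (m + 1) * (C / q ^ (m + 1)) * (D / q) := by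
            field_simp
            ring
        _ ≤ _ := h1.le
    · -- the source
      have h6 := h' k τ hτ
      rw [← hm] at h6
      have h2 : X k τ ^ 2 ≤ (C / q ^ m) ^ 2 := by
        rw [← sq_abs]
        exact pow_le_pow_left₀ (abs_nonneg _) h6 2
      have h3 : (B * p) ^ m ≤ (4 * q) ^ m := pow_le_pow_left₀ (by positivity) hBpq m
      rw [← hB, ← hm]
      calc B ^ m * X k τ ^ 2 ≤ B ^ m * (C / q ^ m) ^ 2 :=
            mul_le_mul_of_nonneg_left h2 (by positivity)
        _ = (B * p) ^ m * (C ^ 2 / (p ^ m * (q ^ m) ^ 2)) := by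
            rw [mul_pow, div_pow]
            field_simp
        _ ≤ (4 * q) ^ m * (C ^ 2 / (p ^ m * (q ^ m) ^ 2)) :=
            mul_le_mul_of_nonneg_right h3 (by positivity)
        _ = ν / 2 * 4 ^ (m + 1) * (M / (q * p) ^ (m + 1)) := by
            rw [hM, mul_pow, mul_pow]
            field_simp
            ring
    · have h1 := h' (i :: k) 0 le_rfl
      rw [List.length_cons, ← hm] at h1
      have h2 : 0 ≤ M / (q * p) ^ (m + 1) := by positivity
      linarith

/-- The solution started at the time `a`. -/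
lemma shift0 (hX : Sol0 β ν x X) {a : ℝ} (ha : 0 ≤ a) :
    Sol0 β ν (fun j => X j a) (fun j t => X j (a + t)) := by
  refine ⟨fun j => by rw [add_zero], fun j t ht => ?_⟩
  have h1 := hX.ode j (a + t) (by linarith)
  have h2 : HasDerivWithinAt (fun t => a + t) 1 (Ici 0) t := by
    simpa using (hasDerivWithinAt_id t (Ici (0 : ℝ))).const_add a
  have h3 := HasDerivWithinAt.scomp t h1 h2 (fun r hr => by
    show (0 : ℝ) ≤ a + r
    have : (0 : ℝ) ≤ r := hr
    linarith)
  refine h3.congr_deriv ?_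
  rw [one_smul]

/-- Smoothing. -/
theorem stmS {s C : ℝ} (hν : 0 < ν) (hs : β - 2 < s) (hX : Sol0 β ν x X)
    (hXs : ∀ (j : Nd D) t, 0 ≤ t → (2 : ℝ) ^ (s * j.length) * |X j t| ≤ C) {τ : ℝ} (r : ℝ)
    (hτ : 0 < τ) :
    ∃ C' : ℝ, ∀ (j : Nd D) t, τ ≤ t → (2 : ℝ) ^ (r * j.length) * |X j t| ≤ C' := by
  obtain ⟨e, he⟩ : ∃ e, e = s - (β - 2) := ⟨_, rfl⟩
  have he0 : 0 < e := by rw [he]; linarith
  obtain ⟨k, hk⟩ := exists_nat_gt ((r - s) / e)
  rw [div_lt_iff₀ he0] at hk
  have hτk : 0 < τ / (k + 1) := by positivity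
  have hall : ∀ j : ℕ, ∃ C' : ℝ, ∀ (n : Nd D) t, (j : ℝ) * (τ / (k + 1)) ≤ t →
      (2 : ℝ) ^ ((s + j * e) * n.length) * |X n t| ≤ C' := by
    intro j
    induction j with
    | zero =>
      refine ⟨C, fun n t ht => ?_⟩
      simp only [Nat.cast_zero, zero_mul, add_zero] at ht ⊢
      exact hXs n t ht
    | succ j ih =>
      obtain ⟨C₁, hC₁⟩ := ih
      have hj : (0 : ℝ) ≤ (j : ℝ) * e := by positivity
      -- the solution started at the time `j τ / (k + 1)`
      obtain ⟨a, ha⟩ : ∃ a : ℝ, a = (j : ℝ) * (τ / (k + 1)) := ⟨_, rfl⟩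
      have ha0 : 0 ≤ a := by rw [ha]; positivity
      obtain ⟨C', hC'⟩ := smooth_step hν (shift0 hX ha0) (s := s + j * e) (e := e) (C := C₁)
        (by linarith)
        hτk he0.le (by linarith) (fun n t ht => hC₁ n (a + t) (by rw [← ha]; linarith))
      refine ⟨C', fun n t ht => ?_⟩
      have h1 := hC' n (t - a) (by rw [ha]; push_cast at ht; linarith)
      rw [add_sub_cancel] at h1
      have h2 : s + ((j + 1 : ℕ) : ℝ) * e = s + j * e + e := by
        push_cast
        ring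
      rw [h2]
      exact h1
  obtain ⟨C', hC'⟩ := hall k
  refine ⟨C', fun n t ht => ?_⟩
  have h1 := hC' n t (by
    refine le_trans ?_ ht
    rw [mul_div_assoc', div_le_iff₀ (by positivity)]
    nlinarith)
  have h2 : (2 : ℝ) ^ (r * n.length) ≤ (2 : ℝ) ^ ((s + k * e) * n.length) := by
    apply Real.rpow_le_rpow_of_exponent_le (by norm_num)
    apply mul_le_mul_of_nonneg_right _ (Nat.cast_nonneg _)
    linarith
  exact (mul_le_mul_of_nonneg_right h2 (abs_nonneg _)).trans h1

end Pool.Agent.Run7.h32.Tu
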