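import Pool.Agent.Run7.h32.Tu.Blow2
import Pool.Agent.Run7.h32.Tu.Reg

/-!
The dyadic model on a tree without force: for `β > 3 + log₂ D / 2` the large multiples of every
nonzero real datum blow up.
-/

set_option autoImplicit false

open Set Filter Topology MeasureTheory

namespace Pool.Agent.Run7.h32.Tu

open Run7.h969.Dy (pow_mul_nat)
open Pool.Agent.Run7.h32.Tr

variable {D : ℕ} {β ν : ℝ}

/-- the differential inequality of the moment -/
lemma diff_ineq {B R ω c G C W σ : ℝ} (hν : 0 < ν) (hB : B = 2 ^ β) (hω0 : 0 < ω)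
    (hR0 : 0 < R) (hc : c = 1 / 2 * (D * ω - 1 / (ω ^ 2 * B))) (hc0 : 0 < c)
    (h16 : D * (16 * ω / B) < 1) (hG : G = 1 / (1 - D * (16 * ω / B)))
    (hW : W = D * ω * C ^ 2 + 1 / (2 * ω ^ 2 * B) * C ^ 2) (hσ : σ = ω * B * D / R ^ 2)
    (hσ0 : 0 ≤ σ) (hσ1 : σ < 1) {y : Nd D → ℝ} (hy : ∀ j, |y j| ≤ C / R ^ j.length) {N : ℕ}
    (hN : W * σ ^ N ≤ 1) :
    c / 2 * ∑ j ∈ tre D N, (ω * B) ^ j.length * y j ^ 2 - (ν ^ 2 * G / (2 * c) + 1)
      ≤ ∑ j ∈ tre D N, ω ^ j.length * trhs β ν y j := by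
  have hB0 : 0 < B := by rw [hB]; exact Real.rpow_pos_of_pos two_pos _
  have hlev : ∀ (N : ℕ), (ω * B) ^ N * ∑ j ∈ lev D N, y j ^ 2 ≤ C ^ 2 * σ ^ N := by
    intro N
    have h1 : ∑ j ∈ lev D N, y j ^ 2 ≤ ∑ _j ∈ lev D N, (C / R ^ N) ^ 2 * 1 := by
      refine Finset.sum_le_sum fun j hj => ?_
      have h2 := hy j
      rw [mem_lev.1 hj] at h2
      rw [← sq_abs, mul_one]
      exact pow_le_pow_left₀ (abs_nonneg _) h2 2
    rw [← Finset.mul_sum, card_lev] at h1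
    refine (mul_le_mul_of_nonneg_left h1 (by positivity)).trans (le_of_eq ?_)
    rw [hσ, div_pow, div_pow, mul_pow (ω * B) (D : ℝ) N, ← pow_mul, ← pow_mul, mul_comm N 2]
    field_simp
  have h1 := moment (ν := ν) hB hω0 y N
  rw [← hc] at h1
  have h2 := hlev N
  have h3 := hlev (N + 1)
  have h4 : C ^ 2 * σ ^ (N + 1) ≤ C ^ 2 * σ ^ N :=
    mul_le_mul_of_nonneg_left (pow_le_pow_of_le_one hσ0 hσ1.le (Nat.le_succ N)) (sq_nonneg _)
  have h5 := mul_le_mul_of_nonneg_left h2 (by positivity : 0 ≤ D * ω)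
  have h6 := mul_le_mul_of_nonneg_left (h3.trans h4) (by positivity : 0 ≤ 1 / (2 * ω ^ 2 * B))
  have h7 : D * ω * (C ^ 2 * σ ^ N) + 1 / (2 * ω ^ 2 * B) * (C ^ 2 * σ ^ N) = W * σ ^ N := by
    rw [hW]
    ring
  have h8 : ν * ∑ j ∈ tre D N, (4 * ω) ^ j.length * y j
      ≤ c / 2 * ∑ j ∈ tre D N, (ω * B) ^ j.length * y j ^ 2 + ν ^ 2 * G / (2 * c) := by
    have i1 : ν * ∑ j ∈ tre D N, (4 * ω) ^ j.length * y j
        ≤ ∑ j ∈ tre D N, (c / 2 * ((ω * B) ^ j.length * y j ^ 2)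
          + ν ^ 2 / (2 * c) * (16 * ω / B) ^ j.length) := by
      rw [Finset.mul_sum]
      refine Finset.sum_le_sum fun j _ => ?_
      obtain ⟨a, ha⟩ : ∃ a, a = (ω * B) ^ j.length := ⟨_, rfl⟩
      obtain ⟨b, hb⟩ : ∃ b, b = (16 * ω / B) ^ j.length := ⟨_, rfl⟩
      obtain ⟨e, he⟩ : ∃ e, e = (4 * ω) ^ j.length := ⟨_, rfl⟩
      have ha0 : 0 < a := by rw [ha]; positivity
      have hab : a * b = e ^ 2 := by
        rw [ha, hb, he, ← mul_pow, ← pow_mul, mul_comm j.length 2, pow_mul]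
        congr 1
        field_simp
        norm_num
      rw [← ha, ← hb, ← he]
      have i2 : c / 2 * (a * y j ^ 2) + ν ^ 2 / (2 * c) * b - ν * (e * y j)
          = 1 / (2 * c * a) * (c * a * y j - ν * e) ^ 2 := by
        have hb' : b = e ^ 2 / a := by
          rw [eq_div_iff ha0.ne']
          linarith
        rw [hb']
        field_simp
        ring
      have i3 : 0 ≤ 1 / (2 * c * a) * (c * a * y j - ν * e) ^ 2 := by positivity
      linarith
    have i4 := sum_tre_pow (D := D) (a := 16 * ω / B) (by positivity) h16 N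
    rw [← hG] at i4
    rw [Finset.sum_add_distrib, ← Finset.mul_sum, ← Finset.mul_sum] at i1
    have i5 := mul_le_mul_of_nonneg_left i4 (by positivity : 0 ≤ ν ^ 2 / (2 * c))
    have i6 : ν ^ 2 / (2 * c) * G = ν ^ 2 * G / (2 * c) := by ring
    linarith
  linarith

/-- the square of the moment -/
lemma sq_ineq {B ω G : ℝ} (hB0 : 0 < B) (hω0 : 0 < ω) (h16 : D * (16 * ω / B) < 1)
    (hG : G = 1 / (1 - D * (16 * ω / B))) (y : Nd D → ℝ) (N : ℕ) :
    (∑ j ∈ tre D N, ω ^ j.length * y j) ^ 2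
      ≤ (∑ j ∈ tre D N, (ω * B) ^ j.length * y j ^ 2) * G := by
  have h2 : D * (ω / B) ≤ D * (16 * ω / B) := by
    apply mul_le_mul_of_nonneg_left _ (Nat.cast_nonneg D)
    exact div_le_div_of_nonneg_right (by linarith) hB0.le
  have i1 := Finset.sum_sq_le_sum_mul_sum_of_sq_le_mul (tre D N)
    (r := fun j : Nd D => ω ^ j.length * y j) (f := fun j => (ω * B) ^ j.length * y j ^ 2)
    (g := fun j => (ω / B) ^ j.length) (fun j _ => by positivity) (fun j _ => by positivity)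
    (fun j _ => le_of_eq (by
      rw [mul_pow, mul_pow, div_pow]
      field_simp))
  refine i1.trans (mul_le_mul_of_nonneg_left ?_ (Finset.sum_nonneg fun j _ => by positivity))
  refine (sum_tre_pow (by positivity) (by linarith) N).trans ?_
  rw [hG]
  apply one_div_le_one_div_of_le (by linarith)
  linarith

/-- the flux -/
lemma flux_bd {B R C : ℝ} (hB : B = 2 ^ β) (hR0 : 0 < R) {y : Nd D → ℝ}
    (hy : ∀ j, |y j| ≤ C / R ^ j.length) (N : ℕ) :
    |∑ j ∈ lev D N, (2 : ℝ) ^ (β * N) * (y j ^ 2 * ch y j)|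
      ≤ D * C ^ 3 / R * (B * D / R ^ 3) ^ N := by
  have hB0 : 0 < B := by rw [hB]; exact Real.rpow_pos_of_pos two_pos _
  refine (Finset.abs_sum_le_sum_abs _ _).trans ?_
  have h1 : ∑ j ∈ lev D N, |(2 : ℝ) ^ (β * N) * (y j ^ 2 * ch y j)|
      ≤ ∑ _j ∈ lev D N, B ^ N * ((C / R ^ N) ^ 2 * (D * (C / R ^ (N + 1)))) * 1 := by
    refine Finset.sum_le_sum fun j hj => ?_
    have hj' := mem_lev.1 hj
    rw [pow_mul_nat, ← hB, abs_mul, abs_of_pos (by positivity : 0 < B ^ N), abs_mul, abs_pow, mul_one]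
    have h2 := hy j
    have h3 := ch_abs_le hy j
    rw [hj'] at h2 h3
    have h4 := pow_le_pow_left₀ (abs_nonneg _) h2 2
    exact mul_le_mul_of_nonneg_left (mul_le_mul h4 h3 (abs_nonneg _) (by positivity)) (by positivity)
  rw [← Finset.mul_sum, card_lev] at h1
  refine h1.trans (le_of_eq ?_)
  have e1 : (R ^ 3) ^ N = (R ^ N) ^ 2 * R ^ N := by
    rw [← pow_mul, ← pow_mul, ← pow_add]
    congr 1
    ring
  rw [div_pow, div_pow, mul_pow, pow_succ, e1]
  field_simp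
  ring

set_option maxHeartbeats 1000000 in
/-- **Blow-up** of the large multiples of every nonzero real datum. -/
theorem blow3 {s T : ℝ} (hD : 0 < D) (hν : 0 < ν) (hβ : D * 64 < ((2 : ℝ) ^ β) ^ 2)
    (hs : D * 2 ^ β < ((2 : ℝ) ^ s) ^ 3) (hT : 0 < T) {x : Nd D → ℝ} {j₀ : Nd D} (hx : x j₀ ≠ 0) :
    ∃ M₀ : ℝ, 0 < M₀ ∧ ∀ (M : ℝ) (X : Nd D → ℝ → ℝ), M₀ ≤ |M| → (∀ j, X j 0 = M * x j) →
      (∀ j, ∀ t ∈ Icc 0 T, HasDerivWithinAt (X j) (trhs β ν (fun k => X k t) j) (Icc 0 T) t) →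
      ¬ ∃ C, ∀ j : Nd D, ∀ t ∈ Icc 0 T, (2 : ℝ) ^ (s * j.length) * |X j t| ≤ C := by
  obtain ⟨ω, hω0, hω1, hi, hii, hs2⟩ := exists_om hD hβ hs
  have hD0 : (0 : ℝ) < D := by exact_mod_cast hD
  have hD1 : (1 : ℝ) ≤ D := by exact_mod_cast hD
  obtain ⟨B, hB⟩ : ∃ B : ℝ, B = 2 ^ β := ⟨_, rfl⟩
  have hB0 : 0 < B := by rw [hB]; exact Real.rpow_pos_of_pos two_pos _
  obtain ⟨R, hR⟩ : ∃ R : ℝ, R = 2 ^ s := ⟨_, rfl⟩
  have hR0 : 0 < R := by rw [hR]; exact Real.rpow_pos_of_pos two_pos _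
  rw [← hB] at hβ hi hii
  rw [← hB, ← hR] at hs hs2
  -- the constants
  obtain ⟨c, hc⟩ : ∃ c, c = 1 / 2 * (D * ω - 1 / (ω ^ 2 * B)) := ⟨_, rfl⟩
  have hc0 : 0 < c := by
    have h1 : 1 / (ω ^ 2 * B) < D * ω := by
      rw [div_lt_iff₀ (by positivity)]
      linarith
    rw [hc]
    linarith
  obtain ⟨G, hG⟩ : ∃ G, G = 1 / (1 - D * (16 * ω / B)) := ⟨_, rfl⟩
  have h16 : D * (16 * ω / B) < 1 := by
    rw [mul_div_assoc', div_lt_one hB0]
    linarith
  have hG0 : 0 < G := by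
    rw [hG]
    exact div_pos one_pos (by linarith)
  have h4ωB : 4 ≤ ω * B := by
    by_contra h
    push Not at h
    have h1 : (ω * B) ^ 3 < 4 ^ 3 := pow_lt_pow_left₀ h (by positivity) three_ne_zero
    have h2 : (D * ω ^ 3 * B) * B ^ 2 = D * (ω * B) ^ 3 := by ring
    have h3 : 1 * B ^ 2 < (D * ω ^ 3 * B) * B ^ 2 := mul_lt_mul_of_pos_right hi (by positivity)
    have h4 : D * (ω * B) ^ 3 < D * 4 ^ 3 := mul_lt_mul_of_pos_left h1 hD0
    linarith
  obtain ⟨K₁, hK₁⟩ : ∃ K₁, K₁ = ν ^ 2 * G / (2 * c) + 1 := ⟨_, rfl⟩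
  have hK₁0 : 0 < K₁ := by rw [hK₁]; positivity
  obtain ⟨κ, hκ⟩ : ∃ κ, κ = c / (2 * G) := ⟨_, rfl⟩
  have hκ0 : 0 < κ := by rw [hκ]; positivity
  obtain ⟨T', hT'⟩ : ∃ T', T' = T / 2 := ⟨_, rfl⟩
  have hT'0 : 0 < T' := by rw [hT']; positivity
  have hT'T : T' < T := by rw [hT']; linarith
  obtain ⟨A, hA⟩ : ∃ A, A = 4 / (κ * T') + (4 * K₁ / κ + 1) := ⟨_, rfl⟩
  have hp1 : 0 < 4 / (κ * T') := by positivity
  have hp2 : 0 < 4 * K₁ / κ := by positivity
  have hA1 : 1 ≤ A := by rw [hA]; linarith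
  have hA0 : 0 < A := by linarith
  have hAT : 4 / (κ * A) ≤ T' := by
    have h1 : 4 / (κ * T') ≤ A := by rw [hA]; linarith
    rw [div_le_iff₀ (by positivity)] at h1 ⊢
    linarith
  have hAK : 4 * K₁ ≤ κ * A ^ 2 := by
    have h1 : 4 * K₁ / κ ≤ A := by rw [hA]; linarith
    rw [div_le_iff₀ hκ0] at h1
    have h2 : A * κ * 1 ≤ A * κ * A := mul_le_mul_of_nonneg_left hA1 (by positivity)
    linarith
  obtain ⟨θ, hθ⟩ : ∃ θ, θ = c / (4 * (ν + 1 / (2 * T'))) := ⟨_, rfl⟩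
  have hθ0 : 0 < θ := by rw [hθ]; positivity
  have hθc : 2 * ν * θ + θ / T' = c / 2 := by
    rw [hθ]
    field_simp
    ring
  obtain ⟨S, hS⟩ : ∃ S, S = ∑' j : Nd D, ω ^ j.length * |x j| := ⟨_, rfl⟩
  have hS0 : 0 ≤ S := by
    rw [hS]
    exact tsum_nonneg fun j => by positivity
  have hx2 : 0 < x j₀ ^ 2 := by positivity
  obtain ⟨P, hP⟩ : ∃ P, P = A + (K₁ + 1) * T' + S := ⟨_, rfl⟩
  have hP0 : 0 < P := by rw [hP]; positivity
  refine ⟨1 + P / (θ * x j₀ ^ 2), by positivity, fun M X hM hX0 hX hsm => ?_⟩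
  have hP1 : 0 < P / (θ * x j₀ ^ 2) := by positivity
  have hM1 : 1 ≤ |M| := by linarith
  have hM2 : A + (K₁ + 1) * T' + S * |M| ≤ θ * (M * x j₀) ^ 2 := by
    have h1 : P / (θ * x j₀ ^ 2) ≤ |M| := by linarith
    rw [div_le_iff₀ (by positivity)] at h1
    have h2 : P * |M| ≤ (|M| * (θ * x j₀ ^ 2)) * |M| := mul_le_mul_of_nonneg_right h1 (abs_nonneg _)
    have h3 : (|M| * (θ * x j₀ ^ 2)) * |M| = θ * (M * x j₀) ^ 2 := by
      rw [mul_pow, ← sq_abs M]
      ring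
    have h4 : (A + (K₁ + 1) * T') * 1 ≤ (A + (K₁ + 1) * T') * |M| :=
      mul_le_mul_of_nonneg_left hM1 (by positivity)
    rw [hP] at h2
    linarith
  -- the decay
  obtain ⟨C, hC⟩ := hsm
  have hXC : ∀ t ∈ Icc 0 T, ∀ j : Nd D, |X j t| ≤ C / R ^ j.length := by
    intro t ht j
    have h1 := hC j t ht
    rw [pow_mul_nat, ← hR] at h1
    rw [le_div_iff₀ (by positivity), mul_comm]
    exact h1
  have h0T : (0 : ℝ) ∈ Icc 0 T := ⟨le_rfl, hT.le⟩
  have hC0 : 0 ≤ C := by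
    have h1 := (abs_nonneg _).trans (hXC 0 h0T [])
    rwa [List.length_nil, pow_zero, div_one] at h1
  obtain ⟨σ, hσ⟩ : ∃ σ, σ = ω * B * D / R ^ 2 := ⟨_, rfl⟩
  have hσ0 : 0 < σ := by rw [hσ]; positivity
  have hσ1 : σ < 1 := by
    rw [hσ, div_lt_one (by positivity)]
    exact hs2
  obtain ⟨τ, hτ⟩ : ∃ τ, τ = B * D / R ^ 3 := ⟨_, rfl⟩
  have hτ0 : 0 < τ := by rw [hτ]; positivity
  have hτ1 : τ < 1 := by
    rw [hτ, div_lt_one (by positivity)]
    linarith
  obtain ⟨W, hW⟩ : ∃ W, W = D * ω * C ^ 2 + 1 / (2 * ω ^ 2 * B) * C ^ 2 := ⟨_, rfl⟩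
  obtain ⟨V, hV⟩ : ∃ V, V = D * C ^ 3 / R := ⟨_, rfl⟩
  obtain ⟨N, hN1, hN2, hN3⟩ : ∃ N : ℕ, W * σ ^ N ≤ 1 ∧ 2 * θ * (V * τ ^ N) ≤ 1 ∧ j₀.length ≤ N := by
    have h1 : Tendsto (fun N : ℕ => W * σ ^ N) atTop (𝓝 (W * 0)) :=
      (tendsto_pow_atTop_nhds_zero_of_lt_one hσ0.le hσ1).const_mul W
    have h2 : Tendsto (fun N : ℕ => 2 * θ * (V * τ ^ N)) atTop (𝓝 (2 * θ * (V * 0))) :=
      ((tendsto_pow_atTop_nhds_zero_of_lt_one hτ0.le hτ1).const_mul V).const_mul _
    rw [mul_zero] at h1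
    rw [mul_zero, mul_zero] at h2
    obtain ⟨N, hN, hN', hN''⟩ := ((h1.eventually (gt_mem_nhds one_pos)).and
      ((h2.eventually (gt_mem_nhds one_pos)).and (eventually_ge_atTop j₀.length))).exists
    exact ⟨N, hN.le, hN'.le, hN''⟩
  have hdiff : ∀ t ∈ Icc 0 T, c / 2 * ∑ j ∈ tre D N, (ω * B) ^ j.length * X j t ^ 2 - K₁
      ≤ ∑ j ∈ tre D N, ω ^ j.length * trhs β ν (fun k => X k t) j := by
    intro t ht
    rw [hK₁]
    exact diff_ineq hν hB hω0 hR0 hc hc0 h16 hG hW hσ hσ0.le hσ1 (y := fun k => X k t)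
      (hXC t ht) hN1
  have hFd : ∀ t ∈ Icc 0 T, HasDerivWithinAt (fun t => ∑ j ∈ tre D N, ω ^ j.length * X j t)
        (∑ j ∈ tre D N, ω ^ j.length * trhs β ν (fun k => X k t) j) (Icc 0 T) t := fun t ht =>
      HasDerivWithinAt.fun_sum fun j _ => (hX j t ht).const_mul _
  -- the first half of the interval
  have hhalf : A ≤ ∑ j ∈ tre D N, ω ^ j.length * X j T' := by
    have hEd : ∀ t ∈ Icc 0 T, HasDerivWithinAt (fun t => ∑ j ∈ tre D N, X j t ^ 2)
        (2 * ∑ j ∈ tre D N, X j t * trhs β ν (fun k => X k t) j) (Icc 0 T) t := by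
      intro t ht
      rw [Finset.mul_sum]
      refine HasDerivWithinAt.fun_sum fun j _ => ?_
      refine ((hX j t ht).fun_pow 2).congr_deriv ?_
      norm_num
      ring
    have hHd : ∀ t ∈ Icc 0 T, HasDerivWithinAt (fun t => (∑ j ∈ tre D N, ω ^ j.length * X j t
          + θ * (1 - t / T') * ∑ j ∈ tre D N, X j t ^ 2) + (K₁ + 1) * t)
        ((∑ j ∈ tre D N, ω ^ j.length * trhs β ν (fun k => X k t) j
          + (θ * (-(1 / T')) * ∑ j ∈ tre D N, X j t ^ 2
            + θ * (1 - t / T') * (2 * ∑ j ∈ tre D N, X j t * trhs β ν (fun k => X k t) j)))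
          + (K₁ + 1) * 1) (Icc 0 T) t := by
      intro t ht
      have h1 : HasDerivWithinAt (fun t : ℝ => θ * (1 - t / T')) (θ * (-(1 / T'))) (Icc 0 T) t :=
        (((hasDerivWithinAt_id t _).div_const T').const_sub 1).const_mul θ
      exact ((hFd t ht).fun_add (h1.fun_mul (hEd t ht))).fun_add
        ((hasDerivWithinAt_id t _).const_mul _)
    have hmono := monotoneOn_of_deriv_nonneg (convex_Icc (0 : ℝ) T')
      (f := fun t => (∑ j ∈ tre D N, ω ^ j.length * X j t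
          + θ * (1 - t / T') * ∑ j ∈ tre D N, X j t ^ 2) + (K₁ + 1) * t)
      (fun t ht => ((hHd t ⟨ht.1, ht.2.trans hT'T.le⟩).continuousWithinAt).mono
        (Icc_subset_Icc_right hT'T.le))
      (fun t ht => by
        rw [interior_Icc] at ht
        exact ((hHd t ⟨ht.1.le, ht.2.le.trans hT'T.le⟩).hasDerivAt
          (Icc_mem_nhds ht.1 (ht.2.trans hT'T))).differentiableAt.differentiableWithinAt)
      (fun t ht => ?_)
    · have h1 := hmono ⟨le_rfl, hT'0.le⟩ ⟨hT'0.le, le_rfl⟩ hT'0.le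
      simp only [zero_div, sub_zero, mul_one, mul_zero, add_zero, div_self hT'0.ne', sub_self,
        zero_mul, hX0] at h1
      -- the initial values
      have hsum : Summable fun j : Nd D => ω ^ j.length * |x j| := by
        have hωR : D * (ω / R) < 1 := by
          have h2 : (4 * (D * ω)) ^ 2 < R ^ 2 := by
            have h3 : D * ω * (16 * D * ω) < D * ω * B := mul_lt_mul_of_pos_left hii (by positivity)
            have h4 : (4 * (D * ω)) ^ 2 = D * ω * (16 * D * ω) := by ring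
            rw [h4]
            linarith
          have h3 : 4 * (D * ω) < R := lt_of_pow_lt_pow_left₀ 2 hR0.le h2
          rw [mul_div_assoc', div_lt_one hR0]
          have : 0 < D * ω := by positivity
          linarith
        refine (tsum_bdT (C := C * (1 / (1 - D * (ω / R)))) (fun j => by positivity) fun L => ?_).1
        have h2 : ∑ j ∈ tre D L, ω ^ j.length * |x j| ≤ ∑ j ∈ tre D L, C * (ω / R) ^ j.length := by
          refine Finset.sum_le_sum fun j _ => ?_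
          have h3 := hXC 0 h0T j
          rw [hX0, abs_mul] at h3
          have h4 : 1 * |x j| ≤ |M| * |x j| := mul_le_mul_of_nonneg_right hM1 (abs_nonneg _)
          have h5 : |x j| ≤ C / R ^ j.length := by linarith
          calc ω ^ j.length * |x j| ≤ ω ^ j.length * (C / R ^ j.length) :=
                mul_le_mul_of_nonneg_left h5 (by positivity)
            _ = C * (ω / R) ^ j.length := by rw [div_pow]; ring
        rw [← Finset.mul_sum] at h2
        exact h2.trans (mul_le_mul_of_nonneg_left (sum_tre_pow (by positivity) hωR L) hC0)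
      have h2 : -(S * |M|) ≤ ∑ j ∈ tre D N, ω ^ j.length * (M * x j) := by
        have h3 : ∑ j ∈ tre D N, ω ^ j.length * |x j| ≤ S := by
          rw [hS]
          exact hsum.sum_le_tsum _ fun j _ => by positivity
        have h4 : -(∑ j ∈ tre D N, ω ^ j.length * |x j| * |M|)
            ≤ ∑ j ∈ tre D N, ω ^ j.length * (M * x j) := by
          rw [← Finset.sum_neg_distrib]
          refine Finset.sum_le_sum fun j _ => ?_
          have h5 := neg_abs_le (M * x j)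
          rw [abs_mul] at h5
          have h6 := mul_le_mul_of_nonneg_left h5 (by positivity : 0 ≤ ω ^ j.length)
          linarith
        rw [← Finset.sum_mul] at h4
        have h5 := mul_le_mul_of_nonneg_right h3 (abs_nonneg M)
        linarith
      have h3 : (M * x j₀) ^ 2 ≤ ∑ j ∈ tre D N, (M * x j) ^ 2 :=
        Finset.single_le_sum (f := fun j => (M * x j) ^ 2) (fun j _ => sq_nonneg _)
          (mem_tre.2 hN3)
      have h4 := mul_le_mul_of_nonneg_left h3 hθ0.le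
      linarith
    · rw [interior_Icc] at ht
      have htT : t ∈ Icc 0 T := ⟨ht.1.le, ht.2.le.trans hT'T.le⟩
      rw [((hHd t htT).hasDerivAt (Icc_mem_nhds ht.1 (ht.2.trans hT'T))).deriv]
      have h1 := hdiff t htT
      have h2 := energy_sumT β ν (fun k => X k t) N
      have h3 := flux_bd hB hR0 (y := fun k => X k t) (hXC t htT) N
      rw [← hV, ← hτ] at h3
      have hq : ∀ a : ℝ, 0 ≤ a → a ≤ 4 → ∑ j ∈ tre D N, a ^ j.length * X j t ^ 2
          ≤ ∑ j ∈ tre D N, (ω * B) ^ j.length * X j t ^ 2 := fun a ha0 ha =>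
        Finset.sum_le_sum fun j _ => mul_le_mul_of_nonneg_right
          (pow_le_pow_left₀ ha0 (ha.trans h4ωB) _) (sq_nonneg _)
      have h4 := hq 4 (by norm_num) le_rfl
      have h5 := hq 1 (by norm_num) (by norm_num)
      simp only [one_pow, one_mul] at h5
      obtain ⟨Fl, hFl⟩ : ∃ Fl, Fl = ∑ j ∈ lev D N, (2 : ℝ) ^ (β * N) * (X j t ^ 2
        * ch (fun k => X k t) j) := ⟨_, rfl⟩
      obtain ⟨Q, hQ⟩ : ∃ Q, Q = ∑ j ∈ tre D N, (ω * B) ^ j.length * X j t ^ 2 := ⟨_, rfl⟩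
      obtain ⟨P4, hP4⟩ : ∃ P4, P4 = ∑ j ∈ tre D N, (4 : ℝ) ^ j.length * X j t ^ 2 := ⟨_, rfl⟩
      obtain ⟨E, hE⟩ : ∃ E, E = ∑ j ∈ tre D N, X j t ^ 2 := ⟨_, rfl⟩
      rw [← hFl] at h2 h3
      rw [← hP4] at h2 h4
      rw [← hQ] at h1 h4 h5
      rw [← hE] at h5 ⊢
      rw [h2]
      have hE0 : 0 ≤ E := by rw [hE]; exact Finset.sum_nonneg fun j _ => sq_nonneg _
      have hP40 : 0 ≤ P4 := by rw [hP4]; exact Finset.sum_nonneg fun j _ => by positivity
      obtain ⟨l, hl⟩ : ∃ l, l = 1 - t / T' := ⟨_, rfl⟩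
      have hl0 : 0 ≤ l := by
        rw [hl, sub_nonneg, div_le_one hT'0]
        exact ht.2.le
      have hl1 : l ≤ 1 := by
        rw [hl]
        have : 0 ≤ t / T' := div_nonneg ht.1.le hT'0.le
        linarith
      rw [← hl]
      have h6 : θ * l * Fl ≤ θ * (V * τ ^ N) := by
        have i1 : θ * l * Fl ≤ θ * l * (V * τ ^ N) :=
          mul_le_mul_of_nonneg_left ((le_abs_self _).trans h3) (by positivity)
        have i2 : 0 ≤ V * τ ^ N := (abs_nonneg _).trans h3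
        have i3 : θ * l * (V * τ ^ N) ≤ θ * 1 * (V * τ ^ N) := by gcongr
        linarith
      have h7 : θ * l * (ν * P4) ≤ θ * ν * Q := by
        have i1 : θ * l * (ν * P4) ≤ θ * 1 * (ν * Q) := by gcongr
        linarith
      have h8 : θ * (1 / T') * E ≤ θ / T' * Q := by
        have i1 : θ * (1 / T') * E ≤ θ * (1 / T') * Q := by gcongr
        have i2 : θ * (1 / T') * Q = θ / T' * Q := by ring
        linarith
      have h9 : c / 2 * Q = 2 * ν * θ * Q + θ / T' * Q := by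
        rw [← hθc]
        ring
      have e1 : θ * (-(1 / T')) * E + θ * l * (2 * (-Fl - ν * P4))
          = -(θ * (1 / T') * E) - 2 * (θ * l * Fl) - 2 * (θ * l * (ν * P4)) := by ring
      rw [e1]
      linarith
  -- the second half
  have hsh : ∀ t ∈ Ico 0 T', T' + t ∈ Ico 0 T := by
    intro t ht
    constructor
    · linarith [ht.1]
    · have := ht.2
      rw [hT'] at this ⊢
      linarith
  refine riccati (y := fun t => ∑ j ∈ tre D N, ω ^ j.length * X j (T' + t))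
    (y' := fun t => ∑ j ∈ tre D N, ω ^ j.length * trhs β ν (fun k => X k (T' + t)) j)
    hκ0 hA0 hK₁0 hAK hAT ?_ (fun t ht => ?_) (fun t ht => ?_) ?_
  · have h1 : ContinuousOn (fun t => ∑ j ∈ tre D N, ω ^ j.length * X j t) (Icc 0 T) :=
      fun t ht => (hFd t ht).continuousWithinAt
    refine h1.comp (continuousOn_const.add continuousOn_id) fun t ht => ?_
    constructor
    · show 0 ≤ T' + t
      linarith [ht.1]
    · show T' + t ≤ T
      have := ht.2
      rw [hT'] at this ⊢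
      linarith
  · have h1 := (hFd (T' + t) ⟨(hsh t ht).1, (hsh t ht).2.le⟩).mono_of_mem_nhdsWithin
      (Icc_mem_nhdsGE_of_mem (hsh t ht))
    have h2 : HasDerivWithinAt (fun t => T' + t) 1 (Ici t) t := by
      simpa using (hasDerivWithinAt_id t (Ici t)).const_add T'
    have h3 := HasDerivWithinAt.scomp t h1 h2 (fun r hr => by
      show T' + t ≤ T' + r
      have : t ≤ r := hr
      linarith)
    refine h3.congr_deriv ?_
    rw [one_smul]
  · have htT := hsh t ht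
    have h1 := hdiff (T' + t) ⟨htT.1, htT.2.le⟩
    have h9 := sq_ineq hB0 hω0 h16 hG (fun k => X k (T' + t)) N
    have h10 := mul_le_mul_of_nonneg_left h9 hκ0.le
    have h11 : κ * ((∑ j ∈ tre D N, (ω * B) ^ j.length * X j (T' + t) ^ 2) * G)
        = c / 2 * ∑ j ∈ tre D N, (ω * B) ^ j.length * X j (T' + t) ^ 2 := by
      rw [hκ]
      field_simp
    show κ * (∑ j ∈ tre D N, ω ^ j.length * X j (T' + t)) ^ 2 - K₁
      ≤ ∑ j ∈ tre D N, ω ^ j.length * trhs β ν (fun k => X k (T' + t)) j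
    rw [h11] at h10
    linarith
  · show A ≤ ∑ j ∈ tre D N, ω ^ j.length * X j (T' + 0)
    rw [add_zero]
    exact hhalf

end Pool.Agent.Run7.h32.Tu
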