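import Pool.Agent.Run7.h32.Tu.WSC

/-!
The dyadic model on a tree, `β ≤ 3`, nonnegative data: all the componentwise solutions agree.
-/

set_option autoImplicit false

open Set Filter Topology MeasureTheory

namespace Pool.Agent.Run7.h32.Tu

open Run7.h969.Dy (pow_mul_nat)
open Run7.h969.Dz (rate3)
open Pool.Agent.Run7.h32.Fo (ii_of)
open Pool.Agent.Run7.h32.Tr

variable {D : ℕ} {β ν : ℝ} {x : Nd D → ℝ} {X Z : Nd D → ℝ → ℝ}

/-- The solutions with nonnegative data are nonnegative. -/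
lemma nn (hx : ∀ j, 0 ≤ x j) (hX : Sol0 β ν x X) (j : Nd D) {t : ℝ} (ht : 0 ≤ t) : 0 ≤ X j t := by
  have hc : ∀ k, ContinuousOn (X k) (Icc 0 t) := fun k => hX.cont k
  refine Pool.Agent.Run7.h32.Dy.nn_of_lin (T := t) (f := X j)
    (g := fun s => inp β (fun k => X k s) j)
    (a := fun s => (2 : ℝ) ^ (β * j.length) * ch (fun k => X k s) j + ν * 4 ^ j.length)
    (fun s hs => ?_) ?_ (fun s _ => ?_) (by rw [hX.init]; exact hx j) t ⟨ht, le_rfl⟩
  · refine ((hX.ode j s hs.1).mono fun r hr => hr.1).congr_deriv ?_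
    simp only [trhs]
    ring
  · exact (continuousOn_const.mul (ch_cont hc j)).add continuousOn_const
  · cases j with
    | nil => exact le_rfl
    | cons i j => exact mul_nonneg (Real.rpow_nonneg two_pos.le _) (sq_nonneg _)

/-- Nonnegative solutions satisfy the energy inequality from the time zero. -/
lemma ei_nn (hx : ∀ j, 0 ≤ x j) (hx2 : Summable fun j => x j ^ 2)
    (hX : Sol0 β ν x X) : EI ν X 0 := by
  have h0 : ∑' j, X j 0 ^ 2 = ∑' j, x j ^ 2 := tsum_congr fun j => by rw [hX.init]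
  refine ⟨by simpa only [hX.init] using hx2, fun t ht N => ?_⟩
  have h1 := solT_id hX (fun _ => continuousOn_const) N (⟨ht, le_rfl⟩ : t ∈ Icc 0 t)
  rw [sum0, mul_zero, add_zero] at h1
  have h2 : 0 ≤ ∫ s in (0 : ℝ)..t, flux β N (fun k => X k s) :=
    intervalIntegral.integral_nonneg ht fun s hs => Finset.sum_nonneg fun j _ =>
      mul_nonneg (Real.rpow_nonneg two_pos.le _) (mul_nonneg (sq_nonneg _)
        (Finset.sum_nonneg fun i _ => nn hx hX _ hs.1))
  have h3 := hx2.sum_le_tsum (tre D N) fun j _ => sq_nonneg _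
  rw [h0]
  linarith

/-- Nonnegative solutions satisfy the energy inequality from all times. -/
lemma ei_nn_all (hν : 0 < ν) (hx : ∀ j, 0 ≤ x j) (hx2 : Summable fun j => x j ^ 2)
    (hX : Sol0 β ν x X) {a : ℝ} (ha : 0 ≤ a) : EI ν X a := by
  rw [← ei_shift]
  exact ei_nn (fun j => nn hx hX j ha)
    (tsum_bdT (fun _ => sq_nonneg _) fun M => (ei_nn hx hx2 hX).sum_le hν ha M).1 (shift0 hX ha)

/-- the weighted identity for the difference of two solutions -/
lemma wdiff (β ν : ℝ) (x z : Nd D → ℝ) (N : ℕ) :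
    ∑ j ∈ tre D N, (1 / 2 : ℝ) ^ j.length * ((x j - z j) * (trhs β ν x j - trhs β ν z j))
      = -(∑ j ∈ lev D N, (1 / 2 : ℝ) ^ (N + 1) * ((2 : ℝ) ^ (β * N) *
          ((x j ^ 2 - z j ^ 2) * (ch x j - ch z j))))
        - ∑ j ∈ tre D N, (1 / 2 : ℝ) ^ (j.length + 1) *
          ((2 : ℝ) ^ (β * j.length) * ((ch x j + ch z j) * (x j - z j) ^ 2))
        - ν * ∑ j ∈ tre D N, (1 / 2 : ℝ) ^ j.length * (4 ^ j.length * (x j - z j) ^ 2) := by
  induction N with
  | zero =>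
    rw [sum_tre_zero, sum_tre_zero, sum_tre_zero, sum_lev_zero]
    simp only [trhs, inp, List.length_nil, Nat.cast_zero, mul_zero, Real.rpow_zero, pow_zero,
      zero_add, pow_one]
    ring
  | succ N ih =>
    rw [sum_tre_succ, ih, sum_tre_succ N (fun j => (1 / 2 : ℝ) ^ (j.length + 1) *
          ((2 : ℝ) ^ (β * j.length) * ((ch x j + ch z j) * (x j - z j) ^ 2))),
      sum_tre_succ N (fun j => (1 / 2 : ℝ) ^ j.length * (4 ^ j.length * (x j - z j) ^ 2))]
    have h1 : ∑ j ∈ lev D (N + 1), (1 / 2 : ℝ) ^ j.length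
          * ((x j - z j) * (trhs β ν x j - trhs β ν z j))
        = ∑ j ∈ lev D (N + 1), (1 / 2 : ℝ) ^ (N + 1) * ((x j - z j) * (inp β x j - inp β z j))
          - ∑ j ∈ lev D (N + 1), (1 / 2 : ℝ) ^ (N + 1 + 1) * ((2 : ℝ) ^ (β * (N + 1 : ℕ)) *
            ((x j ^ 2 - z j ^ 2) * (ch x j - ch z j)))
          - ∑ j ∈ lev D (N + 1), (1 / 2 : ℝ) ^ (j.length + 1) *
            ((2 : ℝ) ^ (β * j.length) * ((ch x j + ch z j) * (x j - z j) ^ 2))
          - ν * ∑ j ∈ lev D (N + 1), (1 / 2 : ℝ) ^ j.length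
            * (4 ^ j.length * (x j - z j) ^ 2) := by
      rw [Finset.mul_sum, ← Finset.sum_sub_distrib, ← Finset.sum_sub_distrib,
        ← Finset.sum_sub_distrib]
      refine Finset.sum_congr rfl fun j hj => ?_
      simp only [trhs, mem_lev.1 hj]
      ring
    have h2 : ∑ j ∈ lev D (N + 1), (1 / 2 : ℝ) ^ (N + 1) * ((x j - z j) * (inp β x j - inp β z j))
        = ∑ j ∈ lev D N, (1 / 2 : ℝ) ^ (N + 1) * ((2 : ℝ) ^ (β * N) *
          ((x j ^ 2 - z j ^ 2) * (ch x j - ch z j))) := by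
      rw [sum_lev_succ]
      refine Finset.sum_congr rfl fun j hj => ?_
      simp only [ch, inp, mem_lev.1 hj]
      rw [← Finset.sum_sub_distrib, Finset.mul_sum, Finset.mul_sum, Finset.mul_sum]
      exact Finset.sum_congr rfl fun i _ => by ring
    rw [h1, h2]
    ring

/-- **Uniqueness** of the componentwise solutions for nonnegative square summable data. -/
theorem uniq_nn (hβ : β ≤ 3) (hν : 0 < ν) (hx : ∀ j, 0 ≤ x j)
    (hx2 : Summable fun j => x j ^ 2) (hX : Sol0 β ν x X) (hZ : Sol0 β ν x Z) :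
    ∀ j t, 0 ≤ t → Z j t = X j t := by
  have hXn : ∀ j t, 0 ≤ t → 0 ≤ X j t := fun j t ht => nn hx hX j ht
  have hZn : ∀ j t, 0 ≤ t → 0 ≤ Z j t := fun j t ht => nn hx hZ j ht
  have hXe := ei_nn hx hx2 hX
  have hZe := ei_nn hx hx2 hZ
  obtain ⟨E, hE⟩ : ∃ E, E = ∑' n, x n ^ 2 := ⟨_, rfl⟩
  have hb : ∀ {Y : Nd D → ℝ → ℝ}, Sol0 β ν x Y → EI ν Y 0 → ∀ (n : Nd D) t, 0 ≤ t →
      Y n t ≤ √E := by
    intro Y hY hYe n t ht
    apply Real.le_sqrt_of_sq_le
    have h1 := hYe.sum_le hν ht n.length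
    have h2 : Y n t ^ 2 ≤ ∑ k ∈ tre D n.length, Y k t ^ 2 :=
      Finset.single_le_sum (f := fun k => Y k t ^ 2) (fun k _ => sq_nonneg _) (mem_tre.2 le_rfl)
    have h3 : ∑' j, Y j 0 ^ 2 = E := by
      rw [hE]
      exact tsum_congr fun j => by rw [hY.init]
    linarith
  have hE0 : 0 ≤ √E := Real.sqrt_nonneg _
  have hD0 : (0 : ℝ) ≤ D := Nat.cast_nonneg D
  have hrate : ∀ n : ℕ, (1 / 2 : ℝ) ^ n * (2 : ℝ) ^ (β * n) ≤ 4 ^ n := by
    intro n
    have h1 := mul_le_mul_of_nonneg_left (rate3 hβ n) (by positivity : (0 : ℝ) ≤ (1 / 2) ^ n)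
    have h2 : (1 / 2 : ℝ) ^ n * (2 ^ n * 4 ^ n) = 4 ^ n := by
      rw [← mul_assoc, ← mul_pow]
      norm_num
    linarith
  intro n t ht
  have h0t : (0 : ℝ) ∈ Icc 0 t := ⟨le_rfl, ht⟩
  have htt : t ∈ Icc 0 t := ⟨ht, le_rfl⟩
  have hcX : ∀ k, ContinuousOn (X k) (Icc 0 t) := fun k => hX.cont k
  have hcZ : ∀ k, ContinuousOn (Z k) (Icc 0 t) := fun k => hZ.cont k
  have key : ∀ N : ℕ, ∑ k ∈ tre D N, (1 / 2 : ℝ) ^ k.length * (X k t - Z k t) ^ 2
      ≤ D * √E * ((∫ s in (0 : ℝ)..t, ∑ j ∈ lev D N, 4 ^ j.length * X j s ^ 2)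
        + ∫ s in (0 : ℝ)..t, ∑ j ∈ lev D N, 4 ^ j.length * Z j s ^ 2) := by
    intro N
    have hFd : ∀ r, 0 < r → HasDerivAt
        (fun r => ∑ k ∈ tre D N, (1 / 2 : ℝ) ^ k.length * (X k r - Z k r) ^ 2)
        (2 * ∑ k ∈ tre D N, (1 / 2 : ℝ) ^ k.length * ((X k r - Z k r) *
          (trhs β ν (fun k => X k r) k - trhs β ν (fun k => Z k r) k))) r := by
      intro r hr
      have h1 : HasDerivAt (fun r => ∑ k ∈ tre D N, (1 / 2 : ℝ) ^ k.length * (X k r - Z k r) ^ 2)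
          (∑ k ∈ tre D N, 2 * ((1 / 2 : ℝ) ^ k.length * ((X k r - Z k r) *
          (trhs β ν (fun k => X k r) k - trhs β ν (fun k => Z k r) k)))) r := by
        refine HasDerivAt.fun_sum fun k _ => ?_
        refine ((((hX.at k hr).fun_sub (hZ.at k hr)).fun_pow 2).const_mul _).congr_deriv ?_
        norm_num
        ring
      rw [Finset.mul_sum]
      exact h1
    have hcr : ∀ k, ContinuousOn (fun r => trhs β ν (fun k => X k r) k
        - trhs β ν (fun k => Z k r) k) (Icc 0 t) := fun k =>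
      (trhs_cont hcX k).sub (trhs_cont hcZ k)
    have hcF : ContinuousOn (fun r => 2 * ∑ k ∈ tre D N, (1 / 2 : ℝ) ^ k.length *
        ((X k r - Z k r) * (trhs β ν (fun k => X k r) k - trhs β ν (fun k => Z k r) k)))
        (Icc 0 t) :=
      continuousOn_const.mul (continuousOn_finsetSum _ fun k _ =>
        continuousOn_const.mul (((hcX k).sub (hcZ k)).mul (hcr k)))
    have hcG : ContinuousOn (fun r => D * √E * (∑ j ∈ lev D N, 4 ^ j.length * X j r ^ 2
        + ∑ j ∈ lev D N, 4 ^ j.length * Z j r ^ 2)) (Icc 0 t) :=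
      continuousOn_const.mul ((lev4_cont hcX N).add (lev4_cont hcZ N))
    have hint : ∫ r in (0 : ℝ)..t, (2 * ∑ k ∈ tre D N, (1 / 2 : ℝ) ^ k.length *
        ((X k r - Z k r) * (trhs β ν (fun k => X k r) k - trhs β ν (fun k => Z k r) k)))
        = ∑ k ∈ tre D N, (1 / 2 : ℝ) ^ k.length * (X k t - Z k t) ^ 2
          - ∑ k ∈ tre D N, (1 / 2 : ℝ) ^ k.length * (X k 0 - Z k 0) ^ 2 := by
      refine intervalIntegral.integral_eq_sub_of_hasDerivAt_of_le ht
        (f := fun r => ∑ k ∈ tre D N, (1 / 2 : ℝ) ^ k.length * (X k r - Z k r) ^ 2) ?_ ?_ ?_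
      · exact continuousOn_finsetSum _ fun k _ =>
          continuousOn_const.mul (((hcX k).sub (hcZ k)).pow 2)
      · exact fun r hr => hFd r hr.1
      · exact ii_of hcF h0t htt
    have h0 : ∑ k ∈ tre D N, (1 / 2 : ℝ) ^ k.length * (X k 0 - Z k 0) ^ 2 = 0 := by
      refine Finset.sum_eq_zero fun k _ => ?_
      rw [hX.init k, hZ.init k]
      ring
    have hle : ∫ r in (0 : ℝ)..t, (2 * ∑ k ∈ tre D N, (1 / 2 : ℝ) ^ k.length *
        ((X k r - Z k r) * (trhs β ν (fun k => X k r) k - trhs β ν (fun k => Z k r) k)))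
        ≤ ∫ r in (0 : ℝ)..t, D * √E * (∑ j ∈ lev D N, 4 ^ j.length * X j r ^ 2
          + ∑ j ∈ lev D N, 4 ^ j.length * Z j r ^ 2) := by
      refine intervalIntegral.integral_mono_on ht (ii_of hcF h0t htt) (ii_of hcG h0t htt)
        fun r hr => ?_
      have hr0 := hr.1
      rw [wdiff]
      have hxr : ∀ k, 0 ≤ X k r := fun k => hXn k r hr0
      have hzr : ∀ k, 0 ≤ Z k r := fun k => hZn k r hr0
      have hch : ∀ {Y : Nd D → ℝ → ℝ}, (∀ k, 0 ≤ Y k r) → (∀ k, Y k r ≤ √E) → ∀ j,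
          0 ≤ ch (fun k => Y k r) j ∧ ch (fun k => Y k r) j ≤ D * √E := by
        intro Y hY1 hY2 j
        refine ⟨Finset.sum_nonneg fun i _ => hY1 _, ?_⟩
        have h3 : ∑ i : Fin D, Y (i :: j) r ≤ ∑ _i : Fin D, √E :=
          Finset.sum_le_sum fun i _ => hY2 _
        rwa [Finset.sum_const, Finset.card_univ, Fintype.card_fin, nsmul_eq_mul] at h3
      have hcx := hch hxr fun k => hb hX hXe k r hr0
      have hcz := hch hzr fun k => hb hZ hZe k r hr0
      have h1 : 0 ≤ ∑ j ∈ tre D N, (1 / 2 : ℝ) ^ (j.length + 1) *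
        ((2 : ℝ) ^ (β * j.length) * ((ch (fun k => X k r) j + ch (fun k => Z k r) j)
          * (X j r - Z j r) ^ 2)) :=
        Finset.sum_nonneg fun j _ => mul_nonneg (by positivity)
          (mul_nonneg (Real.rpow_nonneg two_pos.le _)
            (mul_nonneg (add_nonneg (hcx j).1 (hcz j).1) (sq_nonneg _)))
      have h2 : 0 ≤ ν * ∑ j ∈ tre D N, (1 / 2 : ℝ) ^ j.length *
          (4 ^ j.length * (X j r - Z j r) ^ 2) :=
        mul_nonneg hν.le (Finset.sum_nonneg fun n _ => by positivity)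
      have h3 : -(∑ j ∈ lev D N, (1 / 2 : ℝ) ^ (N + 1) * ((2 : ℝ) ^ (β * N) *
          ((X j r ^ 2 - Z j r ^ 2) * (ch (fun k => X k r) j - ch (fun k => Z k r) j))))
          ≤ 1 / 2 * (D * √E * (∑ j ∈ lev D N, 4 ^ j.length * X j r ^ 2
          + ∑ j ∈ lev D N, 4 ^ j.length * Z j r ^ 2)) := by
        rw [← Finset.sum_neg_distrib, ← Finset.sum_add_distrib, Finset.mul_sum, Finset.mul_sum]
        refine Finset.sum_le_sum fun j hj => ?_
        rw [mem_lev.1 hj]
        obtain ⟨p, hp⟩ : ∃ p, p = (1 / 2 : ℝ) ^ N * (2 : ℝ) ^ (β * N) := ⟨_, rfl⟩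
        have hp0 : 0 ≤ p := by
          rw [hp]
          exact mul_nonneg (by positivity) (Real.rpow_nonneg two_pos.le _)
        have hp1 : p ≤ 4 ^ N := by rw [hp]; exact hrate N
        obtain ⟨cx, hcx'⟩ : ∃ c, c = ch (fun k => X k r) j := ⟨_, rfl⟩
        obtain ⟨cz, hcz'⟩ : ∃ c, c = ch (fun k => Z k r) j := ⟨_, rfl⟩
        have i1 := hcx j
        have i2 := hcz j
        rw [← hcx'] at i1
        rw [← hcz'] at i2
        rw [← hcx', ← hcz']
        have e1 : -((1 / 2 : ℝ) ^ (N + 1) * ((2 : ℝ) ^ (β * N) *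
            ((X j r ^ 2 - Z j r ^ 2) * (cx - cz))))
            = 1 / 2 * (p * -((X j r ^ 2 - Z j r ^ 2) * (cx - cz))) := by
          rw [hp]
          ring
        have e2 : -((X j r ^ 2 - Z j r ^ 2) * (cx - cz)) ≤ D * √E * (X j r ^ 2 + Z j r ^ 2) := by
          have j1 := mul_nonneg (sq_nonneg (X j r)) i1.1
          have j2 := mul_nonneg (sq_nonneg (Z j r)) i2.1
          have j3 := mul_le_mul_of_nonneg_left i2.2 (sq_nonneg (X j r))
          have j4 := mul_le_mul_of_nonneg_left i1.2 (sq_nonneg (Z j r))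
          have e3 : -((X j r ^ 2 - Z j r ^ 2) * (cx - cz))
              = -(X j r ^ 2 * cx) + X j r ^ 2 * cz + Z j r ^ 2 * cx - Z j r ^ 2 * cz := by ring
          rw [e3]
          linarith
        have e4 : 0 ≤ D * √E * (X j r ^ 2 + Z j r ^ 2) := by positivity
        have e5 := mul_le_mul_of_nonneg_left e2 hp0
        have e6 := mul_le_mul_of_nonneg_right hp1 e4
        rw [e1]
        linarith
      linarith
    rw [hint, h0, sub_zero, intervalIntegral.integral_const_mul,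
      intervalIntegral.integral_add (ii_of (lev4_cont hcX N) h0t htt)
        (ii_of (lev4_cont hcZ N) h0t htt)] at hle
    exact hle
  have hlim : Tendsto (fun N : ℕ => D * √E
      * ((∫ s in (0 : ℝ)..t, ∑ j ∈ lev D N, 4 ^ j.length * X j s ^ 2)
        + ∫ s in (0 : ℝ)..t, ∑ j ∈ lev D N, 4 ^ j.length * Z j s ^ 2)) atTop (𝓝 0) := by
    have h1 := ((diss_tend hν hX hXe ht).add (diss_tend hν hZ hZe ht)).const_mul (D * √E)
    simpa using h1
  have h1 : (1 / 2 : ℝ) ^ n.length * (X n t - Z n t) ^ 2 ≤ 0 := by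
    refine ge_of_tendsto hlim ?_
    filter_upwards [eventually_ge_atTop n.length] with N hN
    refine le_trans ?_ (key N)
    exact Finset.single_le_sum (f := fun k : Nd D => (1 / 2 : ℝ) ^ k.length * (X k t - Z k t) ^ 2)
      (fun k _ => by positivity) (mem_tre.2 hN)
  have h2 : (0 : ℝ) < (1 / 2) ^ n.length := by positivity
  have h3 : (X n t - Z n t) ^ 2 ≤ 0 := by
    by_contra hc
    push Not at hc
    have := mul_pos h2 hc
    linarith
  have h4 : X n t - Z n t = 0 := by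
    have := le_antisymm h3 (sq_nonneg _)
    exact pow_eq_zero_iff two_ne_zero |>.1 this
  linarith

end Pool.Agent.Run7.h32.Tu
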