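import Pool.Agent.Run7.h32.Tu.Top
import Pool.Agent.Run7.h32.Tu.Nn

/-!
The dyadic model on a tree, `β ≤ 3`: all the weak solutions are smooth for positive times.
-/

set_option autoImplicit false

open Set Filter Topology MeasureTheory

namespace Pool.Agent.Run7.h32.Tu

open Run7.h969.Dy (pow_mul_nat)
open Pool.Agent.Run7.h32.Fo (ii_of)
open Pool.Agent.Run7.h32.Tr

variable {D : ℕ} {β ν : ℝ} {x : Nd D → ℝ} {X Z : Nd D → ℝ → ℝ}

/-- A weak solution: locally in time bounded in `l²` and square integrable in `V`; no energy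
inequality. -/
structure WkSol (β ν : ℝ) (x : Nd D → ℝ) (X : Nd D → ℝ → ℝ) : Prop where
  sol : Sol0 β ν x X
  en : ∀ T, 0 ≤ T → ∃ E, ∀ t ∈ Icc 0 T, ∀ N : ℕ, ∑ j ∈ tre D N, X j t ^ 2 ≤ E
  di : ∀ T, 0 ≤ T → ∃ V, ∀ N : ℕ, ∫ r in (0 : ℝ)..T, ∑ j ∈ tre D N, (4 : ℝ) ^ j.length * X j r ^ 2 ≤ V

/-- a lower bound for an equation `f' = g - a f` with `g ≥ 0` -/
lemma lower {f g a : ℝ → ℝ} {t m : ℝ} (ht : 0 ≤ t) (hf : ContinuousOn f (Icc 0 t))
    (hd : ∀ r ∈ Ioo 0 t, HasDerivAt f (g r - a r * f r) r) (ha : ContinuousOn a (Icc 0 t))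
    (hg : ∀ r ∈ Ioo 0 t, 0 ≤ g r) (hm : m ≤ ∫ r in (0 : ℝ)..t, a r) :
    -(|f 0| * Real.exp (-m)) ≤ f t := by
  obtain ⟨A, hA⟩ : ∃ A : ℝ → ℝ, A = fun t => ∫ s in (0 : ℝ)..t, a s := ⟨_, rfl⟩
  have hAc : ContinuousOn A (Icc 0 t) := by
    rw [hA]
    have h1 := intervalIntegral.continuousOn_primitive_interval (μ := volume) (f := a) (a := 0)
      (b := t) (by rw [uIcc_of_le ht]; exact ha.integrableOn_Icc)
    rwa [uIcc_of_le ht] at h1
  have hAd : ∀ r ∈ Ioo 0 t, HasDerivAt A (a r) r := by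
    intro r hr
    rw [hA]
    apply intervalIntegral.integral_hasDerivAt_right
    · refine ContinuousOn.intervalIntegrable ?_
      rw [uIcc_of_le hr.1.le]
      exact ha.mono (Icc_subset_Icc le_rfl hr.2.le)
    · exact (ha.mono Ioo_subset_Icc_self).stronglyMeasurableAtFilter isOpen_Ioo r hr
    · exact ha.continuousAt (Icc_mem_nhds hr.1 hr.2)
  have hmono : MonotoneOn (fun r => f r * Real.exp (A r)) (Icc 0 t) := by
    apply monotoneOn_of_deriv_nonneg (convex_Icc 0 t)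
    · exact hf.mul hAc.rexp
    · intro r hr
      rw [interior_Icc] at hr
      exact ((hd r hr).mul (hAd r hr).exp).differentiableAt.differentiableWithinAt
    · intro r hr
      rw [interior_Icc] at hr
      have h1 : HasDerivAt (fun r => f r * Real.exp (A r))
          ((g r - a r * f r) * Real.exp (A r) + f r * (Real.exp (A r) * a r)) r :=
        (hd r hr).mul (hAd r hr).exp
      rw [h1.deriv]
      have h2 : 0 ≤ g r * Real.exp (A r) := mul_nonneg (hg r hr) (Real.exp_pos _).le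
      linarith
  have h1 := hmono ⟨le_rfl, ht⟩ ⟨ht, le_rfl⟩ ht
  have hA0 : A 0 = 0 := by rw [hA]; simp
  simp only [hA0, Real.exp_zero, mul_one] at h1
  have h2 : m ≤ A t := by rw [hA]; exact hm
  have h3 : Real.exp (-(A t)) ≤ Real.exp (-m) := Real.exp_le_exp.2 (by linarith)
  have h4 : f 0 * Real.exp (-(A t)) ≤ f t := by
    have h5 := mul_le_mul_of_nonneg_right h1 (Real.exp_pos (-(A t))).le
    rwa [mul_assoc, ← Real.exp_add, add_neg_cancel, Real.exp_zero, mul_one] at h5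
  have h5 := mul_le_mul_of_nonneg_right (neg_abs_le (f 0)) (Real.exp_pos (-(A t))).le
  have h6 := mul_le_mul_of_nonneg_left h3 (abs_nonneg (f 0))
  linarith

/-- The negative parts are extremely small at positive times. -/
theorem neg_wk (hD : 0 < D) (hβ : β ≤ 3) (hν : 0 < ν) (hX : WkSol β ν x X) {T τ : ℝ} (hτ : 0 < τ)
    (hT : τ ≤ T) : ∃ N₀ : ℕ, ∀ j : Nd D, N₀ ≤ j.length → ∀ t ∈ Icc τ T,
      -(|x j| * Real.exp (-(ν / 2 * 4 ^ j.length * t))) ≤ X j t := by
  have hD0 : (0 : ℝ) < D := by exact_mod_cast hD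
  have hT0 : 0 ≤ T := by linarith
  obtain ⟨V, hV⟩ := hX.di T hT0
  have hc : ∀ j, ContinuousOn (X j) (Icc 0 T) := fun j => hX.sol.cont j
  have h00 : (0 : ℝ) ∈ Icc 0 T := ⟨le_rfl, hT0⟩
  have hTT : T ∈ Icc 0 T := ⟨hT0, le_rfl⟩
  obtain ⟨w, hw⟩ : ∃ w : ℕ → ℝ, w = fun N => ∫ r in (0 : ℝ)..T, ∑ j ∈ tre D N,
    (4 : ℝ) ^ j.length * X j r ^ 2 := ⟨_, rfl⟩
  have hmono : Monotone w := by
    intro M N hMN
    rw [hw]
    exact intervalIntegral.integral_mono_on hT0 (ii_of (sum4_cont hc M) h00 hTT)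
      (ii_of (sum4_cont hc N) h00 hTT) fun r _ =>
      Finset.sum_le_sum_of_subset_of_nonneg (tre_mono hMN) fun j _ _ => by positivity
  have hbd : BddAbove (range w) := ⟨V, by
    rintro _ ⟨N, rfl⟩
    rw [hw]
    exact hV N⟩
  have hlim := tendsto_atTop_ciSup hmono hbd
  have hlim2 : Tendsto (fun N => w (N + 1) - w N) atTop (𝓝 0) := by
    have := ((tendsto_add_atTop_iff_nat 1).2 hlim).sub hlim
    rwa [sub_self] at this
  have hε : 0 < ν ^ 2 * τ / D := by positivity
  obtain ⟨N₀, hN₀⟩ := eventually_atTop.1 (hlim2.eventually (gt_mem_nhds hε))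
  refine ⟨N₀, fun j hj t ht => ?_⟩
  obtain ⟨N, hN⟩ : ∃ N, N = j.length := ⟨_, rfl⟩
  rw [← hN]
  have ht0 : 0 ≤ t := hτ.le.trans ht.1
  have htT : t ∈ Icc 0 T := ⟨ht0, ht.2⟩
  have hsub : Icc 0 t ⊆ Icc 0 T := Icc_subset_Icc_right ht.2
  have hsmall := hN₀ N (by omega)
  -- the integral over the generation `N + 1`
  obtain ⟨L, hL⟩ : ∃ L : ℝ → ℝ, L = fun r => ∑ k ∈ lev D (N + 1), (4 : ℝ) ^ k.length * X k r ^ 2 :=
    ⟨_, rfl⟩
  have hLc : ContinuousOn L (Icc 0 T) := by
    rw [hL]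
    exact continuousOn_finsetSum _ fun k _ => continuousOn_const.mul ((hc k).pow 2)
  have hLint : ∫ r in (0 : ℝ)..t, L r ≤ ν ^ 2 * τ / D := by
    have h1 : w (N + 1) - w N = ∫ r in (0 : ℝ)..T, L r := by
      rw [hw, ← intervalIntegral.integral_sub (ii_of (sum4_cont hc _) h00 hTT)
        (ii_of (sum4_cont hc _) h00 hTT)]
      congr 1
      funext r
      rw [sum_tre_succ N (fun j => (4 : ℝ) ^ j.length * X j r ^ 2), hL]
      ring
    have h2 : ∫ r in (0 : ℝ)..T, L r = (∫ r in (0 : ℝ)..t, L r) + ∫ r in t..T, L r :=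
      (intervalIntegral.integral_add_adjacent_intervals (ii_of hLc h00 htT)
        (ii_of hLc htT hTT)).symm
    have h3 : 0 ≤ ∫ r in t..T, L r := intervalIntegral.integral_nonneg ht.2 fun r _ => by
      rw [hL]
      exact Finset.sum_nonneg fun k _ => by positivity
    linarith
  -- the equation
  have hode : ∀ r ∈ Ioo 0 t, HasDerivAt (X j) (inp β (fun k => X k r) j
      - ((2 : ℝ) ^ (β * N) * ch (fun k => X k r) j + ν * 4 ^ N) * X j r) r := by
    intro r hr
    have h1 := (hX.sol.ode j r hr.1.le).hasDerivAt (Ici_mem_nhds hr.1)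
    refine h1.congr_deriv ?_
    simp only [trhs, ← hN]
    ring
  have hac : ContinuousOn (fun r => (2 : ℝ) ^ (β * N) * ch (fun k => X k r) j + ν * 4 ^ N)
      (Icc 0 t) := (continuousOn_const.mul (ch_cont (fun k => (hc k).mono hsub) j)).add
        continuousOn_const
  have hint : ν / 2 * 4 ^ N * t ≤ ∫ r in (0 : ℝ)..t,
      ((2 : ℝ) ^ (β * N) * ch (fun k => X k r) j + ν * 4 ^ N) := by
    have hpt : ∀ r ∈ Icc 0 t, 3 * ν / 4 * 4 ^ N - D / (4 * ν) * 4 ^ N * L r
        ≤ (2 : ℝ) ^ (β * N) * ch (fun k => X k r) j + ν * 4 ^ N := by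
      intro r _
      obtain ⟨S, hS⟩ : ∃ S, S = ch (fun k => X k r) j := ⟨_, rfl⟩
      rw [← hS]
      have hSL : 4 ^ (N + 1) * S ^ 2 ≤ D * L r := by
        have h1 := ch_sq (fun k => X k r) j
        rw [← hS] at h1
        have h2 : ∑ i : Fin D, X (i :: j) r ^ 2 ≤ ∑ k ∈ lev D (N + 1), X k r ^ 2 := by
          rw [sum_lev_succ]
          exact Finset.single_le_sum (f := fun k : Nd D => ∑ i : Fin D, X (i :: k) r ^ 2)
            (fun k _ => Finset.sum_nonneg fun i _ => sq_nonneg _) (mem_lev.2 hN.symm)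
        have h3 : L r = 4 ^ (N + 1) * ∑ k ∈ lev D (N + 1), X k r ^ 2 := by
          rw [hL, Finset.mul_sum]
          exact Finset.sum_congr rfl fun k hk => by rw [mem_lev.1 hk]
        rw [h3]
        have h4 : S ^ 2 ≤ D * ∑ k ∈ lev D (N + 1), X k r ^ 2 :=
          h1.trans (mul_le_mul_of_nonneg_left h2 hD0.le)
        have h5 := mul_le_mul_of_nonneg_left h4 (by positivity : (0 : ℝ) ≤ 4 ^ (N + 1))
        linarith
      obtain ⟨b, hb⟩ : ∃ b : ℝ, b = (2 : ℝ) ^ (β * N) := ⟨_, rfl⟩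
      have hb0 : 0 < b := by rw [hb]; exact Real.rpow_pos_of_pos two_pos _
      have hb2 : b ^ 2 ≤ 4 ^ N * 16 ^ N := by
        have h1 : b ≤ 8 ^ N := by
          rw [hb, pow_mul_nat]
          apply pow_le_pow_left₀ (Real.rpow_nonneg two_pos.le _)
          have h2 : (8 : ℝ) = 2 ^ (3 : ℝ) := by norm_num
          rw [h2]
          exact Real.rpow_le_rpow_of_exponent_le (by norm_num) hβ
        have h2 := pow_le_pow_left₀ hb0.le h1 2
        have h3 : ((8 : ℝ) ^ N) ^ 2 = 4 ^ N * 16 ^ N := by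
          rw [← pow_mul, mul_comm N 2, pow_mul, ← mul_pow]
          norm_num
        linarith
      rw [← hb]
      have hp4 : (0 : ℝ) < 4 ^ N := by positivity
      -- `|b S| ≤ (ν/4) 4^N + (1/ν) 4^(-N) b² S²`
      have h1 : -(ν / 4 * 4 ^ N + 1 / ν * (b ^ 2 * S ^ 2 / 4 ^ N)) ≤ b * S := by
        have h2 : ν / 4 * 4 ^ N + 1 / ν * (b ^ 2 * S ^ 2 / 4 ^ N) + b * S
            = 1 / (ν * 4 ^ N) * (ν / 2 * 4 ^ N + b * S) ^ 2 := by
          field_simp
          ring
        have h3 : 0 ≤ 1 / (ν * 4 ^ N) * (ν / 2 * 4 ^ N + b * S) ^ 2 := by positivity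
        linarith
      have h2 : 1 / ν * (b ^ 2 * S ^ 2 / 4 ^ N) ≤ D / (4 * ν) * 4 ^ N * L r := by
        have h3 : b ^ 2 * S ^ 2 ≤ 4 ^ N * 16 ^ N * S ^ 2 :=
          mul_le_mul_of_nonneg_right hb2 (sq_nonneg _)
        have h4 : (4 : ℝ) ^ N * 16 ^ N * S ^ 2 = 4 ^ N * 4 ^ N * (4 ^ (N + 1) * S ^ 2) / 4 := by
          have h5 : (16 : ℝ) ^ N = 4 ^ N * 4 ^ N := by
            rw [← mul_pow]
            norm_num
          rw [h5, pow_succ]
          ring
        have h5 : 4 ^ N * 4 ^ N * (4 ^ (N + 1) * S ^ 2) / 4 ≤ 4 ^ N * 4 ^ N * (D * L r) / 4 := by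
          gcongr
        have h6 : b ^ 2 * S ^ 2 / 4 ^ N ≤ 4 ^ N * (D * L r) / 4 := by
          rw [div_le_iff₀ hp4]
          linarith
        have h7 := mul_le_mul_of_nonneg_left h6 (by positivity : 0 ≤ 1 / ν)
        have h8 : 1 / ν * (4 ^ N * (D * L r) / 4) = D / (4 * ν) * 4 ^ N * L r := by
          field_simp
        linarith
      linarith
    have hi1 : IntervalIntegrable (fun r => 3 * ν / 4 * 4 ^ N - D / (4 * ν) * 4 ^ N * L r)
        volume 0 t := by
      refine ContinuousOn.intervalIntegrable ?_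
      rw [uIcc_of_le ht0]
      exact continuousOn_const.sub (continuousOn_const.mul (hLc.mono hsub))
    have hi2 : IntervalIntegrable (fun r => (2 : ℝ) ^ (β * N) * ch (fun k => X k r) j + ν * 4 ^ N)
        volume 0 t := by
      refine ContinuousOn.intervalIntegrable ?_
      rw [uIcc_of_le ht0]
      exact hac
    have h1 := intervalIntegral.integral_mono_on ht0 hi1 hi2 hpt
    rw [intervalIntegral.integral_sub intervalIntegrable_const
      ((ii_of hLc h00 htT).const_mul _), intervalIntegral.integral_const,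
      intervalIntegral.integral_const_mul, smul_eq_mul, sub_zero] at h1
    have h2 : D / (4 * ν) * 4 ^ N * ∫ r in (0 : ℝ)..t, L r ≤ D / (4 * ν) * 4 ^ N * (ν ^ 2 * τ / D) :=
      mul_le_mul_of_nonneg_left hLint (by positivity)
    have h3 : D / (4 * ν) * 4 ^ N * (ν ^ 2 * τ / D) = ν / 4 * 4 ^ N * τ := by
      field_simp
    have h4 : ν / 4 * 4 ^ N * τ ≤ ν / 4 * 4 ^ N * t :=
      mul_le_mul_of_nonneg_left ht.1 (by positivity)
    linarith
  have h1 := lower ht0 ((hc j).mono hsub) hode hac (fun r _ => ?_) hint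
  · rwa [hX.sol.init] at h1
  · cases j with
    | nil => exact le_rfl
    | cons i j => exact mul_nonneg (Real.rpow_nonneg two_pos.le _) (sq_nonneg _)

/-- The weak solutions satisfy the energy inequality from all positive times. -/
theorem wk_ei (hD : 0 < D) (hβ : β ≤ 3) (hν : 0 < ν) (hX : WkSol β ν x X) {s : ℝ} (hs : 0 < s) :
    EI ν X s := by
  have hD0 : (0 : ℝ) < D := by exact_mod_cast hD
  have hsm : Summable fun j => X j s ^ 2 := by
    obtain ⟨E, hE⟩ := hX.en s hs.le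
    exact (tsum_bdT (fun _ => sq_nonneg _) fun M => hE s ⟨hs.le, le_rfl⟩ M).1
  rw [← ei_shift]
  have hsh := shift0 hX.sol hs.le
  refine ⟨by simpa only [add_zero] using hsm, fun t ht L => ?_⟩
  simp only [add_zero]
  obtain ⟨E, hE⟩ := hX.en (s + t) (by linarith)
  have hE0 : 0 ≤ E := by
    have h1 := hE 0 ⟨le_rfl, by linarith⟩ 0
    rw [sum_tre_zero] at h1
    exact (sq_nonneg _).trans h1
  have hxE : ∀ j, |x j| ≤ √E := by
    intro j
    apply Real.le_sqrt_of_sq_le
    rw [sq_abs, ← hX.sol.init j]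
    have h1 := hE 0 ⟨le_rfl, by linarith⟩ j.length
    have h2 : X j 0 ^ 2 ≤ ∑ k ∈ tre D j.length, X k 0 ^ 2 :=
      Finset.single_le_sum (f := fun k => X k 0 ^ 2) (fun k _ => sq_nonneg _) (mem_tre.2 le_rfl)
    exact h2.trans h1
  obtain ⟨N₀, hN₀⟩ := neg_wk hD hβ hν hX hs (by linarith : s ≤ s + t)
  have htt : t ∈ Icc 0 t := ⟨ht, le_rfl⟩
  have h0t : (0 : ℝ) ∈ Icc 0 t := ⟨le_rfl, ht⟩
  have hcs : ∀ j, ContinuousOn (fun r => X j (s + r)) (Icc 0 t) := fun j => hsh.cont j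
  obtain ⟨c, hc⟩ : ∃ c, c = E * (D * (√E * (2 / (ν / 2 * s) ^ 2))) := ⟨_, rfl⟩
  have hc0 : 0 ≤ c := by rw [hc]; positivity
  -- the flux
  have hflux : ∀ N : ℕ, N₀ ≤ N → -(c * (1 / 2) ^ N * t)
      ≤ ∫ r in (0 : ℝ)..t, flux β N (fun k => X k (s + r)) := by
    intro N hN
    have hpt : ∀ r ∈ Icc 0 t, -(c * (1 / 2) ^ N) ≤ flux β N (fun k => X k (s + r)) := by
      intro r hr
      have hr1 : s + r ∈ Icc s (s + t) := ⟨by linarith [hr.1], by linarith [hr.2]⟩
      obtain ⟨b, hb⟩ : ∃ b : ℝ, b = (2 : ℝ) ^ (β * N) := ⟨_, rfl⟩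
      have hb0 : 0 < b := by rw [hb]; exact Real.rpow_pos_of_pos two_pos _
      have hb1 : b ≤ 8 ^ N := by
        rw [hb, pow_mul_nat]
        apply pow_le_pow_left₀ (Real.rpow_nonneg two_pos.le _)
        have h2 : (8 : ℝ) = 2 ^ (3 : ℝ) := by norm_num
        rw [h2]
        exact Real.rpow_le_rpow_of_exponent_le (by norm_num) hβ
      obtain ⟨u, hu⟩ : ∃ u, u = ν / 2 * s * 4 ^ N := ⟨_, rfl⟩
      have hu0 : 0 < u := by rw [hu]; positivity
      -- the children
      have hch : ∀ j ∈ lev D N, -(D * (√E * (2 / u ^ 2))) ≤ ch (fun k => X k (s + r)) j := by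
        intro j hj
        have hj' := mem_lev.1 hj
        have h1 : ∀ i : Fin D, -(√E * (2 / u ^ 2)) ≤ X (i :: j) (s + r) := by
          intro i
          have h2 := hN₀ (i :: j) (by rw [List.length_cons, hj']; omega) (s + r) hr1
          rw [List.length_cons, hj'] at h2
          have h3 : Real.exp (-(ν / 2 * 4 ^ (N + 1) * (s + r))) ≤ 2 / u ^ 2 := by
            have h4 : Real.exp (-(ν / 2 * 4 ^ (N + 1) * (s + r))) ≤ Real.exp (-u) := by
              apply Real.exp_le_exp.2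
              have h5 : u ≤ ν / 2 * 4 ^ (N + 1) * (s + r) := by
                rw [hu, pow_succ]
                have h6 : 0 ≤ ν / 2 * 4 ^ N := by positivity
                have h7 : ν / 2 * s * 4 ^ N ≤ ν / 2 * 4 ^ N * (s + r) := by
                  have := mul_le_mul_of_nonneg_left (by linarith [hr.1] : s ≤ s + r) h6
                  linarith
                have h8 : 0 ≤ ν / 2 * 4 ^ N * (s + r) :=
                  mul_nonneg h6 (by linarith [hr.1])
                linarith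
              linarith
            have h5 : u ^ 2 / 2 ≤ Real.exp u := by
              have := Real.quadratic_le_exp_of_nonneg hu0.le
              linarith
            refine h4.trans ?_
            rw [Real.exp_neg, inv_eq_one_div, div_le_div_iff₀ (Real.exp_pos u) (by positivity)]
            linarith
          have h4 : |x (i :: j)| * Real.exp (-(ν / 2 * 4 ^ (N + 1) * (s + r)))
              ≤ √E * (2 / u ^ 2) :=
            mul_le_mul (hxE _) h3 (Real.exp_pos _).le (Real.sqrt_nonneg _)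
          linarith
        have h2 : ∑ _i : Fin D, -(√E * (2 / u ^ 2)) ≤ ch (fun k => X k (s + r)) j :=
          Finset.sum_le_sum fun i _ => h1 i
        rw [Finset.sum_const, Finset.card_univ, Fintype.card_fin, nsmul_eq_mul] at h2
        linarith
      have h1 : ∑ j ∈ lev D N, b * (X j (s + r) ^ 2 * -(D * (√E * (2 / u ^ 2))))
          ≤ flux β N (fun k => X k (s + r)) := by
        rw [flux, ← hb]
        exact Finset.sum_le_sum fun j hj => mul_le_mul_of_nonneg_left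
          (mul_le_mul_of_nonneg_left (hch j hj) (sq_nonneg _)) hb0.le
      have h2 : ∑ j ∈ lev D N, b * (X j (s + r) ^ 2 * -(D * (√E * (2 / u ^ 2))))
          = -(b * (D * (√E * (2 / u ^ 2))) * ∑ j ∈ lev D N, X j (s + r) ^ 2) := by
        rw [Finset.mul_sum, ← Finset.sum_neg_distrib]
        exact Finset.sum_congr rfl fun j _ => by ring
      have h3 : ∑ j ∈ lev D N, X j (s + r) ^ 2 ≤ E :=
        (Finset.sum_le_sum_of_subset_of_nonneg (lev_sub N) fun j _ _ => sq_nonneg _).trans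
          (hE (s + r) ⟨by linarith [hr.1], by linarith [hr.2]⟩ N)
      have h4 : b * (D * (√E * (2 / u ^ 2))) * ∑ j ∈ lev D N, X j (s + r) ^ 2
          ≤ 8 ^ N * (D * (√E * (2 / u ^ 2))) * E := by
        gcongr
      have h5 : 8 ^ N * (D * (√E * (2 / u ^ 2))) * E = c * (1 / 2) ^ N := by
        have h6 : (4 : ℝ) ^ N * 4 ^ N = 8 ^ N * 2 ^ N := by
          rw [← mul_pow, ← mul_pow]
          norm_num
        have h7 : (8 : ℝ) ^ N / (4 ^ N * 4 ^ N) = (1 / 2) ^ N := by
          rw [h6, div_pow, one_pow]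
          field_simp
        rw [hc, ← h7, hu]
        field_simp
      linarith
    have h1 := intervalIntegral.integral_mono_on ht intervalIntegrable_const
      (ii_of (flux_cont' (β := β) hcs N) h0t htt) hpt
    rw [intervalIntegral.integral_const, smul_eq_mul, sub_zero] at h1
    linarith
  have hlim : Tendsto (fun N : ℕ => ∑' j, X j s ^ 2 + 2 * (c * (1 / 2) ^ N * t)) atTop
      (𝓝 (∑' j, X j s ^ 2)) := by
    have h3 : Tendsto (fun N : ℕ => (1 / 2 : ℝ) ^ N) atTop (𝓝 0) :=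
      tendsto_pow_atTop_nhds_zero_of_lt_one (by norm_num) (by norm_num)
    have h4 := (((h3.const_mul c).mul_const t).const_mul 2).const_add (∑' j, X j s ^ 2)
    rw [mul_zero, zero_mul, mul_zero, add_zero] at h4
    exact h4
  refine ge_of_tendsto hlim ?_
  filter_upwards [eventually_ge_atTop (max L N₀)] with N hN
  have hNL : L ≤ N := (le_max_left _ _).trans hN
  have h1 := solT_id hsh (fun _ => continuousOn_const) N htt
  rw [sum0, mul_zero, add_zero] at h1
  have h2 := hsm.sum_le_tsum (tre D N) fun j _ => sq_nonneg _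
  have h3 : ∑ j ∈ tre D L, X j (s + t) ^ 2 ≤ ∑ j ∈ tre D N, X j (s + t) ^ 2 :=
    Finset.sum_le_sum_of_subset_of_nonneg (tre_mono hNL) fun j _ _ => sq_nonneg _
  have h4 : ∫ r in (0 : ℝ)..t, ∑ j ∈ tre D L, (4 : ℝ) ^ j.length * X j (s + r) ^ 2
      ≤ ∫ r in (0 : ℝ)..t, ∑ j ∈ tre D N, (4 : ℝ) ^ j.length * X j (s + r) ^ 2 :=
    intervalIntegral.integral_mono_on ht (ii_of (sum4_cont hcs L) h0t htt)
      (ii_of (sum4_cont hcs N) h0t htt) fun r _ =>
      Finset.sum_le_sum_of_subset_of_nonneg (tre_mono hNL) fun j _ _ => by positivity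
  have h5 := mul_le_mul_of_nonneg_left h4 (by positivity : 0 ≤ 2 * ν)
  have h6 := hflux N ((le_max_right _ _).trans hN)
  linarith

/-- **All the weak solutions are smooth for positive times**, `β ≤ 3`. -/
theorem wk_smooth (hD : 0 < D) (hβ : β ≤ 3) (hν : 0 < ν) (hX : WkSol β ν x X) {τ : ℝ} (r : ℝ)
    (hτ : 0 < τ) : ∃ K, ∀ (j : Nd D) t, τ ≤ t → (2 : ℝ) ^ (r * j.length) * |X j t| ≤ K := by
  have hτ2 : 0 < τ / 2 := by linarith
  have hLH : LH β ν (fun j => X j (τ / 2)) (fun j t => X j (τ / 2 + t)) := by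
    refine ⟨shift0 hX.sol hτ2.le, ei_shift.2 (wk_ei hD hβ hν hX hτ2), ?_⟩
    refine Eventually.of_forall fun s hs => ?_
    have h1 := wk_ei hD hβ hν hX (by linarith : 0 < τ / 2 + s)
    rw [← ei_shift] at h1
    rw [← ei_shift]
    simpa only [add_assoc] using h1
  obtain ⟨K, hK⟩ := lh_smooth3 hD hβ hν hLH r hτ2
  refine ⟨K, fun j t ht => ?_⟩
  have h1 := hK j (t - τ / 2) (by linarith)
  have h2 : τ / 2 + (t - τ / 2) = t := by ring
  rwa [h2] at h1

end Pool.Agent.Run7.h32.Tu
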