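import Pool.Agent.Run7.h32.Tu.Decay

/-!
The dyadic model on a tree with `β > log₂(D)/2`: the universal bound `C / t²` of the energy of
nonnegative solutions.
-/

set_option autoImplicit false

open Set Filter Topology MeasureTheory

namespace Pool.Agent.Run7.h32.Tu

open Pool.Agent.Run7.h32.Tr

variable {D : ℕ} {β : ℝ}

/-- **The universal decay of the energy.** -/
theorem decay_univ (hD : 0 < D) (hβ : (D : ℝ) < ((2 : ℝ) ^ β) ^ 2) :
    ∃ C > 0, ∀ (ν : ℝ), 0 < ν → ∀ (x : Nd D → ℝ) (X : Nd D → ℝ → ℝ), (∀ j, 0 ≤ x j) →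
      (Summable fun j => x j ^ 2) → Sol0 β ν x X →
      ∀ t, 0 < t → ∀ N : ℕ, ∑ j ∈ tre D N, X j t ^ 2 ≤ C / t ^ 2 := by
  obtain ⟨T, hT, hd⟩ := decay_all (β := β) hD hβ (by norm_num : (0 : ℝ) < 1 / 4)
  refine ⟨T ^ 2, by positivity, fun ν hν x X hx hx2 hX t ht N => ?_⟩
  have key : ∀ (m : ℕ) (R : ℝ), 0 < R → ∀ (x : Nd D → ℝ) (X : Nd D → ℝ → ℝ), (∀ j, 0 ≤ x j) →
      (∀ N : ℕ, ∑ j ∈ tre D N, x j ^ 2 ≤ (2 ^ m * R) ^ 2) → Sol0 β ν x X →
      ∀ t, (2 - (1 / 2) ^ m) * (T / R) ≤ t → ∀ N : ℕ, ∑ j ∈ tre D N, X j t ^ 2 ≤ R ^ 2 / 4 := by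
    intro m
    induction m with
    | zero =>
      intro R hR x X hx hE hX t ht N
      have h1 := hd ν hν R hR x X hx (fun N => by simpa using hE N) hX t
        (by rw [pow_zero] at ht; linarith) N
      linarith
    | succ m ih =>
      intro R hR x X hx hE hX t ht N
      obtain ⟨τ, hτ⟩ : ∃ τ, τ = T / (2 ^ (m + 1) * R) := ⟨_, rfl⟩
      have hτ0 : 0 ≤ τ := by rw [hτ]; positivity
      have hτ' : τ = (1 / 2) ^ (m + 1) * (T / R) := by
        rw [hτ, one_div, inv_pow]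
        field_simp
      have h1 : ∀ N : ℕ, ∑ j ∈ tre D N, X j τ ^ 2 ≤ (2 ^ m * R) ^ 2 := by
        intro N
        have := hd ν hν (2 ^ (m + 1) * R) (by positivity) x X hx hE hX τ (le_of_eq hτ.symm) N
        refine this.trans (le_of_eq ?_)
        rw [pow_succ]
        ring
      have h2 : (2 - (1 / 2) ^ m) * (T / R) ≤ t - τ := by
        rw [hτ']
        have : (1 / 2 : ℝ) ^ m = 2 * (1 / 2) ^ (m + 1) := by rw [pow_succ]; ring
        rw [this]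
        linarith
      have h3 := ih R hR _ _ (fun j => nn hx hX j hτ0) h1 (shift0 hX hτ0) (t - τ) h2 N
      have h4 : τ + (t - τ) = t := by ring
      simp only [h4] at h3
      exact h3
  obtain ⟨R, hR⟩ : ∃ R, R = 2 * T / t := ⟨_, rfl⟩
  have hR0 : 0 < R := by rw [hR]; positivity
  obtain ⟨S, hS⟩ : ∃ S, S = √(∑' j, x j ^ 2) := ⟨_, rfl⟩
  have hS0 : 0 ≤ S := by rw [hS]; exact Real.sqrt_nonneg _
  have hSS : S ^ 2 = ∑' j, x j ^ 2 := by
    rw [hS]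
    exact Real.sq_sqrt (tsum_nonneg fun _ => sq_nonneg _)
  obtain ⟨m, hm⟩ := pow_unbounded_of_one_lt (S / R) one_lt_two
  have h1 : S ≤ 2 ^ m * R := by
    rw [div_lt_iff₀ hR0] at hm
    exact hm.le
  have h2 : ∀ N : ℕ, ∑ j ∈ tre D N, x j ^ 2 ≤ (2 ^ m * R) ^ 2 := fun N =>
    (hx2.sum_le_tsum (tre D N) fun _ _ => sq_nonneg _).trans
      (by rw [← hSS]; exact pow_le_pow_left₀ hS0 h1 2)
  have h3 : (2 - (1 / 2) ^ m) * (T / R) ≤ t := by
    have e1 : 2 * (T / R) = t := by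
      rw [hR]
      field_simp
    have e2 : 0 ≤ (1 / 2 : ℝ) ^ m * (T / R) := by positivity
    linarith
  refine (key m R hR0 x X hx h2 hX t h3 N).trans (le_of_eq ?_)
  rw [hR]
  field_simp
  ring

end Pool.Agent.Run7.h32.Tu
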