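import Pool.Agent.Run7.h32.Tr.Cauchy

/-!
The dyadic model on a tree without force: blow-up for `β > 3 + log₂ D / 2`.
-/

set_option autoImplicit false

open Set Filter Topology MeasureTheory

namespace Pool.Agent.Run7.h32.Tu

open Run7.h969.Dy (pow_mul_nat)
open Pool.Agent.Run7.h32.Tr

variable {D : ℕ} {β ν : ℝ}

/-- the weighted sum over the generations -/
lemma sum_tre_pow {a : ℝ} (ha : 0 ≤ a) (ha1 : D * a < 1) (N : ℕ) :
    ∑ j ∈ tre D N, a ^ j.length ≤ 1 / (1 - D * a) := by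
  have h0 : ∀ n : ℕ, ∑ j ∈ lev D n, a ^ j.length = (D * a) ^ n := by
    intro n
    have h1 : ∑ j ∈ lev D n, a ^ j.length = a ^ n * ∑ _j ∈ lev D n, (1 : ℝ) := by
      rw [Finset.mul_sum]
      refine Finset.sum_congr rfl fun j hj => ?_
      rw [mem_lev.1 hj, mul_one]
    rw [h1, card_lev, mul_pow, mul_comm]
  have h2 : ∀ N : ℕ, ∑ j ∈ tre D N, a ^ j.length = ∑ n ∈ Finset.range (N + 1), (D * a) ^ n := by
    intro N
    induction N with
    | zero => rw [sum_tre_zero]; simp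
    | succ N ih => rw [sum_tre_succ, ih, h0, Finset.sum_range_succ _ (N + 1)]
  rw [h2, geom_sum_eq (by linarith : D * a ≠ 1)]
  have h3 : ((D * a) ^ (N + 1) - 1) / (D * a - 1) = (1 - (D * a) ^ (N + 1)) / (1 - D * a) := by
    rw [← neg_div_neg_eq]
    ring_nf
  rw [h3]
  apply div_le_div_of_nonneg_right _ (by linarith)
  have : 0 ≤ (D * a) ^ (N + 1) := by positivity
  linarith

/-- the first moment of the right hand side -/
lemma moment {B ω : ℝ} (hB : B = 2 ^ β) (hω : 0 < ω) (y : Nd D → ℝ) (N : ℕ) :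
    1 / 2 * (D * ω - 1 / (ω ^ 2 * B)) * ∑ j ∈ tre D N, (ω * B) ^ j.length * y j ^ 2
      - ν * ∑ j ∈ tre D N, (4 * ω) ^ j.length * y j
      - (D * ω * ((ω * B) ^ N * ∑ j ∈ lev D N, y j ^ 2)
        + 1 / (2 * ω ^ 2 * B) * ((ω * B) ^ (N + 1) * ∑ j ∈ lev D (N + 1), y j ^ 2))
      ≤ ∑ j ∈ tre D N, ω ^ j.length * trhs β ν y j := by
  have hB0 : 0 < B := by rw [hB]; exact Real.rpow_pos_of_pos two_pos _
  -- the source
  have ha : ∀ N : ℕ, ∑ j ∈ tre D N, ω ^ j.length * inp β y j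
      = D * ω * ∑ j ∈ tre D N, (ω * B) ^ j.length * y j ^ 2
        - D * ω * ((ω * B) ^ N * ∑ j ∈ lev D N, y j ^ 2) := by
    intro N
    induction N with
    | zero =>
      rw [sum_tre_zero, sum_tre_zero, sum_lev_zero]
      simp [inp]
    | succ N ih =>
      have h1 : ∑ j ∈ lev D (N + 1), ω ^ j.length * inp β y j
          = D * ω * ((ω * B) ^ N * ∑ j ∈ lev D N, y j ^ 2) := by
        rw [sum_lev_succ, Finset.mul_sum, Finset.mul_sum]
        refine Finset.sum_congr rfl fun j hj => ?_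
        simp only [inp, List.length_cons, mem_lev.1 hj]
        rw [Finset.sum_const, Finset.card_univ, Fintype.card_fin, nsmul_eq_mul, pow_mul_nat, ← hB,
          mul_pow, pow_succ]
        ring
      have h2 : ∑ j ∈ lev D (N + 1), (ω * B) ^ j.length * y j ^ 2
          = (ω * B) ^ (N + 1) * ∑ j ∈ lev D (N + 1), y j ^ 2 := by
        rw [Finset.mul_sum]
        exact Finset.sum_congr rfl fun j hj => by rw [mem_lev.1 hj]
      rw [sum_tre_succ, ih, h1, sum_tre_succ N (fun j => (ω * B) ^ j.length * y j ^ 2), h2]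
      ring
  -- the children
  have hc : ∀ N : ℕ, ω * B * ∑ j ∈ tre D N, (ω * B) ^ j.length * ∑ i : Fin D, y (i :: j) ^ 2
      + y [] ^ 2 = ∑ j ∈ tre D (N + 1), (ω * B) ^ j.length * y j ^ 2 := by
    intro N
    induction N with
    | zero =>
      rw [sum_tre_zero, sum_tre_succ, sum_tre_zero, sum_lev_succ, sum_lev_zero]
      simp only [List.length_nil, pow_zero, one_mul, List.length_cons, zero_add, pow_one]
      rw [Finset.mul_sum]
      ring
    | succ N ih =>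
      rw [sum_tre_succ, mul_add, sum_tre_succ (N + 1), ← ih, sum_lev_succ (N + 1)]
      have h1 : ω * B * ∑ j ∈ lev D (N + 1), (ω * B) ^ j.length * ∑ i : Fin D, y (i :: j) ^ 2
          = ∑ j ∈ lev D (N + 1), ∑ i : Fin D, (ω * B) ^ (i :: j).length * y (i :: j) ^ 2 := by
        rw [Finset.mul_sum]
        refine Finset.sum_congr rfl fun j _ => ?_
        rw [Finset.mul_sum, Finset.mul_sum]
        refine Finset.sum_congr rfl fun i _ => ?_
        rw [List.length_cons, pow_succ]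
        ring
      rw [h1]
      ring
  -- the products
  have hb : ∑ j ∈ tre D N, (ω * B) ^ j.length * (y j * ch y j)
      ≤ 1 / 2 * (D * ω) * ∑ j ∈ tre D N, (ω * B) ^ j.length * y j ^ 2
        + 1 / (2 * ω) * ∑ j ∈ tre D N, (ω * B) ^ j.length * ∑ i : Fin D, y (i :: j) ^ 2 := by
    rw [Finset.mul_sum, Finset.mul_sum, ← Finset.sum_add_distrib]
    refine Finset.sum_le_sum fun j _ => ?_
    have h1 : y j * ch y j ≤ ∑ i : Fin D, (1 / 2 * ω * y j ^ 2 + 1 / (2 * ω) * y (i :: j) ^ 2) := by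
      rw [ch, Finset.mul_sum]
      refine Finset.sum_le_sum fun i _ => ?_
      have h2 : 1 / 2 * ω * y j ^ 2 + 1 / (2 * ω) * y (i :: j) ^ 2 - y j * y (i :: j)
          = 1 / (2 * ω) * (ω * y j - y (i :: j)) ^ 2 := by
        field_simp
        ring
      have h3 : 0 ≤ 1 / (2 * ω) * (ω * y j - y (i :: j)) ^ 2 := by positivity
      linarith
    rw [Finset.sum_add_distrib, Finset.sum_const, Finset.card_univ, Fintype.card_fin,
      nsmul_eq_mul, ← Finset.mul_sum] at h1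
    have h4 := mul_le_mul_of_nonneg_left h1 (by positivity : 0 ≤ (ω * B) ^ j.length)
    linarith
  have hsplit : ∑ j ∈ tre D N, ω ^ j.length * trhs β ν y j
      = ∑ j ∈ tre D N, ω ^ j.length * inp β y j
        - ∑ j ∈ tre D N, (ω * B) ^ j.length * (y j * ch y j)
        - ν * ∑ j ∈ tre D N, (4 * ω) ^ j.length * y j := by
    rw [Finset.mul_sum, ← Finset.sum_sub_distrib, ← Finset.sum_sub_distrib]
    refine Finset.sum_congr rfl fun j _ => ?_
    rw [trhs, pow_mul_nat, ← hB, mul_pow, mul_pow]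
    ring
  have hc' := hc N
  rw [sum_tre_succ] at hc'
  have h2 : ∑ j ∈ lev D (N + 1), (ω * B) ^ j.length * y j ^ 2
      = (ω * B) ^ (N + 1) * ∑ j ∈ lev D (N + 1), y j ^ 2 := by
    rw [Finset.mul_sum]
    exact Finset.sum_congr rfl fun j hj => by rw [mem_lev.1 hj]
  rw [h2] at hc'
  obtain ⟨P, hP⟩ : ∃ P, P = ∑ j ∈ tre D N, (ω * B) ^ j.length * y j ^ 2 := ⟨_, rfl⟩
  obtain ⟨S, hS⟩ : ∃ S, S = ∑ j ∈ tre D N, (ω * B) ^ j.length * ∑ i : Fin D, y (i :: j) ^ 2 :=
    ⟨_, rfl⟩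
  obtain ⟨L, hL⟩ : ∃ L, L = (ω * B) ^ (N + 1) * ∑ j ∈ lev D (N + 1), y j ^ 2 := ⟨_, rfl⟩
  rw [← hP, ← hS, ← hL] at hc'
  rw [← hP, ← hS] at hb
  rw [hsplit, ha N, ← hP, ← hL]
  have h5 : S ≤ (P + L) / (ω * B) := by
    rw [le_div_iff₀ (by positivity)]
    have := sq_nonneg (y [])
    linarith
  have h6 := mul_le_mul_of_nonneg_left h5 (by positivity : 0 ≤ 1 / (2 * ω))
  have h7 : 1 / (2 * ω) * ((P + L) / (ω * B)) = 1 / 2 * (1 / (ω ^ 2 * B)) * P
      + 1 / (2 * ω ^ 2 * B) * L := by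
    field_simp
  linarith

/-- the comparison with the blow-up of `z' = κ z² / 4` -/
lemma riccati {y y' : ℝ → ℝ} {T κ A K₁ : ℝ} (hκ : 0 < κ) (hA : 0 < A) (hK : 0 < K₁)
    (hAK : 4 * K₁ ≤ κ * A ^ 2) (hT : 4 / (κ * A) ≤ T) (hy : ContinuousOn y (Icc 0 T))
    (hd : ∀ t ∈ Ico 0 T, HasDerivWithinAt y (y' t) (Ici t) t)
    (hb : ∀ t ∈ Ico 0 T, κ * y t ^ 2 - K₁ ≤ y' t) (h0 : A ≤ y 0) : False := by
  have hT0 : 0 < T := lt_of_lt_of_le (by positivity) hT
  obtain ⟨Y, hY⟩ := isCompact_Icc.exists_bound_of_continuousOn hy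
  have hY0 : 0 ≤ Y := (norm_nonneg _).trans (hY 0 ⟨le_rfl, hT0.le⟩)
  -- the time
  obtain ⟨θ, hθ⟩ : ∃ θ, θ = A / (Y + 1 + A) := ⟨_, rfl⟩
  have hθ0 : 0 < θ := by rw [hθ]; positivity
  have hθ1 : θ < 1 := by
    rw [hθ, div_lt_one (by positivity)]
    linarith
  obtain ⟨t₁, ht₁⟩ : ∃ t₁, t₁ = 4 / (κ * A) * (1 - θ) := ⟨_, rfl⟩
  have ht₁0 : 0 ≤ t₁ := by
    rw [ht₁]
    exact mul_nonneg (by positivity) (by linarith)
  have ht₁T : t₁ < T := by
    refine lt_of_lt_of_le ?_ hT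
    rw [ht₁]
    have : 0 < 4 / (κ * A) := by positivity
    nlinarith
  have hden : ∀ t ∈ Icc 0 t₁, θ ≤ 1 - κ * A * t / 4 := by
    intro t ht
    have h1 : κ * A * t ≤ κ * A * t₁ := mul_le_mul_of_nonneg_left ht.2 (by positivity)
    have h2 : κ * A * t₁ = 4 * (1 - θ) := by
      rw [ht₁]
      field_simp
    linarith
  have hz : ∀ t ∈ Icc 0 t₁, HasDerivAt (fun t => A / (1 - κ * A * t / 4))
      (κ / 4 * (A / (1 - κ * A * t / 4)) ^ 2) t := by
    intro t ht
    have h1 := hden t ht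
    have h2 : HasDerivAt (fun t : ℝ => 1 - κ * A * t / 4) (-(κ * A / 4)) t := by
      have := (((hasDerivAt_id t).const_mul (κ * A)).div_const 4).const_sub 1
      simpa using this
    have h3 := (hasDerivAt_const t A).div h2 (by linarith)
    refine h3.congr_deriv ?_
    have h4 : 1 - κ * A * t / 4 ≠ 0 := by linarith
    field_simp
    ring
  have key := image_le_of_deriv_right_lt_deriv_boundary' (f := fun t => A / (1 - κ * A * t / 4))
    (f' := fun t => κ / 4 * (A / (1 - κ * A * t / 4)) ^ 2) (a := 0) (b := t₁) (B := y) (B' := y')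
    (fun t ht => (hz t ht).continuousAt.continuousWithinAt)
    (fun t ht => (hz t ⟨ht.1, ht.2.le⟩).hasDerivWithinAt)
    (by simpa using h0) (hy.mono (Icc_subset_Icc_right ht₁T.le))
    (fun t ht => hd t ⟨ht.1, ht.2.trans ht₁T⟩) (fun t ht heq => ?_) ⟨ht₁0, le_rfl⟩
  · have h1 : A / (1 - κ * A * t₁ / 4) ≤ y t₁ := key
    have h2 : 1 - κ * A * t₁ / 4 = θ := by
      rw [ht₁]
      field_simp
      ring
    rw [h2, hθ] at h1
    have h3 : A / (A / (Y + 1 + A)) = Y + 1 + A := by field_simp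
    rw [h3] at h1
    have h4 := (le_abs_self _).trans (hY t₁ ⟨ht₁0, ht₁T.le⟩)
    linarith
  · have h1 := hb t ⟨ht.1, ht.2.trans ht₁T⟩
    have heq' : A / (1 - κ * A * t / 4) = y t := heq
    have h2 : A ≤ y t := by
      rw [← heq', le_div_iff₀ (by linarith [hden t ⟨ht.1, ht.2.le⟩])]
      have : 0 ≤ κ * A * t := mul_nonneg (by positivity) ht.1
      nlinarith
    have h3 : A ^ 2 ≤ y t ^ 2 := pow_le_pow_left₀ hA.le h2 2
    have h4 := mul_le_mul_of_nonneg_left h3 hκ.le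
    show κ / 4 * (A / (1 - κ * A * t / 4)) ^ 2 < y' t
    rw [heq']
    linarith

set_option maxHeartbeats 1000000 in
/-- **Blow-up**: for `β > 3 + log₂ D / 2` and every `T > 0` there are no smooth solutions on `[0, T]`
with large nonnegative data. -/
theorem blow (hD : 0 < D) (hν : 0 < ν) (hβ : D * 64 < ((2 : ℝ) ^ β) ^ 2) {T : ℝ} (hT : 0 < T) :
    ∃ A : ℝ, 0 < A ∧ ∀ (x : Nd D → ℝ) (X : Nd D → ℝ → ℝ), (∀ j, 0 ≤ x j) → A ≤ x [] →
      (∀ j, X j 0 = x j) →
      (∀ j, ∀ t ∈ Icc 0 T, HasDerivWithinAt (X j) (trhs β ν (fun k => X k t) j) (Icc 0 T) t) →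
      ¬ ∀ r : ℝ, ∃ C, ∀ j : Nd D, ∀ t ∈ Icc 0 T, (2 : ℝ) ^ (r * j.length) * |X j t| ≤ C := by
  have hD0 : (0 : ℝ) < D := by exact_mod_cast hD
  have hD1 : (1 : ℝ) ≤ D := by exact_mod_cast hD
  obtain ⟨B, hB⟩ : ∃ B : ℝ, B = 2 ^ β := ⟨_, rfl⟩
  have hB0 : 0 < B := by rw [hB]; exact Real.rpow_pos_of_pos two_pos _
  rw [← hB] at hβ
  -- the ratio
  obtain ⟨A₀, hA₀⟩ : ∃ A₀, A₀ = B ^ 4 / (4096 * (D : ℝ) ^ 2) := ⟨_, rfl⟩
  have hA₀1 : 1 < A₀ := by
    rw [hA₀, lt_div_iff₀ (by positivity)]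
    have h1 : (D * 64 : ℝ) ^ 2 < (B ^ 2) ^ 2 := pow_lt_pow_left₀ hβ (by positivity) two_ne_zero
    linarith
  obtain ⟨u, hu⟩ : ∃ u, u = (1 - 1 / A₀) / 6 := ⟨_, rfl⟩
  have hA₀i : 1 / A₀ < 1 := by rw [div_lt_one (by linarith)]; exact hA₀1
  have hA₀i0 : 0 < 1 / A₀ := by have : 0 < A₀ := by linarith
                                positivity
  have hu0 : 0 < u := by rw [hu]; linarith
  have hu1 : u < 1 / 6 := by rw [hu]; linarith
  obtain ⟨ω, hω⟩ : ∃ ω, ω = B / (16 * D) * (1 - u) := ⟨_, rfl⟩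
  have hω0 : 0 < ω := by
    rw [hω]
    exact mul_pos (by positivity) (by linarith)
  have hi : 1 < D * ω ^ 3 * B := by
    have h1 : D * ω ^ 3 * B = A₀ * (1 - u) ^ 3 := by
      rw [hω, hA₀]
      field_simp
      ring
    have h2 : 1 - 3 * u ≤ (1 - u) ^ 3 := by nlinarith [mul_pos hu0 hu0, mul_pos (mul_pos hu0 hu0) hu0]
    have h3 : 1 / A₀ < (1 - u) ^ 3 := by
      have : 1 - 3 * u = (1 + 1 / A₀) / 2 := by rw [hu]; ring
      linarith
    rw [h1]
    rw [div_lt_iff₀ (by linarith)] at h3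
    linarith
  have hii : 16 * D * ω < B := by
    have h1 : 16 * D * ω = B * (1 - u) := by
      rw [hω]
      field_simp
    rw [h1]
    nlinarith
  -- the constants
  obtain ⟨c, hc⟩ : ∃ c, c = 1 / 2 * (D * ω - 1 / (ω ^ 2 * B)) := ⟨_, rfl⟩
  have hc0 : 0 < c := by
    have h1 : 1 / (ω ^ 2 * B) < D * ω := by
      rw [div_lt_iff₀ (by positivity)]
      linarith
    rw [hc]
    linarith
  obtain ⟨G, hG⟩ : ∃ G, G = 1 / (1 - D * (16 * ω / B)) := ⟨_, rfl⟩
  have h16 : D * (16 * ω / B) < 1 := by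
    rw [mul_div_assoc', div_lt_one hB0]
    linarith
  have hG0 : 0 < G := by
    rw [hG]
    exact div_pos one_pos (by linarith)
  have h1ω : D * (ω / B) < 1 := by
    have h2 : D * (ω / B) ≤ D * (16 * ω / B) := by
      apply mul_le_mul_of_nonneg_left _ hD0.le
      exact div_le_div_of_nonneg_right (by linarith) hB0.le
    linarith
  obtain ⟨K₁, hK₁⟩ : ∃ K₁, K₁ = ν ^ 2 * G / (2 * c) + 1 := ⟨_, rfl⟩
  have hK₁0 : 0 < K₁ := by rw [hK₁]; positivity
  obtain ⟨κ, hκ⟩ : ∃ κ, κ = c / (2 * G) := ⟨_, rfl⟩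
  have hκ0 : 0 < κ := by rw [hκ]; positivity
  obtain ⟨A, hA⟩ : ∃ A, A = 4 / (κ * T) + (4 * K₁ / κ + 1) := ⟨_, rfl⟩
  have hp1 : 0 < 4 / (κ * T) := by positivity
  have hp2 : 0 < 4 * K₁ / κ := by positivity
  have hA1 : 1 ≤ A := by rw [hA]; linarith
  have hA0 : 0 < A := by linarith
  have hAT : 4 / (κ * A) ≤ T := by
    have h1 : 4 / (κ * T) ≤ A := by rw [hA]; linarith
    rw [div_le_iff₀ (by positivity)] at h1 ⊢
    linarith
  have hAK : 4 * K₁ ≤ κ * A ^ 2 := by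
    have h1 : 4 * K₁ / κ ≤ A := by rw [hA]; linarith
    rw [div_le_iff₀ hκ0] at h1
    have h2 : A * κ * 1 ≤ A * κ * A := mul_le_mul_of_nonneg_left hA1 (by positivity)
    linarith
  refine ⟨A, hA0, fun x X hx hxA hX0 hX hsm => ?_⟩
  -- the decay
  obtain ⟨m, hm⟩ := pow_unbounded_of_one_lt (ω * B * D) (by norm_num : (1 : ℝ) < 4)
  obtain ⟨C, hC⟩ := hsm m
  obtain ⟨R, hR⟩ : ∃ R : ℝ, R = 2 ^ m := ⟨_, rfl⟩
  have hR0 : 0 < R := by rw [hR]; positivity
  have hR2 : R ^ 2 = 4 ^ m := by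
    rw [hR, ← pow_mul, mul_comm, pow_mul]
    norm_num
  have hXC : ∀ j : Nd D, ∀ t ∈ Icc 0 T, |X j t| ≤ C / R ^ j.length := by
    intro j t ht
    have h1 := hC j t ht
    rw [pow_mul_nat, Real.rpow_natCast, ← hR] at h1
    rw [le_div_iff₀ (by positivity), mul_comm]
    exact h1
  obtain ⟨σ, hσ⟩ : ∃ σ, σ = ω * B * D / R ^ 2 := ⟨_, rfl⟩
  have hσ0 : 0 < σ := by rw [hσ]; positivity
  have hσ1 : σ < 1 := by
    rw [hσ, div_lt_one (by positivity), hR2]
    exact hm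
  have hlev : ∀ (N : ℕ), ∀ t ∈ Icc 0 T, (ω * B) ^ N * ∑ j ∈ lev D N, X j t ^ 2 ≤ C ^ 2 * σ ^ N := by
    intro N t ht
    have h1 : ∑ j ∈ lev D N, X j t ^ 2 ≤ ∑ _j ∈ lev D N, (C / R ^ N) ^ 2 * 1 := by
      refine Finset.sum_le_sum fun j hj => ?_
      have h2 := hXC j t ht
      rw [mem_lev.1 hj] at h2
      rw [← sq_abs, mul_one]
      exact pow_le_pow_left₀ (abs_nonneg _) h2 2
    rw [← Finset.mul_sum, card_lev] at h1
    refine (mul_le_mul_of_nonneg_left h1 (by positivity)).trans (le_of_eq ?_)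
    rw [hσ, div_pow, div_pow, mul_pow (ω * B) (D : ℝ) N, ← pow_mul, ← pow_mul, mul_comm N 2]
    field_simp
  -- the number of generations
  obtain ⟨W, hW⟩ : ∃ W, W = D * ω * C ^ 2 + 1 / (2 * ω ^ 2 * B) * C ^ 2 := ⟨_, rfl⟩
  have hW0 : 0 ≤ W := by rw [hW]; positivity
  obtain ⟨N, hN⟩ : ∃ N : ℕ, W * σ ^ N ≤ 1 := by
    have h1 : Tendsto (fun N : ℕ => W * σ ^ N) atTop (𝓝 (W * 0)) :=
      (tendsto_pow_atTop_nhds_zero_of_lt_one hσ0.le hσ1).const_mul W
    rw [mul_zero] at h1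
    obtain ⟨N, hN⟩ := (h1.eventually (gt_mem_nhds one_pos)).exists
    exact ⟨N, hN.le⟩
  -- the contradiction
  refine riccati (y := fun t => ∑ j ∈ tre D N, ω ^ j.length * X j t)
    (y' := fun t => ∑ j ∈ tre D N, ω ^ j.length * trhs β ν (fun k => X k t) j) hκ0 hA0 hK₁0 hAK hAT
    ?_ (fun t ht => ?_) (fun t ht => ?_) ?_
  · exact continuousOn_finsetSum _ fun j _ => continuousOn_const.mul
      fun t ht => (hX j t ht).continuousWithinAt
  · have h1 : HasDerivWithinAt (fun t => ∑ j ∈ tre D N, ω ^ j.length * X j t)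
        (∑ j ∈ tre D N, ω ^ j.length * trhs β ν (fun k => X k t) j) (Icc 0 T) t :=
      HasDerivWithinAt.fun_sum fun j _ => (hX j t ⟨ht.1, ht.2.le⟩).const_mul _
    exact h1.mono_of_mem_nhdsWithin (Icc_mem_nhdsGE_of_mem ht)
  · have htI : t ∈ Icc 0 T := ⟨ht.1, ht.2.le⟩
    have h1 := moment (ν := ν) hB hω0 (fun k => X k t) N
    rw [← hc] at h1
    have h2 := hlev N t htI
    have h3 := hlev (N + 1) t htI
    have h4 : C ^ 2 * σ ^ (N + 1) ≤ C ^ 2 * σ ^ N :=
      mul_le_mul_of_nonneg_left (pow_le_pow_of_le_one hσ0.le hσ1.le (Nat.le_succ N)) (sq_nonneg _)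
    have h5 := mul_le_mul_of_nonneg_left h2 (by positivity : 0 ≤ D * ω)
    have h6 := mul_le_mul_of_nonneg_left (h3.trans h4) (by positivity : 0 ≤ 1 / (2 * ω ^ 2 * B))
    have h7 : D * ω * (C ^ 2 * σ ^ N) + 1 / (2 * ω ^ 2 * B) * (C ^ 2 * σ ^ N) = W * σ ^ N := by
      rw [hW]
      ring
    -- the viscous term
    have h8 : ν * ∑ j ∈ tre D N, (4 * ω) ^ j.length * X j t
        ≤ c / 2 * ∑ j ∈ tre D N, (ω * B) ^ j.length * X j t ^ 2 + ν ^ 2 * G / (2 * c) := by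
      have i1 : ν * ∑ j ∈ tre D N, (4 * ω) ^ j.length * X j t
          ≤ ∑ j ∈ tre D N, (c / 2 * ((ω * B) ^ j.length * X j t ^ 2)
            + ν ^ 2 / (2 * c) * (16 * ω / B) ^ j.length) := by
        rw [Finset.mul_sum]
        refine Finset.sum_le_sum fun j _ => ?_
        obtain ⟨a, ha⟩ : ∃ a, a = (ω * B) ^ j.length := ⟨_, rfl⟩
        obtain ⟨b, hb⟩ : ∃ b, b = (16 * ω / B) ^ j.length := ⟨_, rfl⟩
        obtain ⟨e, he⟩ : ∃ e, e = (4 * ω) ^ j.length := ⟨_, rfl⟩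
        have ha0 : 0 < a := by rw [ha]; positivity
        have hab : a * b = e ^ 2 := by
          rw [ha, hb, he, ← mul_pow, ← pow_mul, mul_comm j.length 2, pow_mul]
          congr 1
          field_simp
          norm_num
        rw [← ha, ← hb, ← he]
        have i2 : c / 2 * (a * X j t ^ 2) + ν ^ 2 / (2 * c) * b - ν * (e * X j t)
            = 1 / (2 * c * a) * (c * a * X j t - ν * e) ^ 2 := by
          have hb' : b = e ^ 2 / a := by
            rw [eq_div_iff ha0.ne']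
            linarith
          rw [hb']
          field_simp
          ring
        have i3 : 0 ≤ 1 / (2 * c * a) * (c * a * X j t - ν * e) ^ 2 := by positivity
        linarith
      have i4 := sum_tre_pow (D := D) (a := 16 * ω / B) (by positivity) h16 N
      rw [← hG] at i4
      rw [Finset.sum_add_distrib, ← Finset.mul_sum, ← Finset.mul_sum] at i1
      have i5 := mul_le_mul_of_nonneg_left i4 (by positivity : 0 ≤ ν ^ 2 / (2 * c))
      have i6 : ν ^ 2 / (2 * c) * G = ν ^ 2 * G / (2 * c) := by ring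
      linarith
    -- the square
    have h9 : (∑ j ∈ tre D N, ω ^ j.length * X j t) ^ 2
        ≤ (∑ j ∈ tre D N, (ω * B) ^ j.length * X j t ^ 2) * G := by
      have i1 := Finset.sum_sq_le_sum_mul_sum_of_sq_eq_mul (tre D N)
        (r := fun j : Nd D => ω ^ j.length * X j t) (f := fun j => (ω * B) ^ j.length * X j t ^ 2)
        (g := fun j => (ω / B) ^ j.length) (fun j _ => by positivity) (fun j _ => by positivity)
        (fun j _ => by
          rw [mul_pow, mul_pow, div_pow]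
          field_simp)
      refine i1.trans (mul_le_mul_of_nonneg_left ?_ (Finset.sum_nonneg fun j _ => by positivity))
      refine (sum_tre_pow (by positivity) h1ω N).trans ?_
      rw [hG]
      apply one_div_le_one_div_of_le (by linarith)
      have h2 : D * (ω / B) ≤ D * (16 * ω / B) := by
        apply mul_le_mul_of_nonneg_left _ hD0.le
        exact div_le_div_of_nonneg_right (by linarith) hB0.le
      linarith
    have h10 := mul_le_mul_of_nonneg_left h9 hκ0.le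
    have h11 : κ * ((∑ j ∈ tre D N, (ω * B) ^ j.length * X j t ^ 2) * G)
        = c / 2 * ∑ j ∈ tre D N, (ω * B) ^ j.length * X j t ^ 2 := by
      rw [hκ]
      field_simp
    show κ * (∑ j ∈ tre D N, ω ^ j.length * X j t) ^ 2 - K₁
      ≤ ∑ j ∈ tre D N, ω ^ j.length * trhs β ν (fun k => X k t) j
    rw [h11] at h10
    rw [hK₁]
    linarith
  · show A ≤ ∑ j ∈ tre D N, ω ^ j.length * X j 0
    have h1 : ω ^ ([] : Nd D).length * X [] 0 ≤ ∑ j ∈ tre D N, ω ^ j.length * X j 0 :=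
      Finset.single_le_sum (f := fun j : Nd D => ω ^ j.length * X j 0) (fun j _ => by
        rw [hX0]
        exact mul_nonneg (by positivity) (hx j)) (mem_tre.2 (Nat.zero_le _))
    rw [List.length_nil, pow_zero, one_mul, hX0] at h1
    linarith

end Pool.Agent.Run7.h32.Tu
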