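import Pool.Agent.Run7.h32.Tu.Blow
import Pool.Agent.Run7.h32.Tr.Final

/-!
The dyadic model on a tree without force: blow-up for `β > 3 + log₂ D / 2`, real data with a large
first moment.
-/

set_option autoImplicit false

open Set Filter Topology MeasureTheory

namespace Pool.Agent.Run7.h32.Tu

open Run7.h969.Dy (pow_mul_nat)
open Pool.Agent.Run7.h32.Tr

variable {D : ℕ} {β ν : ℝ}

set_option maxHeartbeats 1000000 in
/-- **Blow-up**: for `β > 3 + log₂ D / 2`, `s > (β + log₂ D) / 3` and every `T > 0` there are no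
solutions on `[0, T]` with the decay `2 ^ (-s |j|)` whose initial values have a large moment. -/
theorem blow2 {ω T s : ℝ} (hD : 0 < D) (hν : 0 < ν) (hω0 : 0 < ω) (hi' : 1 < D * ω ^ 3 * 2 ^ β)
    (hii' : 16 * D * ω < 2 ^ β) (hs : ω * 2 ^ β * D < ((2 : ℝ) ^ s) ^ 2) (hT : 0 < T) :
    ∃ A : ℝ, 0 < A ∧ ∀ (x : Nd D → ℝ) (X : Nd D → ℝ → ℝ), A ≤ ∑' j : Nd D, ω ^ j.length * x j →
      (∀ j, X j 0 = x j) →
      (∀ j, ∀ t ∈ Icc 0 T, HasDerivWithinAt (X j) (trhs β ν (fun k => X k t) j) (Icc 0 T) t) →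
      ¬ ∃ C, ∀ j : Nd D, ∀ t ∈ Icc 0 T, (2 : ℝ) ^ (s * j.length) * |X j t| ≤ C := by
  have hD0 : (0 : ℝ) < D := by exact_mod_cast hD
  have hD1 : (1 : ℝ) ≤ D := by exact_mod_cast hD
  obtain ⟨B, hB⟩ : ∃ B : ℝ, B = 2 ^ β := ⟨_, rfl⟩
  have hB0 : 0 < B := by rw [hB]; exact Real.rpow_pos_of_pos two_pos _
  have hi : 1 < D * ω ^ 3 * B := by rw [hB]; exact hi'
  have hii : 16 * D * ω < B := by rw [hB]; exact hii'
  -- the constants
  obtain ⟨c, hc⟩ : ∃ c, c = 1 / 2 * (D * ω - 1 / (ω ^ 2 * B)) := ⟨_, rfl⟩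
  have hc0 : 0 < c := by
    have h1 : 1 / (ω ^ 2 * B) < D * ω := by
      rw [div_lt_iff₀ (by positivity)]
      linarith
    rw [hc]
    linarith
  obtain ⟨G, hG⟩ : ∃ G, G = 1 / (1 - D * (16 * ω / B)) := ⟨_, rfl⟩
  have h16 : D * (16 * ω / B) < 1 := by
    rw [mul_div_assoc', div_lt_one hB0]
    linarith
  have hG0 : 0 < G := by
    rw [hG]
    exact div_pos one_pos (by linarith)
  have h1ω : D * (ω / B) < 1 := by
    have h2 : D * (ω / B) ≤ D * (16 * ω / B) := by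
      apply mul_le_mul_of_nonneg_left _ hD0.le
      exact div_le_div_of_nonneg_right (by linarith) hB0.le
    linarith
  obtain ⟨K₁, hK₁⟩ : ∃ K₁, K₁ = ν ^ 2 * G / (2 * c) + 1 := ⟨_, rfl⟩
  have hK₁0 : 0 < K₁ := by rw [hK₁]; positivity
  obtain ⟨κ, hκ⟩ : ∃ κ, κ = c / (2 * G) := ⟨_, rfl⟩
  have hκ0 : 0 < κ := by rw [hκ]; positivity
  obtain ⟨A, hA⟩ : ∃ A, A = 4 / (κ * T) + (4 * K₁ / κ + 1) := ⟨_, rfl⟩
  have hp1 : 0 < 4 / (κ * T) := by positivity
  have hp2 : 0 < 4 * K₁ / κ := by positivity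
  have hA1 : 1 ≤ A := by rw [hA]; linarith
  have hA0 : 0 < A := by linarith
  have hAT : 4 / (κ * A) ≤ T := by
    have h1 : 4 / (κ * T) ≤ A := by rw [hA]; linarith
    rw [div_le_iff₀ (by positivity)] at h1 ⊢
    linarith
  have hAK : 4 * K₁ ≤ κ * A ^ 2 := by
    have h1 : 4 * K₁ / κ ≤ A := by rw [hA]; linarith
    rw [div_le_iff₀ hκ0] at h1
    have h2 : A * κ * 1 ≤ A * κ * A := mul_le_mul_of_nonneg_left hA1 (by positivity)
    linarith
  refine ⟨A + 1, by linarith, fun x X hxA hX0 hX hsm => ?_⟩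
  have hsx : Summable fun j : Nd D => ω ^ j.length * x j := by
    by_contra h
    rw [tsum_eq_zero_of_not_summable h] at hxA
    linarith
  -- the decay
  obtain ⟨C, hC⟩ := hsm
  obtain ⟨R, hR⟩ : ∃ R : ℝ, R = 2 ^ s := ⟨_, rfl⟩
  have hR0 : 0 < R := by rw [hR]; exact Real.rpow_pos_of_pos two_pos _
  rw [← hB, ← hR] at hs
  have hXC : ∀ j : Nd D, ∀ t ∈ Icc 0 T, |X j t| ≤ C / R ^ j.length := by
    intro j t ht
    have h1 := hC j t ht
    rw [pow_mul_nat, ← hR] at h1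
    rw [le_div_iff₀ (by positivity), mul_comm]
    exact h1
  obtain ⟨σ, hσ⟩ : ∃ σ, σ = ω * B * D / R ^ 2 := ⟨_, rfl⟩
  have hσ0 : 0 < σ := by rw [hσ]; positivity
  have hσ1 : σ < 1 := by
    rw [hσ, div_lt_one (by positivity)]
    exact hs
  have hlev : ∀ (N : ℕ), ∀ t ∈ Icc 0 T, (ω * B) ^ N * ∑ j ∈ lev D N, X j t ^ 2 ≤ C ^ 2 * σ ^ N := by
    intro N t ht
    have h1 : ∑ j ∈ lev D N, X j t ^ 2 ≤ ∑ _j ∈ lev D N, (C / R ^ N) ^ 2 * 1 := by
      refine Finset.sum_le_sum fun j hj => ?_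
      have h2 := hXC j t ht
      rw [mem_lev.1 hj] at h2
      rw [← sq_abs, mul_one]
      exact pow_le_pow_left₀ (abs_nonneg _) h2 2
    rw [← Finset.mul_sum, card_lev] at h1
    refine (mul_le_mul_of_nonneg_left h1 (by positivity)).trans (le_of_eq ?_)
    rw [hσ, div_pow, div_pow, mul_pow (ω * B) (D : ℝ) N, ← pow_mul, ← pow_mul, mul_comm N 2]
    field_simp
  -- the number of generations
  obtain ⟨W, hW⟩ : ∃ W, W = D * ω * C ^ 2 + 1 / (2 * ω ^ 2 * B) * C ^ 2 := ⟨_, rfl⟩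
  have hW0 : 0 ≤ W := by rw [hW]; positivity
  obtain ⟨N, hN, hNx⟩ : ∃ N : ℕ, W * σ ^ N ≤ 1 ∧ A ≤ ∑ j ∈ tre D N, ω ^ j.length * x j := by
    have h1 : Tendsto (fun N : ℕ => W * σ ^ N) atTop (𝓝 (W * 0)) :=
      (tendsto_pow_atTop_nhds_zero_of_lt_one hσ0.le hσ1).const_mul W
    rw [mul_zero] at h1
    have h2 := sum_tre_tendsto hsx
    have h3 : A < ∑' j : Nd D, ω ^ j.length * x j := by linarith
    obtain ⟨N, hN, hN'⟩ := ((h1.eventually (gt_mem_nhds one_pos)).and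
      (h2.eventually (lt_mem_nhds h3))).exists
    exact ⟨N, hN.le, hN'.le⟩
  -- the contradiction
  refine riccati (y := fun t => ∑ j ∈ tre D N, ω ^ j.length * X j t)
    (y' := fun t => ∑ j ∈ tre D N, ω ^ j.length * trhs β ν (fun k => X k t) j) hκ0 hA0 hK₁0 hAK hAT
    ?_ (fun t ht => ?_) (fun t ht => ?_) ?_
  · exact continuousOn_finsetSum _ fun j _ => continuousOn_const.mul
      fun t ht => (hX j t ht).continuousWithinAt
  · have h1 : HasDerivWithinAt (fun t => ∑ j ∈ tre D N, ω ^ j.length * X j t)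
        (∑ j ∈ tre D N, ω ^ j.length * trhs β ν (fun k => X k t) j) (Icc 0 T) t :=
      HasDerivWithinAt.fun_sum fun j _ => (hX j t ⟨ht.1, ht.2.le⟩).const_mul _
    exact h1.mono_of_mem_nhdsWithin (Icc_mem_nhdsGE_of_mem ht)
  · have htI : t ∈ Icc 0 T := ⟨ht.1, ht.2.le⟩
    have h1 := moment (ν := ν) hB hω0 (fun k => X k t) N
    rw [← hc] at h1
    have h2 := hlev N t htI
    have h3 := hlev (N + 1) t htI
    have h4 : C ^ 2 * σ ^ (N + 1) ≤ C ^ 2 * σ ^ N :=
      mul_le_mul_of_nonneg_left (pow_le_pow_of_le_one hσ0.le hσ1.le (Nat.le_succ N)) (sq_nonneg _)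
    have h5 := mul_le_mul_of_nonneg_left h2 (by positivity : 0 ≤ D * ω)
    have h6 := mul_le_mul_of_nonneg_left (h3.trans h4) (by positivity : 0 ≤ 1 / (2 * ω ^ 2 * B))
    have h7 : D * ω * (C ^ 2 * σ ^ N) + 1 / (2 * ω ^ 2 * B) * (C ^ 2 * σ ^ N) = W * σ ^ N := by
      rw [hW]
      ring
    -- the viscous term
    have h8 : ν * ∑ j ∈ tre D N, (4 * ω) ^ j.length * X j t
        ≤ c / 2 * ∑ j ∈ tre D N, (ω * B) ^ j.length * X j t ^ 2 + ν ^ 2 * G / (2 * c) := by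
      have i1 : ν * ∑ j ∈ tre D N, (4 * ω) ^ j.length * X j t
          ≤ ∑ j ∈ tre D N, (c / 2 * ((ω * B) ^ j.length * X j t ^ 2)
            + ν ^ 2 / (2 * c) * (16 * ω / B) ^ j.length) := by
        rw [Finset.mul_sum]
        refine Finset.sum_le_sum fun j _ => ?_
        obtain ⟨a, ha⟩ : ∃ a, a = (ω * B) ^ j.length := ⟨_, rfl⟩
        obtain ⟨b, hb⟩ : ∃ b, b = (16 * ω / B) ^ j.length := ⟨_, rfl⟩
        obtain ⟨e, he⟩ : ∃ e, e = (4 * ω) ^ j.length := ⟨_, rfl⟩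
        have ha0 : 0 < a := by rw [ha]; positivity
        have hab : a * b = e ^ 2 := by
          rw [ha, hb, he, ← mul_pow, ← pow_mul, mul_comm j.length 2, pow_mul]
          congr 1
          field_simp
          norm_num
        rw [← ha, ← hb, ← he]
        have i2 : c / 2 * (a * X j t ^ 2) + ν ^ 2 / (2 * c) * b - ν * (e * X j t)
            = 1 / (2 * c * a) * (c * a * X j t - ν * e) ^ 2 := by
          have hb' : b = e ^ 2 / a := by
            rw [eq_div_iff ha0.ne']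
            linarith
          rw [hb']
          field_simp
          ring
        have i3 : 0 ≤ 1 / (2 * c * a) * (c * a * X j t - ν * e) ^ 2 := by positivity
        linarith
      have i4 := sum_tre_pow (D := D) (a := 16 * ω / B) (by positivity) h16 N
      rw [← hG] at i4
      rw [Finset.sum_add_distrib, ← Finset.mul_sum, ← Finset.mul_sum] at i1
      have i5 := mul_le_mul_of_nonneg_left i4 (by positivity : 0 ≤ ν ^ 2 / (2 * c))
      have i6 : ν ^ 2 / (2 * c) * G = ν ^ 2 * G / (2 * c) := by ring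
      linarith
    -- the square
    have h9 : (∑ j ∈ tre D N, ω ^ j.length * X j t) ^ 2
        ≤ (∑ j ∈ tre D N, (ω * B) ^ j.length * X j t ^ 2) * G := by
      have i1 := Finset.sum_sq_le_sum_mul_sum_of_sq_eq_mul (tre D N)
        (r := fun j : Nd D => ω ^ j.length * X j t) (f := fun j => (ω * B) ^ j.length * X j t ^ 2)
        (g := fun j => (ω / B) ^ j.length) (fun j _ => by positivity) (fun j _ => by positivity)
        (fun j _ => by
          rw [mul_pow, mul_pow, div_pow]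
          field_simp)
      refine i1.trans (mul_le_mul_of_nonneg_left ?_ (Finset.sum_nonneg fun j _ => by positivity))
      refine (sum_tre_pow (by positivity) h1ω N).trans ?_
      rw [hG]
      apply one_div_le_one_div_of_le (by linarith)
      have h2 : D * (ω / B) ≤ D * (16 * ω / B) := by
        apply mul_le_mul_of_nonneg_left _ hD0.le
        exact div_le_div_of_nonneg_right (by linarith) hB0.le
      linarith
    have h10 := mul_le_mul_of_nonneg_left h9 hκ0.le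
    have h11 : κ * ((∑ j ∈ tre D N, (ω * B) ^ j.length * X j t ^ 2) * G)
        = c / 2 * ∑ j ∈ tre D N, (ω * B) ^ j.length * X j t ^ 2 := by
      rw [hκ]
      field_simp
    show κ * (∑ j ∈ tre D N, ω ^ j.length * X j t) ^ 2 - K₁
      ≤ ∑ j ∈ tre D N, ω ^ j.length * trhs β ν (fun k => X k t) j
    rw [h11] at h10
    rw [hK₁]
    linarith
  · show A ≤ ∑ j ∈ tre D N, ω ^ j.length * X j 0
    simp only [hX0]
    exact hNx

/-- the ratio of the weights -/
lemma exists_om {s : ℝ} (hD : 0 < D) (hβ : D * 64 < ((2 : ℝ) ^ β) ^ 2)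
    (hs : D * 2 ^ β < ((2 : ℝ) ^ s) ^ 3) :
    ∃ ω : ℝ, 0 < ω ∧ ω < 1 ∧ 1 < D * ω ^ 3 * 2 ^ β ∧ 16 * D * ω < 2 ^ β ∧
      ω * 2 ^ β * D < ((2 : ℝ) ^ s) ^ 2 := by
  have hD0 : (0 : ℝ) < D := by exact_mod_cast hD
  have hD1 : (1 : ℝ) ≤ D := by exact_mod_cast hD
  obtain ⟨B, hB⟩ : ∃ B : ℝ, B = 2 ^ β := ⟨_, rfl⟩
  have hB0 : 0 < B := by rw [hB]; exact Real.rpow_pos_of_pos two_pos _
  obtain ⟨R, hR⟩ : ∃ R : ℝ, R = 2 ^ s := ⟨_, rfl⟩
  have hR0 : 0 < R := by rw [hR]; exact Real.rpow_pos_of_pos two_pos _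
  rw [← hB] at hβ
  rw [← hB, ← hR] at hs ⊢
  have hB1 : 1 < B := by nlinarith
  obtain ⟨m', hm'⟩ : ∃ m', m' = min 1 (B / (16 * D)) := ⟨_, rfl⟩
  have hm'0 : 0 < m' := by rw [hm']; exact lt_min one_pos (by positivity)
  obtain ⟨m, hm⟩ : ∃ m, m = min m' (R ^ 2 / (B * D)) := ⟨_, rfl⟩
  have hm0 : 0 < m := by rw [hm]; exact lt_min hm'0 (by positivity)
  have hmm : m ≤ m' := by rw [hm]; exact min_le_left _ _
  have hm1 : m ≤ 1 := hmm.trans (by rw [hm']; exact min_le_left _ _)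
  have hm2 : m ≤ B / (16 * D) := hmm.trans (by rw [hm']; exact min_le_right _ _)
  have hm3 : m ≤ R ^ 2 / (B * D) := by rw [hm]; exact min_le_right _ _
  obtain ⟨A₀, hA₀⟩ : ∃ A₀, A₀ = D * m ^ 3 * B := ⟨_, rfl⟩
  have hA₀1 : 1 < A₀ := by
    rcases le_total m' (R ^ 2 / (B * D)) with h' | h'
    · have hmm' : m = m' := by rw [hm, min_eq_left h']
      rcases le_total 1 (B / (16 * D)) with h | h
      · have h1 : m = 1 := by rw [hmm', hm', min_eq_left h]
        rw [hA₀, h1]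
        nlinarith
      · have h1 : m = B / (16 * D) := by rw [hmm', hm', min_eq_right h]
        have h2 : A₀ = B ^ 4 / (4096 * (D : ℝ) ^ 2) := by
          rw [hA₀, h1]
          field_simp
          norm_num
        rw [h2, lt_div_iff₀ (by positivity)]
        have h1 : (D * 64 : ℝ) ^ 2 < (B ^ 2) ^ 2 := pow_lt_pow_left₀ hβ (by positivity) two_ne_zero
        linarith
    · have h1 : m = R ^ 2 / (B * D) := by rw [hm, min_eq_right h']
      have h2 : A₀ = (R ^ 3) ^ 2 / (D * B) ^ 2 := by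
        rw [hA₀, h1]
        field_simp
      rw [h2, lt_div_iff₀ (by positivity), one_mul]
      exact pow_lt_pow_left₀ hs (by positivity) two_ne_zero
  obtain ⟨u, hu⟩ : ∃ u, u = (1 - 1 / A₀) / 6 := ⟨_, rfl⟩
  have hA₀i : 1 / A₀ < 1 := by rw [div_lt_one (by linarith)]; exact hA₀1
  have hA₀i0 : 0 < 1 / A₀ := by have : 0 < A₀ := by linarith
                                positivity
  have hu0 : 0 < u := by rw [hu]; linarith
  have hu1 : u < 1 / 6 := by rw [hu]; linarith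
  have hlt : m * (1 - u) < m := by nlinarith
  refine ⟨m * (1 - u), mul_pos hm0 (by linarith), hlt.trans_le hm1, ?_, ?_, ?_⟩
  · have h1 : D * (m * (1 - u)) ^ 3 * B = A₀ * (1 - u) ^ 3 := by
      rw [hA₀]
      ring
    have h2 : 1 - 3 * u ≤ (1 - u) ^ 3 := by nlinarith [mul_pos hu0 hu0, mul_pos (mul_pos hu0 hu0) hu0]
    have h3 : 1 / A₀ < (1 - u) ^ 3 := by
      have : 1 - 3 * u = (1 + 1 / A₀) / 2 := by rw [hu]; ring
      linarith
    rw [h1]
    rw [div_lt_iff₀ (by linarith)] at h3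
    linarith
  · have h1 := hlt.trans_le hm2
    rw [lt_div_iff₀ (by positivity)] at h1
    linarith
  · have h1 := hlt.trans_le hm3
    rw [lt_div_iff₀ (by positivity)] at h1
    linarith

end Pool.Agent.Run7.h32.Tu
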