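import Pool.Agent.Run7.h32.Tr.Inv
import Pool.Agent.Run7.h969.Dz.Par

/-!
The dyadic model on a tree: the invariant region, with a lower bound of the viscosity.
-/

set_option autoImplicit false

open Set Filter Topology MeasureTheory

namespace Pool.Agent.Run7.h32.Tu

open Run7.h969.Dy (pow_mul_nat barrier)
open Run7.h969.Dz (PP Reg)
open Pool.Agent.Run7.h32.Tr

variable {D : ℕ}

/-- The parameters of an invariant region with the margin `μ`, for the viscosities `ν ≥ νm`. -/
structure RegN (κ Q ρ a₁ a₂ b₂ c d lam νm μ : ℝ) : Prop where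
  κ0 : 0 < κ
  κQ : κ ≤ Q
  Q1 : 1 ≤ Q
  ρ1 : 1 < ρ
  a1 : 1 < a₁
  a14 : a₁ ≤ 4
  a2 : 1 ≤ a₂
  a24 : a₂ ≤ 4
  b2 : 0 < b₂
  ab2 : a₂ - b₂ ≤ 1
  c4 : 1 / 4 ≤ c
  c1 : c ≤ 1
  d0 : 0 < d
  cd : 1 ≤ c + d
  l0 : 0 < lam
  l1 : lam < 1
  kl : ∀ ν : ℝ, 0 < ν → νm ≤ ν → 1 ≤ κ + lam * ν
  low1 : ∀ w x y z ν : ℝ, 0 < ν → νm ≤ ν → 0 ≤ w → w ≤ 1 → 0 ≤ x → x ≤ 1 → 0 ≤ y → y ≤ 1 → 0 ≤ z →
    a₁ * w - (a₁ - 1) ≤ κ * x + lam * (ν / ρ) → a₂ * x - b₂ ≤ κ * y + lam * ν → z ≤ c * y + d →
    κ * y + lam * ν = a₁ * x - (a₁ - 1) →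
      μ ≤ κ * (4 / ρ) * (x ^ 2 - κ * (y * z) - ρ * ν * y) - a₁ * (w ^ 2 - κ * (x * y) - ν * x)
  low2 : ∀ w x y z ν : ℝ, 0 < ν → νm ≤ ν → 0 ≤ w → w ≤ 1 → 0 ≤ x → x ≤ 1 → 0 ≤ y → y ≤ 1 → 0 ≤ z →
    a₁ * w - (a₁ - 1) ≤ κ * x + lam * (ν / ρ) → a₁ * x - (a₁ - 1) ≤ κ * y + lam * ν →
    z ≤ c * y + d → κ * y + lam * ν = a₂ * x - b₂ →
      μ ≤ κ * (4 / ρ) * (x ^ 2 - κ * (y * z) - ρ * ν * y) - a₂ * (w ^ 2 - κ * (x * y) - ν * x)
  upp : ∀ w x y z ν : ℝ, 0 < ν → νm ≤ ν → 0 ≤ w → w ≤ 1 → 0 ≤ x → x ≤ 1 → 0 ≤ y → y ≤ 1 → 0 ≤ z →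
    x ≤ c * w + d → a₁ * y - (a₁ - 1) ≤ κ * z + lam * (ρ * ν) →
    a₂ * y - b₂ ≤ κ * z + lam * (ρ * ν) → y = c * x + d →
      μ ≤ c * (w ^ 2 - κ * (x * y) - ν * x) - (4 / ρ) * (x ^ 2 - κ * (y * z) - ρ * ν * y)

lemma RegN.of_reg {κ Q ρ a₁ a₂ b₂ c d lam νm μ : ℝ} (h : Reg κ ρ a₁ a₂ b₂ c d lam νm μ)
    (hκQ : κ ≤ Q) (hQ : 1 ≤ Q) : RegN κ Q ρ a₁ a₂ b₂ c d lam νm μ where
  κ0 := h.κ0
  κQ := hκQ
  Q1 := hQ
  ρ1 := h.ρ1
  a1 := h.a1
  a14 := h.a14
  a2 := h.a2
  a24 := h.a24
  b2 := h.b2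
  ab2 := h.ab2
  c4 := by linarith [h.c2]
  c1 := h.c1
  d0 := h.d0
  cd := h.cd
  l0 := h.l0
  l1 := h.l1
  kl := h.kl
  low1 := h.low1
  low2 := h.low2
  upp := h.upp

lemma RegN.of_regT {κ Q ρ a₁ a₂ b₂ c d lam μ : ℝ} (h : RegT κ Q ρ a₁ a₂ b₂ c d lam μ) :
    RegN κ Q ρ a₁ a₂ b₂ c d lam 0 μ where
  κ0 := h.κ0
  κQ := h.κQ
  Q1 := h.Q1
  ρ1 := h.ρ1
  a1 := h.a1
  a14 := h.a14
  a2 := h.a2
  a24 := h.a24
  b2 := h.b2
  ab2 := h.ab2
  c4 := h.c4
  c1 := h.c1
  d0 := h.d0
  cd := h.cd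
  l0 := h.l0
  l1 := h.l1
  kl := fun ν hν _ => h.kl ν hν
  low1 := fun w x y z ν hν _ => h.low1 w x y z ν hν
  low2 := fun w x y z ν hν _ => h.low2 w x y z ν hν
  upp := fun w x y z ν hν _ => h.upp w x y z ν hν

set_option maxHeartbeats 1000000 in
/-- The invariant region with a force. -/
theorem invariantN {κ Q ρ a₁ a₂ b₂ c d lam νm μ : ℝ} (hR : RegN κ Q ρ a₁ a₂ b₂ c d lam νm μ)
    {T C₀ ν₀ δ e γ : ℝ} {N : ℕ} (hD : 0 < D) (hC₀ : 0 < C₀) (hν₀ : 0 < ν₀) (hνm : νm ≤ ν₀) (he : 0 ≤ e)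
    (he1 : e ≤ 1) (hγ : 0 ≤ γ) (heμ : 20 * Q ^ 2 * e + 8 * Q * γ < μ)
    (heν : κ * e + γ < (1 - lam) * ν₀)
    (W H : Nd D → ℝ → ℝ) (hH : ∀ j, j.length ≤ N → ∀ t ∈ Icc 0 T, |H j t| ≤ γ)
    (hneg : ∀ t ∈ Icc 0 T, ∀ j, -e ≤ W j t) (hz : ∀ j, N < j.length → ∀ t, W j t = 0)
    (hcont : ContinuousOn (W []) (Icc 0 T))
    (hode : ∀ (i : Fin D) (j : Nd D), j.length + 1 ≤ N → ∀ t ∈ Icc 0 T,
      HasDerivWithinAt (W (i :: j))
      (C₀ * (4 / ρ) ^ (j.length + 1) * (W j t ^ 2
        - κ * (W (i :: j) t * (ch (fun k => W k t) (i :: j) / D))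
        - ρ ^ (j.length + 1) * ν₀ * W (i :: j) t + H (i :: j) t)) (Icc 0 T) t)
    (hδ1 : δ < 1) (hδa : a₁ * δ < a₁ - 1) (hδb : a₂ * δ < b₂) (hδd : δ < d)
    (hsmall : ∀ t ∈ Icc 0 T, W [] t ≤ δ ∧ ∀ i, W [i] t ≤ δ) (hinit : ∀ j, W j 0 ≤ δ)
    (hT : 0 ≤ T) (hN : 1 < lam * (ρ ^ N * ν₀)) :
    ∀ j, ∀ t ∈ Icc 0 T, W j t ≤ 1 := by
  have hρ : 0 < ρ := by linarith [hR.ρ1]
  have ha1 : 0 < a₁ := by linarith [hR.a1]
  have ha2 : 0 < a₂ := by linarith [hR.a2]
  have hc0 : 0 < c := by linarith [hR.c4]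
  have hQ0 : 0 < Q := by linarith [hR.Q1]
  have hD' : (0 : ℝ) < D := by exact_mod_cast hD
  have hWc : ∀ j, ContinuousOn (W j) (Icc 0 T) := by
    intro j
    cases j with
    | nil => exact hcont
    | cons i j =>
      by_cases hm : j.length + 1 ≤ N
      · exact fun t ht => (hode i j hm t ht).continuousWithinAt
      · have h1 : W (i :: j) = fun _ => 0 :=
          funext fun t => hz _ (by rw [List.length_cons]; omega) t
        rw [h1]
        exact continuousOn_const
  have hνn : ∀ n, 0 < lam * (ρ ^ n * ν₀) := fun n => mul_pos hR.l0 (by positivity)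
  have key := barrier (ι := Fin 4 × Fin D × {j : Nd D // j ∈ tre D N}) (T := T)
    (fun i t => GT κ ρ a₁ a₂ b₂ c d lam ν₀ e W i.1 i.2.1 i.2.2 t) ?_ ?_ ?_
  · intro j t ht
    by_cases hn : j.length ≤ N
    · have h1 := key (0, ⟨0, hD⟩, ⟨j, mem_tre.2 hn⟩) t ht
      simp only [GT, Matrix.cons_val_zero] at h1
      linarith
    · rw [hz j (by omega) t]
      exact zero_le_one
  · -- continuity
    rintro ⟨q, i, j, hj⟩
    have h1 := hWc j
    have h2 := hWc (i :: j)
    fin_cases q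
    · exact continuousOn_const.sub h1
    · exact (((h2.add continuousOn_const).const_smul κ).add continuousOn_const).sub
        ((h1.const_smul a₁).sub continuousOn_const)
    · exact (((h2.add continuousOn_const).const_smul κ).add continuousOn_const).sub
        ((h1.const_smul a₂).sub continuousOn_const)
    · exact (((h1.add continuousOn_const).const_smul c).add continuousOn_const).sub h2
  · -- the time zero
    rintro ⟨q, i, j, hj⟩
    have h1 := hinit j
    have h2 := hinit (i :: j)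
    have h3 := hneg 0 ⟨le_rfl, hT⟩ j
    have h4 := hneg 0 ⟨le_rfl, hT⟩ (i :: j)
    have h5 := hνn j.length
    have h6 : 0 ≤ κ * (W (i :: j) 0 + e) := mul_nonneg hR.κ0.le (by linarith)
    fin_cases q
    · show 0 < 1 - W j 0
      linarith
    · show 0 < κ * (W (i :: j) 0 + e) + lam * (ρ ^ j.length * ν₀) - (a₁ * W j 0 - (a₁ - 1))
      have h7 : a₁ * W j 0 ≤ a₁ * δ := mul_le_mul_of_nonneg_left h1 ha1.le
      linarith
    · show 0 < κ * (W (i :: j) 0 + e) + lam * (ρ ^ j.length * ν₀) - (a₂ * W j 0 - b₂)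
      have h7 : a₂ * W j 0 ≤ a₂ * δ := mul_le_mul_of_nonneg_left h1 ha2.le
      linarith
    · show 0 < c * (W j 0 + e) + d - W (i :: j) 0
      have h7 : 0 ≤ c * (W j 0 + e) := mul_nonneg hc0.le (by linarith)
      linarith
  · -- the contact
    rintro ⟨q, i₁, j, hj⟩ t ht hall hcontact
    have hjN := mem_tre.1 hj
    have htI : t ∈ Icc 0 T := ⟨ht.1.le, ht.2⟩
    have hW0 := hneg t htI
    have hW1 : ∀ k, W k t ≤ 1 := by
      intro k
      by_cases hm : k.length ≤ N
      · have h1 := hall (0, ⟨0, hD⟩, ⟨k, mem_tre.2 hm⟩)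
        simp only [GT, Matrix.cons_val_zero] at h1
        linarith
      · rw [hz k (by omega) t]
        exact zero_le_one
    have hPP : ∀ (k : Nd D) (i : Fin D),
        PP κ a₁ a₂ b₂ c d lam e (W k t) (W (i :: k) t) (ρ ^ k.length * ν₀) := by
      intro k i
      by_cases hm : k.length ≤ N
      · have h1 := hall (1, i, ⟨k, mem_tre.2 hm⟩)
        have h2 := hall (2, i, ⟨k, mem_tre.2 hm⟩)
        have h3 := hall (3, i, ⟨k, mem_tre.2 hm⟩)
        have h1' : 0 ≤ κ * (W (i :: k) t + e) + lam * (ρ ^ k.length * ν₀)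
          - (a₁ * W k t - (a₁ - 1)) := h1
        have h2' : 0 ≤ κ * (W (i :: k) t + e) + lam * (ρ ^ k.length * ν₀)
          - (a₂ * W k t - b₂) := h2
        have h3' : 0 ≤ c * (W k t + e) + d - W (i :: k) t := h3
        exact ⟨by linarith, by linarith, by linarith⟩
      · have h1 := hνn k.length
        have h2 : 0 ≤ κ * (0 + e) := mul_nonneg hR.κ0.le (by linarith)
        have h3 : 0 ≤ c * (0 + e) := mul_nonneg hc0.le (by linarith)
        unfold PP
        rw [hz k (by omega) t, hz (i :: k) (by rw [List.length_cons]; omega) t]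
        exact ⟨by linarith [hR.a1], by linarith [hR.b2], by linarith [hR.d0]⟩
    obtain ⟨hsm0, hsm1⟩ := hsmall t htI
    cases j with
    | nil =>
      -- the root
      exfalso
      have hsm1 := hsm1 i₁
      have e0 := hW0 []
      have e1 := hW0 [i₁]
      have e2 := hνn 0
      have e3 : 0 ≤ κ * (W [i₁] t + e) := mul_nonneg hR.κ0.le (by linarith)
      fin_cases q
      · have h1 : 1 - W [] t = 0 := hcontact
        linarith
      · have h1 : κ * (W [i₁] t + e) + lam * (ρ ^ 0 * ν₀) - (a₁ * W [] t - (a₁ - 1)) = 0 := hcontact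
        have h7 : a₁ * W [] t ≤ a₁ * δ := mul_le_mul_of_nonneg_left hsm0 ha1.le
        linarith
      · have h1 : κ * (W [i₁] t + e) + lam * (ρ ^ 0 * ν₀) - (a₂ * W [] t - b₂) = 0 := hcontact
        have h7 : a₂ * W [] t ≤ a₂ * δ := mul_le_mul_of_nonneg_left hsm0 ha2.le
        linarith
      · have h1 : c * (W [] t + e) + d - W [i₁] t = 0 := hcontact
        have h7 : 0 ≤ c * (W [] t + e) := mul_nonneg hc0.le (by linarith)
        linarith
    | cons i₀ p =>
      obtain ⟨m, hm⟩ : ∃ m, m = p.length := ⟨_, rfl⟩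
      have hlen : (i₀ :: p).length = m + 1 := by rw [List.length_cons, hm]
      rw [hlen] at hjN
      have hmN : p.length + 1 ≤ N := by rw [← hm]; exact hjN
      have hd1 := hode i₀ p hmN t htI
      rw [← hm] at hd1
      obtain ⟨C₁, hC₁⟩ : ∃ C₁, C₁ = C₀ * (4 / ρ) ^ (m + 1) := ⟨_, rfl⟩
      have hC₁0 : 0 < C₁ := by rw [hC₁]; positivity
      obtain ⟨ν, hν⟩ : ∃ ν, ν = ρ ^ (m + 1) * ν₀ := ⟨_, rfl⟩
      have hν0 : 0 < ν := by rw [hν]; positivity
      have hν₀ν : ν₀ ≤ ν := by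
        have h1 : 1 * ν₀ ≤ ρ ^ (m + 1) * ν₀ :=
          mul_le_mul_of_nonneg_right (one_le_pow₀ hR.ρ1.le) hν₀.le
        rw [hν]
        linarith
      obtain ⟨Y, hY⟩ : ∃ Y, Y = ch (fun k => W k t) (i₀ :: p) / D := ⟨_, rfl⟩
      have hP0 : PP κ a₁ a₂ b₂ c d lam e (W p t) (W (i₀ :: p) t) (ν / ρ) := by
        have h1 : ν / ρ = ρ ^ p.length * ν₀ := by
          rw [hν, ← hm, pow_succ]
          field_simp
        rw [h1]
        exact hPP p i₀
      have hP1 : ∀ i, PP κ a₁ a₂ b₂ c d lam e (W (i₀ :: p) t) (W (i :: i₀ :: p) t) ν := by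
        intro i
        rw [hν, ← hlen]
        exact hPP (i₀ :: p) i
      have hPY : PP κ a₁ a₂ b₂ c d lam e (W (i₀ :: p) t) Y ν := by
        rw [hY]
        exact PP_av hD hP1
      have hYl : -e ≤ Y := by
        rw [hY, le_div_iff₀ hD']
        have h1 : ∑ _i : Fin D, -e ≤ ch (fun k => W k t) (i₀ :: p) :=
          Finset.sum_le_sum fun i _ => hW0 (i :: i₀ :: p)
        rw [Finset.sum_const, Finset.card_univ, Fintype.card_fin, nsmul_eq_mul] at h1
        linarith
      rw [← hC₁, ← hν, ← hY] at hd1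
      by_cases hq : q = 0
      · -- the bound one
        subst hq
        have h1 : 1 - W (i₀ :: p) t = 0 := hcontact
        have hx : W (i₀ :: p) t = 1 := by linarith
        refine ⟨-(C₁ * (W p t ^ 2 - κ * (W (i₀ :: p) t * Y) - ν * W (i₀ :: p) t
          + H (i₀ :: p) t)), ?_, ?_⟩
        · have h2 := hPY.1
          rw [hx] at h2 ⊢
          have h3 : W p t ^ 2 ≤ 1 := by
            have h8 := hW0 p
            have h9 := hW1 p
            nlinarith
          have hHm := (le_abs_self _).trans (hH (i₀ :: p) (by rw [hlen]; exact hjN) t htI)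
          have h4 : W p t ^ 2 - κ * (1 * Y) - ν * 1 + H (i₀ :: p) t < 0 := by
            have h5 : (1 - lam) * ν₀ ≤ (1 - lam) * ν :=
              mul_le_mul_of_nonneg_left hν₀ν (by linarith [hR.l1])
            linarith
          have h5 : C₁ * (W p t ^ 2 - κ * (1 * Y) - ν * 1 + H (i₀ :: p) t) < 0 :=
            mul_neg_of_pos_of_neg hC₁0 h4
          linarith
        · exact (hd1.const_sub 1)
      · -- the other contacts
        have hm2 : m + 2 ≤ N := by
          by_contra hlt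
          have hmN' : m + 1 = N := by omega
          have h0 : W (i₁ :: i₀ :: p) t = 0 :=
            hz _ (by rw [List.length_cons, hlen]; omega) t
          have h1 := hW1 (i₀ :: p)
          have h2 := hW0 (i₀ :: p)
          have h3 : 1 < lam * (ρ ^ (i₀ :: p).length * ν₀) := by rw [hlen, hmN']; exact hN
          have h6 : 0 ≤ κ * (0 + e) := mul_nonneg hR.κ0.le (by linarith)
          fin_cases q
          · exact hq rfl
          · have h4 : κ * (W (i₁ :: i₀ :: p) t + e) + lam * (ρ ^ (i₀ :: p).length * ν₀)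
              - (a₁ * W (i₀ :: p) t - (a₁ - 1)) = 0 := hcontact
            rw [h0] at h4
            have h5 : a₁ * W (i₀ :: p) t ≤ a₁ * 1 := mul_le_mul_of_nonneg_left h1 ha1.le
            linarith
          · have h4 : κ * (W (i₁ :: i₀ :: p) t + e) + lam * (ρ ^ (i₀ :: p).length * ν₀)
              - (a₂ * W (i₀ :: p) t - b₂) = 0 := hcontact
            rw [h0] at h4
            have h5 : a₂ * W (i₀ :: p) t ≤ a₂ * 1 := mul_le_mul_of_nonneg_left h1 ha2.le
            linarith [hR.ab2]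
          · have h4 : c * (W (i₀ :: p) t + e) + d - W (i₁ :: i₀ :: p) t = 0 := hcontact
            rw [h0] at h4
            have h5 : 0 ≤ c * (W (i₀ :: p) t + e) := mul_nonneg hc0.le (by linarith)
            linarith [hR.d0]
        have hd2 := hode i₁ (i₀ :: p) (by rw [hlen]; exact hm2) t htI
        rw [hlen] at hd2
        have e1 : C₀ * (4 / ρ) ^ (m + 1 + 1) = C₁ * (4 / ρ) := by
          rw [hC₁, pow_succ]
          ring
        have e2 : ρ ^ (m + 1 + 1) * ν₀ = ρ * ν := by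
          rw [hν]
          ring
        rw [e1, e2] at hd2
        obtain ⟨w, hw⟩ : ∃ w, w = W p t := ⟨_, rfl⟩
        obtain ⟨x, hx⟩ : ∃ x, x = W (i₀ :: p) t := ⟨_, rfl⟩
        obtain ⟨y, hy⟩ : ∃ y, y = W (i₁ :: i₀ :: p) t := ⟨_, rfl⟩
        obtain ⟨z, hz'⟩ : ∃ z, z = ch (fun k => W k t) (i₁ :: i₀ :: p) / D := ⟨_, rfl⟩
        have w0 := hW0 p
        have w1 := hW1 p
        have x0 := hW0 (i₀ :: p)
        have x1 := hW1 (i₀ :: p)
        have y0 := hW0 (i₁ :: i₀ :: p)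
        have y1 := hW1 (i₁ :: i₀ :: p)
        have hP2 : PP κ a₁ a₂ b₂ c d lam e (W (i₁ :: i₀ :: p) t) z (ρ * ν) := by
          rw [hz']
          apply PP_av hD
          intro i
          have h1 : ρ * ν = ρ ^ (i₁ :: i₀ :: p).length * ν₀ := by
            rw [List.length_cons, hlen, hν]
            ring
          rw [h1]
          exact hPP (i₁ :: i₀ :: p) i
        have z0 : -e ≤ z := by
          rw [hz', le_div_iff₀ hD']
          have h1 : ∑ _i : Fin D, -e ≤ ch (fun k => W k t) (i₁ :: i₀ :: p) :=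
            Finset.sum_le_sum fun i _ => hW0 (i :: i₁ :: i₀ :: p)
          rw [Finset.sum_const, Finset.card_univ, Fintype.card_fin, nsmul_eq_mul] at h1
          linarith
        obtain ⟨hHa1, hHa2⟩ := abs_le.1 (hH (i₀ :: p) (by rw [hlen]; exact hjN) t htI)
        obtain ⟨hHb1, hHb2⟩ := abs_le.1 (hH (i₁ :: i₀ :: p)
          (by rw [List.length_cons, hlen]; exact hm2) t htI)
        obtain ⟨Ha, hHa⟩ : ∃ Ha, Ha = H (i₀ :: p) t := ⟨_, rfl⟩
        obtain ⟨Hb, hHb⟩ : ∃ Hb, Hb = H (i₁ :: i₀ :: p) t := ⟨_, rfl⟩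
        rw [← hHa] at hd1 hHa1 hHa2
        rw [← hHb] at hd2 hHb1 hHb2
        have h4ρ0 : 0 < 4 / ρ := by positivity
        have h4ρ : 4 / ρ ≤ 4 := by
          rw [div_le_iff₀ hρ]
          linarith [hR.ρ1]
        have hκ4ρ : κ * (4 / ρ) ≤ 4 * Q := by
          calc κ * (4 / ρ) ≤ Q * 4 := mul_le_mul hR.κQ h4ρ h4ρ0.le hQ0.le
            _ = 4 * Q := by ring
        have hγQ : γ ≤ Q * γ := by nlinarith [hR.Q1]
        have hflow : ∀ a : ℝ, 0 ≤ a → a ≤ 4 →
            -(8 * Q * γ) ≤ κ * (4 / ρ) * Hb - a * Ha := by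
          intro a ha0 ha4
          have i1 : κ * (4 / ρ) * -γ ≤ κ * (4 / ρ) * Hb :=
            mul_le_mul_of_nonneg_left hHb1 (mul_nonneg hR.κ0.le h4ρ0.le)
          have i2 : a * Ha ≤ a * γ := mul_le_mul_of_nonneg_left hHa2 ha0
          have i3 : κ * (4 / ρ) * γ ≤ 4 * Q * γ := mul_le_mul_of_nonneg_right hκ4ρ hγ
          have i4 : a * γ ≤ 4 * γ := mul_le_mul_of_nonneg_right ha4 hγ
          linarith
        have hfupp : -(8 * Q * γ) ≤ c * Ha - 4 / ρ * Hb := by
          have i1 : c * -γ ≤ c * Ha := mul_le_mul_of_nonneg_left hHa1 hc0.le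
          have i2 : 4 / ρ * Hb ≤ 4 / ρ * γ := mul_le_mul_of_nonneg_left hHb2 h4ρ0.le
          have i3 : 4 / ρ * γ ≤ 4 * γ := mul_le_mul_of_nonneg_right h4ρ hγ
          have i4 : c * γ ≤ 1 * γ := mul_le_mul_of_nonneg_right hR.c1 hγ
          linarith
        rw [← hw, ← hx] at hd1
        rw [← hx, ← hy, ← hz'] at hd2
        rw [← hw] at w0 w1
        rw [← hx] at x0 x1
        rw [← hy] at y0 y1
        rw [← hw, ← hx] at hP0
        have hP1y : PP κ a₁ a₂ b₂ c d lam e x y ν := by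
          rw [hx, hy]
          exact hP1 i₁
        rw [← hx] at hP1
        rw [← hy] at hP2
        -- the siblings
        have hsib_low : (∀ i, κ * (y + e) ≤ κ * (W (i :: i₀ :: p) t + e)) → y ≤ Y := by
          intro h
          rw [hY, le_div_iff₀ hD']
          have h1 : ∑ _i : Fin D, y ≤ ch (fun k => W k t) (i₀ :: p) :=
            Finset.sum_le_sum fun i _ => by
              have h2 := le_of_mul_le_mul_left (h i) hR.κ0
              linarith
          rw [Finset.sum_const, Finset.card_univ, Fintype.card_fin, nsmul_eq_mul] at h1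
          linarith
        have hsib_upp : (∀ i, W (i :: i₀ :: p) t ≤ y) → Y ≤ y := by
          intro h
          rw [hY, div_le_iff₀ hD']
          have h1 : ch (fun k => W k t) (i₀ :: p) ≤ ∑ _i : Fin D, y :=
            Finset.sum_le_sum fun i _ => h i
          rw [Finset.sum_const, Finset.card_univ, Fintype.card_fin, nsmul_eq_mul] at h1
          linarith
        have hkl := hR.kl ν hν0 (hνm.trans hν₀ν)
        have hlν : 0 < lam * ν := mul_pos hR.l0 hν0
        have hκye : 0 ≤ κ * (y + e) := mul_nonneg hR.κ0.le (by linarith)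
        have hlνρ : 0 ≤ lam * (ν / ρ) := mul_nonneg hR.l0.le (by positivity)
        have hκe0 : 0 ≤ κ * e := mul_nonneg hR.κ0.le he
        have hw'1 : max (w - κ * e) 0 ≤ 1 := max_le (by linarith) zero_le_one
        have hP0' : 0 ≤ x → a₁ * max (w - κ * e) 0 - (a₁ - 1) ≤ κ * x + lam * (ν / ρ) := by
          intro hx0
          have hκx : 0 ≤ κ * x := mul_nonneg hR.κ0.le hx0
          rcases le_total (w - κ * e) 0 with h | h
          · rw [max_eq_right h]
            linarith [hR.a1]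
          · rw [max_eq_left h]
            have h1 := hP0.1
            have h2 : 1 * (κ * e) ≤ a₁ * (κ * e) := mul_le_mul_of_nonneg_right hR.a1.le hκe0
            linarith
        have hz'' : max z 0 ≤ c * (y + e) + d := by
          have h1 : 0 ≤ c * (y + e) := mul_nonneg hc0.le (by linarith)
          exact max_le hP2.2.2 (by linarith [hR.d0])
        fin_cases q
        · exact absurd rfl hq
        · have hco : κ * (W (i₁ :: i₀ :: p) t + e) + lam * (ρ ^ (i₀ :: p).length * ν₀)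
            - (a₁ * W (i₀ :: p) t - (a₁ - 1)) = 0 := hcontact
          rw [hlen, ← hx, ← hy, ← hν] at hco
          have hx0 : 0 ≤ x := by
            by_contra h
            have h1 : a₁ * x ≤ 0 := mul_nonpos_of_nonneg_of_nonpos ha1.le (not_le.1 h).le
            linarith [hR.a1]
          have hy' : y + e ≤ 1 := by
            by_contra h
            have h1 : κ * 1 < κ * (y + e) := mul_lt_mul_of_pos_left (not_le.1 h) hR.κ0
            have h2 : a₁ * x ≤ a₁ * 1 := mul_le_mul_of_nonneg_left x1 ha1.le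
            linarith
          have hyY : y ≤ Y := hsib_low fun i => by
            have := (hP1 i).1
            linarith
          have hyY' : a₁ * (κ * (x * y)) ≤ a₁ * (κ * (x * Y)) :=
            mul_le_mul_of_nonneg_left (mul_le_mul_of_nonneg_left
              (mul_le_mul_of_nonneg_left hyY hx0) hR.κ0.le) ha1.le
          have h1 := hR.low1 (max (w - κ * e) 0) x (y + e) (max z 0) ν hν0 (hνm.trans hν₀ν) (le_max_right _ _)
            hw'1 hx0 x1 (by linarith) hy' (le_max_right _ _) (hP0' hx0) hP1y.2.1 hz''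
            (by linarith)
          have h2 := low_pertT hR.κ0 hR.κQ hR.Q1 hR.ρ1 hR.a1.le hR.a14 hν0 he he1 w0 w1 hx0 x1
            y0 z0
          refine ⟨_, ?_, (((hd2.add_const e).const_mul κ).add_const _).sub
            ((hd1.const_mul a₁).sub_const _)⟩
          have hfl := hflow a₁ ha1.le hR.a14
          have h3 := mul_pos hC₁0 (by linarith : 0 < κ * (4 / ρ) * (x ^ 2 - κ * (y * z)
            - ρ * ν * y) - a₁ * (w ^ 2 - κ * (x * Y) - ν * x)
            + (κ * (4 / ρ) * Hb - a₁ * Ha))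
          linarith
        · have hco : κ * (W (i₁ :: i₀ :: p) t + e) + lam * (ρ ^ (i₀ :: p).length * ν₀)
            - (a₂ * W (i₀ :: p) t - b₂) = 0 := hcontact
          rw [hlen, ← hx, ← hy, ← hν] at hco
          have hx0 : 0 ≤ x := by
            by_contra h
            have h1 : a₂ * x ≤ 0 := mul_nonpos_of_nonneg_of_nonpos ha2.le (not_le.1 h).le
            linarith [hR.b2]
          have hy' : y + e ≤ 1 := by
            by_contra h
            have h1 : κ * 1 < κ * (y + e) := mul_lt_mul_of_pos_left (not_le.1 h) hR.κ0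
            have h2 : a₂ * x ≤ a₂ * 1 := mul_le_mul_of_nonneg_left x1 ha2.le
            linarith [hR.ab2]
          have hyY : y ≤ Y := hsib_low fun i => by
            have := (hP1 i).2.1
            linarith
          have hyY' : a₂ * (κ * (x * y)) ≤ a₂ * (κ * (x * Y)) :=
            mul_le_mul_of_nonneg_left (mul_le_mul_of_nonneg_left
              (mul_le_mul_of_nonneg_left hyY hx0) hR.κ0.le) ha2.le
          have h1 := hR.low2 (max (w - κ * e) 0) x (y + e) (max z 0) ν hν0 (hνm.trans hν₀ν) (le_max_right _ _)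
            hw'1 hx0 x1 (by linarith) hy' (le_max_right _ _) (hP0' hx0) hP1y.1 hz''
            (by linarith)
          have h2 := low_pertT hR.κ0 hR.κQ hR.Q1 hR.ρ1 hR.a2 hR.a24 hν0 he he1 w0 w1 hx0 x1 y0 z0
          refine ⟨_, ?_, (((hd2.add_const e).const_mul κ).add_const _).sub
            ((hd1.const_mul a₂).sub_const _)⟩
          have hfl := hflow a₂ ha2.le hR.a24
          have h3 := mul_pos hC₁0 (by linarith : 0 < κ * (4 / ρ) * (x ^ 2 - κ * (y * z)
            - ρ * ν * y) - a₂ * (w ^ 2 - κ * (x * Y) - ν * x)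
            + (κ * (4 / ρ) * Hb - a₂ * Ha))
          linarith
        · have hco : c * (W (i₀ :: p) t + e) + d - W (i₁ :: i₀ :: p) t = 0 := hcontact
          rw [← hx, ← hy] at hco
          have hxe : 0 ≤ c * (x + e) := mul_nonneg hc0.le (by linarith)
          have hy0 : 0 ≤ y := by linarith [hR.d0]
          have hx' : x + e ≤ 1 := by
            by_contra h
            have h1 : c * 1 < c * (x + e) := mul_lt_mul_of_pos_left (not_le.1 h) hc0
            linarith [hR.cd]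
          have hw3 : 0 ≤ min (w + 5 * e) 1 := le_min (by linarith) zero_le_one
          have hxw : x + e ≤ c * min (w + 5 * e) 1 + d := by
            rcases le_total (w + 5 * e) 1 with h | h
            · rw [min_eq_left h]
              have h1 := hP0.2.2
              have h2 : 1 / 4 * (4 * e) ≤ c * (4 * e) :=
                mul_le_mul_of_nonneg_right hR.c4 (by linarith)
              linarith
            · rw [min_eq_right h]
              linarith [hR.cd]
          have hYy : Y ≤ y := hsib_upp fun i => by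
            have := (hP1 i).2.2
            linarith
          have h1 := hR.upp (min (w + 5 * e) 1) (x + e) y (z + e) ν hν0 (hνm.trans hν₀ν) hw3
            (min_le_right _ _) (by linarith) hx' hy0 y1 (by linarith) hxw hP2.1 hP2.2.1
            (by linarith)
          have h2 := upp_pertT (z := z) hR.κ0 hR.κQ hR.Q1 hR.ρ1 hc0.le hR.c1 hν0 he he1 w0 w1 x0
            hy0 y1 hYl hYy
          have h20 : 20 * Q * e ≤ 20 * Q ^ 2 * e := by
            have : 0 ≤ (Q - 1) * (Q * e) :=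
              mul_nonneg (by linarith [hR.Q1]) (mul_nonneg hQ0.le he)
            linarith
          refine ⟨_, ?_, (((hd1.add_const e).const_mul c).add_const _).sub hd2⟩
          have h3 := mul_pos hC₁0 (by linarith : 0 < c * (w ^ 2 - κ * (x * Y) - ν * x)
            - (4 / ρ) * (x ^ 2 - κ * (y * z) - ρ * ν * y) + (c * Ha - 4 / ρ * Hb))
          linarith

end Pool.Agent.Run7.h32.Tu
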