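import Pool.Agent.Run7.h32.Tu.Neg
import Pool.Agent.Run7.h32.Tu.Inv
import Pool.Agent.Run7.h32.Tr.Crit

/-!
The dyadic model on a tree: the decay with a rate better than the critical one, up to the exponent
`β = 3 + log₂ D / 2`.
-/

set_option autoImplicit false

open Set Filter Topology

namespace Pool.Agent.Run7.h32.Tu

open Run7.h969.Dy (pow_mul_nat expo)
open Run7.h969.Dz (small_ev)
open Pool.Agent.Run7.h32.Fo (abs_le_lin)
open Pool.Agent.Run7.h32.Tr

variable {D : ℕ}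

set_option maxHeartbeats 1000000 in
/-- The bound from an invariant region. -/
theorem crit_coreN {β ν s K F S B Q φ νm : ℝ} (hD : 0 < D) (hν : 0 < ν) (hφ0 : 0 < φ)
    (hφ : φ * 2 ^ s ≤ 4) (hF0 : 0 ≤ F)
    (hS0 : 0 ≤ S) (hB' : B = 2 ^ β)
    {ρ r g δ μ a₁ a₂ b₂ c d lam E P : ℝ} {k : ℕ}
    (hR : RegN (D * 64 / B ^ 2 / ρ ^ 3) Q ρ a₁ a₂ b₂ c d lam νm μ)
    (hr : r = B * ρ / 4) (hr1 : 1 < r) (hrs : r ≤ 2 ^ s) (hδ0 : 0 < δ) (hδ1 : δ ≤ 1 / 2)
    (hδa : a₁ * δ < a₁ - 1) (hδb : a₂ * δ < b₂) (hδd : δ < d) (hg0 : 0 < g) (hgK : g * K ≤ δ)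
    (hgS : g * (r ^ k * S) ≤ δ) (hgrS : g * (r ^ (k + 1) * S) ≤ δ) (hk1 : 1 ≤ k)
    (hP0 : 0 < P) (hKP : K < P) (hFP : F < P * ν / 2) (hφr : φ * r * ρ ≤ 4)
    (hνm : νm ≤ ρ ^ k * (ν / (B * ρ ^ 2 / (16 * g))))
    (hneg : ∀ n ≥ k, D * (B ^ n * (P / ((2 : ℝ) ^ s) ^ (n + 1))) ≤ ν / 2 * 4 ^ n)
    (hE0 : 0 ≤ E) (hE : ∀ n ≥ k, r ^ n * (P / ((2 : ℝ) ^ s) ^ n) ≤ E) (he1 : g * E ≤ 1)
    (heμ : 20 * Q ^ 2 * (g * E) + 8 * Q * (g * F / (B * ρ ^ 2 / (16 * g))) < μ)
    (heν : D * 64 / B ^ 2 / ρ ^ 3 * (g * E) + g * F / (B * ρ ^ 2 / (16 * g))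
      < (1 - lam) * (ρ ^ k * (ν / (B * ρ ^ 2 / (16 * g))))) :
    ∃ C : ℝ, ∀ (T : ℝ) (N : ℕ) (x : Nd D → ℝ) (f X : Nd D → ℝ → ℝ),
    0 < T → (∀ j : Nd D, (2 : ℝ) ^ (s * j.length) * |x j| ≤ K) →
    (∀ t ∈ Icc 0 T, ∀ j : Nd D, |f j t| ≤ F * φ ^ j.length) →
    (∀ t ∈ Icc 0 T, ∀ j, |X j t| ≤ S) → GalT β ν T N x f X →
      ∀ t ∈ Icc 0 T, ∀ j : Nd D, r ^ j.length * |X j t| ≤ C := by
  have hB0 : 0 < B := by rw [hB']; exact Real.rpow_pos_of_pos two_pos _
  have hD' : (0 : ℝ) < D := by exact_mod_cast hD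
  have hρ1 := hR.ρ1
  have hρ0 : 0 < ρ := by linarith
  have hr0 : 0 < r := by linarith
  obtain ⟨C₀, hC₀⟩ : ∃ C₀, C₀ = B * ρ ^ 2 / (16 * g) := ⟨_, rfl⟩
  have hC₀0 : 0 < C₀ := by rw [hC₀]; positivity
  rw [← hC₀] at heν heμ hνm
  obtain ⟨γ, hγ⟩ : ∃ γ, γ = g * F / C₀ := ⟨_, rfl⟩
  have hγ0 : 0 ≤ γ := by rw [hγ]; positivity
  rw [← hγ] at heν heμ
  obtain ⟨ν₀, hν₀⟩ : ∃ ν₀, ν₀ = ρ ^ k * (ν / C₀) := ⟨_, rfl⟩
  rw [← hν₀] at heν hνm
  have hν₀0 : 0 < ν₀ := by rw [hν₀]; positivity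
  have hl := hR.l0
  -- the number of generations
  obtain ⟨N₀, hN₀⟩ : ∃ N₀ : ℕ, ∀ N ≥ N₀, 1 < lam * (ρ ^ N * ν₀) := by
    have h1 : Tendsto (fun n : ℕ => lam * (ρ ^ n * ν₀)) atTop atTop :=
      ((tendsto_pow_atTop_atTop_of_one_lt hρ1).atTop_mul_const hν₀0).const_mul_atTop hl
    obtain ⟨N₀, h2⟩ := eventually_atTop.1 (h1.eventually_gt_atTop 1)
    exact ⟨N₀, h2⟩
  refine ⟨(1 / g + E) + r ^ (N₀ + k) * S, ?_⟩
  intro T N x f X hT hK hF hle hG
  have hnp := neg_partN hν hP0 hKP hK hG hφ0 hφ hF hFP hk1 (by rw [← hB']; exact hneg)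
  intro t ht j
  by_cases hNN : N₀ + k ≤ N ∧ k ≤ j.length
  · -- the invariant region
    obtain ⟨hNN, hkj⟩ := hNN
    obtain ⟨m₀, j₀, hjm, hj₀⟩ : ∃ m₀ j₀ : Nd D, j = m₀ ++ j₀ ∧ j₀.length = k :=
      ⟨j.take (j.length - k), j.drop (j.length - k), (List.take_append_drop _ _).symm, by
        rw [List.length_drop]; omega⟩
    have hlen : ∀ m : Nd D, (m ++ j₀).length = k + m.length := fun m => by
      rw [List.length_append, hj₀, add_comm]
    have hlow : ∀ t ∈ Icc 0 T, ∀ m : Nd D, -(g * E) ≤ g * r ^ (k + m.length) * X (m ++ j₀) t := by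
      intro t ht m
      have h1 := hnp (m ++ j₀) (by rw [hlen]; omega) t ht
      rw [hlen] at h1
      have h2 := hE (k + m.length) (by omega)
      have h3 : g * r ^ (k + m.length) * -(P / ((2 : ℝ) ^ s) ^ (k + m.length))
          ≤ g * r ^ (k + m.length) * X (m ++ j₀) t := mul_le_mul_of_nonneg_left h1.le (by positivity)
      have h4 := mul_le_mul_of_nonneg_left h2 hg0.le
      linarith
    have key := invariantN hR (T := T) (N := N - k) (δ := δ) (C₀ := C₀ * (4 / ρ) ^ k)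
      (e := g * E) (γ := γ) hD
      (by positivity) hν₀0 hνm (by positivity) he1 hγ0 heμ heν
      (fun m t => g * r ^ (k + m.length) * X (m ++ j₀) t)
      (fun m t => g * r ^ (k + m.length) * f (m ++ j₀) t
        / (C₀ * (4 / ρ) ^ k * (4 / ρ) ^ m.length))
      (fun m hm t ht => ?_) hlow
      (fun m hm t => by rw [hG.zero (m ++ j₀) (by rw [hlen]; omega) t, mul_zero])
      (continuousOn_const.mul (hG.cont _))
      (fun i m hm t ht => ?_) (by linarith) hδa hδb hδd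
      (fun t ht => ⟨?_, fun i => ?_⟩) (fun m => ?_) hT.le (hN₀ (N - k) (by omega)) m₀ t ht
    · have hlow' := hlow t ht m₀
      rw [← hlen, ← hjm] at hlow'
      have key' : g * r ^ (k + m₀.length) * X (m₀ ++ j₀) t ≤ 1 := key
      rw [← hlen, ← hjm] at key'
      have h1 : |g * (r ^ j.length * X j t)| ≤ 1 + g * E := by
        have h0 : 0 ≤ g * E := by positivity
        rw [abs_le]
        constructor <;> linarith
      rw [abs_mul, abs_of_pos hg0, abs_mul, abs_of_pos (by positivity : 0 < r ^ j.length)] at h1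
      have h2 : r ^ j.length * |X j t| ≤ (1 + g * E) / g := by
        rw [le_div_iff₀ hg0]
        linarith
      have h3 : (1 + g * E) / g = 1 / g + E := by
        field_simp
      have h4 : 0 ≤ r ^ (N₀ + k) * S := by positivity
      linarith
    · -- the force
      have h1 := hF t ht (m ++ j₀)
      rw [hlen] at h1
      have hden : 0 < C₀ * (4 / ρ) ^ k * (4 / ρ) ^ m.length := by positivity
      have h2 : |g * r ^ (k + m.length) * f (m ++ j₀) t / (C₀ * (4 / ρ) ^ k * (4 / ρ) ^ m.length)|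
          = g * r ^ (k + m.length) * |f (m ++ j₀) t|
            / (C₀ * (4 / ρ) ^ k * (4 / ρ) ^ m.length) := by
        rw [abs_div, abs_of_pos hden, abs_mul, abs_of_pos (by positivity)]
      show |g * r ^ (k + m.length) * f (m ++ j₀) t / (C₀ * (4 / ρ) ^ k * (4 / ρ) ^ m.length)| ≤ γ
      rw [h2, hγ, div_le_div_iff₀ hden hC₀0]
      have h3 : g * r ^ (k + m.length) * |f (m ++ j₀) t| * C₀
          ≤ g * r ^ (k + m.length) * (F * φ ^ (k + m.length)) * C₀ := by gcongr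
      refine h3.trans ?_
      have h4 : (r * φ) ^ (k + m.length) ≤ (4 / ρ) ^ (k + m.length) := by
        apply pow_le_pow_left₀ (by positivity)
        rw [le_div_iff₀ hρ0]
        linarith
      have h5 : (4 / ρ) ^ k * (4 / ρ) ^ m.length = (4 / ρ) ^ (k + m.length) := by rw [← pow_add]
      calc g * r ^ (k + m.length) * (F * φ ^ (k + m.length)) * C₀
          = g * F * C₀ * (r * φ) ^ (k + m.length) := by rw [mul_pow]; ring
        _ ≤ g * F * C₀ * (4 / ρ) ^ (k + m.length) := mul_le_mul_of_nonneg_left h4 (by positivity)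
        _ = g * F * (C₀ * (4 / ρ) ^ k * (4 / ρ) ^ m.length) := by rw [← h5]; ring
    · -- the equation
      obtain ⟨L, hL⟩ : ∃ L, L = m.length := ⟨_, rfl⟩
      have hl0 : (m ++ j₀).length = k + L := by rw [hlen, hL]
      have hl1 : (i :: (m ++ j₀)).length = k + L + 1 := by rw [List.length_cons, hl0]
      have hm1 : (i :: m).length = L + 1 := by rw [List.length_cons, hL]
      have h1 := (hG.ode (i :: (m ++ j₀)) (by rw [hl1, hL]; omega) t ht).const_mul
        (g * r ^ (k + L + 1))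
      have hch : ch (fun k' => g * r ^ (k + k'.length) * X (k' ++ j₀) t) (i :: m)
          = g * r ^ (k + (L + 2)) * ch (fun k' => X k' t) (i :: (m ++ j₀)) := by
        rw [ch, ch, Finset.mul_sum]
        refine Finset.sum_congr rfl fun i' _ => ?_
        rw [List.length_cons, hm1]
        rfl
      have h2 : g * r ^ (k + L + 1) * trhs β ν (fun j => X j t) (i :: (m ++ j₀)) =
          C₀ * (4 / ρ) ^ k * (4 / ρ) ^ (L + 1) * ((g * r ^ (k + L) * X (m ++ j₀) t) ^ 2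
          - D * 64 / B ^ 2 / ρ ^ 3 * ((g * r ^ (k + (L + 1)) * X (i :: (m ++ j₀)) t)
            * (g * r ^ (k + (L + 2)) * ch (fun k' => X k' t) (i :: (m ++ j₀)) / D))
          - ρ ^ (L + 1) * ν₀ * (g * r ^ (k + (L + 1)) * X (i :: (m ++ j₀)) t)) := by
        show g * r ^ (k + L + 1) * ((2 : ℝ) ^ (β * ((m ++ j₀).length : ℝ)) * X (m ++ j₀) t ^ 2
          - (2 : ℝ) ^ (β * ((i :: (m ++ j₀)).length : ℝ))
            * (X (i :: (m ++ j₀)) t * ch (fun k' => X k' t) (i :: (m ++ j₀)))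
          - ν * 4 ^ (i :: (m ++ j₀)).length * X (i :: (m ++ j₀)) t) = _
        have e2 : k + (L + 1) = k + L + 1 := rfl
        have e3 : k + (L + 2) = k + L + 2 := rfl
        rw [hl0, hl1, pow_mul_nat, pow_mul_nat, ← hB', hν₀, hC₀, hr, e2, e3]
        obtain ⟨x0, hx0⟩ : ∃ x0, x0 = X (m ++ j₀) t := ⟨_, rfl⟩
        obtain ⟨x1, hx1⟩ : ∃ x1, x1 = X (i :: (m ++ j₀)) t := ⟨_, rfl⟩
        obtain ⟨x2, hx2⟩ : ∃ x2, x2 = ch (fun k' => X k' t) (i :: (m ++ j₀)) := ⟨_, rfl⟩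
        rw [← hx0, ← hx1, ← hx2]
        simp only [div_pow, mul_pow, pow_add]
        have hBn : B ^ L ≠ 0 := by positivity
        have hBk : B ^ k ≠ 0 := by positivity
        have hρn : ρ ^ L ≠ 0 := by positivity
        have hρk : ρ ^ k ≠ 0 := by positivity
        have hDne : (D : ℝ) ≠ 0 := hD'.ne'
        field_simp
        ring
      have h3 : g * r ^ (k + L + 1) * f (i :: (m ++ j₀)) t =
          C₀ * (4 / ρ) ^ k * (4 / ρ) ^ (L + 1) * (g * r ^ (k + (L + 1)) * f (i :: (m ++ j₀)) t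
            / (C₀ * (4 / ρ) ^ k * (4 / ρ) ^ (L + 1))) := by
        have hden : C₀ * (4 / ρ) ^ k * (4 / ρ) ^ (L + 1) ≠ 0 := by positivity
        rw [mul_div_cancel₀ _ hden]
        rfl
      rw [mul_add, h2, h3, ← mul_add] at h1
      have h4 : HasDerivWithinAt (fun t => g * r ^ (k + L + 1) * X (i :: (m ++ j₀)) t)
        (C₀ * (4 / ρ) ^ k * (4 / ρ) ^ (m.length + 1) * ((g * r ^ (k + m.length) * X (m ++ j₀) t) ^ 2
          - D * 64 / B ^ 2 / ρ ^ 3 * ((g * r ^ (k + (i :: m).length) * X (i :: m ++ j₀) t)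
            * (ch (fun k' => g * r ^ (k + k'.length) * X (k' ++ j₀) t) (i :: m) / D))
          - ρ ^ (m.length + 1) * ν₀ * (g * r ^ (k + (i :: m).length) * X (i :: m ++ j₀) t)
          + g * r ^ (k + (i :: m).length) * f (i :: m ++ j₀) t
            / (C₀ * (4 / ρ) ^ k * (4 / ρ) ^ (i :: m).length))) (Icc 0 T) t := by
        rw [hch, hm1, ← hL]
        exact h1
      have h5 : (fun t => g * r ^ (k + L + 1) * X (i :: (m ++ j₀)) t)
          = fun t => g * r ^ (k + (i :: m).length) * X (i :: m ++ j₀) t := by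
        rw [hm1]
        rfl
      rw [h5] at h4
      exact h4
    · show g * r ^ (k + 0) * X ([] ++ j₀) t ≤ δ
      have h1 := (le_abs_self (X ([] ++ j₀) t)).trans (hle t ht ([] ++ j₀))
      have h2 : g * (r ^ k * X ([] ++ j₀) t) ≤ g * (r ^ k * S) :=
        mul_le_mul_of_nonneg_left (mul_le_mul_of_nonneg_left h1 (by positivity)) hg0.le
      rw [add_zero]
      linarith
    · show g * r ^ (k + 1) * X ([i] ++ j₀) t ≤ δ
      have h1 := (le_abs_self (X ([i] ++ j₀) t)).trans (hle t ht ([i] ++ j₀))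
      have h2 : g * (r ^ (k + 1) * X ([i] ++ j₀) t) ≤ g * (r ^ (k + 1) * S) :=
        mul_le_mul_of_nonneg_left (mul_le_mul_of_nonneg_left h1 (by positivity)) hg0.le
      linarith
    · show g * r ^ (k + m.length) * X (m ++ j₀) 0 ≤ δ
      rw [← hlen]
      by_cases hn : (m ++ j₀).length ≤ N
      · rw [hG.init _ hn, mul_assoc]
        have h3 := hK (m ++ j₀)
        rw [pow_mul_nat] at h3
        have h4 := (mul_le_mul_of_nonneg_right (pow_le_pow_left₀ hr0.le hrs (m ++ j₀).length)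
          (abs_nonneg (x (m ++ j₀)))).trans h3
        have h5 : r ^ (m ++ j₀).length * x (m ++ j₀) ≤ K :=
          (mul_le_mul_of_nonneg_left (le_abs_self _) (by positivity)).trans h4
        exact (mul_le_mul_of_nonneg_left h5 hg0.le).trans hgK
      · rw [hG.zero _ (by omega) 0, mul_zero]
        exact hδ0.le
  · -- few generations
    have h0 : 0 ≤ 1 / g := by positivity
    by_cases hn : j.length ≤ N
    · have h1 : r ^ j.length ≤ r ^ (N₀ + k) := pow_le_pow_right₀ hr1.le (by omega)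
      have h2 : r ^ j.length * |X j t| ≤ r ^ (N₀ + k) * S :=
        mul_le_mul h1 (hle t ht j) (abs_nonneg _) (by positivity)
      linarith
    · rw [hG.zero j (by omega) t, abs_zero, mul_zero]
      positivity


end Pool.Agent.Run7.h32.Tu
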