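import Pool.Agent.Run7.h32.Tu.Core

/-!
The dyadic model on a tree: the decay with a rate better than the critical one, up to the exponent
`β = 3 + log₂ D / 2`.
-/

set_option autoImplicit false

open Set Filter Topology

namespace Pool.Agent.Run7.h32.Tu

open Run7.h969.Dy (pow_mul_nat expo)
open Run7.h969.Dz (small_ev reg_three)
open Pool.Agent.Run7.h32.Fo (abs_le_lin)
open Pool.Agent.Run7.h32.Tr

variable {D : ℕ}

/-- The conclusion for one exponent. -/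
def CritP (D : ℕ) (β ν s K S : ℝ) : Prop :=
  ∃ s' C : ℝ, 0 < s' ∧ β - 2 < s' ∧ s' ≤ s ∧ ∀ (T : ℝ) (N : ℕ) (x : Nd D → ℝ) (X : Nd D → ℝ → ℝ),
    0 < T → (∀ j : Nd D, (2 : ℝ) ^ (s * j.length) * |x j| ≤ K) →
    (∀ t ∈ Icc 0 T, ∀ j, |X j t| ≤ S) → GalT β ν T N x (fun _ _ => 0) X →
      ∀ t ∈ Icc 0 T, ∀ j : Nd D, (2 : ℝ) ^ (s' * j.length) * |X j t| ≤ C

set_option maxHeartbeats 1000000 in
/-- The decay with a rate better than the critical one, `β ≥ 2` below the threshold. -/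
theorem crit_hi {β ν s K S : ℝ} (hD : 0 < D) (hβ2 : 2 ≤ β) (hβ : ((2 : ℝ) ^ β) ^ 2 < D * 64)
    (hν : 0 < ν) (hs2 : β - 2 < s) (hK0 : 0 ≤ K) (hS0 : 0 ≤ S) : CritP D β ν s K S := by
  obtain ⟨B, hB'⟩ : ∃ B : ℝ, B = 2 ^ β := ⟨_, rfl⟩
  obtain ⟨q, hq⟩ : ∃ q : ℝ, q = 2 ^ s := ⟨_, rfl⟩
  have hD1 : (1 : ℝ) ≤ D := by exact_mod_cast hD
  have hD' : (0 : ℝ) < D := by linarith
  have hq0 : 0 < q := by rw [hq]; exact Real.rpow_pos_of_pos two_pos _
  have hB0 : 0 < B := by rw [hB']; exact Real.rpow_pos_of_pos two_pos _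
  have hB4 : 4 ≤ B := by
    rw [hB']
    have h1 : (4 : ℝ) = 2 ^ (2 : ℝ) := by norm_num
    rw [h1]
    exact Real.rpow_le_rpow_of_exponent_le (by norm_num) hβ2
  rw [← hB'] at hβ
  have hBs : B < 4 * q := by
    have h1 : (4 : ℝ) * 2 ^ s = 2 ^ (2 + s) := by
      rw [Real.rpow_add two_pos]
      norm_num
    rw [hq, h1, hB']
    exact Real.rpow_lt_rpow_of_exponent_lt (by norm_num) (by linarith)
  obtain ⟨Q, hQ⟩ : ∃ Q : ℝ, Q = D * 64 / B ^ 2 := ⟨_, rfl⟩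
  have hQ1 : 1 < Q := by
    rw [hQ, lt_div_iff₀ (by positivity)]
    linarith
  have hQ0 : 0 < Q := by linarith
  have hη0 : 0 < (4 * q / B - 1) / 2 := by
    have h1 : 1 < 4 * q / B := by
      rw [lt_div_iff₀ hB0]
      linarith
    linarith
  obtain ⟨ρ, hρ1, hρ2, a₁, a₂, b₂, c, d, lam, μ, hμ, hR⟩ := reg_existsT hQ1 hη0
  have hρ0 : 0 < ρ := by linarith
  obtain ⟨r, hr⟩ : ∃ r, r = B * ρ / 4 := ⟨_, rfl⟩
  have hr1 : 1 < r := by
    rw [hr, lt_div_iff₀ (by norm_num)]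
    nlinarith
  have hr0 : 0 < r := by linarith
  have hrq : r < q := by
    rw [hr, div_lt_iff₀ (by norm_num)]
    have h1 : 1 < 4 * q / B := by
      rw [lt_div_iff₀ hB0]
      linarith
    have h1 : ρ < 4 * q / B := by linarith
    rw [lt_div_iff₀ hB0] at h1
    linarith
  have hrs : r ≤ 2 ^ s := by rw [← hq]; exact hrq.le
  obtain ⟨s', h1, h2, h3, h4⟩ := expo hB' hr hr1 hrs hρ1
  obtain ⟨φ, hφ⟩ : ∃ φ, φ = min (4 / q) (4 / (r * ρ)) := ⟨_, rfl⟩
  have hφ0 : 0 < φ := by rw [hφ]; exact lt_min (by positivity) (by positivity)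
  have hφ1 : φ * 2 ^ s ≤ 4 := by
    rw [← hq, ← le_div_iff₀ hq0, hφ]
    exact min_le_left _ _
  have hφ2 : φ * r * ρ ≤ 4 := by
    rw [mul_assoc, ← le_div_iff₀ (by positivity), hφ]
    exact min_le_right _ _
  -- the small number
  have ha1 : 0 < a₁ := by linarith [hR.a1]
  have ha2 : 0 < a₂ := by linarith [hR.a2]
  obtain ⟨δ, hδ⟩ : ∃ δ, δ = min (1 / 2) (min ((a₁ - 1) / (2 * a₁)) (min (b₂ / (2 * a₂)) (d / 2))) :=
    ⟨_, rfl⟩
  have hδ1 : δ ≤ 1 / 2 := by rw [hδ]; exact min_le_left _ _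
  have hδ2 : δ ≤ (a₁ - 1) / (2 * a₁) := by
    rw [hδ]; exact (min_le_right _ _).trans (min_le_left _ _)
  have hδ3 : δ ≤ b₂ / (2 * a₂) := by
    rw [hδ]; exact (min_le_right _ _).trans ((min_le_right _ _).trans (min_le_left _ _))
  have hδ4 : δ ≤ d / 2 := by
    rw [hδ]; exact (min_le_right _ _).trans ((min_le_right _ _).trans (min_le_right _ _))
  have hδ0 : 0 < δ := by
    rw [hδ]
    have h1 := hR.a1
    have h3 := hR.b2
    have h4 := hR.d0
    refine lt_min (by norm_num) (lt_min (div_pos (by linarith) (by linarith))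
      (lt_min (by positivity) (by positivity)))
  have hδa : a₁ * δ < a₁ - 1 := by
    rw [le_div_iff₀ (by positivity)] at hδ2
    have := hR.a1
    linarith
  have hδb : a₂ * δ < b₂ := by
    rw [le_div_iff₀ (by positivity)] at hδ3
    have := hR.b2
    linarith
  have hδd : δ < d := by linarith [hR.d0]
  -- the constant of the negative parts
  obtain ⟨P, hP⟩ : ∃ P, P = K + 1 := ⟨_, rfl⟩
  have hKP : K < P := by rw [hP]; linarith
  have hP0 : 0 < P := by linarith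
  have hFP : 0 < P * ν / 2 := by positivity
  -- the first generation of the region
  obtain ⟨n₁, hn₁⟩ := small_ev (β := β) (C := P) hν hs2 hP0.le (D / q)
  rw [← hB', ← hq] at hn₁
  have hκ0 := hR.κ0
  have hl1 := hR.l1
  have hl1' : 0 < 1 - lam := by linarith
  have hlim : Tendsto (fun n : ℕ => Q / ρ ^ 3 * (P * (r / q) ^ n)) atTop (𝓝 0) := by
    have h1 : r / q < 1 := by rw [div_lt_one hq0]; exact hrq
    have := ((tendsto_pow_atTop_nhds_zero_of_lt_one (by positivity : 0 ≤ r / q) h1).const_mul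
      P).const_mul (Q / ρ ^ 3)
    simpa using this
  obtain ⟨n₂, hn₂⟩ := eventually_atTop.1 (hlim.eventually (gt_mem_nhds
    (by positivity : 0 < (1 - lam) * (16 * ν / (B * ρ ^ 2)))))
  obtain ⟨k, hk⟩ : ∃ k, k = max 1 (max n₁ n₂) := ⟨_, rfl⟩
  have hk1 : 1 ≤ k := by rw [hk]; exact le_max_left _ _
  have hkn₁ : n₁ ≤ k := by rw [hk]; exact (le_max_left _ _).trans (le_max_right _ _)
  have hkn₂ : n₂ ≤ k := by rw [hk]; exact (le_max_right _ _).trans (le_max_right _ _)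
  obtain ⟨E, hE⟩ : ∃ E, E = P * (r / q) ^ k := ⟨_, rfl⟩
  have hE0 : 0 < E := by rw [hE]; positivity
  have hEν : Q / ρ ^ 3 * E < (1 - lam) * (16 * ν / (B * ρ ^ 2)) := by
    rw [hE]
    exact hn₂ k hkn₂
  obtain ⟨g, hg⟩ : ∃ g, g = min (δ / (1 + K + r ^ k * S + r ^ (k + 1) * S))
    (min (1 / E) (μ / (40 * Q ^ 2 * E + 1))) := ⟨_, rfl⟩
  have hrk : 0 ≤ r ^ k * S := by positivity
  have hrk1 : 0 ≤ r ^ (k + 1) * S := by positivity
  have hden : 0 < 1 + K + r ^ k * S + r ^ (k + 1) * S := by positivity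
  have hg0 : 0 < g := by
    rw [hg]
    exact lt_min (by positivity) (lt_min (by positivity) (by positivity))
  have hg1 : g * (1 + K + r ^ k * S + r ^ (k + 1) * S) ≤ δ := by
    rw [← le_div_iff₀ hden, hg]
    exact min_le_left _ _
  have hg2 : g * E ≤ 1 := by
    rw [← le_div_iff₀ hE0, hg]
    exact (min_le_right _ _).trans (min_le_left _ _)
  have hg3 : g * (40 * Q ^ 2 * E + 1) ≤ μ := by
    rw [← le_div_iff₀ (by positivity), hg]
    exact (min_le_right _ _).trans (min_le_right _ _)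
  have hgK : g * K ≤ δ := by
    have h1 : g * K ≤ g * (1 + K + r ^ k * S + r ^ (k + 1) * S) :=
      mul_le_mul_of_nonneg_left (by linarith) hg0.le
    linarith
  have hgS : g * (r ^ k * S) ≤ δ := by
    have h1 : g * (r ^ k * S) ≤ g * (1 + K + r ^ k * S + r ^ (k + 1) * S) :=
      mul_le_mul_of_nonneg_left (by linarith) hg0.le
    linarith
  have hgrS : g * (r ^ (k + 1) * S) ≤ δ := by
    have h1 : g * (r ^ (k + 1) * S) ≤ g * (1 + K + r ^ k * S + r ^ (k + 1) * S) :=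
      mul_le_mul_of_nonneg_left (by linarith) hg0.le
    linarith
  have hγe : g * 0 / (B * ρ ^ 2 / (16 * g)) = 0 := by rw [mul_zero, zero_div]
  rw [hQ] at hR
  have hcore := crit_coreN (K := K) (F := 0) (E := E) (S := S) (P := P) hD hν hφ0 hφ1 le_rfl hS0 hB'
    (RegN.of_regT hR) hr
    hr1 hrs hδ0 hδ1 hδa hδb hδd hg0 hgK hgS hgrS hk1 hP0 hKP hFP hφ2 (by positivity)
    (fun n hn => ?_) hE0.le
    (fun n hn => ?_) hg2 ?_ ?_
  · obtain ⟨C, hC⟩ := hcore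
    refine ⟨s', C, h1, h2, h3, fun T N x X hT hK hX hG t ht n => ?_⟩
    rw [pow_mul_nat, h4]
    exact hC T N x _ X hT hK (fun t _ j => by rw [abs_zero, zero_mul]) hX hG t ht n
  · have h1 := hn₁ n (hkn₁.trans hn)
    rw [← hq]
    have h2 : D * (B ^ n * (P / q ^ (n + 1))) = B ^ n * (P / q ^ n) * (D / q) := by
      field_simp
      ring
    rw [h2]
    exact h1.le
  · rw [← hq, hE]
    have h1 : r ^ n * (P / q ^ n) = P * (r / q) ^ n := by
      rw [div_pow]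
      field_simp
    rw [h1]
    apply mul_le_mul_of_nonneg_left _ (by linarith)
    exact pow_le_pow_of_le_one (by positivity) (by rw [div_le_one hq0]; exact hrq.le) hn
  · rw [hγe, mul_zero, add_zero, ← hQ]
    have i1 : 0 ≤ Q ^ 2 * (g * E) := by positivity
    linarith
  · rw [hγe, ← hQ, add_zero]
    have h1 : ν / (B * ρ ^ 2 / (16 * g)) = g * (16 * ν / (B * ρ ^ 2)) := by
      field_simp
    have h2 : 1 ≤ ρ ^ k := one_le_pow₀ hρ1.le
    rw [h1]
    have h3 : g * (Q / ρ ^ 3 * E) < g * ((1 - lam) * (16 * ν / (B * ρ ^ 2))) :=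
      mul_lt_mul_of_pos_left hEν hg0
    have h4 : 0 ≤ (1 - lam) * (g * (16 * ν / (B * ρ ^ 2))) :=
      mul_nonneg (by linarith) (by positivity)
    have h5 : 1 * ((1 - lam) * (g * (16 * ν / (B * ρ ^ 2))))
        ≤ ρ ^ k * ((1 - lam) * (g * (16 * ν / (B * ρ ^ 2)))) := mul_le_mul_of_nonneg_right h2 h4
    linarith

set_option maxHeartbeats 1000000 in
/-- The threshold. -/
theorem crit_top {β ν s K S : ℝ} (hD : 0 < D) (hβ2 : 2 ≤ β) (hβ : ((2 : ℝ) ^ β) ^ 2 = D * 64)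
    (hν : 0 < ν) (hs2 : β - 2 < s) (hK0 : 0 ≤ K) (hS0 : 0 ≤ S) : CritP D β ν s K S := by
  obtain ⟨B, hB'⟩ : ∃ B : ℝ, B = 2 ^ β := ⟨_, rfl⟩
  obtain ⟨q, hq⟩ : ∃ q : ℝ, q = 2 ^ s := ⟨_, rfl⟩
  have hD1 : (1 : ℝ) ≤ D := by exact_mod_cast hD
  have hD' : (0 : ℝ) < D := by linarith
  have hq0 : 0 < q := by rw [hq]; exact Real.rpow_pos_of_pos two_pos _
  have hB0 : 0 < B := by rw [hB']; exact Real.rpow_pos_of_pos two_pos _
  have hB4 : 4 ≤ B := by
    rw [hB']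
    have h1 : (4 : ℝ) = 2 ^ (2 : ℝ) := by norm_num
    rw [h1]
    exact Real.rpow_le_rpow_of_exponent_le (by norm_num) hβ2
  rw [← hB'] at hβ
  have hBs : B < 4 * q := by
    have h1 : (4 : ℝ) * 2 ^ s = 2 ^ (2 + s) := by
      rw [Real.rpow_add two_pos]
      norm_num
    rw [hq, h1, hB']
    exact Real.rpow_lt_rpow_of_exponent_lt (by norm_num) (by linarith)
  have e64 : D * 64 / B ^ 2 = 1 := by
    rw [hβ]
    exact div_self (by positivity)
  obtain ⟨δ, hδ⟩ : ∃ δ : ℝ, δ = 1 / 10 := ⟨_, rfl⟩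
  have hδ0 : 0 < δ := by rw [hδ]; norm_num
  -- the largest ratio
  obtain ⟨η, hη⟩ : ∃ η : ℝ, η = min 1 ((4 * q / B - 1) / 2) := ⟨_, rfl⟩
  have h4q : 1 < 4 * q / B := by
    rw [lt_div_iff₀ hB0]
    linarith
  have hη0 : 0 < η := by rw [hη]; exact lt_min one_pos (by linarith)
  have hη1 : η ≤ 1 := by rw [hη]; exact min_le_left _ _
  have hη2 : η ≤ (4 * q / B - 1) / 2 := by rw [hη]; exact min_le_right _ _
  obtain ⟨rm, hrm⟩ : ∃ rm, rm = B * (1 + η) / 4 := ⟨_, rfl⟩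
  have hrm1 : 1 < rm := by
    rw [hrm, lt_div_iff₀ (by norm_num)]
    nlinarith
  have hrmq : rm < q := by
    rw [hrm, div_lt_iff₀ (by norm_num)]
    have h1 : 1 + η < 4 * q / B := by linarith
    rw [lt_div_iff₀ hB0] at h1
    linarith
  have hrm0 : 0 < rm := by linarith
  -- the constant of the negative parts
  obtain ⟨P, hP⟩ : ∃ P, P = K + 1 := ⟨_, rfl⟩
  have hKP : K < P := by rw [hP]; linarith
  have hP0 : 0 < P := by linarith
  have hFP : 0 < P * ν / 2 := by positivity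
  -- the first generation of the region
  obtain ⟨n₁, hn₁⟩ := small_ev (β := β) (C := P) hν hs2 hP0.le (D / q)
  rw [← hB', ← hq] at hn₁
  obtain ⟨k₀, hk₀⟩ : ∃ k₀ : ℝ, k₀ = ν / (B * 100000) := ⟨_, rfl⟩
  have hlim : Tendsto (fun n : ℕ => P * (rm / q) ^ n) atTop (𝓝 0) := by
    have h1 : rm / q < 1 := by rw [div_lt_one hq0]; exact hrmq
    have := (tendsto_pow_atTop_nhds_zero_of_lt_one (by positivity : 0 ≤ rm / q) h1).const_mul P
    simpa using this
  have hk₀0 : 0 < k₀ := by rw [hk₀]; positivity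
  obtain ⟨n₂, hn₂⟩ := eventually_atTop.1 (hlim.eventually (gt_mem_nhds hk₀0))
  obtain ⟨k, hk⟩ : ∃ k, k = max 1 (max n₁ n₂) := ⟨_, rfl⟩
  have hk1 : 1 ≤ k := by rw [hk]; exact le_max_left _ _
  have hkn₁ : n₁ ≤ k := by rw [hk]; exact (le_max_left _ _).trans (le_max_right _ _)
  have hkn₂ : n₂ ≤ k := by rw [hk]; exact (le_max_right _ _).trans (le_max_right _ _)
  obtain ⟨E, hE⟩ : ∃ E, E = P * (rm / q) ^ k := ⟨_, rfl⟩
  have hE0 : 0 < E := by rw [hE]; positivity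
  have hEν : E < k₀ := by
    rw [hE]
    exact hn₂ k hkn₂
  obtain ⟨g, hg⟩ : ∃ g, g = min (δ / (1 + K + rm ^ k * S + rm ^ (k + 1) * S)) (1 / E) := ⟨_, rfl⟩
  have hrk : 0 ≤ rm ^ k * S := by positivity
  have hrk1 : 0 ≤ rm ^ (k + 1) * S := by positivity
  have hden : 0 < 1 + K + rm ^ k * S + rm ^ (k + 1) * S := by positivity
  have hg0 : 0 < g := by
    rw [hg]
    exact lt_min (by positivity) (by positivity)
  have hg1 : g * (1 + K + rm ^ k * S + rm ^ (k + 1) * S) ≤ δ := by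
    rw [← le_div_iff₀ hden, hg]
    exact min_le_left _ _
  have hg2 : g * E ≤ 1 := by
    rw [← le_div_iff₀ hE0, hg]
    exact min_le_right _ _
  obtain ⟨νm, hνm⟩ : ∃ νm, νm = 4 * g * ν / B := ⟨_, rfl⟩
  have hνm0 : 0 < νm := by rw [hνm]; positivity
  obtain ⟨ρ, hρ1, hρ2, hR⟩ := reg_three hνm0 hη0
  have hρ0 : 0 < ρ := by linarith
  have hρ3 : ρ ≤ 2 := by linarith
  obtain ⟨r, hr⟩ : ∃ r, r = B * ρ / 4 := ⟨_, rfl⟩
  have hr1 : 1 < r := by
    rw [hr, lt_div_iff₀ (by norm_num)]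
    nlinarith
  have hr0 : 0 < r := by linarith
  have hrrm : r ≤ rm := by
    rw [hr, hrm]
    have := mul_le_mul_of_nonneg_left hρ2 hB0.le
    linarith
  have hrs : r ≤ 2 ^ s := by rw [← hq]; linarith
  obtain ⟨s', h1, h2, h3, h4⟩ := expo hB' hr hr1 hrs hρ1
  obtain ⟨φ, hφ⟩ : ∃ φ, φ = min (4 / q) (4 / (r * ρ)) := ⟨_, rfl⟩
  have hφ0 : 0 < φ := by rw [hφ]; exact lt_min (by positivity) (by positivity)
  have hφ1 : φ * 2 ^ s ≤ 4 := by
    rw [← hq, ← le_div_iff₀ hq0, hφ]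
    exact min_le_left _ _
  have hφ2 : φ * r * ρ ≤ 4 := by
    rw [mul_assoc, ← le_div_iff₀ (by positivity), hφ]
    exact min_le_right _ _
  have hgK : g * K ≤ δ := by
    have h1 : g * K ≤ g * (1 + K + rm ^ k * S + rm ^ (k + 1) * S) :=
      mul_le_mul_of_nonneg_left (by linarith) hg0.le
    linarith
  have hpk : ∀ j : ℕ, r ^ j * S ≤ rm ^ j * S := fun j =>
    mul_le_mul_of_nonneg_right (pow_le_pow_left₀ hr0.le hrrm j) hS0
  have hgS : g * (r ^ k * S) ≤ δ := by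
    have h1 : g * (r ^ k * S) ≤ g * (1 + K + rm ^ k * S + rm ^ (k + 1) * S) :=
      mul_le_mul_of_nonneg_left (by linarith [hpk k]) hg0.le
    linarith
  have hgrS : g * (r ^ (k + 1) * S) ≤ δ := by
    have h1 : g * (r ^ (k + 1) * S) ≤ g * (1 + K + rm ^ k * S + rm ^ (k + 1) * S) :=
      mul_le_mul_of_nonneg_left (by linarith [hpk (k + 1)]) hg0.le
    linarith
  have hR' : RegN (D * 64 / B ^ 2 / ρ ^ 3) 1 ρ (177 / 100) (53 / 50) (7 / 20) (63 / 100) (37 / 100)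
      (18 / 25) νm (νm / 2000) := by
    rw [e64]
    exact RegN.of_reg hR (div_le_self (by norm_num) (one_le_pow₀ hρ1.le)) le_rfl
  have hρk : 1 ≤ ρ ^ k := one_le_pow₀ hρ1.le
  have hνr : νm ≤ ρ ^ k * (ν / (B * ρ ^ 2 / (16 * g))) := by
    have h1 : ν / (B * ρ ^ 2 / (16 * g)) = 16 * g * ν / (B * ρ ^ 2) := by
      field_simp
    have h2 : νm ≤ 16 * g * ν / (B * ρ ^ 2) := by
      rw [hνm, div_le_div_iff₀ hB0 (by positivity)]
      have h3 : ρ ^ 2 ≤ 4 := by nlinarith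
      have h4 : 0 < g * ν * B := by positivity
      nlinarith
    have h3 : 0 ≤ 16 * g * ν / (B * ρ ^ 2) := by positivity
    rw [h1]
    nlinarith
  have hgEν : g * E < g * k₀ := mul_lt_mul_of_pos_left hEν hg0
  have e5 : g * k₀ = νm / 400000 := by
    rw [hk₀, hνm]
    field_simp
    norm_num
  have hγe : g * 0 / (B * ρ ^ 2 / (16 * g)) = 0 := by rw [mul_zero, zero_div]
  have hcore := crit_coreN (K := K) (F := 0) (E := E) (S := S) (P := P) hD hν hφ0 hφ1 le_rfl hS0 hB'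
    hR' hr hr1 hrs hδ0 (by rw [hδ]; norm_num)
    (by rw [hδ]; norm_num) (by rw [hδ]; norm_num) (by rw [hδ]; norm_num) hg0 hgK
    hgS hgrS hk1 hP0 hKP hFP hφ2 hνr (fun n hn => ?_) hE0.le (fun n hn => ?_) hg2 ?_ ?_
  · obtain ⟨C, hC⟩ := hcore
    refine ⟨s', C, h1, h2, h3, fun T N x X hT hK hX hG t ht n => ?_⟩
    rw [pow_mul_nat, h4]
    exact hC T N x _ X hT hK (fun t _ j => by rw [abs_zero, zero_mul]) hX hG t ht n
  · have h1 := hn₁ n (hkn₁.trans hn)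
    rw [← hq]
    have h2 : D * (B ^ n * (P / q ^ (n + 1))) = B ^ n * (P / q ^ n) * (D / q) := by
      field_simp
      ring
    rw [h2]
    exact h1.le
  · rw [← hq, hE]
    have h1 : r ^ n * (P / q ^ n) = P * (r / q) ^ n := by
      rw [div_pow]
      field_simp
    rw [h1]
    apply mul_le_mul_of_nonneg_left _ (by linarith)
    calc (r / q) ^ n ≤ (rm / q) ^ n :=
          pow_le_pow_left₀ (by positivity) (div_le_div_of_nonneg_right hrrm hq0.le) n
      _ ≤ (rm / q) ^ k :=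
          pow_le_pow_of_le_one (by positivity) (by rw [div_le_one hq0]; exact hrmq.le) hn
  · rw [hγe, mul_zero, add_zero]
    linarith
  · rw [hγe, e64, add_zero]
    have h1 : 1 / ρ ^ 3 ≤ 1 := div_le_self (by norm_num) (one_le_pow₀ hρ1.le)
    have h2 : 1 / ρ ^ 3 * (g * E) ≤ 1 * (g * E) :=
      mul_le_mul_of_nonneg_right h1 (by positivity)
    have h3 : (1 - 18 / 25 : ℝ) * νm ≤ (1 - 18 / 25) * (ρ ^ k * (ν / (B * ρ ^ 2 / (16 * g)))) :=
      mul_le_mul_of_nonneg_left hνr (by norm_num)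
    linarith

/-- The case `β < 2`. -/
theorem crit_lo {β ν s K S : ℝ} (hβ : β < 2) (hν : 0 < ν) (hs : 0 < s) (hK0 : 0 ≤ K)
    (hS0 : 0 ≤ S) : CritP D β ν s K S := by
  obtain ⟨B, hB'⟩ : ∃ B : ℝ, B = 2 ^ β := ⟨_, rfl⟩
  have hB0 : 0 < B := by rw [hB']; exact Real.rpow_pos_of_pos two_pos _
  obtain ⟨s', hs'⟩ : ∃ s', s' = min s (min 1 (2 - β)) := ⟨_, rfl⟩
  have hs'0 : 0 < s' := by rw [hs']; exact lt_min hs (lt_min one_pos (by linarith))
  have hs's : s' ≤ s := by rw [hs']; exact min_le_left _ _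
  have hs'1 : s' ≤ 1 := by rw [hs']; exact (min_le_right _ _).trans (min_le_left _ _)
  obtain ⟨s'', h1, h2, h3, h4⟩ := critT_low (D := D) hβ hν hs'0 hs'1
  obtain ⟨C, hC⟩ := h4 K 0 S hK0 le_rfl hS0
  refine ⟨s'', C, h1, h2, h3.trans hs's, fun T N x X hT hK hX hG => ?_⟩
  refine hC T N x _ X hT (fun j => ?_) (fun t _ j => by rw [abs_zero, zero_mul]) hX hG
  refine (mul_le_mul_of_nonneg_right ?_ (abs_nonneg _)).trans (hK j)
  exact Real.rpow_le_rpow_of_exponent_le (by norm_num)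
    (mul_le_mul_of_nonneg_right hs's (Nat.cast_nonneg _))

/-- **All the exponents `β ≤ 3 + log₂ D / 2`.** -/
theorem crit_all {β ν s K S : ℝ} (hD : 0 < D) (hβ : ((2 : ℝ) ^ β) ^ 2 ≤ D * 64) (hν : 0 < ν)
    (hs : 0 < s) (hs2 : β - 2 < s) (hK0 : 0 ≤ K) (hS0 : 0 ≤ S) : CritP D β ν s K S := by
  rcases lt_or_ge β 2 with h | h
  · exact crit_lo h hν hs hK0 hS0
  · rcases hβ.lt_or_eq with h' | h'
    · exact crit_hi hD h h' hν hs2 hK0 hS0
    · exact crit_top hD h h' hν hs2 hK0 hS0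

end Pool.Agent.Run7.h32.Tu
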