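import Pool.Agent.Run7.h32.Tu.Nn

/-!
The dyadic model on a tree: the integral bound of the cubes for nonnegative solutions, uniformly in
the viscosity and in the solutions.
-/

set_option autoImplicit false
set_option linter.unusedSectionVars false

open Set Filter Topology MeasureTheory

namespace Pool.Agent.Run7.h32.Tu

open Pool.Agent.Run7.h32.Fo (ii_of)
open Pool.Agent.Run7.h32.Tr

variable {D : ℕ} {β ν E : ℝ} {x : Nd D → ℝ} {X : Nd D → ℝ → ℝ}

lemma cube_sum (b : Fin D → ℝ) (hb : ∀ i, 0 ≤ b i) (hD : 0 < D) :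
    (∑ i, b i) ^ 3 ≤ (D : ℝ) ^ 2 * ∑ i, b i ^ 3 := by
  have hD0 : (0 : ℝ) < D := by exact_mod_cast hD
  have h := pow_sum_div_card_le_sum_pow (s := (Finset.univ : Finset (Fin D))) (f := b)
    (fun i _ => hb i) 2
  rw [Finset.card_univ, Fintype.card_fin, div_le_iff₀ (by positivity)] at h
  have h' : (∑ i, b i) ^ 3 ≤ (∑ i, b i ^ 3) * (D : ℝ) ^ 2 := h
  linarith

/-- the pointwise inequality at a node -/
lemma node_cube {K F B lam a w : ℝ} {b c e : Fin D → ℝ} (hD : 0 < D) (hν : 0 ≤ ν) (hK : 0 ≤ K)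
    (hF : 0 ≤ F) (hB : 1 ≤ B) (hl : 0 < lam) (_ha : 0 ≤ a) (hw : 0 ≤ w) (hb : ∀ i, 0 ≤ b i)
    (hc : ∀ i, 0 ≤ c i) (he : ∀ i, c i ^ 3 ≤ (D : ℝ) ^ 2 * e i) :
    D * (K * a ^ 3) ≤ ((w - K * (a * ∑ i, b i) - ν * F * a) * (∑ i, b i)
        + a * ∑ i, (K * a ^ 2 - K * B * (b i * c i) - ν * (4 * F) * b i))
      + lam / 2 * (1 + B) * (K * (a ^ 2 * ∑ i, b i))
      + D ^ 2 / lam * (K * B * ∑ i, b i ^ 3 + K * B * B * ∑ i, e i)
      + 5 / 2 * D * (ν * (F * a ^ 2 + 4 * F * ∑ i, b i ^ 2)) := by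
  have hD1 : (1 : ℝ) ≤ D := by exact_mod_cast hD
  obtain ⟨S, hS⟩ : ∃ S, S = ∑ i, b i := ⟨_, rfl⟩
  have hS0 : 0 ≤ S := by rw [hS]; exact Finset.sum_nonneg fun i _ => hb i
  obtain ⟨S2, hS2⟩ : ∃ S, S = ∑ i, b i ^ 2 := ⟨_, rfl⟩
  obtain ⟨S3, hS3⟩ : ∃ S, S = ∑ i, b i ^ 3 := ⟨_, rfl⟩
  obtain ⟨P, hP⟩ : ∃ S, S = ∑ i, b i * c i := ⟨_, rfl⟩
  obtain ⟨G, hG⟩ : ∃ S, S = ∑ i, e i := ⟨_, rfl⟩
  have hS30 : 0 ≤ S3 := by rw [hS3]; exact Finset.sum_nonneg fun i _ => pow_nonneg (hb i) 3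
  have hS20 : 0 ≤ S2 := by rw [hS2]; exact Finset.sum_nonneg fun i _ => sq_nonneg _
  have hei : ∀ i, 0 ≤ e i := fun i => by
    have h1 := he i
    have h2 := pow_nonneg (hc i) 3
    have h3 : 0 ≤ (D : ℝ) ^ 2 * e i := h2.trans h1
    exact nonneg_of_mul_nonneg_right h3 (by positivity)
  have hG0 : 0 ≤ G := by rw [hG]; exact Finset.sum_nonneg fun i _ => hei i
  have h1 : S ^ 3 ≤ (D : ℝ) ^ 2 * S3 := by rw [hS, hS3]; exact cube_sum b hb hD
  have h2 : S ^ 2 ≤ D * S2 := by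
    have h := sq_sum_le_card_mul_sum_sq (s := (Finset.univ : Finset (Fin D))) (f := b)
    rw [Finset.card_univ, Fintype.card_fin] at h
    rw [hS, hS2]
    exact h
  have hsum : ∑ i, (K * a ^ 2 - K * B * (b i * c i) - ν * (4 * F) * b i)
      = D * (K * a ^ 2) - K * B * P - ν * (4 * F) * S := by
    rw [Finset.sum_sub_distrib, Finset.sum_sub_distrib, Finset.sum_const, Finset.card_univ,
      Fintype.card_fin, nsmul_eq_mul, ← Finset.mul_sum, ← Finset.mul_sum, ← hP, ← hS]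
  -- the products
  have h3 : a * S ^ 2 ≤ lam / 2 * (a ^ 2 * S) + 1 / (2 * lam) * S ^ 3 := by
    have e1 : lam / 2 * (a ^ 2 * S) + 1 / (2 * lam) * S ^ 3 - a * S ^ 2
        = S / (2 * lam) * (lam * a - S) ^ 2 := by
      field_simp
      ring
    have e2 : 0 ≤ S / (2 * lam) * (lam * a - S) ^ 2 := by positivity
    linarith
  have h4 : a * P ≤ lam / 2 * (a ^ 2 * S) + 1 / (2 * lam) * (S3 + D ^ 2 * G) := by
    have e3 : ∀ i, a * (b i * c i) ≤ lam / 2 * (a ^ 2 * b i)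
        + 1 / (2 * lam) * (b i ^ 3 + D ^ 2 * e i) := by
      intro i
      have i1 : lam / 2 * (a ^ 2 * b i) + 1 / (2 * lam) * (b i * c i ^ 2) - a * (b i * c i)
          = b i / (2 * lam) * (lam * a - c i) ^ 2 := by
        field_simp
        ring
      have i2 : 0 ≤ b i / (2 * lam) * (lam * a - c i) ^ 2 :=
        mul_nonneg (div_nonneg (hb i) (by positivity)) (sq_nonneg _)
      have i3 : b i * c i ^ 2 ≤ b i ^ 3 + c i ^ 3 := by
        rcases le_total (b i) (c i) with h | h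
        · have j1 := mul_le_mul_of_nonneg_right h (sq_nonneg (c i))
          have j2 := pow_nonneg (hb i) 3
          have j3 : c i * c i ^ 2 = c i ^ 3 := by ring
          linarith
        · have j1 := mul_le_mul_of_nonneg_left (pow_le_pow_left₀ (hc i) h 2) (hb i)
          have j2 := pow_nonneg (hc i) 3
          have j3 : b i * b i ^ 2 = b i ^ 3 := by ring
          linarith
      have i4 := mul_le_mul_of_nonneg_left (i3.trans (add_le_add le_rfl (he i)))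
        (by positivity : 0 ≤ 1 / (2 * lam))
      linarith
    have e4 := Finset.sum_le_sum fun i (_ : i ∈ (Finset.univ : Finset (Fin D))) => e3 i
    rw [← Finset.mul_sum, ← hP, Finset.sum_add_distrib, ← Finset.mul_sum, ← Finset.mul_sum,
      ← hS, ← Finset.mul_sum, Finset.sum_add_distrib, ← hS3, ← Finset.mul_sum, ← hG] at e4
    exact e4
  have h5 : 5 * (a * S) ≤ 5 / 2 * (a ^ 2 + D * S2) := by
    have := sq_nonneg (a - S)
    nlinarith
  rw [hsum, ← hS, ← hS2, ← hS3, ← hG]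
  have hil : 0 ≤ 1 / (2 * lam) := by positivity
  have hD2 : (1 : ℝ) ≤ (D : ℝ) ^ 2 := one_le_pow₀ hD1
  -- assembling
  have k1 := mul_le_mul_of_nonneg_left h3 hK
  have k2 := mul_le_mul_of_nonneg_left h4 (mul_nonneg hK (by linarith : 0 ≤ B))
  have k3 := mul_le_mul_of_nonneg_left h5 (mul_nonneg hν hF)
  have k4 : K * (1 / (2 * lam) * S ^ 3) ≤ D ^ 2 / (2 * lam) * (K * B * S3) := by
    have i1 := mul_le_mul_of_nonneg_left h1 (mul_nonneg hK hil)
    have i2 : K * (1 / (2 * lam)) * (D ^ 2 * S3) ≤ K * (1 / (2 * lam)) * (D ^ 2 * S3) * B :=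
      le_mul_of_one_le_right (by positivity) hB
    have i3 : K * (1 / (2 * lam)) * (D ^ 2 * S3) * B = D ^ 2 / (2 * lam) * (K * B * S3) := by ring
    linarith
  have k5 : K * B * (1 / (2 * lam) * (S3 + D ^ 2 * G))
      ≤ D ^ 2 / (2 * lam) * (K * B * S3) + D ^ 2 / lam * (K * B * B * G) := by
    have i1 : K * B * (1 / (2 * lam)) * S3 ≤ K * B * (1 / (2 * lam)) * S3 * D ^ 2 :=
      le_mul_of_one_le_right (by positivity) hD2
    have i2 : K * B * (1 / (2 * lam)) * (D ^ 2 * G)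
        ≤ K * B * (1 / (2 * lam)) * (D ^ 2 * G) * (2 * B) :=
      le_mul_of_one_le_right (by positivity) (by linarith)
    have i3 : K * B * (1 / (2 * lam)) * (D ^ 2 * G) * (2 * B) = D ^ 2 / lam * (K * B * B * G) := by
      field_simp
    have i4 : K * B * (1 / (2 * lam)) * S3 * D ^ 2 = D ^ 2 / (2 * lam) * (K * B * S3) := by ring
    have i5 : K * B * (1 / (2 * lam) * (S3 + D ^ 2 * G))
        = K * B * (1 / (2 * lam)) * S3 + K * B * (1 / (2 * lam)) * (D ^ 2 * G) := by ring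
    linarith
  have k6 : D ^ 2 / lam * (K * B * S3 + K * B * B * G)
      = D ^ 2 / (2 * lam) * (K * B * S3) + D ^ 2 / (2 * lam) * (K * B * S3)
        + D ^ 2 / lam * (K * B * B * G) := by
    field_simp
    ring
  have k7 : ν * F * (5 / 2 * (a ^ 2 + D * S2))
      ≤ 5 / 2 * D * (ν * (F * a ^ 2 + 4 * F * S2)) := by
    have i1 : ν * F * a ^ 2 ≤ ν * F * a ^ 2 * D := le_mul_of_one_le_right (by positivity) hD1
    have i2 : 0 ≤ ν * F * D * S2 := by positivity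
    nlinarith
  have k8 : 0 ≤ w * S := mul_nonneg hw hS0
  rw [k6]
  have k9 : ((w - K * (a * S) - ν * F * a) * S + a * (D * (K * a ^ 2) - K * B * P
      - ν * (4 * F) * S)) = w * S - K * (a * S ^ 2) + D * (K * a ^ 3) - K * B * (a * P)
        - ν * F * (5 * (a * S)) := by ring
  rw [k9]
  have k10 : K * (lam / 2 * (a ^ 2 * S) + 1 / (2 * lam) * S ^ 3)
      = lam / 2 * (K * (a ^ 2 * S)) + K * (1 / (2 * lam) * S ^ 3) := by ring
  have k11 : K * B * (lam / 2 * (a ^ 2 * S) + 1 / (2 * lam) * (S3 + D ^ 2 * G))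
      = lam / 2 * B * (K * (a ^ 2 * S)) + K * B * (1 / (2 * lam) * (S3 + D ^ 2 * G)) := by ring
  have k12 : lam / 2 * (1 + B) * (K * (a ^ 2 * S))
      = lam / 2 * (K * (a ^ 2 * S)) + lam / 2 * B * (K * (a ^ 2 * S)) := by ring
  rw [k10] at k1
  rw [k11] at k2
  rw [k12]
  linarith

/-- nonnegative solutions with the energy at most `E` -/
structure SN (β ν E : ℝ) (x : Nd D → ℝ) (X : Nd D → ℝ → ℝ) : Prop where
  ν0 : 0 < ν
  x0 : ∀ j, 0 ≤ x j
  xE : ∀ N : ℕ, ∑ j ∈ tre D N, x j ^ 2 ≤ E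
  sol : Sol0 β ν x X

/-- the integral of the cubes -/
noncomputable def acT (β : ℝ) (X : Nd D → ℝ → ℝ) (N : ℕ) (t : ℝ) : ℝ :=
  ∫ r in (0 : ℝ)..t, ∑ j ∈ lev D N, (2 : ℝ) ^ (β * N) * X j r ^ 3

namespace SN

variable (S : SN β ν E x X)
include S

lemma pos (j : Nd D) {t : ℝ} (ht : 0 ≤ t) : 0 ≤ X j t := nn S.x0 S.sol j ht

lemma E0 : 0 ≤ E := (Finset.sum_nonneg fun _ _ => sq_nonneg _).trans (S.xE 0)

lemma ct (j : Nd D) (t : ℝ) : ContinuousOn (X j) (Icc 0 t) := S.sol.cont j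

lemma ch_pos (j : Nd D) {t : ℝ} (ht : 0 ≤ t) : 0 ≤ ch (fun k => X k t) j :=
  Finset.sum_nonneg fun _ _ => S.pos _ ht

lemma flux_pos (N : ℕ) {t : ℝ} (ht : 0 ≤ t) : 0 ≤ flux β N (fun k => X k t) :=
  Finset.sum_nonneg fun j _ => mul_nonneg (Real.rpow_nonneg two_pos.le _)
    (mul_nonneg (sq_nonneg _) (S.ch_pos j ht))

lemma iflux_pos (N : ℕ) {t : ℝ} (ht : 0 ≤ t) :
    0 ≤ ∫ s in (0 : ℝ)..t, flux β N (fun k => X k s) :=
  intervalIntegral.integral_nonneg ht fun _ hs => S.flux_pos N hs.1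

lemma idiss_pos (N : ℕ) {t : ℝ} (ht : 0 ≤ t) :
    0 ≤ ∫ s in (0 : ℝ)..t, ∑ j ∈ tre D N, (4 : ℝ) ^ j.length * X j s ^ 2 :=
  intervalIntegral.integral_nonneg ht fun _ _ => Finset.sum_nonneg fun _ _ => by positivity

lemma id (N : ℕ) {t : ℝ} (ht : 0 ≤ t) :
    ∑ j ∈ tre D N, X j t ^ 2
      + 2 * ν * (∫ s in (0 : ℝ)..t, ∑ j ∈ tre D N, (4 : ℝ) ^ j.length * X j s ^ 2)
      + 2 * (∫ s in (0 : ℝ)..t, flux β N (fun k => X k s)) ≤ E := by
  have h1 := solT_id S.sol (fun _ => continuousOn_const) N (⟨ht, le_rfl⟩ : t ∈ Icc 0 t)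
  rw [sum0, mul_zero, add_zero] at h1
  have := S.xE N
  linarith

lemma en (N : ℕ) {t : ℝ} (ht : 0 ≤ t) : ∑ j ∈ tre D N, X j t ^ 2 ≤ E := by
  have h1 := S.id N ht
  have h2 := S.iflux_pos N ht
  have h3 := mul_nonneg (by have := S.ν0; positivity : 0 ≤ 2 * ν) (S.idiss_pos N ht)
  linarith

lemma lev_en (N : ℕ) {t : ℝ} (ht : 0 ≤ t) : ∑ j ∈ lev D N, X j t ^ 2 ≤ E :=
  (Finset.sum_le_sum_of_subset_of_nonneg (lev_sub N) fun _ _ _ => sq_nonneg _).trans (S.en N ht)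

lemma le_sqrt (j : Nd D) {t : ℝ} (ht : 0 ≤ t) : X j t ≤ √E := by
  apply Real.le_sqrt_of_sq_le
  exact (Finset.single_le_sum (f := fun k => X k t ^ 2) (fun k _ => sq_nonneg _)
    (mem_tre.2 le_rfl)).trans (S.en j.length ht)

lemma lev_diss (N : ℕ) {t : ℝ} (ht : 0 ≤ t) :
    2 * (ν * ∫ s in (0 : ℝ)..t, ∑ j ∈ lev D N, (4 : ℝ) ^ j.length * X j s ^ 2) ≤ E := by
  have h1 := S.id N ht
  have h2 := S.iflux_pos N ht
  have h3 : 0 ≤ ∑ j ∈ tre D N, X j t ^ 2 := Finset.sum_nonneg fun _ _ => sq_nonneg _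
  have h0t : (0 : ℝ) ∈ Icc 0 t := ⟨le_rfl, ht⟩
  have htt : t ∈ Icc 0 t := ⟨ht, le_rfl⟩
  have h4 : ∫ s in (0 : ℝ)..t, ∑ j ∈ lev D N, (4 : ℝ) ^ j.length * X j s ^ 2
      ≤ ∫ s in (0 : ℝ)..t, ∑ j ∈ tre D N, (4 : ℝ) ^ j.length * X j s ^ 2 :=
    intervalIntegral.integral_mono_on ht (ii_of (lev4_cont (fun j => S.ct j t) N) h0t htt)
      (ii_of (sum4_cont (fun j => S.ct j t) N) h0t htt) fun _ _ =>
      Finset.sum_le_sum_of_subset_of_nonneg (lev_sub N) fun _ _ _ => by positivity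
  have h5 := mul_le_mul_of_nonneg_left h4 (by have := S.ν0; positivity : 0 ≤ 2 * ν)
  linarith

lemma iflux (N : ℕ) {t : ℝ} (ht : 0 ≤ t) :
    2 * (∫ s in (0 : ℝ)..t, flux β N (fun k => X k s)) ≤ E := by
  have h1 := S.id N ht
  have h3 : 0 ≤ ∑ j ∈ tre D N, X j t ^ 2 := Finset.sum_nonneg fun _ _ => sq_nonneg _
  have h4 := mul_nonneg (by have := S.ν0; positivity : 0 ≤ 2 * ν) (S.idiss_pos N ht)
  linarith

lemma ac_cont (N : ℕ) (t : ℝ) :
    ContinuousOn (fun r => ∑ j ∈ lev D N, (2 : ℝ) ^ (β * N) * X j r ^ 3) (Icc 0 t) :=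
  continuousOn_finsetSum _ fun j _ => continuousOn_const.mul ((S.ct j t).pow 3)

lemma ac_nn (N : ℕ) {t : ℝ} (ht : 0 ≤ t) : 0 ≤ acT β X N t :=
  intervalIntegral.integral_nonneg ht fun _ hs => Finset.sum_nonneg fun j _ =>
    mul_nonneg (Real.rpow_nonneg two_pos.le _) (pow_nonneg (S.pos j hs.1) 3)

/-- the recursive estimate -/
lemma step (hD : 0 < D) (hβ : 0 ≤ β) (N : ℕ) {lam t : ℝ} (hl : 0 < lam) (ht : 0 ≤ t) :
    acT β X N t ≤ (4 * D + lam * (1 + (2 : ℝ) ^ β)) * E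
      + D ^ 2 / lam * (acT β X (N + 1) t + acT β X (N + 2) t) := by
  have hD1 : (1 : ℝ) ≤ D := by exact_mod_cast hD
  have hB : 1 ≤ (2 : ℝ) ^ β := Real.one_le_rpow one_le_two hβ
  have h0t : (0 : ℝ) ∈ Icc 0 t := ⟨le_rfl, ht⟩
  have htt : t ∈ Icc 0 t := ⟨ht, le_rfl⟩
  have hc : ∀ k, ContinuousOn (X k) (Icc 0 t) := fun k => S.ct k t
  have hcr : ∀ k, ContinuousOn (fun r => trhs β ν (fun k => X k r) k) (Icc 0 t) := fun k =>
    trhs_cont hc k
  have hcc : ∀ k, ContinuousOn (fun r => ch (fun k => X k r) k) (Icc 0 t) := fun k =>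
    ch_cont hc k
  have hcd : ContinuousOn (fun r => ∑ j ∈ lev D N, (trhs β ν (fun k => X k r) j
      * ch (fun k => X k r) j + X j r * ∑ i : Fin D, trhs β ν (fun k => X k r) (i :: j)))
      (Icc 0 t) :=
    continuousOn_finsetSum _ fun j _ => ((hcr j).mul (hcc j)).add
      ((hc j).mul (continuousOn_finsetSum _ fun i _ => hcr _))
  have c0 := ii_of (S.ac_cont N t) h0t htt
  have c1 := ii_of hcd h0t htt
  have c2 := ii_of (flux_cont' (β := β) hc N) h0t htt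
  have c3 := ii_of (S.ac_cont (N + 1) t) h0t htt
  have c4 := ii_of (S.ac_cont (N + 2) t) h0t htt
  have c5 := ii_of (lev4_cont hc N) h0t htt
  have c6 := ii_of (lev4_cont hc (N + 1)) h0t htt
  -- the integral of the derivative of the product
  have i1 : ∫ r in (0 : ℝ)..t, ∑ j ∈ lev D N, (trhs β ν (fun k => X k r) j
      * ch (fun k => X k r) j + X j r * ∑ i : Fin D, trhs β ν (fun k => X k r) (i :: j))
      = ∑ j ∈ lev D N, X j t * ch (fun k => X k t) j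
        - ∑ j ∈ lev D N, X j 0 * ch (fun k => X k 0) j := by
    refine intervalIntegral.integral_eq_sub_of_hasDerivAt_of_le ht
      (f := fun r => ∑ j ∈ lev D N, X j r * ch (fun k => X k r) j) ?_ ?_ c1
    · exact continuousOn_finsetSum _ fun j _ => (hc j).mul (hcc j)
    · intro r hr
      refine HasDerivAt.fun_sum fun j _ => ?_
      have e1 : ∀ k, HasDerivAt (X k) (trhs β ν (fun k => X k r) k) r := fun k => by
        have := S.sol.at k hr.1
        rwa [add_zero] at this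
      have e2 : HasDerivAt (fun r => ch (fun k => X k r) j)
          (∑ i : Fin D, trhs β ν (fun k => X k r) (i :: j)) r :=
        HasDerivAt.fun_sum fun i _ => e1 _
      exact (e1 j).mul e2
  have i2 : ∑ j ∈ lev D N, X j t * ch (fun k => X k t) j ≤ D * E := by
    have e1 : ∀ j ∈ lev D N, X j t * ch (fun k => X k t) j
        ≤ 1 / 2 * (X j t ^ 2 + D * ∑ i : Fin D, X (i :: j) t ^ 2) := by
      intro j _
      have := ch_sq (fun k => X k t) j
      have := sq_nonneg (X j t - ch (fun k => X k t) j)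
      nlinarith
    have e2 := Finset.sum_le_sum e1
    rw [← Finset.mul_sum, Finset.sum_add_distrib, ← Finset.mul_sum,
      ← sum_lev_succ N (fun j => X j t ^ 2)] at e2
    have e3 := S.lev_en N ht
    have e4 := S.lev_en (N + 1) ht
    have e5 := S.E0
    have e6 : D * ∑ j ∈ lev D (N + 1), X j t ^ 2 ≤ D * E :=
      mul_le_mul_of_nonneg_left e4 (by linarith)
    have e7 : E ≤ D * E := le_mul_of_one_le_left e5 hD1
    linarith
  have i3 : 0 ≤ ∑ j ∈ lev D N, X j 0 * ch (fun k => X k 0) j :=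
    Finset.sum_nonneg fun j _ => mul_nonneg (S.pos _ le_rfl) (S.ch_pos _ le_rfl)
  -- monotonicity
  have hmono : D * acT β X N t ≤ ∫ r in (0 : ℝ)..t, (∑ j ∈ lev D N, (trhs β ν (fun k => X k r) j
      * ch (fun k => X k r) j + X j r * ∑ i : Fin D, trhs β ν (fun k => X k r) (i :: j))
      + lam / 2 * (1 + (2 : ℝ) ^ β) * flux β N (fun k => X k r)
      + D ^ 2 / lam * (∑ j ∈ lev D (N + 1), (2 : ℝ) ^ (β * (N + 1 : ℕ)) * X j r ^ 3
        + ∑ j ∈ lev D (N + 2), (2 : ℝ) ^ (β * (N + 2 : ℕ)) * X j r ^ 3)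
      + 5 / 2 * D * (ν * (∑ j ∈ lev D N, (4 : ℝ) ^ j.length * X j r ^ 2
        + ∑ j ∈ lev D (N + 1), (4 : ℝ) ^ j.length * X j r ^ 2))) := by
    rw [acT, ← intervalIntegral.integral_const_mul]
    refine intervalIntegral.integral_mono_on ht (c0.const_mul _) (((c1.add (c2.const_mul _)).add
      ((c3.add c4).const_mul _)).add (((c5.add c6).const_mul _).const_mul _)) ?_
    intro r hr
    have hK1 : (2 : ℝ) ^ (β * (N + 1 : ℕ)) = (2 : ℝ) ^ (β * N) * (2 : ℝ) ^ β := by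
      rw [← Real.rpow_add two_pos]
      congr 1
      push_cast
      ring
    have hK2 : (2 : ℝ) ^ (β * (N + 2 : ℕ)) = (2 : ℝ) ^ (β * N) * (2 : ℝ) ^ β * (2 : ℝ) ^ β := by
      rw [← Real.rpow_add two_pos, ← Real.rpow_add two_pos]
      congr 1
      push_cast
      ring
    rw [sum_lev_succ (N + 1), sum_lev_succ N, sum_lev_succ N, flux, hK1, hK2]
    have e1 : ∑ j ∈ lev D N, ∑ i : Fin D, (4 : ℝ) ^ (i :: j).length * X (i :: j) r ^ 2
        = ∑ j ∈ lev D N, ∑ i : Fin D, 4 * 4 ^ N * X (i :: j) r ^ 2 := by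
      refine Finset.sum_congr rfl fun j hj => Finset.sum_congr rfl fun i _ => ?_
      rw [List.length_cons, mem_lev.1 hj, pow_succ]
      ring
    have e2 : ∑ j ∈ lev D N, (4 : ℝ) ^ j.length * X j r ^ 2
        = ∑ j ∈ lev D N, (4 : ℝ) ^ N * X j r ^ 2 :=
      Finset.sum_congr rfl fun j hj => by rw [mem_lev.1 hj]
    rw [sum_lev_succ N (fun j => (4 : ℝ) ^ j.length * X j r ^ 2), e1, e2]
    refine le_trans ?_ (le_of_eq (?_ : ∑ j ∈ lev D N, ((trhs β ν (fun k => X k r) j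
      * ch (fun k => X k r) j + X j r * ∑ i : Fin D, trhs β ν (fun k => X k r) (i :: j))
      + lam / 2 * (1 + (2 : ℝ) ^ β) * ((2 : ℝ) ^ (β * N) * (X j r ^ 2 * ch (fun k => X k r) j))
      + D ^ 2 / lam * (∑ i : Fin D, (2 : ℝ) ^ (β * N) * (2 : ℝ) ^ β * X (i :: j) r ^ 3
        + ∑ i : Fin D, ∑ k : Fin D, (2 : ℝ) ^ (β * N) * (2 : ℝ) ^ β * (2 : ℝ) ^ β
          * X (k :: i :: j) r ^ 3)
      + 5 / 2 * D * (ν * (4 ^ N * X j r ^ 2 + ∑ i : Fin D, 4 * 4 ^ N * X (i :: j) r ^ 2))) = _))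
    swap
    · simp only [Finset.sum_add_distrib, ← Finset.mul_sum]
    rw [Finset.mul_sum]
    refine Finset.sum_le_sum fun j hj => ?_
    have hw : 0 ≤ inp β (fun k => X k r) j := by
      cases j with
      | nil => exact le_rfl
      | cons i j => exact mul_nonneg (Real.rpow_nonneg two_pos.le _) (sq_nonneg _)
    have h1 := node_cube (D := D) (ν := ν) (lam := lam) (K := (2 : ℝ) ^ (β * N)) (F := 4 ^ N)
      (B := (2 : ℝ) ^ β) (a := X j r) (w := inp β (fun k => X k r) j)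
      (b := fun i => X (i :: j) r) (c := fun i => ch (fun k => X k r) (i :: j))
      (e := fun i => ∑ k : Fin D, X (k :: i :: j) r ^ 3) hD S.ν0.le
      (Real.rpow_nonneg two_pos.le _) (by positivity) hB hl (S.pos j hr.1) hw
      (fun i => S.pos _ hr.1) (fun i => S.ch_pos _ hr.1)
      (fun i => cube_sum (fun k => X (k :: i :: j) r) (fun k => S.pos _ hr.1) hD)
    have h2 : trhs β ν (fun k => X k r) j = inp β (fun k => X k r) j
        - (2 : ℝ) ^ (β * N) * (X j r * ∑ i, X (i :: j) r) - ν * 4 ^ N * X j r := by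
      simp only [trhs, ch, mem_lev.1 hj]
    have h3 : ∀ i : Fin D, trhs β ν (fun k => X k r) (i :: j)
        = (2 : ℝ) ^ (β * N) * X j r ^ 2 - (2 : ℝ) ^ (β * N) * (2 : ℝ) ^ β
          * (X (i :: j) r * ch (fun k => X k r) (i :: j)) - ν * (4 * 4 ^ N) * X (i :: j) r := by
      intro i
      simp only [trhs, inp, List.length_cons, mem_lev.1 hj, hK1]
      rw [pow_succ]
      ring
    rw [h2, Finset.sum_congr rfl fun i _ => h3 i]
    refine h1.trans (le_of_eq ?_)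
    simp only [ch, ← Finset.mul_sum]
  rw [intervalIntegral.integral_add ((c1.add (c2.const_mul _)).add ((c3.add c4).const_mul _))
      (((c5.add c6).const_mul _).const_mul _),
    intervalIntegral.integral_add (c1.add (c2.const_mul _)) ((c3.add c4).const_mul _),
    intervalIntegral.integral_add c1 (c2.const_mul _), i1,
    intervalIntegral.integral_const_mul (lam / 2 * (1 + (2 : ℝ) ^ β)),
    intervalIntegral.integral_const_mul (D ^ 2 / lam : ℝ),
    intervalIntegral.integral_const_mul (5 / 2 * D : ℝ), intervalIntegral.integral_const_mul ν,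
    intervalIntegral.integral_add c3 c4, intervalIntegral.integral_add c5 c6] at hmono
  have j1 := S.iflux N ht
  have j2 := S.lev_diss N ht
  have j3 := S.lev_diss (N + 1) ht
  have hE := S.E0
  have j4 : lam / 2 * (1 + (2 : ℝ) ^ β) * (∫ r in (0 : ℝ)..t, flux β N (fun k => X k r))
      ≤ lam / 2 * (1 + (2 : ℝ) ^ β) * E :=
    mul_le_mul_of_nonneg_left (by have := S.iflux_pos N ht; linarith) (by positivity)
  have j5 : 5 / 2 * D * (ν * ((∫ r in (0 : ℝ)..t, ∑ j ∈ lev D N, (4 : ℝ) ^ j.length * X j r ^ 2)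
      + ∫ r in (0 : ℝ)..t, ∑ j ∈ lev D (N + 1), (4 : ℝ) ^ j.length * X j r ^ 2))
      ≤ 5 / 2 * D * E := by
    apply mul_le_mul_of_nonneg_left _ (by positivity)
    rw [mul_add]
    linarith
  have j6 : acT β X N t ≤ D * acT β X N t := le_mul_of_one_le_left (S.ac_nn N ht) hD1
  have j7 : 0 ≤ lam / 2 * (1 + (2 : ℝ) ^ β) * E := by positivity
  have j8 : 0 ≤ D * E := by positivity
  simp only [acT] at hmono j6 ⊢
  linarith

end SN

/-- the estimate with a small exponent, uniformly in the solutions -/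
theorem acT_bound (hD : 0 < D) (hβ : 0 ≤ β) (hE : 0 ≤ E) (j : ℕ) :
    ∃ A : ℝ, 0 ≤ A ∧ ∀ (ν : ℝ) (x : Nd D → ℝ) (X : Nd D → ℝ → ℝ), SN β ν E x X → ∀ t, 1 ≤ t →
      ∀ N : ℕ, acT β X N t ≤ A * t * (2 : ℝ) ^ (β / 2 ^ j * N) := by
  induction j with
  | zero =>
    refine ⟨E * √E, by positivity, ?_⟩
    intro ν x X S t ht N
    have ht0 : 0 ≤ t := by linarith
    have h1 : acT β X N t ≤ ∫ r in (0 : ℝ)..t, (2 : ℝ) ^ (β * N) * (E * √E) := by
      refine intervalIntegral.integral_mono_on ht0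
        (ii_of (S.ac_cont N t) ⟨le_rfl, ht0⟩ ⟨ht0, le_rfl⟩) intervalIntegrable_const ?_
      intro r hr
      rw [← Finset.mul_sum]
      apply mul_le_mul_of_nonneg_left _ (Real.rpow_nonneg two_pos.le _)
      have h2 : ∑ j ∈ lev D N, X j r ^ 3 ≤ ∑ j ∈ lev D N, X j r ^ 2 * √E := by
        refine Finset.sum_le_sum fun j _ => ?_
        have := mul_le_mul_of_nonneg_left (S.le_sqrt j hr.1) (sq_nonneg (X j r))
        calc X j r ^ 3 = X j r ^ 2 * X j r := by ring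
          _ ≤ _ := this
      rw [← Finset.sum_mul] at h2
      exact h2.trans (mul_le_mul_of_nonneg_right (S.lev_en N hr.1) (Real.sqrt_nonneg _))
    rw [intervalIntegral.integral_const, smul_eq_mul, sub_zero] at h1
    rw [pow_zero, div_one]
    refine h1.trans (le_of_eq ?_)
    ring
  | succ j ih =>
    obtain ⟨A, hA0, hA⟩ := ih
    refine ⟨(4 * D + 1 + (2 : ℝ) ^ β) * E + D ^ 2 * A * ((2 : ℝ) ^ β + (2 : ℝ) ^ (2 * β)),
      by positivity, ?_⟩
    intro ν x X S t ht N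
    have ht0 : 0 ≤ t := by linarith
    have hγ : 0 ≤ β / 2 ^ j := by positivity
    have hγβ : β / 2 ^ j ≤ β := by
      apply div_le_self hβ
      exact one_le_pow₀ one_le_two
    obtain ⟨lam, hlam⟩ : ∃ lam : ℝ, lam = (2 : ℝ) ^ (β / 2 ^ (j + 1) * N) := ⟨_, rfl⟩
    have hl0 : 0 < lam := by rw [hlam]; exact Real.rpow_pos_of_pos two_pos _
    have hl1 : 1 ≤ lam := by
      rw [hlam]
      apply Real.one_le_rpow one_le_two
      positivity
    have h1 := S.step hD hβ N hl0 ht0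
    have h2 := hA ν x X S t ht (N + 1)
    have h3 := hA ν x X S t ht (N + 2)
    have e0 : (2 : ℝ) ^ (β / 2 ^ j * N) = lam * lam := by
      rw [hlam, ← Real.rpow_add two_pos]
      congr 1
      rw [pow_succ]
      field_simp
      ring
    have e1 : (2 : ℝ) ^ (β / 2 ^ j * (N + 1 : ℕ)) ≤ (2 : ℝ) ^ β * (lam * lam) := by
      rw [← e0, ← Real.rpow_add two_pos]
      apply Real.rpow_le_rpow_of_exponent_le one_le_two
      push_cast
      linarith
    have e2 : (2 : ℝ) ^ (β / 2 ^ j * (N + 2 : ℕ)) ≤ (2 : ℝ) ^ (2 * β) * (lam * lam) := by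
      rw [← e0, ← Real.rpow_add two_pos]
      apply Real.rpow_le_rpow_of_exponent_le one_le_two
      push_cast
      linarith
    have hAt : 0 ≤ A * t := by positivity
    have h4 : D ^ 2 / lam * (acT β X (N + 1) t + acT β X (N + 2) t)
        ≤ D ^ 2 / lam * (A * t * ((2 : ℝ) ^ β * (lam * lam))
          + A * t * ((2 : ℝ) ^ (2 * β) * (lam * lam))) := by
      apply mul_le_mul_of_nonneg_left _ (by positivity)
      exact add_le_add (h2.trans (mul_le_mul_of_nonneg_left e1 hAt))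
        (h3.trans (mul_le_mul_of_nonneg_left e2 hAt))
    have h5 : D ^ 2 / lam * (A * t * ((2 : ℝ) ^ β * (lam * lam))
          + A * t * ((2 : ℝ) ^ (2 * β) * (lam * lam)))
        = D ^ 2 * A * ((2 : ℝ) ^ β + (2 : ℝ) ^ (2 * β)) * t * lam := by
      field_simp
    have h6 : (4 * D + lam * (1 + (2 : ℝ) ^ β)) * E
        ≤ (4 * D + 1 + (2 : ℝ) ^ β) * E * t * lam := by
      have i1 : 4 * D * E ≤ 4 * D * E * lam := le_mul_of_one_le_right (by positivity) hl1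
      have i2 : (4 * D + 1 + (2 : ℝ) ^ β) * E * lam
          ≤ (4 * D + 1 + (2 : ℝ) ^ β) * E * lam * t :=
        le_mul_of_one_le_right (by positivity) ht
      have i3 : (4 * D + lam * (1 + (2 : ℝ) ^ β)) * E
          = 4 * D * E + (1 + (2 : ℝ) ^ β) * E * lam := by ring
      have i4 : (4 * D + 1 + (2 : ℝ) ^ β) * E * lam
          = 4 * D * E * lam + (1 + (2 : ℝ) ^ β) * E * lam := by ring
      have i5 : (4 * D + 1 + (2 : ℝ) ^ β) * E * lam * t
          = (4 * D + 1 + (2 : ℝ) ^ β) * E * t * lam := by ring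
      linarith
    rw [← hlam]
    calc acT β X N t ≤ _ := h1
      _ ≤ (4 * D + 1 + (2 : ℝ) ^ β) * E * t * lam
          + D ^ 2 * A * ((2 : ℝ) ^ β + (2 : ℝ) ^ (2 * β)) * t * lam := by
        rw [h5] at h4
        linarith
      _ = _ := by ring

/-- the estimate with the square root of the time -/
theorem acT_sqrt (hD : 0 < D) (hβ : 0 ≤ β) (hE : 0 ≤ E) {γ : ℝ} (hγ : 0 < γ) :
    ∃ A : ℝ, 0 ≤ A ∧ ∀ (ν : ℝ) (x : Nd D → ℝ) (X : Nd D → ℝ → ℝ), SN β ν E x X → ∀ t, 1 ≤ t →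
      ∀ N : ℕ, acT β X N t ≤ A * √t * (2 : ℝ) ^ (γ * N) := by
  obtain ⟨j, hj⟩ := pow_unbounded_of_one_lt (β / γ) one_lt_two
  have hjγ : β / 2 ^ j ≤ γ := by
    rw [div_le_iff₀ (by positivity)]
    rw [div_lt_iff₀ hγ] at hj
    linarith
  obtain ⟨A, hA0, hA⟩ := acT_bound (D := D) hD hβ hE j
  refine ⟨(4 * D + 1 + (2 : ℝ) ^ β) * E + D ^ 2 * A * ((2 : ℝ) ^ γ + (2 : ℝ) ^ (2 * γ)),
    by positivity, ?_⟩
  intro ν x X S t ht N
  have ht0 : 0 < t := by linarith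
  have hs0 : 0 < √t := Real.sqrt_pos.2 ht0
  have hs1 : 1 ≤ √t := by rw [Real.one_le_sqrt]; exact ht
  have hss : √t * √t = t := Real.mul_self_sqrt ht0.le
  have h1 := S.step hD hβ N hs0 ht0.le
  have hg : ∀ m : ℕ, acT β X m t ≤ A * t * (2 : ℝ) ^ (γ * m) := fun m =>
    (hA ν x X S t ht m).trans (mul_le_mul_of_nonneg_left
      (Real.rpow_le_rpow_of_exponent_le one_le_two
        (mul_le_mul_of_nonneg_right hjγ (Nat.cast_nonneg _))) (by positivity))
  have h2 := hg (N + 1)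
  have h3 := hg (N + 2)
  obtain ⟨P, hP⟩ : ∃ P, P = (2 : ℝ) ^ (γ * N) := ⟨_, rfl⟩
  have hP1 : 1 ≤ P := by
    rw [hP]
    apply Real.one_le_rpow one_le_two
    positivity
  have e1 : (2 : ℝ) ^ (γ * (N + 1 : ℕ)) = (2 : ℝ) ^ γ * P := by
    rw [hP, ← Real.rpow_add two_pos]
    congr 1
    push_cast
    ring
  have e2 : (2 : ℝ) ^ (γ * (N + 2 : ℕ)) = (2 : ℝ) ^ (2 * γ) * P := by
    rw [hP, ← Real.rpow_add two_pos]
    congr 1
    push_cast
    ring
  rw [e1] at h2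
  rw [e2] at h3
  rw [← hP]
  have h4 : D ^ 2 / √t * (acT β X (N + 1) t + acT β X (N + 2) t)
      ≤ D ^ 2 / √t * (A * t * ((2 : ℝ) ^ γ * P) + A * t * ((2 : ℝ) ^ (2 * γ) * P)) :=
    mul_le_mul_of_nonneg_left (add_le_add h2 h3) (by positivity)
  have h5 : D ^ 2 / √t * (A * t * ((2 : ℝ) ^ γ * P) + A * t * ((2 : ℝ) ^ (2 * γ) * P))
      = D ^ 2 * A * ((2 : ℝ) ^ γ + (2 : ℝ) ^ (2 * γ)) * √t * P := by
    have : t / √t = √t := by rw [div_eq_iff hs0.ne']; exact hss.symm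
    calc _ = D ^ 2 * A * ((2 : ℝ) ^ γ + (2 : ℝ) ^ (2 * γ)) * (t / √t) * P := by ring
      _ = _ := by rw [this]
  have h6 : (4 * D + √t * (1 + (2 : ℝ) ^ β)) * E ≤ (4 * D + 1 + (2 : ℝ) ^ β) * E * √t * P := by
    have i1 : 4 * D * E ≤ 4 * D * E * √t := le_mul_of_one_le_right (by positivity) hs1
    have i2 : (4 * D + 1 + (2 : ℝ) ^ β) * E * √t
        ≤ (4 * D + 1 + (2 : ℝ) ^ β) * E * √t * P :=
      le_mul_of_one_le_right (by positivity) hP1
    have i3 : (4 * D + √t * (1 + (2 : ℝ) ^ β)) * E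
        = 4 * D * E + (1 + (2 : ℝ) ^ β) * E * √t := by ring
    have i4 : (4 * D + 1 + (2 : ℝ) ^ β) * E * √t
        = 4 * D * E * √t + (1 + (2 : ℝ) ^ β) * E * √t := by ring
    linarith
  calc acT β X N t ≤ _ := h1
    _ ≤ (4 * D + 1 + (2 : ℝ) ^ β) * E * √t * P
        + D ^ 2 * A * ((2 : ℝ) ^ γ + (2 : ℝ) ^ (2 * γ)) * √t * P := by
      rw [h5] at h4
      linarith
    _ = _ := by ring

end Pool.Agent.Run7.h32.Tu
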