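import Pool.Agent.Run7.h32.Tu.Wk
import Pool.Agent.Run7.h32.Tu.Blow3

/-!
The dyadic model on a tree, `β ≤ 3`: the energy equality for all the solutions with the energy
inequality from the time zero.
-/

set_option autoImplicit false

open Set Filter Topology MeasureTheory

namespace Pool.Agent.Run7.h32.Tu

open Run7.h969.Dy (pow_mul_nat)
open Pool.Agent.Run7.h32.Fo (ii_of)
open Pool.Agent.Run7.h32.Tr

variable {D : ℕ} {β ν : ℝ} {x : Nd D → ℝ} {X : Nd D → ℝ → ℝ}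

/-- A solution with the energy inequality from the time zero is a weak solution. -/
lemma wk_of_ei (hν : 0 < ν) (hX : Sol0 β ν x X) (h0 : EI ν X 0) : WkSol β ν x X :=
  ⟨hX, fun _ _ => ⟨_, fun _ ht N => h0.sum_le hν ht.1 N⟩,
    fun _ hT => ⟨_, fun N => h0.diss_le hν hT N⟩⟩

/-- The lower bound of the energy equality. -/
theorem ee_ge {t : ℝ} (hD : 0 < D) (hν : 0 < ν) (hX : Sol0 β ν x X) (ht : 0 < t)
    (hS : ∀ (s r : ℝ), 0 < s → ∃ K, ∀ (j : Nd D) t, s ≤ t → (2 : ℝ) ^ (r * j.length) * |X j t| ≤ K)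
    (M : ℕ) {ε : ℝ} (hε : 0 < ε) : ∃ N : ℕ, ∑ j ∈ tre D M, x j ^ 2 - 2 * ε
      ≤ ∑ j ∈ tre D N, X j t ^ 2
        + 2 * ν * ∫ r in (0 : ℝ)..t, ∑ j ∈ tre D N, (4 : ℝ) ^ j.length * X j r ^ 2 := by
  have hD0 : (0 : ℝ) < D := by exact_mod_cast hD
  obtain ⟨B, hB⟩ : ∃ B : ℝ, B = 2 ^ β := ⟨_, rfl⟩
  have hB0 : 0 < B := by rw [hB]; exact Real.rpow_pos_of_pos two_pos _
  -- a small positive time
  obtain ⟨s, hs0, hst, hs⟩ : ∃ s, 0 < s ∧ s < t ∧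
      ∑ j ∈ tre D M, x j ^ 2 - ε ≤ ∑ j ∈ tre D M, X j s ^ 2 := by
    have h1 : ContinuousOn (fun s => ∑ j ∈ tre D M, X j s ^ 2) (Icc 0 t) :=
      continuousOn_finsetSum _ fun j _ => (hX.cont j).pow 2
    have h2 : Tendsto (fun s => ∑ j ∈ tre D M, X j s ^ 2) (𝓝[Icc 0 t] 0)
        (𝓝 (∑ j ∈ tre D M, X j 0 ^ 2)) := h1 0 ⟨le_rfl, ht.le⟩
    have h3 : Tendsto (fun s => ∑ j ∈ tre D M, X j s ^ 2) (𝓝[Ioo 0 t] 0)
        (𝓝 (∑ j ∈ tre D M, X j 0 ^ 2)) := h2.mono_left (nhdsWithin_mono _ Ioo_subset_Icc_self)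
    rw [nhdsWithin_Ioo_eq_nhdsGT ht] at h3
    have h4 : ∑ j ∈ tre D M, x j ^ 2 - ε < ∑ j ∈ tre D M, X j 0 ^ 2 := by
      simp only [hX.init]
      linarith
    obtain ⟨s, hs1, hs2⟩ := ((h3.eventually (lt_mem_nhds h4)).and (Ioo_mem_nhdsGT ht)).exists
    exact ⟨s, hs2.1, hs2.2, hs1.le⟩
  -- the flux
  obtain ⟨m, hm⟩ := pow_unbounded_of_one_lt (B * D) (by norm_num : (1 : ℝ) < 8)
  obtain ⟨R, hR⟩ : ∃ R : ℝ, R = 2 ^ m := ⟨_, rfl⟩
  have hR0 : 0 < R := by rw [hR]; positivity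
  have hR3 : B * D < R ^ 3 := by
    have : R ^ 3 = 8 ^ m := by
      rw [hR, ← pow_mul, mul_comm m 3, pow_mul]
      norm_num
    rwa [this]
  obtain ⟨C, hC⟩ := hS s m hs0
  have hXC : ∀ r, s ≤ r → ∀ j : Nd D, |X j r| ≤ C / R ^ j.length := by
    intro r hr j
    have h1 := hC j r hr
    rw [pow_mul_nat, Real.rpow_natCast, ← hR] at h1
    rw [le_div_iff₀ (by positivity), mul_comm]
    exact h1
  obtain ⟨τ, hτ⟩ : ∃ τ, τ = B * D / R ^ 3 := ⟨_, rfl⟩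
  have hτ0 : 0 < τ := by rw [hτ]; positivity
  have hτ1 : τ < 1 := by rw [hτ, div_lt_one (by positivity)]; exact hR3
  obtain ⟨N, hN1, hN2⟩ : ∃ N : ℕ, 2 * (t * (D * C ^ 3 / R * τ ^ N)) ≤ ε ∧ M ≤ N := by
    have h1 : Tendsto (fun N : ℕ => 2 * (t * (D * C ^ 3 / R * τ ^ N))) atTop
        (𝓝 (2 * (t * (D * C ^ 3 / R * 0)))) :=
      (((tendsto_pow_atTop_nhds_zero_of_lt_one hτ0.le hτ1).const_mul _).const_mul _).const_mul _
    rw [mul_zero, mul_zero, mul_zero] at h1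
    obtain ⟨N, hN, hN'⟩ := ((h1.eventually (gt_mem_nhds hε)).and (eventually_ge_atTop M)).exists
    exact ⟨N, hN.le, hN'⟩
  refine ⟨N, ?_⟩
  have hsh := shift0 hX hs0.le
  have hts : (0 : ℝ) ≤ t - s := by linarith
  have htt : t - s ∈ Icc 0 (t - s) := ⟨hts, le_rfl⟩
  have h0t : (0 : ℝ) ∈ Icc 0 (t - s) := ⟨le_rfl, hts⟩
  have h1 := solT_id hsh (fun _ => continuousOn_const) N htt
  rw [sum0, mul_zero, add_zero] at h1
  have e0 : s + (t - s) = t := by ring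
  simp only [e0] at h1
  have hcs : ∀ j, ContinuousOn (fun r => X j (s + r)) (Icc 0 (t - s)) := fun j => hsh.cont j
  have h2 : ∫ r in (0 : ℝ)..(t - s), flux β N (fun k => X k (s + r))
      ≤ (t - s) * (D * C ^ 3 / R * τ ^ N) := by
    have h3 := intervalIntegral.integral_mono_on hts
      (ii_of (flux_cont' (β := β) hcs N) h0t htt) intervalIntegrable_const
      (fun r hr => (le_abs_self _).trans (flux_bd hB hR0 (y := fun k => X k (s + r))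
        (hXC (s + r) (by linarith [hr.1])) N))
    rw [intervalIntegral.integral_const, smul_eq_mul, sub_zero, ← hτ] at h3
    exact h3
  have hfl0 : 0 ≤ D * C ^ 3 / R * τ ^ N := by
    have h3 := flux_bd hB hR0 (y := fun k => X k s) (hXC s le_rfl) N
    rw [← hτ] at h3
    exact (abs_nonneg _).trans h3
  have h3 : (t - s) * (D * C ^ 3 / R * τ ^ N) ≤ t * (D * C ^ 3 / R * τ ^ N) :=
    mul_le_mul_of_nonneg_right (by linarith) hfl0
  have h4 : ∫ r in (0 : ℝ)..(t - s), ∑ j ∈ tre D N, (4 : ℝ) ^ j.length * X j (s + r) ^ 2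
      ≤ ∫ r in (0 : ℝ)..t, ∑ j ∈ tre D N, (4 : ℝ) ^ j.length * X j r ^ 2 := by
    have e1 := intervalIntegral.integral_comp_add_left
      (a := 0) (b := t - s) (fun r => ∑ j ∈ tre D N, (4 : ℝ) ^ j.length * X j r ^ 2) s
    rw [add_zero, e0] at e1
    rw [e1]
    have hcX : ∀ j, ContinuousOn (X j) (Icc 0 t) := fun j => hX.cont j
    have h5 := intervalIntegral.integral_add_adjacent_intervals
      (ii_of (sum4_cont hcX N) (⟨le_rfl, ht.le⟩ : (0 : ℝ) ∈ Icc 0 t)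
        (⟨hs0.le, hst.le⟩ : s ∈ Icc 0 t))
      (ii_of (sum4_cont hcX N) (⟨hs0.le, hst.le⟩ : s ∈ Icc 0 t) (⟨ht.le, le_rfl⟩ : t ∈ Icc 0 t))
    have h6 : 0 ≤ ∫ r in (0 : ℝ)..s, ∑ j ∈ tre D N, (4 : ℝ) ^ j.length * X j r ^ 2 :=
      intervalIntegral.integral_nonneg hs0.le fun r _ => Finset.sum_nonneg fun j _ => by positivity
    linarith
  have h5 := mul_le_mul_of_nonneg_left h4 (by positivity : 0 ≤ 2 * ν)
  have h6 : ∑ j ∈ tre D M, X j s ^ 2 ≤ ∑ j ∈ tre D N, X j s ^ 2 :=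
    Finset.sum_le_sum_of_subset_of_nonneg (tre_mono hN2) fun j _ _ => sq_nonneg _
  linarith

/-- The energy equality for solutions which are smooth for positive times. -/
theorem ee_of_smooth (hD : 0 < D) (hν : 0 < ν) (hX : Sol0 β ν x X) (h0 : EI ν X 0)
    (hS : ∀ (s r : ℝ), 0 < s → ∃ K, ∀ (j : Nd D) t, s ≤ t → (2 : ℝ) ^ (r * j.length) * |X j t| ≤ K)
    {t : ℝ} (ht : 0 ≤ t) :
    HasSum (fun j => X j t ^ 2 + 2 * ν * ∫ r in (0 : ℝ)..t, (4 : ℝ) ^ j.length * X j r ^ 2)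
      (∑' j, X j 0 ^ 2) := by
  rcases ht.eq_or_lt with h | h
  · rw [← h]
    simp only [intervalIntegral.integral_same, mul_zero, add_zero]
    exact h0.1.hasSum
  have hc : ∀ j, ContinuousOn (X j) (Icc 0 t) := fun j => hX.cont j
  have hsum : ∀ N : ℕ, ∑ j ∈ tre D N, (X j t ^ 2
      + 2 * ν * ∫ r in (0 : ℝ)..t, (4 : ℝ) ^ j.length * X j r ^ 2)
      = ∑ j ∈ tre D N, X j t ^ 2
        + 2 * ν * ∫ r in (0 : ℝ)..t, ∑ j ∈ tre D N, (4 : ℝ) ^ j.length * X j r ^ 2 := by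
    intro N
    rw [Finset.sum_add_distrib, ← Finset.mul_sum, intervalIntegral.integral_finsetSum]
    intro j _
    exact ii_of (continuousOn_const.mul ((hc j).pow 2)) (⟨le_rfl, ht⟩ : (0 : ℝ) ∈ Icc 0 t)
      (⟨ht, le_rfl⟩ : t ∈ Icc 0 t)
  have hnn : ∀ j : Nd D, 0 ≤ X j t ^ 2
      + 2 * ν * ∫ r in (0 : ℝ)..t, (4 : ℝ) ^ j.length * X j r ^ 2 := fun j => by
    have h1 : 0 ≤ ∫ r in (0 : ℝ)..t, (4 : ℝ) ^ j.length * X j r ^ 2 :=
      intervalIntegral.integral_nonneg ht fun r _ => by positivity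
    positivity
  have hle : ∀ N : ℕ, ∑ j ∈ tre D N, (X j t ^ 2
      + 2 * ν * ∫ r in (0 : ℝ)..t, (4 : ℝ) ^ j.length * X j r ^ 2) ≤ ∑' j, X j 0 ^ 2 := fun N => by
    rw [hsum]
    exact h0.2 t ht N
  obtain ⟨hs, hs2⟩ := tsum_bdT hnn hle
  have hge : ∑' j, X j 0 ^ 2 ≤ ∑' j, (X j t ^ 2
      + 2 * ν * ∫ r in (0 : ℝ)..t, (4 : ℝ) ^ j.length * X j r ^ 2) := by
    refine le_of_tendsto' (sum_tre_tendsto h0.1) fun M => ?_
    refine le_of_forall_pos_le_add fun ε hε => ?_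
    obtain ⟨N, hN⟩ := ee_ge hD hν hX h hS M (half_pos hε)
    have h1 := hs.sum_le_tsum (tre D N) fun j _ => hnn j
    rw [hsum] at h1
    simp only [hX.init]
    linarith
  rw [← le_antisymm hs2 hge]
  exact hs.hasSum

/-- The energy equality, `β ≤ 3`, from the energy inequality from the time zero. -/
theorem ee_tree (hD : 0 < D) (hβ : β ≤ 3) (hν : 0 < ν) (hX : Sol0 β ν x X) (h0 : EI ν X 0) {t : ℝ}
    (ht : 0 ≤ t) :
    HasSum (fun j => X j t ^ 2 + 2 * ν * ∫ r in (0 : ℝ)..t, (4 : ℝ) ^ j.length * X j r ^ 2)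
      (∑' j, X j 0 ^ 2) :=
  ee_of_smooth hD hν hX h0 (fun _ r hs => wk_smooth hD hβ hν (wk_of_ei hν hX h0) r hs) ht

/-- The energy equality up to the endpoint `β = 3 + log₂(D)/2`, for data with a decay rate. -/
theorem ee_dec {s K : ℝ} (hD : 0 < D) (hβ : ((2 : ℝ) ^ β) ^ 2 ≤ D * 64) (hν : 0 < ν) (hs : 0 < s)
    (hs2 : β - 2 < s) (hK : ∀ j : Nd D, (2 : ℝ) ^ (s * j.length) * |x j| ≤ K)
    (hX : Sol0 β ν x X) (h0 : EI ν X 0) {t : ℝ} (ht : 0 ≤ t) :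
    HasSum (fun j => X j t ^ 2 + 2 * ν * ∫ r in (0 : ℝ)..t, (4 : ℝ) ^ j.length * X j r ^ 2)
      (∑' j, X j 0 ^ 2) := by
  have hx2 : Summable fun j => x j ^ 2 := by simpa only [hX.init] using h0.1
  obtain ⟨Y, _, _, hu, _, hsm⟩ := real hD hβ hν hs hs2 hx2 hK
  refine ee_of_smooth hD hν hX h0 (fun a r ha => ?_) ht
  obtain ⟨K', hK'⟩ := hsm a r ha
  refine ⟨K', fun j t hat => ?_⟩
  rw [hu X hX h0 j t (ha.le.trans hat)]
  exact hK' j t hat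

end Pool.Agent.Run7.h32.Tu
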