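import Pool.Agent.Run7.h32.Tu.Loss
import Pool.Agent.Run7.h32.Tu.EE

/-!
The dyadic model on a tree with `β > log₂(D)/2`: the energy of nonnegative solutions tends to zero,
uniformly in the viscosity and in the data.
-/

set_option autoImplicit false

open Set Filter Topology MeasureTheory

namespace Pool.Agent.Run7.h32.Tu

open Run7.h969.Dy (pow_mul_nat)
open Pool.Agent.Run7.h32.Fo (ii_of)
open Pool.Agent.Run7.h32.Tr

variable {D : ℕ} {β ν E : ℝ} {x : Nd D → ℝ} {X : Nd D → ℝ → ℝ}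

/-- the parameters -/
lemma params1 (hD : 0 < D) (hβ : (D : ℝ) < ((2 : ℝ) ^ β) ^ 2) : 0 < β ∧ ∃ q γ : ℝ, 0 < q ∧ 0 < γ ∧
    D < q ^ 2 ∧ q * 2 ^ γ < 2 ^ β := by
  have hD1 : (1 : ℝ) ≤ D := by exact_mod_cast hD
  obtain ⟨B, hB⟩ : ∃ B : ℝ, B = 2 ^ β := ⟨_, rfl⟩
  have hB0 : 0 < B := by rw [hB]; exact Real.rpow_pos_of_pos two_pos _
  rw [← hB] at hβ ⊢
  have hB1 : 1 < B := by
    by_contra h
    push Not at h
    have : B ^ 2 ≤ 1 ^ 2 := pow_le_pow_left₀ hB0.le h 2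
    linarith
  refine ⟨?_, ?_⟩
  · by_contra h
    push Not at h
    have : B ≤ 1 := by
      rw [hB]
      exact Real.rpow_le_one_of_one_le_of_nonpos one_le_two h
    linarith
  obtain ⟨d, hd⟩ : ∃ d, d = √(D : ℝ) := ⟨_, rfl⟩
  have hd2 : d ^ 2 = D := by rw [hd]; exact Real.sq_sqrt (by positivity)
  have hd0 : 0 < d := by rw [hd]; exact Real.sqrt_pos.2 (by linarith)
  have hdB : d < B := by
    by_contra h
    push Not at h
    have : B ^ 2 ≤ d ^ 2 := pow_le_pow_left₀ hB0.le h 2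
    linarith
  obtain ⟨q, hq⟩ : ∃ q, q = (d + B) / 2 := ⟨_, rfl⟩
  have hq0 : 0 < q := by rw [hq]; positivity
  have hq1 : d < q := by rw [hq]; linarith
  have hq2 : q < B := by rw [hq]; linarith
  obtain ⟨ρ, hρ⟩ : ∃ ρ, ρ = (1 + B / q) / 2 := ⟨_, rfl⟩
  have h1 : 1 < B / q := by rw [lt_div_iff₀ hq0]; linarith
  have hρ1 : 1 < ρ := by rw [hρ]; linarith
  have hρ2 : ρ < B / q := by rw [hρ]; linarith
  refine ⟨q, Real.logb 2 ρ, hq0, Real.logb_pos one_lt_two hρ1, ?_, ?_⟩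
  · have : d ^ 2 < q ^ 2 := pow_lt_pow_left₀ hq1 hd0.le two_ne_zero
    linarith
  · rw [Real.rpow_logb two_pos (by norm_num) (by linarith)]
    rw [lt_div_iff₀ hq0] at hρ2
    linarith

lemma tre2_cont {T : ℝ} (hX : ∀ j, ContinuousOn (X j) (Icc 0 T)) (N : ℕ) :
    ContinuousOn (fun s => ∑ j ∈ tre D N, X j s ^ 2) (Icc 0 T) :=
  continuousOn_finsetSum _ fun j _ => (hX j).pow 2

lemma lev2_cont {T : ℝ} (hX : ∀ j, ContinuousOn (X j) (Icc 0 T)) (N : ℕ) :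
    ContinuousOn (fun s => ∑ j ∈ lev D N, X j s ^ 2) (Icc 0 T) :=
  continuousOn_finsetSum _ fun j _ => (hX j).pow 2

/-- **The decay of the energy**, uniformly in the viscosity and in the data. -/
theorem decayT (hD : 0 < D) (hβ : (D : ℝ) < ((2 : ℝ) ^ β) ^ 2) (hE : 0 ≤ E) {ε : ℝ} (hε : 0 < ε) :
    ∃ T > 0, ∀ (μ : ℝ) (x : Nd D → ℝ) (Y : Nd D → ℝ → ℝ), SN β μ E x Y →
      ∀ t, T ≤ t → ∀ N : ℕ, ∑ j ∈ tre D N, Y j t ^ 2 ≤ ε := by
  have hD0 : (0 : ℝ) < D := by exact_mod_cast hD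
  obtain ⟨hβ0, q, γ, hq0, hγ0, hq, hqB⟩ := params1 hD hβ
  obtain ⟨A, hA0, hA⟩ := acT_sqrt (D := D) hD hβ0.le hE hγ0
  obtain ⟨B, hB⟩ : ∃ B : ℝ, B = 2 ^ β := ⟨_, rfl⟩
  have hB0 : 0 < B := by rw [hB]; exact Real.rpow_pos_of_pos two_pos _
  obtain ⟨g, hg⟩ : ∃ g : ℝ, g = 2 ^ γ := ⟨_, rfl⟩
  have hg0 : 0 < g := by rw [hg]; exact Real.rpow_pos_of_pos two_pos _
  rw [← hB, ← hg] at hqB
  obtain ⟨r1, hr1⟩ : ∃ r, r = q * g / B := ⟨_, rfl⟩
  obtain ⟨r2, hr2⟩ : ∃ r, r = D / q ^ 2 := ⟨_, rfl⟩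
  have hr10 : 0 < r1 := by rw [hr1]; positivity
  have hr20 : 0 < r2 := by rw [hr2]; positivity
  have hr11 : r1 < 1 := by rw [hr1, div_lt_one hB0]; exact hqB
  have hr21 : r2 < 1 := by rw [hr2, div_lt_one (by positivity)]; exact hq
  obtain ⟨G1, hG1⟩ : ∃ G, G = 1 / (1 - r1) := ⟨_, rfl⟩
  obtain ⟨G2, hG2⟩ : ∃ G, G = 1 / (1 - r2) := ⟨_, rfl⟩
  have hG10 : 0 < G1 := by rw [hG1]; exact div_pos one_pos (by linarith)
  have hG20 : 0 < G2 := by rw [hG2]; exact div_pos one_pos (by linarith)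
  have hgeo : ∀ {r : ℝ}, 0 < r → r < 1 → ∀ N : ℕ, ∑ n ∈ Finset.range N, r ^ n ≤ 1 / (1 - r) := by
    intro r h0 h1 N
    have h5 := (summable_geometric_of_lt_one h0.le h1).sum_le_tsum (Finset.range N)
      (fun n _ => by positivity)
    rwa [tsum_geometric_of_lt_one h0.le h1, ← one_div] at h5
  obtain ⟨η, hη⟩ : ∃ η, η = min 1 (ε / (2 * G2)) := ⟨_, rfl⟩
  have hη0 : 0 < η := by rw [hη]; exact lt_min one_pos (by positivity)
  have hη1 : η ≤ 1 := by rw [hη]; exact min_le_left _ _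
  have hη2 : η ^ 2 * G2 ≤ ε / 2 := by
    have h1 : η ≤ ε / (2 * G2) := by rw [hη]; exact min_le_right _ _
    rw [le_div_iff₀ (by positivity)] at h1
    have h2 : η ^ 2 ≤ η := by nlinarith
    have h3 := mul_le_mul_of_nonneg_right h2 hG20.le
    linarith
  obtain ⟨w, hw⟩ : ∃ w, w = 1 + 2 * A * G1 / (η * ε) := ⟨_, rfl⟩
  have hw1 : 1 ≤ w := by
    have : 0 ≤ 2 * A * G1 / (η * ε) := by positivity
    rw [hw]
    linarith
  have hw0 : 0 < w := by linarith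
  have hwA : A * G1 / η ≤ ε / 2 * w := by
    have h1 : ε / 2 * w = ε / 2 + A * G1 / η := by
      rw [hw]
      field_simp
    linarith
  obtain ⟨T, hT⟩ : ∃ T, T = w ^ 2 := ⟨_, rfl⟩
  have hT1 : 1 ≤ T := by rw [hT]; exact one_le_pow₀ hw1
  have hT0 : 0 < T := by linarith
  have hsT : √T = w := by rw [hT]; exact Real.sqrt_sq hw0.le
  refine ⟨T, hT0, fun μ x Y S t ht N => ?_⟩
  have h0T : (0 : ℝ) ∈ Icc 0 T := ⟨le_rfl, hT0.le⟩
  have hTT : T ∈ Icc 0 T := ⟨hT0.le, le_rfl⟩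
  have hc : ∀ j, ContinuousOn (Y j) (Icc 0 T) := fun j => S.ct j T
  -- one generation
  have hlev : ∀ n : ℕ, ∫ r in (0 : ℝ)..T, ∑ j ∈ lev D n, Y j r ^ 2
      ≤ A * w / η * r1 ^ n + T * η ^ 2 * r2 ^ n := by
    intro n
    obtain ⟨e, he⟩ : ∃ e, e = η / q ^ n := ⟨_, rfl⟩
    have he0 : 0 < e := by rw [he]; positivity
    have h1 : ∫ r in (0 : ℝ)..T, ∑ j ∈ lev D n, Y j r ^ 2
        ≤ ∫ r in (0 : ℝ)..T, (1 / (e * B ^ n) * (∑ j ∈ lev D n, (2 : ℝ) ^ (β * n) * Y j r ^ 3)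
          + e ^ 2 * D ^ n) := by
      refine intervalIntegral.integral_mono_on hT0.le (ii_of (lev2_cont hc n) h0T hTT)
        (((ii_of (S.ac_cont n T) h0T hTT).const_mul _).add intervalIntegrable_const) ?_
      intro r hr
      have h2 : ∑ j ∈ lev D n, Y j r ^ 2
          ≤ ∑ j ∈ lev D n, (1 / (e * B ^ n) * ((2 : ℝ) ^ (β * n) * Y j r ^ 3) + e ^ 2 * 1) := by
        refine Finset.sum_le_sum fun j hj => ?_
        rw [pow_mul_nat, ← hB]
        refine (sq_le_cube (S.pos j hr.1) he0).trans (le_of_eq ?_)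
        field_simp
      rw [Finset.sum_add_distrib, ← Finset.mul_sum,
        ← Finset.mul_sum (lev D n) (fun _ => (1 : ℝ)) (e ^ 2), card_lev] at h2
      exact h2
    rw [intervalIntegral.integral_add ((ii_of (S.ac_cont n T) h0T hTT).const_mul _)
      intervalIntegrable_const, intervalIntegral.integral_const_mul,
      intervalIntegral.integral_const, smul_eq_mul, sub_zero] at h1
    have h2 := hA μ x Y S T hT1 n
    rw [hsT, pow_mul_nat, ← hg] at h2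
    have h3 : 1 / (e * B ^ n) * acT β Y n T ≤ 1 / (e * B ^ n) * (A * w * g ^ n) :=
      mul_le_mul_of_nonneg_left h2 (by positivity)
    have h4 : 1 / (e * B ^ n) * (A * w * g ^ n) = A * w / η * r1 ^ n := by
      rw [he, hr1, div_pow, mul_pow]
      field_simp
    have h5 : T * (e ^ 2 * D ^ n) = T * η ^ 2 * r2 ^ n := by
      rw [he, hr2, div_pow (D : ℝ), div_pow, ← pow_mul, ← pow_mul, mul_comm n 2]
      field_simp
    rw [h4] at h3
    rw [h5] at h1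
    simp only [acT] at h3
    linarith
  -- all the generations
  have htre : ∀ M : ℕ, ∫ r in (0 : ℝ)..T, ∑ j ∈ tre D M, Y j r ^ 2
      ≤ A * w / η * (∑ n ∈ Finset.range (M + 1), r1 ^ n)
        + T * η ^ 2 * (∑ n ∈ Finset.range (M + 1), r2 ^ n) := by
    intro M
    induction M with
    | zero =>
      have h1 := hlev 0
      simp only [zero_add, Finset.sum_range_one, sum_lev_zero, sum_tre_zero] at h1 ⊢
      exact h1
    | succ M ih =>
      have h1 := hlev (M + 1)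
      have h2 : ∫ r in (0 : ℝ)..T, ∑ j ∈ tre D (M + 1), Y j r ^ 2
          = (∫ r in (0 : ℝ)..T, ∑ j ∈ tre D M, Y j r ^ 2)
            + ∫ r in (0 : ℝ)..T, ∑ j ∈ lev D (M + 1), Y j r ^ 2 := by
        rw [← intervalIntegral.integral_add (ii_of (tre2_cont hc M) h0T hTT)
          (ii_of (lev2_cont hc (M + 1)) h0T hTT)]
        refine intervalIntegral.integral_congr fun s _ => ?_
        rw [sum_tre_succ]
      rw [h2, Finset.sum_range_succ _ (M + 1), Finset.sum_range_succ _ (M + 1)]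
      linarith
  have hQ : ∫ r in (0 : ℝ)..T, ∑ j ∈ tre D N, Y j r ^ 2 ≤ T * ε := by
    have h1 := htre N
    have h2 := mul_le_mul_of_nonneg_left (hgeo hr10 hr11 (N + 1))
      (by positivity : 0 ≤ A * w / η)
    have h3 := mul_le_mul_of_nonneg_left (hgeo hr20 hr21 (N + 1))
      (by positivity : 0 ≤ T * η ^ 2)
    rw [← hG1] at h2
    rw [← hG2] at h3
    have h4 : A * w / η * G1 ≤ T * (ε / 2) := by
      have i1 := mul_le_mul_of_nonneg_left hwA hw0.le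
      rw [hT]
      calc A * w / η * G1 = w * (A * G1 / η) := by ring
        _ ≤ _ := i1
        _ = _ := by ring
    have h5 : T * η ^ 2 * G2 ≤ T * (ε / 2) := by
      have := mul_le_mul_of_nonneg_left hη2 hT0.le
      linarith
    linarith
  have h1 : ∫ _ in (0 : ℝ)..T, ∑ j ∈ tre D N, Y j T ^ 2
      ≤ ∫ r in (0 : ℝ)..T, ∑ j ∈ tre D N, Y j r ^ 2 :=
    intervalIntegral.integral_mono_on hT0.le intervalIntegrable_const
      (ii_of (tre2_cont hc N) h0T hTT) fun r hr => S.en_anti N hr.1 hr.2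
  rw [intervalIntegral.integral_const, smul_eq_mul, sub_zero] at h1
  exact (S.en_anti N hT0.le ht).trans (le_of_mul_le_mul_left (h1.trans hQ) hT0)

/-- The decay on the time scale of the inverse of the size of the data, for all the viscosities. -/
theorem decay_all (hD : 0 < D) (hβ : (D : ℝ) < ((2 : ℝ) ^ β) ^ 2) {ε : ℝ} (hε : 0 < ε) :
    ∃ T > 0, ∀ (ν : ℝ), 0 < ν → ∀ R > 0, ∀ (x : Nd D → ℝ) (X : Nd D → ℝ → ℝ),
      (∀ j, 0 ≤ x j) → (∀ N : ℕ, ∑ j ∈ tre D N, x j ^ 2 ≤ R ^ 2) → Sol0 β ν x X →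
      ∀ t, T / R ≤ t → ∀ N : ℕ, ∑ j ∈ tre D N, X j t ^ 2 ≤ ε * R ^ 2 := by
  obtain ⟨T, hT, hl⟩ := decayT (β := β) hD hβ zero_le_one hε
  refine ⟨T, hT, fun ν hν R hR0 x X hx hE hX t ht N => ?_⟩
  rw [div_le_iff₀ hR0] at ht
  have h1 := hl (ν / R) _ _ (scaleT hν hR0 hx hE hX) (t * R) ht N
  have h2 : t * R / R = t := by field_simp
  simp only [h2, div_pow] at h1
  rw [← Finset.sum_div, div_le_iff₀ (by positivity)] at h1
  exact h1

/-- **The lost energy**, uniformly in the viscosity and the data with a large Reynolds number. -/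
theorem loss_re (hD : 0 < D) (hβ : D * 64 < ((2 : ℝ) ^ β) ^ 2) {ε : ℝ} (hε : 0 < ε) :
    ∃ c > 0, ∃ T > 0, ∀ (ν : ℝ), 0 < ν → ∀ R, c * ν ≤ R → ∀ (x : Nd D → ℝ) (X : Nd D → ℝ → ℝ),
      (∀ j, 0 ≤ x j) → (∀ N : ℕ, ∑ j ∈ tre D N, x j ^ 2 ≤ R ^ 2) → Sol0 β ν x X →
      ∀ t, T / R ≤ t → ∀ N : ℕ, ∑ j ∈ tre D N, X j t ^ 2
        + 2 * ν * (∫ r in (0 : ℝ)..t, ∑ j ∈ tre D N, (4 : ℝ) ^ j.length * X j r ^ 2)
          ≤ ε * R ^ 2 := by
  obtain ⟨μ0, hμ0, T, hT, hl⟩ := lossT (β := β) hD hβ zero_le_one hε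
  refine ⟨1 / μ0, by positivity, T, hT, fun ν hν R hR x X hx hE hX t ht N => ?_⟩
  have hR0 : 0 < R := lt_of_lt_of_le (by positivity) hR
  have hμ : ν / R ≤ μ0 := by
    rw [div_mul_eq_mul_div, one_mul, div_le_iff₀ hμ0] at hR
    rw [div_le_iff₀ hR0]
    linarith
  rw [div_le_iff₀ hR0] at ht
  have h1 := hl (ν / R) _ _ hμ (scaleT hν hR0 hx hE hX) (t * R) ht N
  have h2 : t * R / R = t := by field_simp
  have h3 : ∫ r in (0 : ℝ)..(t * R), ∑ j ∈ tre D N, (4 : ℝ) ^ j.length * (X j (r / R) / R) ^ 2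
      = R * ∫ r in (0 : ℝ)..t, ∑ j ∈ tre D N, (4 : ℝ) ^ j.length * (X j r / R) ^ 2 := by
    rw [intervalIntegral.integral_comp_div
      (fun r => ∑ j ∈ tre D N, (4 : ℝ) ^ j.length * (X j r / R) ^ 2) hR0.ne', zero_div, h2,
      smul_eq_mul]
  rw [h3] at h1
  simp only [h2] at h1
  have h4 : ∫ r in (0 : ℝ)..t, ∑ j ∈ tre D N, (4 : ℝ) ^ j.length * (X j r / R) ^ 2
      = (∫ r in (0 : ℝ)..t, ∑ j ∈ tre D N, (4 : ℝ) ^ j.length * X j r ^ 2) / R ^ 2 := by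
    rw [← intervalIntegral.integral_div]
    congr 1
    funext r
    rw [Finset.sum_div]
    refine Finset.sum_congr rfl fun j _ => ?_
    rw [div_pow, mul_div_assoc]
  have h5 : ∑ j ∈ tre D N, (X j t / R) ^ 2 = (∑ j ∈ tre D N, X j t ^ 2) / R ^ 2 := by
    rw [Finset.sum_div]
    refine Finset.sum_congr rfl fun j _ => ?_
    rw [div_pow]
  rw [h4, h5] at h1
  have h6 := mul_le_mul_of_nonneg_right h1 (sq_nonneg R)
  calc _ = ((∑ j ∈ tre D N, X j t ^ 2) / R ^ 2 + 2 * (ν / R) * (R *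
        ((∫ r in (0 : ℝ)..t, ∑ j ∈ tre D N, (4 : ℝ) ^ j.length * X j r ^ 2) / R ^ 2)))
        * R ^ 2 := by field_simp
    _ ≤ _ := h6

end Pool.Agent.Run7.h32.Tu
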