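import Pool.Agent.Run7.h32.Tr.Exist

/-!
The dyadic model on a tree without force: the truncated solutions have a subsequence which converges
to a solution.
-/

set_option autoImplicit false

open Set Filter Topology MeasureTheory

namespace Pool.Agent.Run7.h32.Tu

open Run7.h969.Dy (pow_mul_nat)
open Pool.Agent.Run7.h32.Fo (ii_of)
open Pool.Agent.Run7.h32.Tr

/-- A diagonal subsequence. -/
theorem subseq {ι : Type*} [Countable ι] {Y : ℕ → ι → ℝ → ℝ} {M L : ι → ℝ} {n₀ : ι → ℕ}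
    (hM0 : ∀ j, 0 ≤ M j) (hL0 : ∀ j, 0 ≤ L j)
    (hM : ∀ N : ℕ, ∀ t ∈ Icc (0 : ℝ) ((N : ℝ) + 1), ∀ j, |Y N j t| ≤ M j)
    (hL : ∀ (N : ℕ) (j : ι), n₀ j ≤ N → ∀ a ∈ Icc (0 : ℝ) ((N : ℝ) + 1),
      ∀ b ∈ Icc (0 : ℝ) ((N : ℝ) + 1), |Y N j a - Y N j b| ≤ L j * |a - b|) :
    ∃ (X : ι → ℝ → ℝ) (φ : ℕ → ℕ), StrictMono φ ∧
      ∀ j t, 0 ≤ t → Tendsto (fun k => Y (φ k) j t) atTop (𝓝 (X j t)) := by
  classical
  obtain ⟨u, hu⟩ : ∃ u : ℕ → ι × ℚ → ℝ, u = fun (N : ℕ) (p : ι × ℚ) =>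
    if (p.2 : ℝ) ∈ Icc (0 : ℝ) ((N : ℝ) + 1) then Y N p.1 p.2 else 0 := ⟨_, rfl⟩
  have hcomp : IsCompact (Set.pi univ fun p : ι × ℚ => Icc (-M p.1) (M p.1)) :=
    isCompact_univ_pi fun _ => isCompact_Icc
  have hmem : ∀ N, u N ∈ Set.pi univ fun p : ι × ℚ => Icc (-M p.1) (M p.1) := by
    intro N p _
    rw [hu]
    by_cases h : (p.2 : ℝ) ∈ Icc (0 : ℝ) ((N : ℝ) + 1)
    · simp only [h, ite_true]
      exact abs_le.1 (hM N _ h p.1)
    · simp only [h, ite_false]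
      exact ⟨neg_nonpos.2 (hM0 _), hM0 _⟩
  obtain ⟨a, -, φ, hφ, hlim⟩ := hcomp.tendsto_subseq hmem
  rw [tendsto_pi_nhds] at hlim
  have hφk : ∀ k, k ≤ φ k := fun k => hφ.id_le k
  have hev : ∀ t : ℝ, ∀ᶠ k : ℕ in atTop, t ≤ (φ k : ℝ) + 1 := by
    intro t
    obtain ⟨k₀, hk₀⟩ := exists_nat_ge t
    filter_upwards [eventually_ge_atTop k₀] with k hk
    have h4 : (k₀ : ℝ) ≤ φ k := by exact_mod_cast hk.trans (hφk k)
    linarith
  have hrat : ∀ (j : ι) (r : ℚ), (0 : ℝ) ≤ r →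
      Tendsto (fun k => Y (φ k) j r) atTop (𝓝 (a (j, r))) := by
    intro j r hr
    refine (hlim (j, r)).congr' ?_
    filter_upwards [hev r] with k hk
    rw [hu]
    simp only [Function.comp_apply]
    rw [if_pos ⟨hr, hk⟩]
  have hex : ∀ (j : ι) (t : ℝ), 0 ≤ t → ∃ l, Tendsto (fun k => Y (φ k) j t) atTop (𝓝 l) := by
    intro j t ht
    apply cauchySeq_tendsto_of_complete
    rw [Metric.cauchySeq_iff]
    intro ε hε
    obtain ⟨r, hr1, hr2⟩ := exists_rat_btwn (show t < t + ε / (4 * (L j + 1)) by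
      have : 0 < ε / (4 * (L j + 1)) := by have := hL0 j; positivity
      linarith)
    have hr0 : (0 : ℝ) ≤ r := by linarith
    have hc := (hrat j r hr0).cauchySeq
    rw [Metric.cauchySeq_iff] at hc
    obtain ⟨k₁, hk₁⟩ := hc (ε / 2) (by positivity)
    obtain ⟨k₂, hk₂⟩ := eventually_atTop.1 ((hev r).and (eventually_ge_atTop (n₀ j)))
    refine ⟨max k₁ k₂, fun k hk l hl => ?_⟩
    have h1 := hk₁ k ((le_max_left _ _).trans hk) l ((le_max_left _ _).trans hl)
    obtain ⟨h2, h2'⟩ := hk₂ k ((le_max_right _ _).trans hk)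
    obtain ⟨h3, h3'⟩ := hk₂ l ((le_max_right _ _).trans hl)
    rw [Real.dist_eq] at h1 ⊢
    have h4 := hL (φ k) j (h2'.trans (hφk k)) t ⟨ht, by linarith⟩ r ⟨hr0, h2⟩
    have h5 := hL (φ l) j (h3'.trans (hφk l)) r ⟨hr0, h3⟩ t ⟨ht, by linarith⟩
    have h6 : |t - r| = r - t := by
      rw [abs_sub_comm]
      exact abs_of_pos (by linarith)
    rw [abs_sub_comm (r : ℝ) t] at h5
    rw [h6] at h4 h5
    have hL0' := hL0 j
    have h7 : L j * (r - t) ≤ ε / 4 := by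
      have h8 : r - t ≤ ε / (4 * (L j + 1)) := by linarith
      calc L j * (r - t) ≤ L j * (ε / (4 * (L j + 1))) := mul_le_mul_of_nonneg_left h8 hL0'
        _ = ε / 4 * (L j / (L j + 1)) := by field_simp
        _ ≤ ε / 4 * 1 := by
            apply mul_le_mul_of_nonneg_left _ (by positivity)
            rw [div_le_one (by linarith)]
            linarith
        _ = ε / 4 := mul_one _
    have e1 : Y (φ k) j t - Y (φ l) j t = (Y (φ k) j t - Y (φ k) j r)
      + (Y (φ k) j r - Y (φ l) j r) + (Y (φ l) j r - Y (φ l) j t) := by ring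
    rw [e1]
    refine lt_of_le_of_lt ((abs_add_le _ _).trans (add_le_add (abs_add_le _ _) le_rfl)) ?_
    linarith
  choose! X hX using hex
  exact ⟨X, φ, hφ, hX⟩

variable {D : ℕ} {β ν T : ℝ} {N : ℕ} {x : Nd D → ℝ} {X : Nd D → ℝ → ℝ}

/-- The truncated system without force. -/
abbrev Gal0 (β ν T : ℝ) (N : ℕ) (x : Nd D → ℝ) (X : Nd D → ℝ → ℝ) : Prop :=
  GalT β ν T N x (fun _ _ => 0) X

/-- Solutions without force. -/
abbrev Sol0 (β ν : ℝ) (x : Nd D → ℝ) (X : Nd D → ℝ → ℝ) : Prop :=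
  SolT β ν x (fun _ _ => 0) X

lemma sum0 (X : Nd D → ℝ → ℝ) (M : ℕ) (a b : ℝ) :
    ∫ s in a..b, ∑ j ∈ tre D M, (0 : ℝ) * X j s = 0 := by
  simp

lemma gal_en (h : Gal0 β ν T N x X) {t : ℝ} (ht : t ∈ Icc 0 T) :
    ∑ j ∈ tre D N, X j t ^ 2
      + 2 * ν * ∫ s in (0 : ℝ)..t, ∑ j ∈ tre D N, 4 ^ j.length * X j s ^ 2
      = ∑ j ∈ tre D N, x j ^ 2 := by
  have h1 := galT_id h (fun _ => continuousOn_const) ht
  rw [sum0, mul_zero, add_zero] at h1
  exact h1

lemma gal_en2 (h : Gal0 β ν T N x X) {s t : ℝ} (hs : s ∈ Icc 0 T) (ht : t ∈ Icc 0 T) :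
    ∑ j ∈ tre D N, X j t ^ 2
      + 2 * ν * ∫ r in s..t, ∑ j ∈ tre D N, 4 ^ j.length * X j r ^ 2
      = ∑ j ∈ tre D N, X j s ^ 2 := by
  have h0T : (0 : ℝ) ∈ Icc 0 T := ⟨le_rfl, hs.1.trans hs.2⟩
  have h1 := gal_en h hs
  have h2 := gal_en h ht
  have h3 := intervalIntegral.integral_add_adjacent_intervals (ii_of (sum4_cont h.cont N) h0T hs)
    (ii_of (sum4_cont h.cont N) hs ht)
  rw [← h3] at h2
  linarith

lemma gal_abs (hν : 0 < ν) (h : Gal0 β ν T N x X) {E : ℝ} (hE : ∀ M : ℕ, ∑ j ∈ tre D M, x j ^ 2 ≤ E)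
    {t : ℝ} (ht : t ∈ Icc 0 T) (j : Nd D) : |X j t| ≤ √E := by
  have h1 := abs_le_energyT (Φ := 0) hν h (fun _ => continuousOn_const) hE
    (fun M => by simp) ht j
  rwa [zero_div, add_zero] at h1

/-- the bound of the right hand side -/
noncomputable def Rb (D : ℕ) (β ν M : ℝ) (n : ℕ) : ℝ :=
  (2 : ℝ) ^ (β * (n - 1 : ℕ)) * M ^ 2 + (2 : ℝ) ^ (β * n) * (M * (D * M)) + ν * 4 ^ n * M

lemma Rb_nn {M : ℝ} (hν : 0 < ν) (hM : 0 ≤ M) (n : ℕ) : 0 ≤ Rb D β ν M n := by
  have h1 : (0 : ℝ) ≤ 2 ^ (β * (n - 1 : ℕ)) := Real.rpow_nonneg two_pos.le _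
  have h2 : (0 : ℝ) ≤ 2 ^ (β * n) := Real.rpow_nonneg two_pos.le _
  unfold Rb
  positivity

lemma trhs_bd {M : ℝ} {y : Nd D → ℝ} (hν : 0 < ν) (hM : 0 ≤ M) (hy : ∀ j, |y j| ≤ M) (j : Nd D) :
    |trhs β ν y j| ≤ Rb D β ν M j.length := by
  have hp : ∀ n : ℕ, (0 : ℝ) ≤ 2 ^ (β * n) := fun n => Real.rpow_nonneg two_pos.le _
  have h1 : |inp β y j| ≤ (2 : ℝ) ^ (β * (j.length - 1 : ℕ)) * M ^ 2 := by
    cases j with
    | nil =>
      simp only [inp, abs_zero]
      exact mul_nonneg (Real.rpow_nonneg two_pos.le _) (sq_nonneg _)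
    | cons i j =>
      have e : (i :: j).length - 1 = j.length := by simp
      rw [e]
      simp only [inp]
      rw [abs_mul, abs_of_nonneg (hp _), abs_of_nonneg (sq_nonneg _), ← sq_abs]
      exact mul_le_mul_of_nonneg_left (pow_le_pow_left₀ (abs_nonneg _) (hy j) 2) (hp _)
  have h2 : |ch y j| ≤ D * M := by
    refine (Finset.abs_sum_le_sum_abs _ _).trans ?_
    have h3 : ∑ i : Fin D, |y (i :: j)| ≤ ∑ _i : Fin D, M := Finset.sum_le_sum fun i _ => hy _
    rw [Finset.sum_const, Finset.card_univ, Fintype.card_fin, nsmul_eq_mul] at h3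
    exact h3
  have h3 : |(2 : ℝ) ^ (β * j.length) * (y j * ch y j)|
      ≤ (2 : ℝ) ^ (β * j.length) * (M * (D * M)) := by
    rw [abs_mul, abs_of_nonneg (hp _), abs_mul]
    exact mul_le_mul_of_nonneg_left (mul_le_mul (hy j) h2 (abs_nonneg _) hM) (hp _)
  have h4 : |ν * 4 ^ j.length * y j| ≤ ν * 4 ^ j.length * M := by
    rw [abs_mul, abs_of_nonneg (by positivity)]
    exact mul_le_mul_of_nonneg_left (hy j) (by positivity)
  unfold trhs Rb
  calc |inp β y j - (2 : ℝ) ^ (β * j.length) * (y j * ch y j) - ν * 4 ^ j.length * y j|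
      ≤ |inp β y j - (2 : ℝ) ^ (β * j.length) * (y j * ch y j)| + |ν * 4 ^ j.length * y j| :=
        abs_sub _ _
    _ ≤ |inp β y j| + |(2 : ℝ) ^ (β * j.length) * (y j * ch y j)| + |ν * 4 ^ j.length * y j| := by
        have := abs_sub (inp β y j) ((2 : ℝ) ^ (β * j.length) * (y j * ch y j))
        linarith
    _ ≤ _ := by linarith

/-- The truncated solutions have a subsequence which converges to a solution. -/
theorem exist_sub {x : Nd D → ℝ} (β : ℝ) (hν : 0 < ν) (hx2 : Summable fun j => x j ^ 2) :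
    ∃ (X : Nd D → ℝ → ℝ) (Y : ℕ → Nd D → ℝ → ℝ) (φ : ℕ → ℕ), Sol0 β ν x X ∧ StrictMono φ ∧
      (∀ N : ℕ, Gal0 β ν ((N : ℝ) + 1) N x (Y N)) ∧
      ∀ j t, 0 ≤ t → Tendsto (fun k => Y (φ k) j t) atTop (𝓝 (X j t)) := by
  have hex : ∀ N : ℕ, ∃ Y : Nd D → ℝ → ℝ, Gal0 β ν ((N : ℝ) + 1) N x Y := fun N =>
    exist_galT β N x hν (by positivity) fun _ => continuousOn_const
  choose Y hY using hex
  obtain ⟨E, hE⟩ : ∃ E, E = ∑' j, x j ^ 2 := ⟨_, rfl⟩
  have hEM : ∀ M : ℕ, ∑ j ∈ tre D M, x j ^ 2 ≤ E := fun M => by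
    rw [hE]
    exact hx2.sum_le_tsum _ fun _ _ => sq_nonneg _
  have hYM : ∀ N : ℕ, ∀ t ∈ Icc (0 : ℝ) ((N : ℝ) + 1), ∀ j, |Y N j t| ≤ √E := fun N t ht j =>
    gal_abs hν (hY N) hEM ht j
  have hM0 : 0 ≤ √E := Real.sqrt_nonneg _
  have hYL : ∀ (N : ℕ) (j : Nd D), j.length ≤ N → ∀ a ∈ Icc (0 : ℝ) ((N : ℝ) + 1),
      ∀ b ∈ Icc (0 : ℝ) ((N : ℝ) + 1),
      |Y N j a - Y N j b| ≤ Rb D β ν (√E) j.length * |a - b| := by
    intro N j hj a ha b hb
    have := Convex.norm_image_sub_le_of_norm_hasDerivWithin_le (f := Y N j)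
      (f' := fun t => trhs β ν (fun k => Y N k t) j + 0) (C := Rb D β ν (√E) j.length)
      (s := Icc (0 : ℝ) ((N : ℝ) + 1)) (x := b) (y := a)
      (fun t ht => (hY N).ode j hj t ht) (fun t ht => by
        rw [add_zero, Real.norm_eq_abs]
        exact trhs_bd hν hM0 (hYM N t ht) j) (convex_Icc _ _)
      hb ha
    rwa [Real.norm_eq_abs, Real.norm_eq_abs] at this
  obtain ⟨X, φ, hφ, hlim⟩ := subseq (Y := Y) (M := fun _ => √E)
    (L := fun j => Rb D β ν (√E) j.length) (n₀ := fun j => j.length) (fun _ => hM0)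
    (fun j => Rb_nn hν hM0 _) (fun N t ht j => hYM N t ht j) hYL
  have hφk : ∀ k, k ≤ φ k := fun k => hφ.id_le k
  have hev : ∀ t : ℝ, ∀ᶠ k : ℕ in atTop, t ≤ (φ k : ℝ) + 1 := by
    intro t
    obtain ⟨k₀, hk₀⟩ := exists_nat_ge t
    filter_upwards [eventually_ge_atTop k₀] with k hk
    have h4 : (k₀ : ℝ) ≤ φ k := by exact_mod_cast hk.trans (hφk k)
    linarith
  have hevn : ∀ n : ℕ, ∀ᶠ k : ℕ in atTop, n ≤ φ k := fun n => by
    filter_upwards [eventually_ge_atTop n] with k hk using hk.trans (hφk k)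
  -- the limit is Lipschitz continuous
  have hXL : ∀ (j : Nd D) (a : ℝ), 0 ≤ a → ∀ b : ℝ, 0 ≤ b →
      |X j a - X j b| ≤ Rb D β ν (√E) j.length * |a - b| := by
    intro j a ha b hb
    refine le_of_tendsto ((hlim j a ha).sub (hlim j b hb)).abs ?_
    filter_upwards [hev a, hev b, hevn j.length] with k h1 h2 h3
    exact hYL (φ k) j h3 a ⟨ha, h1⟩ b ⟨hb, h2⟩
  have hXc : ∀ j, ContinuousOn (X j) (Ici 0) := by
    intro j
    refine (LipschitzOnWith.of_dist_le_mul (K := ⟨Rb D β ν (√E) j.length, Rb_nn hν hM0 _⟩)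
      fun a ha b hb => ?_).continuousOn
    rw [Real.dist_eq, Real.dist_eq]
    exact hXL j a ha b hb
  have hrhsc : ∀ j, ContinuousOn (fun t => trhs β ν (fun k => X k t) j) (Ici 0) := fun j =>
    trhs_cont hXc j
  -- the integral equation
  have hint : ∀ (j : Nd D) (t : ℝ), 0 ≤ t →
      X j t = x j + ∫ s in (0 : ℝ)..t, trhs β ν (fun k => X k s) j := by
    intro j t ht
    have h1 : Tendsto (fun k => ∫ s in (0 : ℝ)..t, trhs β ν (fun i => Y (φ k) i s) j) atTop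
        (𝓝 (∫ s in (0 : ℝ)..t, trhs β ν (fun k => X k s) j)) := by
      refine intervalIntegral.tendsto_integral_filter_of_dominated_convergence
        (fun _ => Rb D β ν (√E) j.length) ?_ ?_ intervalIntegrable_const ?_
      · filter_upwards [hev t] with k hk
        rw [uIoc_of_le ht]
        exact ((trhs_cont (S := Icc (0 : ℝ) ((φ k : ℝ) + 1)) (fun i => (hY (φ k)).cont i) j).mono
          fun s hs => ⟨hs.1.le, hs.2.trans hk⟩).aestronglyMeasurable measurableSet_Ioc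
      · filter_upwards [hev t] with k hk
        refine Eventually.of_forall fun s hs => ?_
        rw [uIoc_of_le ht] at hs
        rw [Real.norm_eq_abs]
        exact trhs_bd hν hM0 (hYM (φ k) s ⟨hs.1.le, hs.2.trans hk⟩) j
      · refine Eventually.of_forall fun s hs => ?_
        rw [uIoc_of_le ht] at hs
        exact trhs_tendsto (Y := fun k => Y (φ k)) (fun i => hlim i s hs.1.le) j
    have h2 : Tendsto (fun k => Y (φ k) j t) atTop
        (𝓝 (x j + ∫ s in (0 : ℝ)..t, trhs β ν (fun k => X k s) j)) := by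
      refine (h1.const_add (x j)).congr' ?_
      filter_upwards [hev t, hevn j.length] with k hk hj
      have hc := trhs_cont (β := β) (ν := ν) (S := Icc (0 : ℝ) ((φ k : ℝ) + 1))
        (fun i => (hY (φ k)).cont i) j
      have hsub : Icc 0 t ⊆ Icc (0 : ℝ) ((φ k : ℝ) + 1) := Icc_subset_Icc_right hk
      have h3 : ∫ s in (0 : ℝ)..t, trhs β ν (fun i => Y (φ k) i s) j
          = Y (φ k) j t - Y (φ k) j 0 := by
        refine intervalIntegral.integral_eq_sub_of_hasDerivAt_of_le ht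
          (((hY (φ k)).cont j).mono hsub) (fun s hs => ?_) ?_
        · have h4 := ((hY (φ k)).ode j hj s ⟨hs.1.le, hs.2.le.trans hk⟩).hasDerivAt
            (Icc_mem_nhds hs.1 (hs.2.trans_le hk))
          simpa only [add_zero] using h4
        · refine ContinuousOn.intervalIntegrable ?_
          rw [uIcc_of_le ht]
          exact hc.mono hsub
      rw [h3, (hY (φ k)).init j hj]
      ring
    exact tendsto_nhds_unique (hlim j t ht) h2
  refine ⟨X, Y, φ, ⟨fun j => ?_, fun j t ht => ?_⟩, hφ, hY, hlim⟩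
  · rw [hint j 0 le_rfl, intervalIntegral.integral_same, add_zero]
  · -- the equation
    have h1 : HasDerivWithinAt (fun t => x j + ∫ s in (0 : ℝ)..t, trhs β ν (fun k => X k s) j)
        (trhs β ν (fun k => X k t) j) (Ici 0) t := by
      -- extend the integrand
      obtain ⟨G, hG⟩ : ∃ G : ℝ → ℝ, G = fun s => trhs β ν (fun k => X k (max s 0)) j := ⟨_, rfl⟩
      have hGc : Continuous G := by
        rw [hG]
        exact (hrhsc j).comp_continuous (continuous_id.max continuous_const)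
          fun s => show (0 : ℝ) ≤ max s 0 from le_max_right _ _
      have h2 : HasDerivAt (fun t => x j + ∫ s in (0 : ℝ)..t, G s) (G t) t :=
        (intervalIntegral.integral_hasDerivAt_right (hGc.intervalIntegrable _ _)
          (hGc.stronglyMeasurableAtFilter _ _) hGc.continuousAt).const_add _
      have h3 : G t = trhs β ν (fun k => X k t) j := by
        rw [hG]
        simp only
        rw [max_eq_left ht]
      rw [h3] at h2
      refine h2.hasDerivWithinAt.congr (fun r hr => ?_) ?_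
      · refine congrArg (fun z => x j + z) (intervalIntegral.integral_congr fun s hs => ?_)
        rw [uIcc_of_le hr] at hs
        rw [hG]
        simp only
        rw [max_eq_left hs.1]
      · refine congrArg (fun z => x j + z) (intervalIntegral.integral_congr fun s hs => ?_)
        rw [uIcc_of_le ht] at hs
        rw [hG]
        simp only
        rw [max_eq_left hs.1]
    rw [add_zero]
    exact h1.congr (fun r hr => hint j r hr) (hint j t ht)

end Pool.Agent.Run7.h32.Tu
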