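import Pool.Agent.Run7.h32.Tu.Cub

/-!
The dyadic model on a tree with `β > 3 + log₂(D)/2`: almost all the energy of nonnegative solutions
is lost without being dissipated, uniformly in the data.
-/

set_option autoImplicit false

open Set Filter Topology MeasureTheory

namespace Pool.Agent.Run7.h32.Tu

open Run7.h969.Dy (pow_mul_nat)
open Pool.Agent.Run7.h32.Fo (ii_of)
open Pool.Agent.Run7.h32.Tr

variable {D : ℕ} {β ν E : ℝ} {x : Nd D → ℝ} {X : Nd D → ℝ → ℝ}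

/-- the energy and the dissipated energy of the first generations are nonincreasing in time -/
lemma SN.anti (S : SN β ν E x X) (N : ℕ) {s t : ℝ} (hs : 0 ≤ s) (hst : s ≤ t) :
    ∑ j ∈ tre D N, X j t ^ 2
      + 2 * ν * (∫ r in (0 : ℝ)..t, ∑ j ∈ tre D N, (4 : ℝ) ^ j.length * X j r ^ 2)
      ≤ ∑ j ∈ tre D N, X j s ^ 2
        + 2 * ν * (∫ r in (0 : ℝ)..s, ∑ j ∈ tre D N, (4 : ℝ) ^ j.length * X j r ^ 2) := by
  have ht0 : 0 ≤ t := hs.trans hst
  have h1 := solT_id S.sol (fun _ => continuousOn_const) N (⟨hs, hst⟩ : s ∈ Icc 0 t)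
  have h2 := solT_id S.sol (fun _ => continuousOn_const) N (⟨ht0, le_rfl⟩ : t ∈ Icc 0 t)
  rw [sum0, mul_zero, add_zero] at h1 h2
  have hc := flux_cont' (β := β) (fun j => S.ct j t) N
  have h3 := intervalIntegral.integral_add_adjacent_intervals
    (ii_of hc (⟨le_rfl, ht0⟩ : (0 : ℝ) ∈ Icc 0 t) (⟨hs, hst⟩ : s ∈ Icc 0 t))
    (ii_of hc (⟨hs, hst⟩ : s ∈ Icc 0 t) (⟨ht0, le_rfl⟩ : t ∈ Icc 0 t))
  have h4 : 0 ≤ ∫ r in s..t, flux β N (fun k => X k r) :=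
    intervalIntegral.integral_nonneg hst fun r hr => S.flux_pos N (hs.trans hr.1)
  linarith

lemma SN.diss_mono (S : SN β ν E x X) (N : ℕ) {s t : ℝ} (hs : 0 ≤ s) (hst : s ≤ t) :
    ∫ r in (0 : ℝ)..s, ∑ j ∈ tre D N, (4 : ℝ) ^ j.length * X j r ^ 2
      ≤ ∫ r in (0 : ℝ)..t, ∑ j ∈ tre D N, (4 : ℝ) ^ j.length * X j r ^ 2 := by
  have ht0 : 0 ≤ t := hs.trans hst
  have hc := sum4_cont (fun j => S.ct j t) N
  have h3 := intervalIntegral.integral_add_adjacent_intervals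
    (ii_of hc (⟨le_rfl, ht0⟩ : (0 : ℝ) ∈ Icc 0 t) (⟨hs, hst⟩ : s ∈ Icc 0 t))
    (ii_of hc (⟨hs, hst⟩ : s ∈ Icc 0 t) (⟨ht0, le_rfl⟩ : t ∈ Icc 0 t))
  have h4 : 0 ≤ ∫ r in s..t, ∑ j ∈ tre D N, (4 : ℝ) ^ j.length * X j r ^ 2 :=
    intervalIntegral.integral_nonneg hst fun r _ => Finset.sum_nonneg fun _ _ => by positivity
  linarith

lemma SN.en_anti (S : SN β ν E x X) (N : ℕ) {s t : ℝ} (hs : 0 ≤ s) (hst : s ≤ t) :
    ∑ j ∈ tre D N, X j t ^ 2 ≤ ∑ j ∈ tre D N, X j s ^ 2 := by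
  have h1 := S.anti N hs hst
  have h2 := mul_le_mul_of_nonneg_left (S.diss_mono N hs hst)
    (by have := S.ν0; positivity : 0 ≤ 2 * ν)
  linarith

lemma sq_le_cube {y η : ℝ} (hy : 0 ≤ y) (hη : 0 < η) : y ^ 2 ≤ 1 / η * y ^ 3 + η ^ 2 := by
  rcases le_total η y with h | h
  · have h1 : y ^ 2 ≤ 1 / η * y ^ 3 := by
      rw [one_div, ← div_eq_inv_mul, le_div_iff₀ hη]
      calc y ^ 2 * η ≤ y ^ 2 * y := mul_le_mul_of_nonneg_left h (sq_nonneg _)
        _ = y ^ 3 := by ring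
    have := sq_nonneg η
    linarith
  · have h1 : y ^ 2 ≤ η ^ 2 := pow_le_pow_left₀ hy h 2
    have : 0 ≤ 1 / η * y ^ 3 := by positivity
    linarith

/-- the parameters -/
lemma params (hD : 0 < D) (hβ : D * 64 < ((2 : ℝ) ^ β) ^ 2) : 0 < β ∧ ∃ q γ : ℝ, 0 < q ∧ 0 < γ ∧
    4 * D < q ^ 2 ∧ 4 * q * 2 ^ γ < 2 ^ β := by
  have hD1 : (1 : ℝ) ≤ D := by exact_mod_cast hD
  obtain ⟨B, hB⟩ : ∃ B : ℝ, B = 2 ^ β := ⟨_, rfl⟩
  have hB0 : 0 < B := by rw [hB]; exact Real.rpow_pos_of_pos two_pos _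
  rw [← hB] at hβ ⊢
  have hB8 : 8 < B := by
    by_contra h
    push Not at h
    have : B ^ 2 ≤ 8 ^ 2 := pow_le_pow_left₀ hB0.le h 2
    nlinarith
  refine ⟨?_, ?_⟩
  · by_contra h
    push Not at h
    have : B ≤ 1 := by
      rw [hB]
      exact Real.rpow_le_one_of_one_le_of_nonpos one_le_two h
    linarith
  obtain ⟨d, hd⟩ : ∃ d, d = √(D : ℝ) := ⟨_, rfl⟩
  have hd2 : d ^ 2 = D := by rw [hd]; exact Real.sq_sqrt (by positivity)
  have hd0 : 0 < d := by rw [hd]; exact Real.sqrt_pos.2 (by linarith)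
  have hdB : 8 * d < B := by
    by_contra h
    push Not at h
    have : B ^ 2 ≤ (8 * d) ^ 2 := pow_le_pow_left₀ hB0.le h 2
    nlinarith
  obtain ⟨q, hq⟩ : ∃ q, q = d + B / 8 := ⟨_, rfl⟩
  have hq0 : 0 < q := by rw [hq]; positivity
  have hq1 : 2 * d < q := by rw [hq]; linarith
  have hq2 : 4 * q < B := by rw [hq]; linarith
  obtain ⟨ρ, hρ⟩ : ∃ ρ, ρ = (1 + B / (4 * q)) / 2 := ⟨_, rfl⟩
  have h1 : 1 < B / (4 * q) := by rw [lt_div_iff₀ (by positivity)]; linarith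
  have hρ1 : 1 < ρ := by rw [hρ]; linarith
  have hρ2 : ρ < B / (4 * q) := by rw [hρ]; linarith
  refine ⟨q, Real.logb 2 ρ, hq0, Real.logb_pos one_lt_two hρ1, ?_, ?_⟩
  · have : (2 * d) ^ 2 < q ^ 2 := pow_lt_pow_left₀ hq1 (by positivity) two_ne_zero
    nlinarith
  · rw [Real.rpow_logb two_pos (by norm_num) (by linarith)]
    rw [lt_div_iff₀ (by positivity)] at hρ2
    linarith

/-- **The lost energy.** The time and the bound of the viscosity depend on the data only through the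
bound `E` of the energy. -/
theorem lossT (hD : 0 < D) (hβ : D * 64 < ((2 : ℝ) ^ β) ^ 2) (hE : 0 ≤ E) {ε : ℝ} (hε : 0 < ε) :
    ∃ μ0 > 0, ∃ T > 0, ∀ (μ : ℝ) (x : Nd D → ℝ) (Y : Nd D → ℝ → ℝ), μ ≤ μ0 → SN β μ E x Y →
      ∀ t, T ≤ t → ∀ N : ℕ, ∑ j ∈ tre D N, Y j t ^ 2
        + 2 * μ * (∫ r in (0 : ℝ)..t, ∑ j ∈ tre D N, (4 : ℝ) ^ j.length * Y j r ^ 2) ≤ ε := by
  have hD0 : (0 : ℝ) < D := by exact_mod_cast hD
  obtain ⟨hβ0, q, γ, hq0, hγ0, hq, hqB⟩ := params hD hβ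
  obtain ⟨A, hA0, hA⟩ := acT_sqrt (D := D) hD hβ0.le hE hγ0
  obtain ⟨B, hB⟩ : ∃ B : ℝ, B = 2 ^ β := ⟨_, rfl⟩
  have hB0 : 0 < B := by rw [hB]; exact Real.rpow_pos_of_pos two_pos _
  obtain ⟨g, hg⟩ : ∃ g : ℝ, g = 2 ^ γ := ⟨_, rfl⟩
  have hg0 : 0 < g := by rw [hg]; exact Real.rpow_pos_of_pos two_pos _
  rw [← hB, ← hg] at hqB
  obtain ⟨r1, hr1⟩ : ∃ r, r = 4 * q * g / B := ⟨_, rfl⟩
  obtain ⟨r2, hr2⟩ : ∃ r, r = 4 * D / q ^ 2 := ⟨_, rfl⟩
  have hr10 : 0 < r1 := by rw [hr1]; positivity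
  have hr20 : 0 < r2 := by rw [hr2]; positivity
  have hr11 : r1 < 1 := by rw [hr1, div_lt_one hB0]; exact hqB
  have hr21 : r2 < 1 := by rw [hr2, div_lt_one (by positivity)]; exact hq
  obtain ⟨G1, hG1⟩ : ∃ G, G = 1 / (1 - r1) := ⟨_, rfl⟩
  obtain ⟨G2, hG2⟩ : ∃ G, G = 1 / (1 - r2) := ⟨_, rfl⟩
  have hG10 : 0 < G1 := by rw [hG1]; exact div_pos one_pos (by linarith)
  have hG20 : 0 < G2 := by rw [hG2]; exact div_pos one_pos (by linarith)
  have hgeo : ∀ {r : ℝ}, 0 < r → r < 1 → ∀ N : ℕ, ∑ n ∈ Finset.range N, r ^ n ≤ 1 / (1 - r) := by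
    intro r h0 h1 N
    have h5 := (summable_geometric_of_lt_one h0.le h1).sum_le_tsum (Finset.range N)
      (fun n _ => by positivity)
    rwa [tsum_geometric_of_lt_one h0.le h1, ← one_div] at h5
  obtain ⟨η, hη⟩ : ∃ η, η = min 1 (ε / (4 * G2)) := ⟨_, rfl⟩
  have hη0 : 0 < η := by rw [hη]; exact lt_min one_pos (by positivity)
  have hη1 : η ≤ 1 := by rw [hη]; exact min_le_left _ _
  have hη2 : η ^ 2 * G2 ≤ ε / 4 := by
    have h1 : η ≤ ε / (4 * G2) := by rw [hη]; exact min_le_right _ _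
    rw [le_div_iff₀ (by positivity)] at h1
    have h2 : η ^ 2 ≤ η := by nlinarith
    have h3 := mul_le_mul_of_nonneg_right h2 hG20.le
    linarith
  obtain ⟨w, hw⟩ : ∃ w, w = 1 + 4 * A * G1 / (η * ε) := ⟨_, rfl⟩
  have hw1 : 1 ≤ w := by
    have : 0 ≤ 4 * A * G1 / (η * ε) := by positivity
    rw [hw]
    linarith
  have hw0 : 0 < w := by linarith
  have hwA : A * G1 / η ≤ ε / 4 * w := by
    have h1 : ε / 4 * w = ε / 4 + A * G1 / η := by
      rw [hw]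
      field_simp
    linarith
  obtain ⟨T, hT⟩ : ∃ T, T = w ^ 2 := ⟨_, rfl⟩
  have hT1 : 1 ≤ T := by rw [hT]; exact one_le_pow₀ hw1
  have hT0 : 0 < T := by linarith
  have hsT : √T = w := by rw [hT]; exact Real.sqrt_sq hw0.le
  refine ⟨1 / (2 * T), by positivity, T, hT0, fun μ x Y hμ S t ht N => ?_⟩
  have h0T : (0 : ℝ) ∈ Icc 0 T := ⟨le_rfl, hT0.le⟩
  have hTT : T ∈ Icc 0 T := ⟨hT0.le, le_rfl⟩
  have hc : ∀ j, ContinuousOn (Y j) (Icc 0 T) := fun j => S.ct j T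
  -- one generation
  have hlev : ∀ n : ℕ, ∫ r in (0 : ℝ)..T, ∑ j ∈ lev D n, (4 : ℝ) ^ j.length * Y j r ^ 2
      ≤ A * w / η * r1 ^ n + T * η ^ 2 * r2 ^ n := by
    intro n
    obtain ⟨e, he⟩ : ∃ e, e = η / q ^ n := ⟨_, rfl⟩
    have he0 : 0 < e := by rw [he]; positivity
    have h1 : ∫ r in (0 : ℝ)..T, ∑ j ∈ lev D n, (4 : ℝ) ^ j.length * Y j r ^ 2
        ≤ ∫ r in (0 : ℝ)..T, (4 ^ n / (e * B ^ n) * (∑ j ∈ lev D n, (2 : ℝ) ^ (β * n) * Y j r ^ 3)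
          + 4 ^ n * e ^ 2 * D ^ n) := by
      refine intervalIntegral.integral_mono_on hT0.le (ii_of (lev4_cont hc n) h0T hTT)
        (((ii_of (S.ac_cont n T) h0T hTT).const_mul _).add intervalIntegrable_const) ?_
      intro r hr
      have h2 : ∑ j ∈ lev D n, (4 : ℝ) ^ j.length * Y j r ^ 2
          ≤ ∑ j ∈ lev D n, (4 ^ n / (e * B ^ n) * ((2 : ℝ) ^ (β * n) * Y j r ^ 3)
            + 4 ^ n * e ^ 2 * 1) := by
        refine Finset.sum_le_sum fun j hj => ?_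
        rw [mem_lev.1 hj, pow_mul_nat, ← hB]
        have h3 := mul_le_mul_of_nonneg_left (sq_le_cube (S.pos j hr.1) he0)
          (by positivity : (0 : ℝ) ≤ 4 ^ n)
        refine h3.trans (le_of_eq ?_)
        field_simp
      rw [Finset.sum_add_distrib, ← Finset.mul_sum,
        ← Finset.mul_sum (lev D n) (fun _ => (1 : ℝ)) (4 ^ n * e ^ 2), card_lev] at h2
      exact h2
    rw [intervalIntegral.integral_add ((ii_of (S.ac_cont n T) h0T hTT).const_mul _)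
      intervalIntegrable_const, intervalIntegral.integral_const_mul,
      intervalIntegral.integral_const, smul_eq_mul, sub_zero] at h1
    have h2 := hA μ x Y S T hT1 n
    rw [hsT, pow_mul_nat, ← hg] at h2
    have h3 : 4 ^ n / (e * B ^ n) * acT β Y n T ≤ 4 ^ n / (e * B ^ n) * (A * w * g ^ n) :=
      mul_le_mul_of_nonneg_left h2 (by positivity)
    have h4 : 4 ^ n / (e * B ^ n) * (A * w * g ^ n) = A * w / η * r1 ^ n := by
      rw [he, hr1, div_pow, mul_pow, mul_pow]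
      field_simp
    have h5 : T * (4 ^ n * e ^ 2 * D ^ n) = T * η ^ 2 * r2 ^ n := by
      rw [he, hr2, div_pow (4 * (D : ℝ)), mul_pow, div_pow, ← pow_mul, ← pow_mul, mul_comm n 2]
      field_simp
    rw [h4] at h3
    rw [h5] at h1
    simp only [acT] at h3
    linarith
  -- all the generations
  have htre : ∀ M : ℕ, ∫ r in (0 : ℝ)..T, ∑ j ∈ tre D M, (4 : ℝ) ^ j.length * Y j r ^ 2
      ≤ A * w / η * (∑ n ∈ Finset.range (M + 1), r1 ^ n)
        + T * η ^ 2 * (∑ n ∈ Finset.range (M + 1), r2 ^ n) := by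
    intro M
    induction M with
    | zero =>
      have h1 := hlev 0
      simp only [zero_add, Finset.sum_range_one, sum_lev_zero, sum_tre_zero] at h1 ⊢
      exact h1
    | succ M ih =>
      have h1 := hlev (M + 1)
      have h2 : ∫ r in (0 : ℝ)..T, ∑ j ∈ tre D (M + 1), (4 : ℝ) ^ j.length * Y j r ^ 2
          = (∫ r in (0 : ℝ)..T, ∑ j ∈ tre D M, (4 : ℝ) ^ j.length * Y j r ^ 2)
            + ∫ r in (0 : ℝ)..T, ∑ j ∈ lev D (M + 1), (4 : ℝ) ^ j.length * Y j r ^ 2 := by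
        rw [← intervalIntegral.integral_add (ii_of (sum4_cont hc M) h0T hTT)
          (ii_of (lev4_cont hc (M + 1)) h0T hTT)]
        refine intervalIntegral.integral_congr fun s _ => ?_
        rw [sum_tre_succ]
      rw [h2, Finset.sum_range_succ _ (M + 1), Finset.sum_range_succ _ (M + 1)]
      linarith
  have hQ : ∫ r in (0 : ℝ)..T, ∑ j ∈ tre D N, (4 : ℝ) ^ j.length * Y j r ^ 2 ≤ T * (ε / 2) := by
    have h1 := htre N
    have h2 := mul_le_mul_of_nonneg_left (hgeo hr10 hr11 (N + 1))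
      (by positivity : 0 ≤ A * w / η)
    have h3 := mul_le_mul_of_nonneg_left (hgeo hr20 hr21 (N + 1))
      (by positivity : 0 ≤ T * η ^ 2)
    rw [← hG1] at h2
    rw [← hG2] at h3
    have h4 : A * w / η * G1 ≤ T * (ε / 4) := by
      have i1 := mul_le_mul_of_nonneg_left hwA hw0.le
      rw [hT]
      calc A * w / η * G1 = w * (A * G1 / η) := by ring
        _ ≤ _ := i1
        _ = _ := by ring
    have h5 : T * η ^ 2 * G2 ≤ T * (ε / 4) := by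
      have := mul_le_mul_of_nonneg_left hη2 hT0.le
      linarith
    linarith
  -- the energy at the time T
  have hen : ∑ j ∈ tre D N, Y j T ^ 2 ≤ ε / 2 := by
    have h1 : ∫ _ in (0 : ℝ)..T, ∑ j ∈ tre D N, Y j T ^ 2
        ≤ ∫ r in (0 : ℝ)..T, ∑ j ∈ tre D N, (4 : ℝ) ^ j.length * Y j r ^ 2 := by
      refine intervalIntegral.integral_mono_on hT0.le intervalIntegrable_const
        (ii_of (sum4_cont hc N) h0T hTT) fun r hr => ?_
      refine (S.en_anti N hr.1 hr.2).trans (Finset.sum_le_sum fun j _ => ?_)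
      exact le_mul_of_one_le_left (sq_nonneg _) (one_le_pow₀ (by norm_num))
    rw [intervalIntegral.integral_const, smul_eq_mul, sub_zero] at h1
    exact le_of_mul_le_mul_left (h1.trans hQ) hT0
  have hdi : 2 * μ * (∫ r in (0 : ℝ)..T, ∑ j ∈ tre D N, (4 : ℝ) ^ j.length * Y j r ^ 2)
      ≤ ε / 2 := by
    have hμ0 := S.ν0
    have h1 := mul_le_mul_of_nonneg_left hQ (by positivity : 0 ≤ 2 * μ)
    rw [le_div_iff₀ (by positivity)] at hμ
    have h2 := mul_le_mul_of_nonneg_right hμ (by positivity : 0 ≤ ε / 2)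
    have h3 : 2 * μ * (T * (ε / 2)) = μ * (2 * T) * (ε / 2) := by ring
    linarith
  have := S.anti N hT0.le ht
  linarith

/-- the scaling -/
lemma scaleT {R : ℝ} (hν : 0 < ν) (hR : 0 < R) (hx : ∀ j, 0 ≤ x j)
    (hE : ∀ N : ℕ, ∑ j ∈ tre D N, x j ^ 2 ≤ R ^ 2) (hX : Sol0 β ν x X) :
    SN β (ν / R) 1 (fun j => x j / R) (fun j s => X j (s / R) / R) := by
  refine ⟨div_pos hν hR, fun j => div_nonneg (hx j) hR.le, fun N => ?_, ?_, ?_⟩
  · simp only [div_pow]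
    rw [← Finset.sum_div, div_le_one (by positivity)]
    exact hE N
  · intro j
    simp only [zero_div]
    rw [hX.init j]
  · intro j t ht
    have h1 := hX.ode j (t / R) (div_nonneg ht hR.le)
    have h2 : HasDerivWithinAt (fun s : ℝ => s / R) (1 / R) (Ici 0) t :=
      ((hasDerivAt_id t).div_const R).hasDerivWithinAt
    have h3 := (h1.comp t h2 fun s hs => div_nonneg hs hR.le).div_const R
    refine h3.congr_deriv ?_
    cases j with
    | nil =>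
      simp only [trhs, inp, ch, ← Finset.sum_div]
      field_simp
      ring
    | cons i j =>
      simp only [trhs, inp, ch, ← Finset.sum_div]
      field_simp
      ring

/-- **The lost energy**, for large data. -/
theorem loss_large (hD : 0 < D) (hβ : D * 64 < ((2 : ℝ) ^ β) ^ 2) (hν : 0 < ν) {ε : ℝ}
    (hε : 0 < ε) : ∃ R₀ > 0, ∃ T > 0, ∀ R ≥ R₀, ∀ (x : Nd D → ℝ) (X : Nd D → ℝ → ℝ),
      (∀ j, 0 ≤ x j) → (∀ N : ℕ, ∑ j ∈ tre D N, x j ^ 2 ≤ R ^ 2) → Sol0 β ν x X →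
      ∀ t, T / R ≤ t → ∀ N : ℕ, ∑ j ∈ tre D N, X j t ^ 2
        + 2 * ν * (∫ r in (0 : ℝ)..t, ∑ j ∈ tre D N, (4 : ℝ) ^ j.length * X j r ^ 2)
          ≤ ε * R ^ 2 := by
  obtain ⟨μ0, hμ0, T, hT, hl⟩ := lossT (β := β) hD hβ zero_le_one hε
  refine ⟨ν / μ0, by positivity, T, hT, fun R hR x X hx hE hX t ht N => ?_⟩
  have hR0 : 0 < R := lt_of_lt_of_le (by positivity) hR
  have hμ : ν / R ≤ μ0 := by
    rw [ge_iff_le, div_le_iff₀ hμ0] at hR
    rw [div_le_iff₀ hR0]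
    linarith
  rw [div_le_iff₀ hR0] at ht
  have h1 := hl (ν / R) _ _ hμ (scaleT hν hR0 hx hE hX) (t * R) ht N
  have h2 : t * R / R = t := by field_simp
  have h3 : ∫ r in (0 : ℝ)..(t * R), ∑ j ∈ tre D N, (4 : ℝ) ^ j.length * (X j (r / R) / R) ^ 2
      = R * ∫ r in (0 : ℝ)..t, ∑ j ∈ tre D N, (4 : ℝ) ^ j.length * (X j r / R) ^ 2 := by
    rw [intervalIntegral.integral_comp_div
      (fun r => ∑ j ∈ tre D N, (4 : ℝ) ^ j.length * (X j r / R) ^ 2) hR0.ne', zero_div, h2,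
      smul_eq_mul]
  rw [h3] at h1
  simp only [h2] at h1
  have h4 : ∫ r in (0 : ℝ)..t, ∑ j ∈ tre D N, (4 : ℝ) ^ j.length * (X j r / R) ^ 2
      = (∫ r in (0 : ℝ)..t, ∑ j ∈ tre D N, (4 : ℝ) ^ j.length * X j r ^ 2) / R ^ 2 := by
    rw [← intervalIntegral.integral_div]
    congr 1
    funext r
    rw [Finset.sum_div]
    refine Finset.sum_congr rfl fun j _ => ?_
    rw [div_pow, mul_div_assoc]
  have h5 : ∑ j ∈ tre D N, (X j t / R) ^ 2 = (∑ j ∈ tre D N, X j t ^ 2) / R ^ 2 := by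
    rw [Finset.sum_div]
    refine Finset.sum_congr rfl fun j _ => ?_
    rw [div_pow]
  rw [h4, h5] at h1
  have h6 := mul_le_mul_of_nonneg_right h1 (sq_nonneg R)
  calc _ = ((∑ j ∈ tre D N, X j t ^ 2) / R ^ 2 + 2 * (ν / R) * (R *
        ((∫ r in (0 : ℝ)..t, ∑ j ∈ tre D N, (4 : ℝ) ^ j.length * X j r ^ 2) / R ^ 2)))
        * R ^ 2 := by field_simp
    _ ≤ _ := h6

end Pool.Agent.Run7.h32.Tu
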