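import Pool.Agent.Run7.h32.Tr.Neg

/-!
The dyadic model on a tree: the negative parts of the high generations.
-/

set_option autoImplicit false

open Set Filter Topology MeasureTheory

namespace Pool.Agent.Run7.h32.Tu

open Run7.h969.Dy (pow_mul_nat barrier)
open Pool.Agent.Run7.h32.Tr

variable {D : ℕ}

/-- The negative parts of the high generations stay small. -/
theorem neg_partN {β ν s K P F T φ : ℝ} {N n₀ : ℕ} {x : Nd D → ℝ} {f X : Nd D → ℝ → ℝ} (hν : 0 < ν)
    (hP0 : 0 < P) (hKP : K < P) (hK : ∀ j : Nd D, (2 : ℝ) ^ (s * j.length) * |x j| ≤ K)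
    (hG : GalT β ν T N x f X) (hφ0 : 0 < φ) (hφ : φ * 2 ^ s ≤ 4)
    (hF : ∀ t ∈ Icc 0 T, ∀ j : Nd D, |f j t| ≤ F * φ ^ j.length) (hFP : F < P * ν / 2)
    (h₀ : 1 ≤ n₀)
    (hn₀ : ∀ n ≥ n₀, D * (((2 : ℝ) ^ β) ^ n * (P / ((2 : ℝ) ^ s) ^ (n + 1))) ≤ ν / 2 * 4 ^ n) :
    ∀ j : Nd D, n₀ ≤ j.length → ∀ t ∈ Icc 0 T, -(P / ((2 : ℝ) ^ s) ^ j.length) < X j t := by
  obtain ⟨q, hq⟩ : ∃ q : ℝ, q = 2 ^ s := ⟨_, rfl⟩
  obtain ⟨B, hB⟩ : ∃ B : ℝ, B = 2 ^ β := ⟨_, rfl⟩
  have hq0 : 0 < q := by rw [hq]; exact Real.rpow_pos_of_pos two_pos _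
  rw [← hq] at hφ
  have hB0 : 0 < B := by rw [hB]; exact Real.rpow_pos_of_pos two_pos _
  rw [← hq, ← hB] at hn₀
  rw [← hq]
  have hc := hG.cont
  have key := barrier (ι := {j // j ∈ tre D N}) (T := T)
    (fun i t => if n₀ ≤ (i : Nd D).length then X i t + P / q ^ (i : Nd D).length else 1) ?_ ?_ ?_
  · intro j hj t ht
    by_cases hN : j.length ≤ N
    · have h1 := key ⟨j, mem_tre.2 hN⟩ t ht
      rw [if_pos (show n₀ ≤ j.length from hj)] at h1
      linarith
    · rw [hG.zero j (by omega) t, neg_lt_zero]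
      positivity
  · intro i
    by_cases hi : n₀ ≤ (i : Nd D).length
    · simp only [hi, ite_true]
      exact (hc _).add continuousOn_const
    · simp only [hi, ite_false]
      exact continuousOn_const
  · intro i
    by_cases hi : n₀ ≤ (i : Nd D).length
    · simp only [hi, ite_true]
      rw [hG.init i (mem_tre.1 i.2)]
      have h1 := hK i
      rw [pow_mul_nat, ← hq] at h1
      have h2 : |x i| < P / q ^ (i : Nd D).length := by
        rw [lt_div_iff₀ (by positivity), mul_comm]
        exact h1.trans_lt hKP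
      linarith [neg_abs_le (x i)]
    · simp only [hi, ite_false]
      exact one_pos
  · intro i t ht hall hi0
    by_cases hi : n₀ ≤ (i : Nd D).length
    · simp only [hi, ite_true] at hi0 ⊢
      obtain ⟨j, hj⟩ := i
      simp only at hi hi0 ⊢
      have hjN := mem_tre.1 hj
      refine ⟨_, ?_, (hG.ode j hjN t ⟨ht.1.le, ht.2⟩).add_const _⟩
      cases j with
      | nil =>
        rw [List.length_nil] at hi
        omega
      | cons i₀ p =>
        obtain ⟨m, hm⟩ : ∃ m, m = p.length := ⟨_, rfl⟩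
        have hlen : (i₀ :: p).length = m + 1 := by rw [List.length_cons, hm]
        rw [hlen] at hi hi0 hjN
        have h1 : X (i₀ :: p) t = -(P / q ^ (m + 1)) := by linarith
        have h2 : ∀ i : Fin D, -(P / q ^ (m + 2)) ≤ X (i :: i₀ :: p) t := by
          intro i
          have hl2 : (i :: i₀ :: p).length = m + 2 := by
            rw [List.length_cons, hlen]
          by_cases hN : m + 2 ≤ N
          · have h3 := hall ⟨i :: i₀ :: p, mem_tre.2 (by rw [hl2]; exact hN)⟩
            rw [if_pos (by rw [hl2]; omega)] at h3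
            have h3' : 0 ≤ X (i :: i₀ :: p) t + P / q ^ (i :: i₀ :: p).length := h3
            rw [hl2] at h3'
            linarith
          · rw [hG.zero (i :: i₀ :: p) (by rw [hl2]; omega) t, neg_nonpos]
            positivity
        have h2' : -(D * (P / q ^ (m + 2))) ≤ ch (fun k => X k t) (i₀ :: p) := by
          have h3 : ∑ _i : Fin D, -(P / q ^ (m + 2)) ≤ ch (fun k => X k t) (i₀ :: p) :=
            Finset.sum_le_sum fun i _ => h2 i
          rw [Finset.sum_const, Finset.card_univ, Fintype.card_fin, nsmul_eq_mul] at h3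
          linarith
        have h3 := hn₀ (m + 1) hi
        have h4 : (2 : ℝ) ^ (β * ((m + 1 : ℕ) : ℝ)) = B ^ (m + 1) := by
          rw [pow_mul_nat, hB]
        show 0 < (2 : ℝ) ^ (β * p.length) * X p t ^ 2
          - (2 : ℝ) ^ (β * ((i₀ :: p).length : ℝ)) * (X (i₀ :: p) t * ch (fun k => X k t) (i₀ :: p))
          - ν * 4 ^ (i₀ :: p).length * X (i₀ :: p) t + f (i₀ :: p) t
        rw [hlen, h4, h1]
        have h5 : 0 ≤ (2 : ℝ) ^ (β * p.length) * X p t ^ 2 :=
          mul_nonneg (Real.rpow_nonneg two_pos.le _) (sq_nonneg _)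
        have h6 : 0 < P / q ^ (m + 1) := by positivity
        have h7 : B ^ (m + 1) * -(D * (P / q ^ (m + 2)))
            ≤ B ^ (m + 1) * ch (fun k => X k t) (i₀ :: p) :=
          mul_le_mul_of_nonneg_left h2' (by positivity)
        have h8 : ν / 2 * 4 ^ (m + 1)
            ≤ B ^ (m + 1) * ch (fun k => X k t) (i₀ :: p) + ν * 4 ^ (m + 1) := by
          have h8' : D * (B ^ (m + 1) * (P / q ^ (m + 1 + 1))) ≤ ν / 2 * 4 ^ (m + 1) := h3
          have e0 : D * (B ^ (m + 1) * (P / q ^ (m + 1 + 1)))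
              = -(B ^ (m + 1) * -(D * (P / q ^ (m + 2)))) := by ring
          rw [e0] at h8'
          linarith
        have h9 := mul_le_mul_of_nonneg_left h8 h6.le
        -- the force
        have hf := hF t ⟨ht.1.le, ht.2⟩ (i₀ :: p)
        rw [hlen] at hf
        have hf' := neg_abs_le (f (i₀ :: p) t)
        have h10 : F * φ ^ (m + 1) < P / q ^ (m + 1) * (ν / 2 * 4 ^ (m + 1)) := by
          have e3 : φ ^ (m + 1) ≤ 4 ^ (m + 1) / q ^ (m + 1) := by
            rw [le_div_iff₀ (by positivity), ← mul_pow]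
            exact pow_le_pow_left₀ (by positivity) hφ _
          calc F * φ ^ (m + 1) < P * ν / 2 * φ ^ (m + 1) :=
                mul_lt_mul_of_pos_right hFP (by positivity)
            _ ≤ P * ν / 2 * (4 ^ (m + 1) / q ^ (m + 1)) :=
                mul_le_mul_of_nonneg_left e3 (by positivity)
            _ = P / q ^ (m + 1) * (ν / 2 * 4 ^ (m + 1)) := by
                field_simp
        linarith
    · simp only [hi, ite_false] at hi0
      exact absurd hi0 one_ne_zero

end Pool.Agent.Run7.h32.Tu
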