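import Pool.Agent.Run7.h32.Tu.Reg
import Pool.Agent.Run7.h32.Tu.Crit

/-!
The dyadic model on a tree without force: the energy inequality from all times, uniqueness, and the
regularity of the Leray-Hopf solutions.
-/

set_option autoImplicit false

open Set Filter Topology MeasureTheory

namespace Pool.Agent.Run7.h32.Tu

open Run7.h969.Dy (pow_mul_nat)
open Pool.Agent.Run7.h32.Fo (ii_of rate_lt_one)
open Pool.Agent.Run7.h32.Tr

variable {D : ℕ} {β ν : ℝ} {x : Nd D → ℝ} {X Z : Nd D → ℝ → ℝ}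

/-- The energy inequality of the shifted solution. -/
lemma ei_shift {a : ℝ} : EI ν (fun j t => X j (a + t)) 0 ↔ EI ν X a := by
  unfold EI
  simp only [add_zero]
  have key : ∀ (t : ℝ) (N : ℕ), ∫ r in (0 : ℝ)..t, ∑ j ∈ tre D N, 4 ^ j.length * X j (a + r) ^ 2
      = ∫ r in a..(a + t), ∑ j ∈ tre D N, 4 ^ j.length * X j r ^ 2 := by
    intro t N
    have := intervalIntegral.integral_comp_add_left
      (a := 0) (b := t) (fun r => ∑ j ∈ tre D N, (4 : ℝ) ^ j.length * X j r ^ 2) a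
    rw [add_zero] at this
    exact this
  refine and_congr Iff.rfl ⟨fun h t ht N => ?_, fun h t ht N => ?_⟩
  · have h1 := h (t - a) (by linarith) N
    rw [key] at h1
    simp only [add_sub_cancel] at h1
    exact h1
  · have h1 := h (a + t) (by linarith) N
    rw [key]
    exact h1

lemma EI.sum_le {s : ℝ} (hν : 0 < ν) (h : EI ν X s) {t : ℝ} (ht : s ≤ t) (N : ℕ) :
    ∑ j ∈ tre D N, X j t ^ 2 ≤ ∑' j, X j s ^ 2 := by
  have h1 := h.2 t ht N
  have h2 : 0 ≤ ∫ r in s..t, ∑ j ∈ tre D N, (4 : ℝ) ^ j.length * X j r ^ 2 :=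
    intervalIntegral.integral_nonneg ht fun r _ => Finset.sum_nonneg fun j _ => by positivity
  have h3 : 0 ≤ 2 * ν * ∫ r in s..t, ∑ j ∈ tre D N, (4 : ℝ) ^ j.length * X j r ^ 2 :=
    mul_nonneg (by positivity) h2
  linarith

lemma EI.diss_le {s : ℝ} (hν : 0 < ν) (h : EI ν X s) {t : ℝ} (ht : s ≤ t) (N : ℕ) :
    ∫ r in s..t, ∑ j ∈ tre D N, (4 : ℝ) ^ j.length * X j r ^ 2
      ≤ (∑' j, X j s ^ 2) / (2 * ν) := by
  have h1 := h.2 t ht N
  have h2 : 0 ≤ ∑ j ∈ tre D N, X j t ^ 2 := Finset.sum_nonneg fun j _ => sq_nonneg _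
  rw [le_div_iff₀ (by positivity)]
  linarith

/-- A solution which decays with a rate better than the critical one satisfies the energy
inequality from all times. -/
theorem ei_all {s C : ℝ} (hν : 0 < ν) (hs0 : 0 < s) (hs : β - 2 < s) (hX : Sol0 β ν x X)
    (h0 : EI ν X 0) (hXs : ∀ (j : Nd D) t, 0 ≤ t → (2 : ℝ) ^ (s * j.length) * |X j t| ≤ C)
    {a : ℝ} (ha : 0 ≤ a) : EI ν X a := by
  obtain ⟨q, hq⟩ : ∃ q : ℝ, q = 2 ^ s := ⟨_, rfl⟩
  obtain ⟨B, hB⟩ : ∃ B : ℝ, B = 2 ^ β := ⟨_, rfl⟩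
  have hq1 : 1 < q := by rw [hq]; exact Real.one_lt_rpow (by norm_num) hs0
  have hq0 : 0 < q := by linarith
  have hB0 : 0 < B := by rw [hB]; exact Real.rpow_pos_of_pos two_pos _
  have hσ : B / (4 * q) < 1 := by
    rw [hB, hq]
    exact rate_lt_one hs
  have hσ0 : 0 < B / (4 * q) := by positivity
  have hC0 : 0 ≤ C := by
    have h1 := hXs [] 0 le_rfl
    simp only [List.length_nil, Nat.cast_zero, mul_zero, Real.rpow_zero, one_mul] at h1
    exact (abs_nonneg _).trans h1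
  obtain ⟨W, hW⟩ : ∃ W, W = (∑' j, X j 0 ^ 2) / (2 * ν) := ⟨_, rfl⟩
  rw [← ei_shift]
  have hsh := shift0 hX ha
  have hsm : Summable fun j => X j a ^ 2 :=
    (tsum_bdT (fun _ => sq_nonneg _) fun M => h0.sum_le hν ha M).1
  refine ⟨by simpa only [add_zero] using hsm, fun t ht L => ?_⟩
  simp only [add_zero]
  have hcX : ∀ (T : ℝ) (j : Nd D), ContinuousOn (X j) (Icc 0 T) := fun T j => hX.cont j
  have hE : ∀ M : ℕ, ∫ s in (0 : ℝ)..t, ∑ j ∈ tre D M, 4 ^ j.length * X j (a + s) ^ 2 ≤ W := by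
    intro M
    have e1 := intervalIntegral.integral_comp_add_left
      (a := 0) (b := t) (fun r => ∑ j ∈ tre D M, (4 : ℝ) ^ j.length * X j r ^ 2) a
    rw [add_zero] at e1
    rw [e1, hW]
    refine le_trans ?_ (h0.diss_le hν (by linarith : (0 : ℝ) ≤ a + t) M)
    have hT : (0 : ℝ) ≤ a + t := by linarith
    have h1 := intervalIntegral.integral_add_adjacent_intervals
      (ii_of (sum4_cont (hcX (a + t)) M) (⟨le_rfl, hT⟩ : (0 : ℝ) ∈ Icc 0 (a + t))
        (⟨ha, by linarith⟩ : a ∈ Icc 0 (a + t)))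
      (ii_of (sum4_cont (hcX (a + t)) M) (⟨ha, by linarith⟩ : a ∈ Icc 0 (a + t))
        (⟨hT, le_rfl⟩ : a + t ∈ Icc 0 (a + t)))
    have h2 : 0 ≤ ∫ r in (0 : ℝ)..a, ∑ j ∈ tre D M, (4 : ℝ) ^ j.length * X j r ^ 2 :=
      intervalIntegral.integral_nonneg ha fun r _ => Finset.sum_nonneg fun j _ => by positivity
    linarith
  have htt : t ∈ Icc 0 t := ⟨ht, le_rfl⟩
  have hcs : ∀ j, ContinuousOn (fun r => X j (a + r)) (Icc 0 t) := fun j => hsh.cont j
  have hflux : ∀ N : ℕ, |∫ s in (0 : ℝ)..t, flux β N (fun k => X k (a + s))|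
      ≤ D * C * (B / (4 * q)) ^ N * W := fun N =>
    flux_leT (X := fun j r => X j (a + r)) hq1.le hB hC0 hcs (fun r hr j => by
      have := hXs j (a + r) (by linarith [hr.1])
      rw [pow_mul_nat, ← hq] at this
      rw [le_div_iff₀ (by positivity), mul_comm]
      exact this) hE N htt
  have hlim : Tendsto (fun N : ℕ => ∑' j, X j a ^ 2 + 2 * (D * C * (B / (4 * q)) ^ N * W)) atTop
      (𝓝 (∑' j, X j a ^ 2)) := by
    have h3 : Tendsto (fun N : ℕ => (B / (4 * q)) ^ N) atTop (𝓝 0) :=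
      tendsto_pow_atTop_nhds_zero_of_lt_one hσ0.le hσ
    have h4 := (((h3.const_mul (D * C)).mul_const W).const_mul 2).const_add (∑' j, X j a ^ 2)
    rw [mul_zero, zero_mul, mul_zero, add_zero] at h4
    exact h4
  refine ge_of_tendsto hlim ?_
  filter_upwards [eventually_ge_atTop L] with N hN
  have h1 := solT_id hsh (fun _ => continuousOn_const) N htt
  rw [sum0, mul_zero, add_zero] at h1
  have h2 := hsm.sum_le_tsum (tre D N) fun j _ => sq_nonneg _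
  have h3 : ∑ j ∈ tre D L, X j (a + t) ^ 2 ≤ ∑ j ∈ tre D N, X j (a + t) ^ 2 :=
    Finset.sum_le_sum_of_subset_of_nonneg (tre_mono hN) fun j _ _ => sq_nonneg _
  have h0t : (0 : ℝ) ∈ Icc 0 t := ⟨le_rfl, ht⟩
  have h4 : ∫ r in (0 : ℝ)..t, ∑ j ∈ tre D L, (4 : ℝ) ^ j.length * X j (a + r) ^ 2
      ≤ ∫ r in (0 : ℝ)..t, ∑ j ∈ tre D N, (4 : ℝ) ^ j.length * X j (a + r) ^ 2 :=
    intervalIntegral.integral_mono_on ht (ii_of (sum4_cont hcs L) h0t htt)
      (ii_of (sum4_cont hcs N) h0t htt) fun r _ =>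
      Finset.sum_le_sum_of_subset_of_nonneg (tre_mono hN) fun j _ _ => by positivity
  have h5 := mul_le_mul_of_nonneg_left h4 (by positivity : 0 ≤ 2 * ν)
  have h6 := (abs_le.1 (hflux N)).1
  linarith

/-- **Uniqueness** among the solutions with the energy inequality from the time zero. -/
theorem uniq {s C : ℝ} (hD : 0 < D) (hν : 0 < ν) (hs0 : 0 < s) (hs : β - 2 < s)
    (hX : Sol0 β ν x X) (hX0 : EI ν X 0)
    (hXs : ∀ (j : Nd D) t, 0 ≤ t → (2 : ℝ) ^ (s * j.length) * |X j t| ≤ C)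
    (hZ : Sol0 β ν x Z) (hZ0 : EI ν Z 0) (j : Nd D) {t : ℝ} (ht : 0 ≤ t) : Z j t = X j t := by
  have hC0 : 0 ≤ C := by
    have h1 := hXs [] 0 le_rfl
    simp only [List.length_nil, Nat.cast_zero, mul_zero, Real.rpow_zero, one_mul] at h1
    exact (abs_nonneg _).trans h1
  obtain ⟨E, hE⟩ : ∃ E, E = ∑' j, x j ^ 2 := ⟨_, rfl⟩
  have hXE : ∑' j, X j 0 ^ 2 = E := by
    rw [hE]
    exact tsum_congr fun j => by rw [hX.init]
  have hZE : ∑' j, Z j 0 ^ 2 = E := by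
    rw [hE]
    exact tsum_congr fun j => by rw [hZ.init]
  have hx2 : Summable fun j => x j ^ 2 := hX0.1.congr fun j => by rw [hX.init]
  have hlim := sum_tre_tendsto hx2
  rw [← hE] at hlim
  refine ws_forcedT (δ := fun _ => 0) (E := E) (W := E / (2 * ν)) hD hν hs0 hs ht hC0 hX hZ
    (fun _ => continuousOn_const) (fun r hr j => ?_) (fun M => ?_) (fun M => ?_)
    (fun N r hr => ?_) hlim tendsto_const_nhds j
  · have := hXs j r hr.1
    rw [pow_mul_nat] at this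
    rw [le_div_iff₀ (by positivity), mul_comm]
    exact this
  · rw [← hXE]
    exact hX0.diss_le hν ht M
  · rw [← hZE]
    exact hZ0.diss_le hν ht M
  · rw [sum0, mul_zero, add_zero, add_zero, ← hZE]
    exact hZ0.2 r hr.1 N

/-- **The theorem for data with a decay rate better than the critical one.** -/
theorem real {s K : ℝ} (hD : 0 < D) (hβ : ((2 : ℝ) ^ β) ^ 2 ≤ D * 64) (hν : 0 < ν) (hs : 0 < s)
    (hs2 : β - 2 < s) (hx2 : Summable fun j => x j ^ 2)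
    (hK : ∀ j : Nd D, (2 : ℝ) ^ (s * j.length) * |x j| ≤ K) :
    ∃ X : Nd D → ℝ → ℝ, Sol0 β ν x X ∧ (∀ t, 0 ≤ t → EI ν X t) ∧
      (∀ Z, Sol0 β ν x Z → EI ν Z 0 → ∀ j t, 0 ≤ t → Z j t = X j t) ∧
      (∀ r : ℝ, (∃ K, ∀ j : Nd D, (2 : ℝ) ^ (r * j.length) * |x j| ≤ K) →
        ∃ K, ∀ (j : Nd D) t, 0 ≤ t → (2 : ℝ) ^ (r * j.length) * |X j t| ≤ K) ∧
      ∀ τ r : ℝ, 0 < τ → ∃ K, ∀ (j : Nd D) t, τ ≤ t → (2 : ℝ) ^ (r * j.length) * |X j t| ≤ K := by
  have hK0 : 0 ≤ K := by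
    have := hK []
    simp only [List.length_nil, Nat.cast_zero, mul_zero, Real.rpow_zero, one_mul] at this
    exact (abs_nonneg _).trans this
  obtain ⟨X, Y, φ, hX, hφ, hY, hlim⟩ := exist_lh_sub β hν hx2
  obtain ⟨s', C, hs'0, hs'1, hs'2, hC'⟩ := crit_all (D := D) hD hβ hν hs hs2 hK0
    (Real.sqrt_nonneg (∑' j, x j ^ 2))
  have hXs : ∀ (j : Nd D) t, 0 ≤ t → (2 : ℝ) ^ (s' * j.length) * |X j t| ≤ C := by
    intro j t ht
    have h1 : Tendsto (fun k => (2 : ℝ) ^ (s' * j.length) * |Y (φ k) j t|) atTop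
        (𝓝 ((2 : ℝ) ^ (s' * j.length) * |X j t|)) := ((hlim j t ht).abs).const_mul _
    refine le_of_tendsto h1 ?_
    obtain ⟨k₀, hk₀⟩ := exists_nat_ge t
    filter_upwards [eventually_ge_atTop k₀] with k hk
    have h2 : k ≤ φ k := hφ.id_le k
    have h3 : t ≤ (φ k : ℝ) + 1 := by
      have h4 : (k₀ : ℝ) ≤ φ k := by exact_mod_cast hk.trans h2
      linarith
    exact hC' ((φ k : ℝ) + 1) (φ k) x (Y (φ k)) (by positivity) hK
      (fun t ht j => gal_abs hν (hY (φ k)) (fun M => hx2.sum_le_tsum _ fun _ _ => sq_nonneg _) ht j)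
      (hY (φ k)) t ⟨ht, h3⟩ j
  refine ⟨X, hX.sol, fun t ht => ei_all hν hs'0 hs'1 hX.sol hX.en0 hXs ht,
    fun Z hZ hZe j t ht => uniq hD hν hs'0 hs'1 hX.sol hX.en0 hXs hZ hZe j ht, ?_, ?_⟩
  · rintro r ⟨K', hK'⟩
    exact stmD hν hs'1 hX.sol hXs hK'
  · intro τ r hτ
    exact stmS hν hs'1 hX.sol hXs r hτ

/-- **All the Leray-Hopf solutions are smooth.** -/
theorem lh_smooth (hD : 0 < D) (hβ : β < 3) (hν : 0 < ν) (hX : LH β ν x X) {τ : ℝ} (r : ℝ)
    (hτ : 0 < τ) : ∃ K, ∀ (j : Nd D) t, τ ≤ t → (2 : ℝ) ^ (r * j.length) * |X j t| ≤ K := by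
  have hD1 : (1 : ℝ) ≤ D := by exact_mod_cast hD
  have hβ' : ((2 : ℝ) ^ β) ^ 2 ≤ D * 64 := by
    have h1 : (2 : ℝ) ^ β ≤ 8 := by
      have h2 : (8 : ℝ) = 2 ^ (3 : ℝ) := by norm_num
      rw [h2]
      exact Real.rpow_le_rpow_of_exponent_le (by norm_num) hβ.le
    have h3 : (0 : ℝ) < 2 ^ β := Real.rpow_pos_of_pos two_pos _
    nlinarith
  -- a good time
  have h1 := diss_ae hν hX.sol hX.en0 (T := τ / 2) (by positivity)
  have h2 : ∀ᵐ s ∂(volume.restrict (Ioc 0 (τ / 2))), 0 < s → EI ν X s := ae_restrict_of_ae hX.en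
  have h3 : ∀ᵐ s ∂(volume.restrict (Ioc 0 (τ / 2))), s ∈ Ioc 0 (τ / 2) :=
    ae_restrict_mem measurableSet_Ioc
  have hne : (volume.restrict (Ioc (0 : ℝ) (τ / 2))) ≠ 0 := by
    rw [Ne, Measure.restrict_eq_zero, Real.volume_Ioc]
    simp only [sub_zero, ENNReal.ofReal_eq_zero, not_le]
    positivity
  have : (ae (volume.restrict (Ioc (0 : ℝ) (τ / 2)))).NeBot := ae_neBot.2 hne
  obtain ⟨a, ⟨K, hK'⟩, hEI, ha⟩ := ((h1.and (h2.and h3)).exists)
  have hEa := hEI ha.1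
  have hK : ∀ n : Nd D, (4 : ℝ) ^ n.length * X n a ^ 2 ≤ K := fun n =>
    (Finset.single_le_sum (f := fun m : Nd D => (4 : ℝ) ^ m.length * X m a ^ 2)
      (fun m _ => by positivity) (mem_tre.2 le_rfl)).trans (hK' n.length)
  obtain ⟨Y, hY, -, hYu, -, hYs⟩ := real (s := 1) (x := fun n => X n a) (K := √K) hD hβ' hν one_pos
    (by linarith) hEa.1 (fun n => by
      rw [one_mul, Real.rpow_natCast]
      apply Real.le_sqrt_of_sq_le
      rw [mul_pow, sq_abs, ← pow_mul, mul_comm n.length 2, pow_mul]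
      have := hK n
      norm_num
      exact this)
  have h4 := hYu _ (shift0 hX.sol ha.1.le) (ei_shift.2 hEa)
  obtain ⟨K', hK'⟩ := hYs (τ / 2) r (by positivity)
  refine ⟨K', fun n t ht => ?_⟩
  have h5 := h4 n (t - a) (by linarith [ha.2])
  rw [add_sub_cancel] at h5
  rw [h5]
  exact hK' n (t - a) (by linarith [ha.2])

end Pool.Agent.Run7.h32.Tu
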