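import Pool.Agent.Run7.h32.Tu.LH
import Pool.Agent.Run7.h969.Dz.Tail

/-!
The dyadic model on a tree, `β ≤ 3`: the tails which are small in the critical norm.
-/

set_option autoImplicit false

open Set Filter Topology MeasureTheory

namespace Pool.Agent.Run7.h32.Tu

open Run7.h969.Dy (pow_mul_nat barrier)
open Run7.h969.Dz (rate3)
open Pool.Agent.Run7.h32.Tr

variable {D : ℕ} {β ν : ℝ}

/-- The tails stay small. -/
theorem tail_small {T v : ℝ} {N n₀ : ℕ} {x : Nd D → ℝ} {X : Nd D → ℝ → ℝ} (hD : 0 < D)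
    (hβ : β ≤ 3) (hν : 0 < ν) (hv : v = ν / (20 * D))
    (hG : Gal0 β ν T N x X) (hx : ∀ j : Nd D, n₀ ≤ j.length → (2 : ℝ) ^ j.length * |x j| ≤ v)
    (h0 : ∀ t ∈ Icc 0 T, ∀ j : Nd D, j.length = n₀ → (2 : ℝ) ^ j.length * |X j t| ≤ v) :
    ∀ j : Nd D, n₀ ≤ j.length → ∀ t ∈ Icc 0 T, (2 : ℝ) ^ j.length * |X j t| ≤ 2 * v := by
  have hD1 : (1 : ℝ) ≤ D := by exact_mod_cast hD
  have hD0 : (0 : ℝ) < D := by linarith
  obtain ⟨w, hw⟩ : ∃ w : ℝ, w = 2 * v := ⟨_, rfl⟩
  have hv0 : 0 < v := by rw [hv]; positivity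
  have hw0 : 0 < w := by rw [hw]; positivity
  have hν4 : ν = 10 * D * w := by
    rw [hw, hv]
    field_simp
    norm_num
  have hc := hG.cont
  have key := barrier (ι := {j // j ∈ tre D N}) (T := T)
    (fun i t => if n₀ < (i : Nd D).length then (w / 2 ^ (i : Nd D).length) ^ 2 - X i t ^ 2 else 1)
    ?_ ?_ ?_
  · intro j hn t ht
    rw [← hw]
    by_cases hN : j.length ≤ N
    · rcases Nat.lt_or_ge n₀ j.length with hn' | hn'
      · have h1 := key ⟨j, mem_tre.2 hN⟩ t ht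
        rw [if_pos (show n₀ < j.length from hn')] at h1
        have h2 : |X j t| ≤ w / 2 ^ j.length := by
          apply abs_le_of_sq_le_sq _ (by positivity)
          have h3 : 0 < (w / 2 ^ j.length) ^ 2 - X j t ^ 2 := h1
          linarith
        rw [le_div_iff₀ (by positivity), mul_comm] at h2
        exact h2
      · have := h0 t ht j (le_antisymm hn' hn)
        linarith
    · rw [hG.zero j (by omega) t, abs_zero, mul_zero]
      exact hw0.le
  · intro i
    by_cases hi : n₀ < (i : Nd D).length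
    · simp only [hi, ite_true]
      exact continuousOn_const.sub ((hc _).pow 2)
    · simp only [hi, ite_false]
      exact continuousOn_const
  · intro i
    by_cases hi : n₀ < (i : Nd D).length
    · simp only [hi, ite_true]
      rw [hG.init i (mem_tre.1 i.2)]
      have h1 := hx i hi.le
      have h2 : |x i| < w / 2 ^ (i : Nd D).length := by
        rw [lt_div_iff₀ (by positivity), mul_comm]
        linarith
      have h3 : x i ^ 2 < (w / 2 ^ (i : Nd D).length) ^ 2 := by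
        rw [← sq_abs (x i)]
        exact pow_lt_pow_left₀ h2 (abs_nonneg _) two_ne_zero
      linarith
    · simp only [hi, ite_false]
      exact one_pos
  · intro i t ht hall hi0
    by_cases hi : n₀ < (i : Nd D).length
    · simp only [hi, ite_true] at hi0 ⊢
      obtain ⟨j, hj⟩ := i
      simp only at hi hi0 ⊢
      have hjN := mem_tre.1 hj
      cases j with
      | nil =>
        rw [List.length_nil] at hi
        omega
      | cons i₀ p =>
      obtain ⟨m, hm'⟩ : ∃ m, m = p.length := ⟨_, rfl⟩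
      have hlen : (i₀ :: p).length = m + 1 := by rw [List.length_cons, hm']
      rw [hlen] at hi hi0 hjN
      have htI : t ∈ Icc 0 T := ⟨ht.1.le, ht.2⟩
      have hd := ((hG.ode (i₀ :: p) (by rw [hlen]; exact hjN) t htI).pow 2).const_sub
        ((w / 2 ^ (i₀ :: p).length) ^ 2)
      refine ⟨_, ?_, hd⟩
      have h1 : X (i₀ :: p) t ^ 2 = (w / 2 ^ (m + 1)) ^ 2 := by linarith
      have h1' : |X (i₀ :: p) t| = w / 2 ^ (m + 1) := by
        rw [← sq_abs (X (i₀ :: p) t)] at h1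
        exact (pow_left_inj₀ (abs_nonneg _) (by positivity) two_ne_zero).1 h1
      have h2 : ∀ i : Fin D, |X (i :: i₀ :: p) t| ≤ w / 2 ^ (m + 2) := by
        intro i
        have hl2 : (i :: i₀ :: p).length = m + 2 := by rw [List.length_cons, hlen]
        by_cases hN : m + 2 ≤ N
        · have h3 := hall ⟨i :: i₀ :: p, mem_tre.2 (by rw [hl2]; exact hN)⟩
          rw [if_pos (by rw [hl2]; omega)] at h3
          apply abs_le_of_sq_le_sq _ (by positivity)
          have h3' : 0 ≤ (w / 2 ^ (i :: i₀ :: p).length) ^ 2 - X (i :: i₀ :: p) t ^ 2 := h3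
          rw [hl2] at h3'
          linarith
        · rw [hG.zero (i :: i₀ :: p) (by rw [hl2]; omega) t, abs_zero]
          positivity
      have h2' : |ch (fun k => X k t) (i₀ :: p)| ≤ D * (w / 2 ^ (m + 2)) := by
        refine (Finset.abs_sum_le_sum_abs _ _).trans ?_
        have h3 : ∑ i : Fin D, |X (i :: i₀ :: p) t| ≤ ∑ _i : Fin D, w / 2 ^ (m + 2) :=
          Finset.sum_le_sum fun i _ => h2 i
        rwa [Finset.sum_const, Finset.card_univ, Fintype.card_fin, nsmul_eq_mul] at h3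
      have h3 : |X p t| ≤ w / 2 ^ m := by
        rcases Nat.lt_or_ge n₀ m with hm | hm
        · have h3 := hall ⟨p, mem_tre.2 (by omega)⟩
          rw [if_pos (show n₀ < p.length by omega)] at h3
          apply abs_le_of_sq_le_sq _ (by positivity)
          have h3' : 0 ≤ (w / 2 ^ p.length) ^ 2 - X p t ^ 2 := h3
          rw [← hm'] at h3'
          linarith
        · have h4 := h0 t htI p (by omega)
          rw [← hm'] at h4
          rw [le_div_iff₀ (by positivity), mul_comm]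
          linarith
      have hr1 := rate3 hβ m
      have hr2 := rate3 hβ (m + 1)
      have hp1 : (0 : ℝ) < 2 ^ (β * m) := Real.rpow_pos_of_pos two_pos _
      have hp2 : (0 : ℝ) < 2 ^ (β * (m + 1 : ℕ)) := Real.rpow_pos_of_pos two_pos _
      have e1 : (2 : ℝ) ^ (β * m) * X p t ^ 2 * |X (i₀ :: p) t| ≤ w ^ 3 / 2 := by
        calc (2 : ℝ) ^ (β * m) * X p t ^ 2 * |X (i₀ :: p) t|
            ≤ (2 ^ m * 4 ^ m) * (w / 2 ^ m) ^ 2 * (w / 2 ^ (m + 1)) := by
              rw [h1']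
              have h4 : X p t ^ 2 ≤ (w / 2 ^ m) ^ 2 := by
                rw [← sq_abs]
                exact pow_le_pow_left₀ (abs_nonneg _) h3 2
              apply mul_le_mul_of_nonneg_right _ (by positivity)
              exact mul_le_mul hr1 h4 (sq_nonneg _) (by positivity)
          _ = w ^ 3 / 2 := by
              rw [show (4 : ℝ) ^ m = 2 ^ m * 2 ^ m by rw [← mul_pow]; norm_num, pow_succ (2 : ℝ) m]
              field_simp
      have e2 : (2 : ℝ) ^ (β * (m + 1 : ℕ)) * X (i₀ :: p) t ^ 2 * |ch (fun k => X k t) (i₀ :: p)|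
          ≤ D * w ^ 3 / 2 := by
        calc (2 : ℝ) ^ (β * (m + 1 : ℕ)) * X (i₀ :: p) t ^ 2 * |ch (fun k => X k t) (i₀ :: p)|
            ≤ (2 ^ (m + 1) * 4 ^ (m + 1)) * (w / 2 ^ (m + 1)) ^ 2 * (D * (w / 2 ^ (m + 2))) := by
              rw [h1]
              exact mul_le_mul (mul_le_mul_of_nonneg_right hr2 (by positivity)) h2' (abs_nonneg _)
                (by positivity)
          _ = D * w ^ 3 / 2 := by
              rw [show (4 : ℝ) ^ (m + 1) = 2 ^ (m + 1) * 2 ^ (m + 1) by rw [← mul_pow]; norm_num,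
                show (2 : ℝ) ^ (m + 2) = 2 ^ (m + 1) * 2 by ring]
              field_simp
      have e3 : (4 : ℝ) ^ (m + 1) * X (i₀ :: p) t ^ 2 = w ^ 2 := by
        rw [h1, show (4 : ℝ) ^ (m + 1) = 2 ^ (m + 1) * 2 ^ (m + 1) by rw [← mul_pow]; norm_num]
        field_simp
      have f1 : (2 : ℝ) ^ (β * m) * X p t ^ 2 * X (i₀ :: p) t ≤ w ^ 3 / 2 :=
        le_trans (mul_le_mul_of_nonneg_left (le_abs_self _)
          (mul_nonneg hp1.le (sq_nonneg _))) e1
      have f2 : -(D * w ^ 3 / 2)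
          ≤ (2 : ℝ) ^ (β * (m + 1 : ℕ)) * X (i₀ :: p) t ^ 2 * ch (fun k => X k t) (i₀ :: p) := by
        have : (2 : ℝ) ^ (β * (m + 1 : ℕ)) * X (i₀ :: p) t ^ 2 * -ch (fun k => X k t) (i₀ :: p)
            ≤ (2 : ℝ) ^ (β * (m + 1 : ℕ)) * X (i₀ :: p) t ^ 2
              * |ch (fun k => X k t) (i₀ :: p)| :=
          mul_le_mul_of_nonneg_left (neg_le_abs _) (mul_nonneg hp2.le (sq_nonneg _))
        linarith
      have e4 : -(((2 : ℕ) : ℝ) * X (i₀ :: p) t ^ (2 - 1)
          * (trhs β ν (fun k => X k t) (i₀ :: p) + 0))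
          = 2 * ((2 : ℝ) ^ (β * (m + 1 : ℕ)) * X (i₀ :: p) t ^ 2 * ch (fun k => X k t) (i₀ :: p))
            - 2 * ((2 : ℝ) ^ (β * m) * X p t ^ 2 * X (i₀ :: p) t)
            + 2 * ν * ((4 : ℝ) ^ (m + 1) * X (i₀ :: p) t ^ 2) := by
        simp only [trhs, inp]
        rw [hlen, ← hm']
        norm_num
        ring
      rw [e4, e3, hν4]
      have h9 : 0 < w ^ 3 := by positivity
      have h10 : w ^ 3 * 1 ≤ w ^ 3 * D := mul_le_mul_of_nonneg_left hD1 h9.le
      have h11 : 2 * (10 * D * w) * w ^ 2 = 20 * (w ^ 3 * D) := by ring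
      rw [h11]
      linarith
    · simp only [hi, ite_false] at hi0
      exact absurd hi0 one_ne_zero

/-- The supersolution. -/
theorem tail_super {T v : ℝ} {N n₀ : ℕ} {x : Nd D → ℝ} {X : Nd D → ℝ → ℝ} (hD : 0 < D)
    (hβ : β ≤ 3) (hν : 0 < ν) (hv : v = ν / (20 * D))
    (hG : Gal0 β ν T N x X) (hx : ∀ j : Nd D, n₀ ≤ j.length → (2 : ℝ) ^ j.length * |x j| ≤ v)
    (h0 : ∀ t ∈ Icc 0 T, ∀ j : Nd D, j.length = n₀ → (2 : ℝ) ^ j.length * |X j t| ≤ v) :
    ∀ (m : ℕ) (j : Nd D), j.length = n₀ + m → ∀ t ∈ Icc 0 T, (2 : ℝ) ^ j.length * |X j t|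
      ≤ v * ((1 / 2) ^ m + Real.exp (-(ν * 2 ^ m) * t)) := by
  have hD1 : (1 : ℝ) ≤ D := by exact_mod_cast hD
  have hD0 : (0 : ℝ) < D := by linarith
  have hv0 : 0 < v := by rw [hv]; positivity
  have hDv : D * v = ν / 20 := by
    rw [hv]
    field_simp
  have hv20 : v ≤ ν / 20 := by
    have : 1 * v ≤ D * v := mul_le_mul_of_nonneg_right hD1 hv0.le
    linarith
  have hsm := tail_small hD hβ hν hv hG hx h0
  have hc := hG.cont
  intro m
  induction m with
  | zero =>
    intro j hj t ht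
    have h1 := h0 t ht j hj
    have h2 : 0 ≤ v * Real.exp (-(ν * 2 ^ 0) * t) := by positivity
    rw [pow_zero (1 / 2 : ℝ), mul_add, mul_one]
    linarith
  | succ m ih =>
    intro j hj t ht
    cases j with
    | nil =>
      rw [List.length_nil] at hj
      omega
    | cons i₀ k =>
    obtain ⟨n, hn⟩ : ∃ n, n = k.length := ⟨_, rfl⟩
    have hlen : (i₀ :: k).length = n + 1 := by rw [List.length_cons, hn]
    have hnm : n = n₀ + m := by omega
    have ih' := ih k (by omega)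
    rw [← hn] at ih'
    rw [hlen]
    by_cases hN : n + 1 ≤ N
    swap
    · rw [hG.zero (i₀ :: k) (by omega) t, abs_zero, mul_zero]
      positivity
    obtain ⟨φ, hφ⟩ : ∃ φ : ℝ → ℝ, φ = fun r =>
      v * ((1 / 2) ^ (m + 1) + Real.exp (-(ν * 2 ^ (m + 1)) * r)) := ⟨_, rfl⟩
    obtain ⟨a, ha⟩ : ∃ a : ℝ → ℝ, a = fun r =>
      (2 : ℝ) ^ (β * (n + 1 : ℕ)) * ch (fun i => X i r) (i₀ :: k) + ν * 4 ^ (n + 1) := ⟨_, rfl⟩
    have hac : ContinuousOn a (Icc 0 T) := by
      rw [ha]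
      exact (continuousOn_const.mul (ch_cont hc _)).add continuousOn_const
    have hφd : ∀ r : ℝ, HasDerivAt φ (v * (Real.exp (-(ν * 2 ^ (m + 1)) * r)
        * (-(ν * 2 ^ (m + 1)) * 1))) r := fun r => by
      rw [hφ]
      exact ((((hasDerivAt_id r).const_mul _).exp).const_add _).const_mul v
    -- the damping
    have hal : ∀ r ∈ Icc 0 T, 7 / 8 * ν * 4 ^ (n + 1) ≤ a r := by
      intro r hr
      have h2 := rate3 hβ (n + 1)
      have h5 : |ch (fun i => X i r) (i₀ :: k)| ≤ D * (2 * v / 2 ^ (n + 2)) := by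
        refine (Finset.abs_sum_le_sum_abs _ _).trans ?_
        have h3 : ∑ i : Fin D, |X (i :: i₀ :: k) r| ≤ ∑ _i : Fin D, 2 * v / 2 ^ (n + 2) :=
          Finset.sum_le_sum fun i _ => by
            have hl2 : (i :: i₀ :: k).length = n + 2 := by rw [List.length_cons, hlen]
            have h6 := hsm (i :: i₀ :: k) (by omega) r hr
            rw [hl2] at h6
            rw [le_div_iff₀ (by positivity), mul_comm]
            exact h6
        rwa [Finset.sum_const, Finset.card_univ, Fintype.card_fin, nsmul_eq_mul] at h3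
      have h3 : (2 : ℝ) ^ (β * (n + 1 : ℕ)) * |ch (fun i => X i r) (i₀ :: k)|
          ≤ ν / 20 * 4 ^ (n + 1) := by
        calc (2 : ℝ) ^ (β * (n + 1 : ℕ)) * |ch (fun i => X i r) (i₀ :: k)|
            ≤ (2 ^ (n + 1) * 4 ^ (n + 1)) * (D * (2 * v / 2 ^ (n + 2))) :=
              mul_le_mul h2 h5 (abs_nonneg _) (by positivity)
          _ = D * v * 4 ^ (n + 1) := by
              rw [show (2 : ℝ) ^ (n + 2) = 2 ^ (n + 1) * 2 by ring]
              field_simp
          _ = _ := by rw [hDv]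
      have h4 : -((2 : ℝ) ^ (β * (n + 1 : ℕ)) * |ch (fun i => X i r) (i₀ :: k)|)
          ≤ (2 : ℝ) ^ (β * (n + 1 : ℕ)) * ch (fun i => X i r) (i₀ :: k) := by
        rw [← mul_neg]
        exact mul_le_mul_of_nonneg_left (neg_abs_le _) (Real.rpow_nonneg two_pos.le _)
      have h6 : 0 ≤ ν * 4 ^ (n + 1) := by positivity
      rw [ha]
      simp only
      linarith
    -- the main inequality
    have hmain : ∀ r ∈ Icc 0 T, 2 ^ (n + 1) * ((2 : ℝ) ^ (β * n) * X k r ^ 2)
        ≤ v * (Real.exp (-(ν * 2 ^ (m + 1)) * r) * (-(ν * 2 ^ (m + 1)) * 1)) + a r * φ r := by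
      intro r hr
      have i1 := ih' r hr
      obtain ⟨e, he⟩ : ∃ e, e = Real.exp (-(ν * 2 ^ m) * r) := ⟨_, rfl⟩
      have he0 : 0 < e := he ▸ Real.exp_pos _
      have he2 : Real.exp (-(ν * 2 ^ (m + 1)) * r) = e ^ 2 := by
        rw [he, ← Real.exp_nat_mul]
        congr 1
        push_cast
        ring
      have j1 : (2 : ℝ) ^ (n + 1) * ((2 : ℝ) ^ (β * n) * X k r ^ 2)
          ≤ 2 * 4 ^ n * (2 ^ n * |X k r|) ^ 2 := by
        have g1 := rate3 hβ n
        calc (2 : ℝ) ^ (n + 1) * ((2 : ℝ) ^ (β * n) * X k r ^ 2)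
            ≤ (2 : ℝ) ^ (n + 1) * ((2 ^ n * 4 ^ n) * X k r ^ 2) := by gcongr
          _ = (2 : ℝ) ^ (n + 1) * ((2 ^ n * 4 ^ n) * |X k r| ^ 2) := by rw [sq_abs]
          _ = _ := by ring
      have j2 : ((2 : ℝ) ^ n * |X k r|) ^ 2 ≤ (v * ((1 / 2) ^ m + e)) ^ 2 := by
        rw [← he] at i1
        gcongr
      obtain ⟨p, hp⟩ : ∃ p : ℝ, p = (1 / 2) ^ m := ⟨_, rfl⟩
      have hp0 : 0 < p := by rw [hp]; positivity
      have hp1 : p ≤ 1 := by
        rw [hp]
        exact pow_le_one₀ (by norm_num) (by norm_num)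
      have hpe : (1 / 2 : ℝ) ^ (m + 1) = p / 2 := by
        rw [hp, pow_succ]
        ring
      have j3 : (v * (p + e)) ^ 2 ≤ ν * v / 10 * (p + e ^ 2) := by
        have k1 : (p + e) ^ 2 ≤ 2 * (p + e ^ 2) := by nlinarith [sq_nonneg (p - e)]
        have k2 : v * v ≤ v * (ν / 20) := mul_le_mul_of_nonneg_left hv20 hv0.le
        calc (v * (p + e)) ^ 2 = v * v * (p + e) ^ 2 := by ring
          _ ≤ v * (ν / 20) * (2 * (p + e ^ 2)) := mul_le_mul k2 k1 (sq_nonneg _) (by positivity)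
          _ = _ := by ring
      have j4 : (2 : ℝ) ^ m ≤ 4 ^ n := by
        calc (2 : ℝ) ^ m ≤ 4 ^ m := by gcongr; norm_num
          _ ≤ 4 ^ n := pow_le_pow_right₀ (by norm_num) (by omega)
      rw [← hp] at j2
      rw [he2]
      have hφr : φ r = v * (p / 2 + e ^ 2) := by rw [hφ]; simp only; rw [he2, hpe]
      rw [hφr]
      have j5 : 2 * 4 ^ n * (2 ^ n * |X k r|) ^ 2 ≤ 2 * 4 ^ n * (ν * v / 10 * (p + e ^ 2)) := by
        have := j2.trans j3
        gcongr
      have j6 := mul_le_mul_of_nonneg_right (hal r hr)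
        (by positivity : 0 ≤ v * (p / 2 + e ^ 2))
      have j7 : 2 * 4 ^ n * (ν * v / 10 * (p + e ^ 2))
          ≤ v * (e ^ 2 * (-(ν * 2 ^ (m + 1)) * 1))
            + 7 / 8 * ν * 4 ^ (n + 1) * (v * (p / 2 + e ^ 2)) := by
        have k2 : ν * v * e ^ 2 * 2 ^ m ≤ ν * v * e ^ 2 * 4 ^ n := by gcongr
        have k3 : 0 ≤ ν * v * 4 ^ n * p := by positivity
        have k4 : 0 ≤ ν * v * e ^ 2 * 4 ^ n := by positivity
        have e1 : v * (e ^ 2 * (-(ν * 2 ^ (m + 1)) * 1))
            + 7 / 8 * ν * 4 ^ (n + 1) * (v * (p / 2 + e ^ 2))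
            = 7 / 4 * (ν * v * 4 ^ n * p) + 7 / 2 * (ν * v * e ^ 2 * 4 ^ n)
              - 2 * (ν * v * e ^ 2 * 2 ^ m) := by ring
        have e2 : 2 * 4 ^ n * (ν * v / 10 * (p + e ^ 2))
            = 1 / 5 * (ν * v * 4 ^ n * p) + 1 / 5 * (ν * v * e ^ 2 * 4 ^ n) := by ring
        rw [e1, e2]
        linarith
      linarith
    have hode : ∀ r ∈ Icc 0 T, HasDerivWithinAt (fun r => (2 : ℝ) ^ (n + 1) * X (i₀ :: k) r)
        (2 ^ (n + 1) * ((2 : ℝ) ^ (β * n) * X k r ^ 2) - a r * (2 ^ (n + 1) * X (i₀ :: k) r))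
        (Icc 0 T) r := by
      intro r hr
      refine ((hG.ode (i₀ :: k) (by rw [hlen]; exact hN) r hr).const_mul
        ((2 : ℝ) ^ (n + 1))).congr_deriv ?_
      rw [ha]
      simp only [trhs, inp]
      rw [hlen, ← hn]
      ring
    have hgn : ∀ r, 0 ≤ 2 ^ (n + 1) * ((2 : ℝ) ^ (β * n) * X k r ^ 2) := fun r =>
      mul_nonneg (by positivity) (mul_nonneg (Real.rpow_nonneg two_pos.le _) (sq_nonneg _))
    have hinit : |(2 : ℝ) ^ (n + 1) * X (i₀ :: k) 0| ≤ φ 0 := by
      rw [abs_mul, abs_of_pos (by positivity : (0 : ℝ) < 2 ^ (n + 1)),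
        hG.init (i₀ :: k) (by rw [hlen]; exact hN), hφ]
      simp only [mul_zero, Real.exp_zero]
      have h1 := hx (i₀ :: k) (by omega)
      rw [hlen] at h1
      have h2 : 0 ≤ v * (1 / 2) ^ (m + 1) := by positivity
      linarith
    have h1 := Pool.Agent.Run7.h32.Dy.nn_of_lin (T := T)
      (f := fun r => φ r - (2 : ℝ) ^ (n + 1) * X (i₀ :: k) r)
      (g := fun r => v * (Real.exp (-(ν * 2 ^ (m + 1)) * r) * (-(ν * 2 ^ (m + 1)) * 1))
        + a r * φ r - 2 ^ (n + 1) * ((2 : ℝ) ^ (β * n) * X k r ^ 2)) (a := a)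
      (fun r hr => (((hφd r).hasDerivWithinAt).sub (hode r hr)).congr_deriv (by ring)) hac
      (fun r hr => by
        have := hmain r hr
        linarith)
      (by
        have := (le_abs_self _).trans hinit
        linarith)
    have h2 := Pool.Agent.Run7.h32.Dy.nn_of_lin (T := T)
      (f := fun r => φ r + (2 : ℝ) ^ (n + 1) * X (i₀ :: k) r)
      (g := fun r => v * (Real.exp (-(ν * 2 ^ (m + 1)) * r) * (-(ν * 2 ^ (m + 1)) * 1))
        + a r * φ r + 2 ^ (n + 1) * ((2 : ℝ) ^ (β * n) * X k r ^ 2)) (a := a)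
      (fun r hr => (((hφd r).hasDerivWithinAt).add (hode r hr)).congr_deriv (by ring)) hac
      (fun r hr => by
        have := hmain r hr
        have := hgn r
        linarith)
      (by
        have := (neg_abs_le _).trans' (neg_le_neg hinit)
        linarith)
    have h3 := h1 t ht
    have h4 := h2 t ht
    have h5 : (2 : ℝ) ^ (n + 1) * |X (i₀ :: k) t| = |(2 : ℝ) ^ (n + 1) * X (i₀ :: k) t| := by
      rw [abs_mul, abs_of_pos (by positivity : (0 : ℝ) < 2 ^ (n + 1))]
    have h6 : φ t = v * ((1 / 2) ^ (m + 1) + Real.exp (-(ν * 2 ^ (m + 1)) * t)) := by rw [hφ]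
    rw [h5, ← h6, abs_le]
    constructor <;> linarith

end Pool.Agent.Run7.h32.Tu
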