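import Pool.Agent.Run7.h32.Tu.Tail
import Pool.Agent.Run7.h32.Tu.Str

/-!
The dyadic model on a tree, `β ≤ 3`: weak-strong uniqueness with tails which are small in the
critical norm.
-/

set_option autoImplicit false

open Set Filter Topology MeasureTheory

namespace Pool.Agent.Run7.h32.Tu

open Run7.h969.Dy (pow_mul_nat)
open Run7.h969.Dz (rate3 gron)
open Pool.Agent.Run7.h32.Fo (ii_of)
open Pool.Agent.Run7.h32.Tr

variable {D : ℕ} {β ν : ℝ}

/-- The pointwise bound of the product of two solutions, with small tails. -/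
lemma cross_crit {K w B : ℝ} {N : ℕ} (hD : 0 < D) (hν : 0 < ν) (hK0 : 0 ≤ K)
    (hB : B = 2 ^ β) (hB3 : B ^ N ≤ 2 ^ N * 4 ^ N) (hw : 0 ≤ w) {y z : Nd D → ℝ}
    (hy : ∀ j : Nd D, (2 : ℝ) ^ (β * j.length) * |y j| ≤ ν / (10 * D) * 4 ^ j.length + K)
    (hy' : ∀ (j : Nd D) (i : Fin D),
      (2 : ℝ) ^ (β * j.length) * |y (i :: j)| ≤ ν / (10 * D) * 4 ^ j.length + K)
    (hyN : ∀ j : Nd D, j.length = N → |y j| ≤ w / 2 ^ N)
    (hyN' : ∀ j : Nd D, j.length = N → ∀ i : Fin D, |y (i :: j)| ≤ w / 2 ^ N) :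
    -2 * ∑ j ∈ tre D N, (y j * trhs β ν z j + z j * trhs β ν y j)
      ≤ 2 * ν * ∑ j ∈ tre D N, 4 ^ j.length * y j ^ 2
        + 2 * ν * ∑ j ∈ tre D N, 4 ^ j.length * z j ^ 2
        + 5 * D * K * ∑ j ∈ tre D N, (y j - z j) ^ 2
        + 16 * w * D * ((∑ j ∈ lev D N, 4 ^ j.length * y j ^ 2
            + ∑ j ∈ lev D (N + 1), 4 ^ j.length * y j ^ 2)
          + (∑ j ∈ lev D N, 4 ^ j.length * z j ^ 2
            + ∑ j ∈ lev D (N + 1), 4 ^ j.length * z j ^ 2)) := by
  have hD1 : (1 : ℝ) ≤ D := by exact_mod_cast hD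
  have hD0 : (0 : ℝ) < D := by linarith
  have hB0 : 0 < B := by rw [hB]; exact Real.rpow_pos_of_pos two_pos _
  obtain ⟨d, hd⟩ : ∃ d : Nd D → ℝ, d = fun j => y j - z j := ⟨_, rfl⟩
  -- the identity
  have hchd : ∀ j, ch d j = ch y j - ch z j := by
    intro j
    rw [hd]
    simp only [ch, Finset.sum_sub_distrib]
  have hlin : ∀ j, trhs β ν y j - trhs β ν z j
      = dtrhs β ν y d j - trhs β ν d j - ν * 4 ^ j.length * d j := by
    intro j
    have h1 : inp β y j - inp β z j = dinp β y d j - inp β d j := by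
      cases j with
      | nil => simp only [inp, dinp]
      | cons i j =>
        simp only [inp, dinp, hd]
        ring
    simp only [trhs, dtrhs]
    rw [hchd]
    have h2 : d j = y j - z j := by rw [hd]
    rw [h2]
    linear_combination h1
  have hE1 := energy_sumT β ν y N
  have hE2 := energy_sumT β ν z N
  have hE3 := energy_sumT β ν d N
  have hbulk := dtrhs_bulk (β := β) (ν := ν) (x := y) (v := d)
    (b := fun n => ν / (10 * D) * 4 ^ n + K) hD (fun n => by positivity)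
    (fun n => by
      have h2 : (4 : ℝ) ^ n ≤ 4 ^ (n + 1) := pow_le_pow_right₀ (by norm_num) (Nat.le_succ n)
      have h3 := mul_le_mul_of_nonneg_left h2 (by positivity : 0 ≤ ν / (10 * D))
      linarith)
    hy hy'
    N
  have h3 : 5 / 2 * D * ∑ j ∈ tre D N, (ν / (10 * D) * 4 ^ j.length + K) * d j ^ 2
      = ν / 4 * ∑ j ∈ tre D N, 4 ^ j.length * d j ^ 2
        + 5 / 2 * D * K * ∑ j ∈ tre D N, d j ^ 2 := by
    rw [Finset.mul_sum, Finset.mul_sum, Finset.mul_sum, ← Finset.sum_add_distrib]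
    refine Finset.sum_congr rfl fun j _ => ?_
    field_simp
    ring
  have h4 : 0 ≤ D * sqr (fun n => ν / (10 * D) * 4 ^ n + K) d N :=
    mul_nonneg hD0.le (sqr_nn (by positivity))
  have h5 : 0 ≤ ν * ∑ j ∈ tre D N, (4 : ℝ) ^ j.length * d j ^ 2 :=
    mul_nonneg hν.le (Finset.sum_nonneg fun j _ => by positivity)
  have hid : ∑ j ∈ tre D N, (y j * trhs β ν z j + z j * trhs β ν y j)
      = ∑ j ∈ tre D N, y j * trhs β ν y j + ∑ j ∈ tre D N, z j * trhs β ν z j
        - ∑ j ∈ tre D N, d j * dtrhs β ν y d j + ∑ j ∈ tre D N, d j * trhs β ν d j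
        + ν * ∑ j ∈ tre D N, 4 ^ j.length * d j ^ 2 := by
    rw [Finset.mul_sum, ← Finset.sum_add_distrib, ← Finset.sum_sub_distrib,
      ← Finset.sum_add_distrib, ← Finset.sum_add_distrib]
    refine Finset.sum_congr rfl fun j _ => ?_
    have h1 := hlin j
    have h2 : d j = y j - z j := by rw [hd]
    have h3 : d j * (trhs β ν y j - trhs β ν z j)
        = d j * (dtrhs β ν y d j - trhs β ν d j - ν * 4 ^ j.length * d j) := by rw [h1]
    have h4 : d j * (trhs β ν y j - trhs β ν z j)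
        = y j * trhs β ν y j + z j * trhs β ν z j - (y j * trhs β ν z j + z j * trhs β ν y j) := by
      rw [h2]
      ring
    rw [h3] at h4
    linear_combination h4
  -- the boundary terms
  have hbd : ∑ j ∈ lev D N, (2 : ℝ) ^ (β * N) * (y j ^ 2 * ch y j)
      + ∑ j ∈ lev D N, (2 : ℝ) ^ (β * N) * (z j ^ 2 * ch z j)
      + ∑ j ∈ lev D N, (2 : ℝ) ^ (β * N) * (d j ^ 2 * ch d j)
      - ∑ j ∈ lev D N, (2 : ℝ) ^ (β * j.length) * y j * (d j * ch d j)
      ≤ 8 * w * D * ((∑ j ∈ lev D N, 4 ^ j.length * y j ^ 2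
            + ∑ j ∈ lev D (N + 1), 4 ^ j.length * y j ^ 2)
          + (∑ j ∈ lev D N, 4 ^ j.length * z j ^ 2
            + ∑ j ∈ lev D (N + 1), 4 ^ j.length * z j ^ 2)) := by
    have h6 : (2 : ℝ) ^ (β * N) = B ^ N := by rw [pow_mul_nat, hB]
    have hpt : ∀ j ∈ lev D N, (2 : ℝ) ^ (β * N) * (y j ^ 2 * ch y j)
        + (2 : ℝ) ^ (β * N) * (z j ^ 2 * ch z j) + (2 : ℝ) ^ (β * N) * (d j ^ 2 * ch d j)
        - (2 : ℝ) ^ (β * j.length) * y j * (d j * ch d j)
        ≤ B ^ N * (8 * (w / 2 ^ N)) * (D * (y j ^ 2 + z j ^ 2)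
          + ∑ i : Fin D, (y (i :: j) ^ 2 + z (i :: j) ^ 2)) := by
      intro j hj
      have hl := mem_lev.1 hj
      have hyj := hyN j hl
      rw [hl, h6]
      have e1 : B ^ N * (y j ^ 2 * ch y j) + B ^ N * (z j ^ 2 * ch z j)
          + B ^ N * (d j ^ 2 * ch d j) - B ^ N * y j * (d j * ch d j)
          = B ^ N * ∑ i : Fin D, (y j ^ 2 * y (i :: j) + z j ^ 2 * z (i :: j)
            + (y j - z j) ^ 2 * (y (i :: j) - z (i :: j))
            - y j * ((y j - z j) * (y (i :: j) - z (i :: j)))) := by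
        rw [Finset.sum_sub_distrib, Finset.sum_add_distrib, Finset.sum_add_distrib,
          ← Finset.mul_sum, ← Finset.mul_sum, ← Finset.mul_sum]
        have e2 : ∑ i : Fin D, y j * ((y j - z j) * (y (i :: j) - z (i :: j)))
            = y j * (d j * ch d j) := by
          rw [hd]
          simp only [ch]
          rw [Finset.mul_sum, Finset.mul_sum]
        have e3 : ∑ i : Fin D, (y (i :: j) - z (i :: j)) = ch d j := by
          rw [hd]
          rfl
        have e4 : y j - z j = d j := by rw [hd]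
        rw [e2, e3, e4]
        simp only [ch]
        ring
      rw [e1]
      have e5 : B ^ N * (8 * (w / 2 ^ N)) * (D * (y j ^ 2 + z j ^ 2)
          + ∑ i : Fin D, (y (i :: j) ^ 2 + z (i :: j) ^ 2))
          = B ^ N * ∑ i : Fin D, 8 * (w / 2 ^ N)
            * (y j ^ 2 + y (i :: j) ^ 2 + z j ^ 2 + z (i :: j) ^ 2) := by
        have e6 : ∀ i : Fin D, 8 * (w / 2 ^ N)
            * (y j ^ 2 + y (i :: j) ^ 2 + z j ^ 2 + z (i :: j) ^ 2)
            = 8 * (w / 2 ^ N) * (y j ^ 2 + z j ^ 2)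
              + 8 * (w / 2 ^ N) * (y (i :: j) ^ 2 + z (i :: j) ^ 2) := fun i => by ring
        have e7 : ∑ i : Fin D, 8 * (w / 2 ^ N)
            * (y j ^ 2 + y (i :: j) ^ 2 + z j ^ 2 + z (i :: j) ^ 2)
            = D * (8 * (w / 2 ^ N) * (y j ^ 2 + z j ^ 2))
              + 8 * (w / 2 ^ N) * ∑ i : Fin D, (y (i :: j) ^ 2 + z (i :: j) ^ 2) := by
          rw [Finset.sum_congr rfl fun i _ => e6 i, Finset.sum_add_distrib, Finset.sum_const,
            Finset.card_univ, Fintype.card_fin, nsmul_eq_mul, Finset.mul_sum]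
        rw [e7]
        ring
      rw [e5]
      apply mul_le_mul_of_nonneg_left _ (by positivity)
      exact Finset.sum_le_sum fun i _ => Run7.h969.Dz.bdry_le hyj (hyN' j hl i)
    rw [← Finset.sum_add_distrib, ← Finset.sum_add_distrib, ← Finset.sum_sub_distrib]
    refine (Finset.sum_le_sum hpt).trans ?_
    rw [← Finset.mul_sum, Finset.sum_add_distrib, ← Finset.mul_sum, ← sum_lev_succ N
      (fun j => y j ^ 2 + z j ^ 2)]
    have e1 : ∀ Y : Nd D → ℝ, (4 : ℝ) ^ N * (D * ∑ j ∈ lev D N, Y j ^ 2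
        + ∑ j ∈ lev D (N + 1), Y j ^ 2) ≤ D * (∑ j ∈ lev D N, (4 : ℝ) ^ j.length * Y j ^ 2
          + ∑ j ∈ lev D (N + 1), (4 : ℝ) ^ j.length * Y j ^ 2) := by
      intro Y
      have b0 : 4 ^ N * ∑ j ∈ lev D N, Y j ^ 2 = ∑ j ∈ lev D N, (4 : ℝ) ^ j.length * Y j ^ 2 := by
        rw [Finset.mul_sum]
        exact lev_congr fun j hj => by rw [hj]
      have b1 : 4 ^ N * ∑ j ∈ lev D (N + 1), Y j ^ 2
          ≤ ∑ j ∈ lev D (N + 1), (4 : ℝ) ^ j.length * Y j ^ 2 := by
        rw [Finset.mul_sum]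
        refine Finset.sum_le_sum fun j hj => ?_
        rw [mem_lev.1 hj]
        exact mul_le_mul_of_nonneg_right (pow_le_pow_right₀ (by norm_num) (Nat.le_succ N))
          (sq_nonneg _)
      have b3 : 0 ≤ ∑ j ∈ lev D (N + 1), (4 : ℝ) ^ j.length * Y j ^ 2 :=
        Finset.sum_nonneg fun j _ => by positivity
      have b4 := mul_le_mul_of_nonneg_right hD1 b3
      rw [← b0]
      linarith
    have e2 : B ^ N * (8 * (w / 2 ^ N)) * (D * ∑ j ∈ lev D N, (y j ^ 2 + z j ^ 2)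
        + ∑ j ∈ lev D (N + 1), (y j ^ 2 + z j ^ 2)) ≤ 8 * w
        * (4 ^ N * (D * ∑ j ∈ lev D N, y j ^ 2 + ∑ j ∈ lev D (N + 1), y j ^ 2)
          + 4 ^ N * (D * ∑ j ∈ lev D N, z j ^ 2 + ∑ j ∈ lev D (N + 1), z j ^ 2)) := by
      have e4 : B ^ N * (8 * (w / 2 ^ N)) ≤ 8 * w * 4 ^ N := by
        calc B ^ N * (8 * (w / 2 ^ N)) ≤ (2 ^ N * 4 ^ N) * (8 * (w / 2 ^ N)) :=
              mul_le_mul_of_nonneg_right hB3 (by positivity)
          _ = 8 * w * 4 ^ N := by field_simp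
      have e5 : 0 ≤ D * ∑ j ∈ lev D N, (y j ^ 2 + z j ^ 2)
          + ∑ j ∈ lev D (N + 1), (y j ^ 2 + z j ^ 2) :=
        add_nonneg (mul_nonneg hD0.le (Finset.sum_nonneg fun j _ => by positivity))
          (Finset.sum_nonneg fun j _ => by positivity)
      refine (mul_le_mul_of_nonneg_right e4 e5).trans (le_of_eq ?_)
      rw [Finset.sum_add_distrib, Finset.sum_add_distrib]
      ring
    have e3 := mul_le_mul_of_nonneg_left (add_le_add (e1 y) (e1 z))
      (by positivity : 0 ≤ 8 * w)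
    linarith
  have hdd : ∑ j ∈ tre D N, (y j - z j) ^ 2 = ∑ j ∈ tre D N, d j ^ 2 := by rw [hd]
  rw [h3] at hbulk
  rw [hdd, hid, hE1, hE2, hE3]
  linarith

lemma lev4_cont {X : Nd D → ℝ → ℝ} {T : ℝ} (hX : ∀ j, ContinuousOn (X j) (Icc 0 T)) (N : ℕ) :
    ContinuousOn (fun s => ∑ j ∈ lev D N, (4 : ℝ) ^ j.length * X j s ^ 2) (Icc 0 T) :=
  continuousOn_finsetSum _ fun j _ => continuousOn_const.mul ((hX j).pow 2)

/-- The dissipation of the generation `N` tends to zero. -/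
lemma diss_tend {x : Nd D → ℝ} {X : Nd D → ℝ → ℝ} (hν : 0 < ν) (hX : Sol0 β ν x X)
    (hen : EI ν X 0) {T : ℝ} (hT : 0 ≤ T) :
    Tendsto (fun N : ℕ => ∫ s in (0 : ℝ)..T, ∑ j ∈ lev D N, 4 ^ j.length * X j s ^ 2) atTop
      (𝓝 0) := by
  have hc : ∀ k, ContinuousOn (X k) (Icc 0 T) := fun k => hX.cont k
  have h0T : (0 : ℝ) ∈ Icc 0 T := ⟨le_rfl, hT⟩
  have hTT : T ∈ Icc 0 T := ⟨hT, le_rfl⟩
  have h0 : ∀ n : ℕ, 0 ≤ ∫ s in (0 : ℝ)..T, ∑ j ∈ lev D n, (4 : ℝ) ^ j.length * X j s ^ 2 :=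
    fun n => intervalIntegral.integral_nonneg hT fun s _ => Finset.sum_nonneg fun _ _ => by
      positivity
  have hsum : ∀ N : ℕ, ∑ n ∈ Finset.range (N + 1), ∫ s in (0 : ℝ)..T, ∑ j ∈ lev D n,
      (4 : ℝ) ^ j.length * X j s ^ 2
      = ∫ s in (0 : ℝ)..T, ∑ j ∈ tre D N, (4 : ℝ) ^ j.length * X j s ^ 2 := by
    intro N
    induction N with
    | zero =>
      simp only [zero_add, Finset.sum_range_one, sum_lev_zero, sum_tre_zero]
    | succ N ih =>
      rw [Finset.sum_range_succ, ih, ← intervalIntegral.integral_add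
        (ii_of (sum4_cont hc N) h0T hTT) (ii_of (lev4_cont hc (N + 1)) h0T hTT)]
      refine intervalIntegral.integral_congr fun s _ => ?_
      rw [sum_tre_succ]
  have hs : Summable fun N : ℕ => ∫ s in (0 : ℝ)..T, ∑ j ∈ lev D N,
      (4 : ℝ) ^ j.length * X j s ^ 2 := by
    refine summable_of_sum_range_le h0 (c := (∑' n, X n 0 ^ 2) / (2 * ν)) fun N => ?_
    cases N with
    | zero =>
      simp only [Finset.range_zero, Finset.sum_empty]
      have : 0 ≤ ∑' n, X n 0 ^ 2 := tsum_nonneg fun _ => sq_nonneg _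
      positivity
    | succ N =>
      rw [hsum]
      exact hen.diss_le hν hT N
  exact hs.tendsto_atTop_zero

set_option maxHeartbeats 1000000 in
/-- Weak-strong uniqueness for solutions with small tails in the critical norm. -/
theorem ws_crit {T₀ v : ℝ} {n₀ : ℕ} {x : Nd D → ℝ} {X Z : Nd D → ℝ → ℝ} (hD : 0 < D) (hβ : β ≤ 3)
    (hν : 0 < ν) (hv : v = ν / (20 * D)) (hX : Sol0 β ν x X) (hXe : EI ν X 0)
    (htail : ∀ j : Nd D, n₀ ≤ j.length → ∀ t ∈ Icc 0 T₀, (2 : ℝ) ^ j.length * |X j t| ≤ 2 * v)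
    (hZ : Sol0 β ν x Z) (hZe : EI ν Z 0) : ∀ j, ∀ t ∈ Icc 0 T₀, Z j t = X j t := by
  have hD1 : (1 : ℝ) ≤ D := by exact_mod_cast hD
  have hD0 : (0 : ℝ) < D := by linarith
  obtain ⟨w, hw⟩ : ∃ w : ℝ, w = 2 * v := ⟨_, rfl⟩
  have hv0 : 0 < v := by rw [hv]; positivity
  have hw0 : 0 < w := by rw [hw]; positivity
  have hw10 : w = ν / (10 * D) := by
    rw [hw, hv]
    field_simp
    norm_num
  rw [← hw] at htail
  obtain ⟨B, hB⟩ : ∃ B : ℝ, B = 2 ^ β := ⟨_, rfl⟩
  have hB0 : 0 < B := by rw [hB]; exact Real.rpow_pos_of_pos two_pos _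
  have hB3 : ∀ n : ℕ, B ^ n ≤ 2 ^ n * 4 ^ n := by
    intro n
    have := rate3 hβ n
    rwa [pow_mul_nat, ← hB] at this
  -- the energy
  obtain ⟨E, hE⟩ : ∃ E, E = ∑' n, x n ^ 2 := ⟨_, rfl⟩
  have hE0 : 0 ≤ E := by rw [hE]; exact tsum_nonneg fun n => sq_nonneg _
  have hsum : Summable fun n => x n ^ 2 := by
    have := hXe.1
    simpa only [hX.init] using this
  have hXen : ∀ t, 0 ≤ t → ∀ N : ℕ, ∑ n ∈ tre D N, X n t ^ 2
      + 2 * ν * ∫ r in (0 : ℝ)..t, ∑ n ∈ tre D N, 4 ^ n.length * X n r ^ 2 ≤ E := by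
    intro t ht N
    have := hXe.2 t ht N
    simpa only [hX.init, ← hE] using this
  have hZen : ∀ t, 0 ≤ t → ∀ N : ℕ, ∑ n ∈ tre D N, Z n t ^ 2
      + 2 * ν * ∫ r in (0 : ℝ)..t, ∑ n ∈ tre D N, 4 ^ n.length * Z n r ^ 2 ≤ E := by
    intro t ht N
    have := hZe.2 t ht N
    simpa only [hZ.init, ← hE] using this
  have hXb : ∀ (n : Nd D) t, 0 ≤ t → |X n t| ≤ √E := by
    intro n t ht
    apply Real.abs_le_sqrt
    have h1 := hXe.sum_le hν ht n.length
    have h2 : X n t ^ 2 ≤ ∑ k ∈ tre D n.length, X k t ^ 2 :=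
      Finset.single_le_sum (f := fun k => X k t ^ 2) (fun k _ => sq_nonneg _) (mem_tre.2 le_rfl)
    have h3 : ∑' j, X j 0 ^ 2 = E := by
      rw [hE]
      exact tsum_congr fun j => by rw [hX.init]
    linarith
  -- the constant of absorption
  obtain ⟨K, hKd⟩ : ∃ K, K = ∑ n ∈ Finset.range n₀, B ^ n * √E := ⟨_, rfl⟩
  have hK0 : 0 ≤ K := by rw [hKd]; exact Finset.sum_nonneg fun n _ => by positivity
  have hlow : ∀ n : ℕ, n < n₀ → B ^ n * √E ≤ K := by
    intro n hn
    rw [hKd]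
    exact Finset.single_le_sum (f := fun n => B ^ n * √E) (fun n _ => by positivity)
      (Finset.mem_range.2 hn)
  have hKn : ∀ n : Nd D, ∀ t ∈ Icc 0 T₀,
      (2 : ℝ) ^ (β * n.length) * |X n t| ≤ ν / (10 * D) * 4 ^ n.length + K := by
    intro n t ht
    rw [pow_mul_nat, ← hB, ← hw10]
    by_cases hn : n₀ ≤ n.length
    · have h1 := htail n hn t ht
      calc B ^ n.length * |X n t| ≤ (2 ^ n.length * 4 ^ n.length) * |X n t| :=
            mul_le_mul_of_nonneg_right (hB3 _) (abs_nonneg _)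
        _ = 4 ^ n.length * (2 ^ n.length * |X n t|) := by ring
        _ ≤ 4 ^ n.length * w := mul_le_mul_of_nonneg_left h1 (by positivity)
        _ ≤ _ := by linarith
    · have h1 := mul_le_mul_of_nonneg_left (hXb n t ht.1) (by positivity : 0 ≤ B ^ n.length)
      have h2 := hlow n.length (by omega)
      have h3 : 0 ≤ w * 4 ^ n.length := by positivity
      linarith
  have hKn1 : ∀ (n : Nd D) (i : Fin D), ∀ t ∈ Icc 0 T₀,
      (2 : ℝ) ^ (β * n.length) * |X (i :: n) t| ≤ ν / (10 * D) * 4 ^ n.length + K := by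
    intro n i t ht
    have hl : (i :: n).length = n.length + 1 := List.length_cons
    rw [pow_mul_nat, ← hB, ← hw10]
    by_cases hn : n₀ ≤ n.length
    · have h1 := htail (i :: n) (by omega) t ht
      rw [hl] at h1
      calc B ^ n.length * |X (i :: n) t| ≤ (2 ^ n.length * 4 ^ n.length) * |X (i :: n) t| :=
            mul_le_mul_of_nonneg_right (hB3 _) (abs_nonneg _)
        _ = 4 ^ n.length / 2 * (2 ^ (n.length + 1) * |X (i :: n) t|) := by ring
        _ ≤ 4 ^ n.length / 2 * w := mul_le_mul_of_nonneg_left h1 (by positivity)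
        _ ≤ w * 4 ^ n.length + K := by
          have : 0 ≤ 4 ^ n.length / 2 * w := by positivity
          linarith
    · have h1 := mul_le_mul_of_nonneg_left (hXb (i :: n) t ht.1)
        (by positivity : 0 ≤ B ^ n.length)
      have h2 := hlow n.length (by omega)
      have h3 : 0 ≤ w * 4 ^ n.length := by positivity
      linarith
  intro n T hTT
  have hT := hTT.1
  have h0T : (0 : ℝ) ∈ Icc 0 T := ⟨le_rfl, hT⟩
  have hTT' : T ∈ Icc 0 T := ⟨hT, le_rfl⟩
  have hcX : ∀ k, ContinuousOn (X k) (Icc 0 T) := fun k => hX.cont k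
  have hcZ : ∀ k, ContinuousOn (Z k) (Icc 0 T) := fun k => hZ.cont k
  obtain ⟨G, hG⟩ : ∃ G : (Nd D → ℝ → ℝ) → ℕ → ℝ, G = fun Y N =>
    ∫ s in (0 : ℝ)..T, ∑ j ∈ lev D N, (4 : ℝ) ^ j.length * Y j s ^ 2 := ⟨_, rfl⟩
  -- the bound for every `N`
  obtain ⟨ε, hε⟩ : ∃ ε : ℕ → ℝ, ε = fun N => 2 * (E - ∑ n ∈ tre D N, x n ^ 2)
    + 16 * w * D * (G X N + G X (N + 1) + (G Z N + G Z (N + 1))) := ⟨_, rfl⟩
  have key : ∀ N : ℕ, n₀ ≤ N → ∑ k ∈ tre D N, (X k T - Z k T) ^ 2
      ≤ ε N * Real.exp (5 * D * K * T) := by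
    intro N hN
    have hyc : ContinuousOn (fun t => ∑ k ∈ tre D N, (X k t - Z k t) ^ 2) (Icc 0 T) :=
      continuousOn_finsetSum _ fun k _ => ((hcX k).sub (hcZ k)).pow 2
    refine gron hyc (by positivity) (fun t ht => ?_) T hTT'
    have hsub : Icc 0 t ⊆ Icc 0 T := Icc_subset_Icc_right ht.2
    have hii : ∀ f : ℝ → ℝ, ContinuousOn f (Icc 0 T) → IntervalIntegrable f volume 0 t :=
      fun f hf => ii_of hf h0T ht
    -- the product
    have hcr : ContinuousOn (fun r => ∑ k ∈ tre D N,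
        (X k r * trhs β ν (fun j => Z j r) k + Z k r * trhs β ν (fun j => X j r) k)) (Icc 0 T) :=
      continuousOn_finsetSum _ fun k _ =>
        ((hcX k).mul (trhs_cont hcZ k)).add ((hcZ k).mul (trhs_cont hcX k))
    have hJ : ∫ r in (0 : ℝ)..t, ∑ k ∈ tre D N,
        (X k r * trhs β ν (fun j => Z j r) k + Z k r * trhs β ν (fun j => X j r) k)
        = ∑ k ∈ tre D N, X k t * Z k t - ∑ k ∈ tre D N, x k ^ 2 := by
      have h0 : ∑ k ∈ tre D N, x k ^ 2 = ∑ k ∈ tre D N, X k 0 * Z k 0 :=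
        Finset.sum_congr rfl fun k _ => by rw [hX.init, hZ.init, pow_two]
      rw [h0]
      refine intervalIntegral.integral_eq_sub_of_hasDerivAt_of_le ht.1
        (f := fun r => ∑ k ∈ tre D N, X k r * Z k r) ?_ ?_ (hii _ hcr)
      · exact continuousOn_finsetSum _ fun k _ => ((hcX k).mono hsub).mul ((hcZ k).mono hsub)
      · intro r hr
        have h1 : HasDerivAt (fun r => ∑ k ∈ tre D N, X k r * Z k r)
            (∑ k ∈ tre D N, ((trhs β ν (fun j => X j r) k + 0) * Z k r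
              + X k r * (trhs β ν (fun j => Z j r) k + 0))) r :=
          HasDerivAt.fun_sum fun k _ => (hX.at k hr.1).fun_mul (hZ.at k hr.1)
        refine h1.congr_deriv ?_
        exact Finset.sum_congr rfl fun k _ => by ring
    -- the pointwise bound
    have hpt : ∀ r ∈ Icc 0 t, -2 * ∑ k ∈ tre D N,
        (X k r * trhs β ν (fun j => Z j r) k + Z k r * trhs β ν (fun j => X j r) k)
        ≤ 2 * ν * ∑ j ∈ tre D N, 4 ^ j.length * X j r ^ 2
          + 2 * ν * ∑ j ∈ tre D N, 4 ^ j.length * Z j r ^ 2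
          + 5 * D * K * ∑ k ∈ tre D N, (X k r - Z k r) ^ 2
          + 16 * w * D * ((∑ j ∈ lev D N, 4 ^ j.length * X j r ^ 2
            + ∑ j ∈ lev D (N + 1), 4 ^ j.length * X j r ^ 2)
          + (∑ j ∈ lev D N, 4 ^ j.length * Z j r ^ 2
            + ∑ j ∈ lev D (N + 1), 4 ^ j.length * Z j r ^ 2)) := by
      intro r hr
      have hr0 : r ∈ Icc 0 T₀ := ⟨hr.1, hr.2.trans (ht.2.trans hTT.2)⟩
      refine cross_crit (y := fun j => X j r) (z := fun j => Z j r) hD hν hK0 hB (hB3 N) hw0.le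
        (fun j => hKn j r hr0) (fun j i => hKn1 j i r hr0) (fun j hj => ?_) fun j hj i => ?_
      · have h3 := htail j (by omega) r hr0
        rw [hj] at h3
        rw [le_div_iff₀ (by positivity), mul_comm]
        exact h3
      · have hl : (i :: j).length = N + 1 := by rw [List.length_cons, hj]
        have h3 := htail (i :: j) (by omega) r hr0
        rw [hl] at h3
        rw [le_div_iff₀ (by positivity), mul_comm]
        have h4 : (2 : ℝ) ^ N * |X (i :: j) r| ≤ 2 ^ (N + 1) * |X (i :: j) r| :=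
          mul_le_mul_of_nonneg_right (pow_le_pow_right₀ one_le_two (Nat.le_succ N)) (abs_nonneg _)
        linarith
    -- the integral
    have hI : ∀ (Y : Nd D → ℝ → ℝ), (∀ k, ContinuousOn (Y k) (Icc 0 T)) → ∀ M : ℕ,
        IntervalIntegrable (fun r => ∑ n ∈ tre D M, (4 : ℝ) ^ n.length * Y n r ^ 2) volume 0 t :=
      fun Y hY M => hii _ (sum4_cont hY M)
    have hL : ∀ (Y : Nd D → ℝ → ℝ), (∀ k, ContinuousOn (Y k) (Icc 0 T)) → ∀ M : ℕ,
        IntervalIntegrable (fun r => ∑ n ∈ lev D M, (4 : ℝ) ^ n.length * Y n r ^ 2) volume 0 t :=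
      fun Y hY M => hii _ (lev4_cont hY M)
    have h1 : -2 * ∫ r in (0 : ℝ)..t, ∑ k ∈ tre D N,
        (X k r * trhs β ν (fun j => Z j r) k + Z k r * trhs β ν (fun j => X j r) k)
        ≤ 2 * ν * (∫ r in (0 : ℝ)..t, ∑ j ∈ tre D N, 4 ^ j.length * X j r ^ 2)
          + 2 * ν * (∫ r in (0 : ℝ)..t, ∑ j ∈ tre D N, 4 ^ j.length * Z j r ^ 2)
          + 5 * D * K * (∫ r in (0 : ℝ)..t, ∑ k ∈ tre D N, (X k r - Z k r) ^ 2)
          + 16 * w * D * (((∫ r in (0 : ℝ)..t, ∑ j ∈ lev D N, 4 ^ j.length * X j r ^ 2)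
            + ∫ r in (0 : ℝ)..t, ∑ j ∈ lev D (N + 1), 4 ^ j.length * X j r ^ 2)
            + ((∫ r in (0 : ℝ)..t, ∑ j ∈ lev D N, 4 ^ j.length * Z j r ^ 2)
            + ∫ r in (0 : ℝ)..t, ∑ j ∈ lev D (N + 1), 4 ^ j.length * Z j r ^ 2)) := by
      have hK4 := ((hL X hcX N).add (hL X hcX (N + 1))).add ((hL Z hcZ N).add (hL Z hcZ (N + 1)))
      rw [← intervalIntegral.integral_add (hL X hcX N) (hL X hcX (N + 1)),
        ← intervalIntegral.integral_add (hL Z hcZ N) (hL Z hcZ (N + 1)),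
        ← intervalIntegral.integral_add ((hL X hcX N).add (hL X hcX (N + 1)))
          ((hL Z hcZ N).add (hL Z hcZ (N + 1))),
        ← intervalIntegral.integral_const_mul, ← intervalIntegral.integral_const_mul,
        ← intervalIntegral.integral_const_mul, ← intervalIntegral.integral_const_mul,
        ← intervalIntegral.integral_const_mul,
        ← intervalIntegral.integral_add ((hI X hcX _).const_mul _) ((hI Z hcZ _).const_mul _),
        ← intervalIntegral.integral_add (((hI X hcX _).const_mul _).add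
          ((hI Z hcZ _).const_mul _)) ((hii _ hyc).const_mul _),
        ← intervalIntegral.integral_add ((((hI X hcX _).const_mul _).add
          ((hI Z hcZ _).const_mul _)).add ((hii _ hyc).const_mul _))
          (hK4.const_mul _)]
      refine intervalIntegral.integral_mono_on ht.1 ((hii _ hcr).const_mul _)
        (((((hI X hcX _).const_mul _).add
          ((hI Z hcZ _).const_mul _)).add ((hii _ hyc).const_mul _)).add
          (hK4.const_mul _)) hpt
    have hmono : ∀ Y : Nd D → ℝ → ℝ, (∀ k, ContinuousOn (Y k) (Icc 0 T)) → ∀ M : ℕ,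
        ∫ r in (0 : ℝ)..t, ∑ j ∈ lev D M, (4 : ℝ) ^ j.length * Y j r ^ 2 ≤ G Y M := by
      intro Y hY M
      rw [hG]
      simp only
      exact intervalIntegral.integral_mono_interval le_rfl ht.1 ht.2
        (Eventually.of_forall fun r => Finset.sum_nonneg fun _ _ => by positivity)
        (ii_of (lev4_cont hY M) h0T hTT')
    have h5 : 16 * w * D * (((∫ r in (0 : ℝ)..t, ∑ j ∈ lev D N, 4 ^ j.length * X j r ^ 2)
            + ∫ r in (0 : ℝ)..t, ∑ j ∈ lev D (N + 1), 4 ^ j.length * X j r ^ 2)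
            + ((∫ r in (0 : ℝ)..t, ∑ j ∈ lev D N, 4 ^ j.length * Z j r ^ 2)
            + ∫ r in (0 : ℝ)..t, ∑ j ∈ lev D (N + 1), 4 ^ j.length * Z j r ^ 2))
        ≤ 16 * w * D * (G X N + G X (N + 1) + (G Z N + G Z (N + 1))) := by
      apply mul_le_mul_of_nonneg_left _ (by positivity)
      linarith [hmono X hcX N, hmono X hcX (N + 1), hmono Z hcZ N, hmono Z hcZ (N + 1)]
    have h6 := hXen t ht.1 N
    have h7 := hZen t ht.1 N
    have h8 : ∑ k ∈ tre D N, (X k t - Z k t) ^ 2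
        = ∑ k ∈ tre D N, X k t ^ 2 + ∑ k ∈ tre D N, Z k t ^ 2
          - 2 * ∑ k ∈ tre D N, X k t * Z k t := by
      rw [Finset.mul_sum, ← Finset.sum_add_distrib, ← Finset.sum_sub_distrib]
      exact Finset.sum_congr rfl fun k _ => by ring
    rw [h8, hε]
    simp only
    rw [hJ] at h1
    linarith
  -- the limit
  have hlim : Tendsto (fun N : ℕ => ε N * Real.exp (5 * D * K * T)) atTop (𝓝 0) := by
    have h1 : Tendsto (fun N : ℕ => E - ∑ n ∈ tre D N, x n ^ 2) atTop (𝓝 (E - E)) := by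
      have h2 := sum_tre_tendsto hsum
      rw [← hE] at h2
      exact h2.const_sub E
    have hDX : Tendsto (G X) atTop (𝓝 0) := by
      rw [hG]
      exact diss_tend hν hX hXe hT
    have hDZ : Tendsto (G Z) atTop (𝓝 0) := by
      rw [hG]
      exact diss_tend hν hZ hZe hT
    have hDX1 := hDX.comp (tendsto_add_atTop_nat 1)
    have hDZ1 := hDZ.comp (tendsto_add_atTop_nat 1)
    have h4 := ((h1.const_mul 2).add (((hDX.add hDX1).add (hDZ.add hDZ1)).const_mul
      (16 * w * D))).mul_const (Real.exp (5 * D * K * T))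
    have e0 : (2 * (E - E) + 16 * w * D * (0 + 0 + (0 + 0))) * Real.exp (5 * D * K * T) = 0 := by
      ring
    rw [e0] at h4
    rw [hε]
    exact h4
  have h1 : (X n T - Z n T) ^ 2 ≤ 0 := by
    refine ge_of_tendsto hlim ?_
    filter_upwards [eventually_ge_atTop n.length, eventually_ge_atTop n₀] with N hN hN0
    refine le_trans ?_ (key N hN0)
    exact Finset.single_le_sum (f := fun k => (X k T - Z k T) ^ 2) (fun k _ => sq_nonneg _)
      (mem_tre.2 hN)
  have h2 : X n T - Z n T = 0 := by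
    have := le_antisymm h1 (sq_nonneg _)
    exact pow_eq_zero_iff two_ne_zero |>.1 this
  linarith

end Pool.Agent.Run7.h32.Tu
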